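import Pool.Agent.NH61.FS.Def

/-! # Project FS: the angular variable -/

set_option autoImplicit false

open MeasureTheory Set Filter Topology
open scoped SchwartzMap ENNReal

namespace Pool.NH61.FS.Ang

/-- Bernoulli -/
theorem rpow_sub_le {s a b M : ℝ} (hs : 1 ≤ s) (ha : 0 ≤ a) (hab : a ≤ b) (hbM : b ≤ M) :
    b ^ s - a ^ s ≤ s * M ^ (s - 1) * (b - a) := by
  rcases eq_or_lt_of_le (ha.trans hab) with hb | hb
  · have : a = b := le_antisymm hab (by rw [← hb]; exact ha)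
    rw [this]; simp
  · have h1 : 1 + s * (a / b - 1) ≤ (1 + (a / b - 1)) ^ s :=
      one_add_mul_self_le_rpow_one_add (by have : 0 ≤ a / b := by positivity
                                           linarith) hs
    have h2 : (1 + (a / b - 1)) ^ s = a ^ s / b ^ s := by
      rw [add_sub_cancel, Real.div_rpow ha hb.le]
    rw [h2, le_div_iff₀ (by positivity)] at h1
    have h3 : b ^ s = b ^ (s - 1) * b := by
      rw [← Real.rpow_add_one hb.ne', sub_add_cancel]
    have h4 : s * (a / b - 1) * b ^ s = -(s * b ^ (s - 1) * (b - a)) := by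
      rw [h3]; field_simp; ring
    have h5 : b ^ (s - 1) ≤ M ^ (s - 1) := Real.rpow_le_rpow hb.le hbM (by linarith)
    have h6 : s * b ^ (s - 1) * (b - a) ≤ s * M ^ (s - 1) * (b - a) := by
      apply mul_le_mul_of_nonneg_right _ (by linarith)
      apply mul_le_mul_of_nonneg_left h5 (by linarith)
    nlinarith

/-- Taylor's inequality -/
theorem taylor2 {r X Y M : ℝ} (hr : 2 ≤ r) (hX : 0 ≤ X) (hY : 0 ≤ Y) (hXM : X ≤ M)
    (hYM : Y ≤ M) :
    X ^ r ≤ Y ^ r + r * Y ^ (r - 1) * (X - Y) +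
      r * (r - 1) / 2 * M ^ (r - 2) * (X - Y) ^ 2 := by
  set h : ℝ → ℝ := fun t => Y ^ r + r * Y ^ (r - 1) * (t - Y) +
      r * (r - 1) / 2 * M ^ (r - 2) * (t - Y) ^ 2 - t ^ r with hh
  have hd : ∀ t : ℝ, HasDerivAt h (r * Y ^ (r - 1) + r * (r - 1) * M ^ (r - 2) * (t - Y) -
      r * t ^ (r - 1)) t := by
    intro t
    have h1 : HasDerivAt (fun t : ℝ => t - Y) 1 t := (hasDerivAt_id t).sub_const Y
    have h2 := h1.const_mul (r * Y ^ (r - 1))
    have h3 := (h1.pow 2).const_mul (r * (r - 1) / 2 * M ^ (r - 2))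
    have h4 := Real.hasDerivAt_rpow_const (x := t) (p := r) (Or.inr (by linarith))
    have h5 := ((h2.const_add (Y ^ r)).add h3).sub h4
    refine h5.congr_deriv ?_
    norm_num
    ring
  have hY0 : h Y = 0 := by simp [hh]
  have hcont : Continuous h := continuous_iff_continuousAt.2 fun t => (hd t).continuousAt
  have hK : r * (r - 1) * M ^ (r - 2) = r * ((r - 1) * M ^ (r - 1 - 1)) := by
    rw [mul_assoc]; congr 3; ring
  suffices hs : 0 ≤ h X by
    simp only [hh] at hs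
    linarith
  rw [← hY0]
  rcases le_total Y X with hYX | hXY
  · have hm : MonotoneOn h (Icc Y X) := by
      refine monotoneOn_of_deriv_nonneg (convex_Icc Y X) hcont.continuousOn
        (fun t _ => (hd t).differentiableAt.differentiableWithinAt) fun t ht => ?_
      rw [interior_Icc] at ht
      rw [(hd t).deriv, hK]
      have h1 := rpow_sub_le (s := r - 1) (by linarith) hY ht.1.le (ht.2.le.trans hXM)
      have h2 := mul_le_mul_of_nonneg_left h1 (by linarith : 0 ≤ r)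
      nlinarith
    exact hm ⟨le_rfl, hYX⟩ ⟨hYX, le_rfl⟩ hYX
  · have hm : AntitoneOn h (Icc X Y) := by
      refine antitoneOn_of_deriv_nonpos (convex_Icc X Y) hcont.continuousOn
        (fun t _ => (hd t).differentiableAt.differentiableWithinAt) fun t ht => ?_
      rw [interior_Icc] at ht
      rw [(hd t).deriv, hK]
      have h1 := rpow_sub_le (s := r - 1) (by linarith) (hX.trans ht.1.le) ht.2.le hYM
      have h2 := mul_le_mul_of_nonneg_left h1 (by linarith : 0 ≤ r)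
      nlinarith
    exact hm ⟨le_rfl, hXY⟩ ⟨hXY, le_rfl⟩ hXY

/-- the pointwise inequality -/
theorem pointwise {p : ℝ} (hp : 4 ≤ p) (u v : ℂ) (V : ℝ) (hV : ‖v‖ ≤ V) :
    ‖u + v‖ ^ p ≤ ‖u‖ ^ p + p * (‖u‖ ^ (p - 2) * (starRingEnd ℂ u * v).re) +
      p ^ 2 / 2 * (V ^ (2 : ℝ) * (‖u‖ + V) ^ (p - 2)) := by
  have hV0 : 0 ≤ V := (norm_nonneg v).trans hV
  have hu0 := norm_nonneg u
  have hv0 := norm_nonneg v
  set W := ‖u‖ + V with hW
  have hW0 : 0 ≤ W := by positivity
  have hX : ‖u + v‖ ^ 2 ≤ W ^ 2 :=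
    pow_le_pow_left₀ (norm_nonneg _) ((norm_add_le u v).trans (by linarith)) 2
  have hY : ‖u‖ ^ 2 ≤ W ^ 2 := pow_le_pow_left₀ hu0 (by linarith) 2
  have h1 := taylor2 (r := p / 2) (X := ‖u + v‖ ^ 2) (Y := ‖u‖ ^ 2) (M := W ^ 2) (by linarith)
    (by positivity) (by positivity) hX hY
  have hpow : ∀ (x q : ℝ), 0 ≤ x → (x ^ 2) ^ q = x ^ (2 * q) := by
    intro x q hx
    rw [← Real.rpow_natCast, ← Real.rpow_mul hx]
    norm_num
  rw [hpow _ _ (norm_nonneg _), hpow _ _ hu0, hpow _ _ hu0, hpow _ _ hW0] at h1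
  have e1 : 2 * (p / 2) = p := by ring
  have e2 : 2 * (p / 2 - 1) = p - 2 := by ring
  have e3 : 2 * (p / 2 - 2) = p - 4 := by ring
  rw [e1, e2, e3] at h1
  have hre : (starRingEnd ℂ u * v).re = u.re * v.re + u.im * v.im := by
    simp
  have hXY : ‖u + v‖ ^ 2 - ‖u‖ ^ 2 = 2 * (starRingEnd ℂ u * v).re + ‖v‖ ^ 2 := by
    rw [hre, ← Complex.normSq_eq_norm_sq, ← Complex.normSq_eq_norm_sq,
      ← Complex.normSq_eq_norm_sq, Complex.normSq_apply, Complex.normSq_apply,
      Complex.normSq_apply, Complex.add_re, Complex.add_im]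
    ring
  have hreb : |(starRingEnd ℂ u * v).re| ≤ ‖u‖ * ‖v‖ := by
    refine (Complex.abs_re_le_norm _).trans (le_of_eq ?_)
    rw [norm_mul, RCLike.norm_conj]
  have hD : |‖u + v‖ ^ 2 - ‖u‖ ^ 2| ≤ 2 * V * W := by
    rw [hXY]
    have h2 := abs_le.1 hreb
    have h3 : ‖u‖ * ‖v‖ ≤ ‖u‖ * V := by gcongr
    have h4 : ‖v‖ ^ 2 ≤ V ^ 2 := by gcongr
    rw [abs_le, hW]
    constructor
    · nlinarith [sq_nonneg ‖v‖, h2.1, mul_nonneg hV0 hu0, sq_nonneg V]
    · nlinarith [h2.2]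
  have hD2 : (‖u + v‖ ^ 2 - ‖u‖ ^ 2) ^ 2 ≤ (2 * V * W) ^ 2 := by
    rw [← sq_abs]
    exact pow_le_pow_left₀ (abs_nonneg _) hD 2
  have hW4 : W ^ (p - 4) * W ^ 2 = W ^ (p - 2) := by
    rw [← Real.rpow_natCast, ← Real.rpow_add_of_nonneg hW0 (by linarith) (by norm_num)]
    congr 1
    push_cast
    ring
  have hA : 0 ≤ W ^ (p - 4) := by positivity
  have hB : 0 ≤ W ^ (p - 2) := by positivity
  have hu2 : ‖u‖ ^ (p - 2) ≤ W ^ (p - 2) := Real.rpow_le_rpow hu0 (by linarith) (by linarith)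
  have h5 : p / 2 * (p / 2 - 1) / 2 * W ^ (p - 4) * (‖u + v‖ ^ 2 - ‖u‖ ^ 2) ^ 2 ≤
      p * (p - 2) / 2 * (V ^ 2 * W ^ (p - 2)) := by
    calc p / 2 * (p / 2 - 1) / 2 * W ^ (p - 4) * (‖u + v‖ ^ 2 - ‖u‖ ^ 2) ^ 2
        ≤ p / 2 * (p / 2 - 1) / 2 * W ^ (p - 4) * (2 * V * W) ^ 2 := by
          apply mul_le_mul_of_nonneg_left hD2
          apply mul_nonneg _ hA
          nlinarith
      _ = p * (p - 2) / 2 * (V ^ 2 * (W ^ (p - 4) * W ^ 2)) := by ring
      _ = _ := by rw [hW4]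
  have h6 : ‖u‖ ^ (p - 2) * ‖v‖ ^ 2 ≤ V ^ 2 * W ^ (p - 2) := by
    calc ‖u‖ ^ (p - 2) * ‖v‖ ^ 2 ≤ W ^ (p - 2) * V ^ 2 := by gcongr
      _ = _ := by ring
  have hV2 : V ^ (2 : ℝ) = V ^ 2 := by norm_cast
  rw [hV2]
  have hC : 0 ≤ V ^ 2 * W ^ (p - 2) := by positivity
  have h7 : p / 2 * ‖u‖ ^ (p - 2) * (‖u + v‖ ^ 2 - ‖u‖ ^ 2) =
      p * (‖u‖ ^ (p - 2) * (starRingEnd ℂ u * v).re) + p / 2 * (‖u‖ ^ (p - 2) * ‖v‖ ^ 2) := by
    rw [hXY]; ring
  rw [h7] at h1
  have h8 : p / 2 * (‖u‖ ^ (p - 2) * ‖v‖ ^ 2) ≤ p / 2 * (V ^ 2 * W ^ (p - 2)) :=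
    mul_le_mul_of_nonneg_left h6 (by linarith)
  nlinarith

/-- a root of minus one -/
theorem exists_root (m : ℤ) (hm : m ≠ 0) : ∃ a : Circle, (a : ℂ) ^ m = -1 := by
  refine ⟨Circle.exp (Real.pi / m), ?_⟩
  rw [Circle.coe_exp, ← Complex.exp_int_mul]
  have hm' : (m : ℂ) ≠ 0 := by exact_mod_cast hm
  have : (m : ℂ) * (((Real.pi / m : ℝ) : ℂ) * Complex.I) = Real.pi * Complex.I := by
    push_cast
    field_simp
  rw [this, Complex.exp_pi_mul_I]

/-- the integral of a function of a nonzero angular type vanishes -/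
theorem int_zero (g : ℂ → ℂ) (m : ℤ) (hm : m ≠ 0)
    (hg : ∀ a z : ℂ, ‖a‖ = 1 → g (a * z) = a ^ m * g z) : ∫ z, g z = 0 := by
  obtain ⟨a, ha⟩ := exists_root m hm
  have h1 : ∫ z, g (rotation a z) = ∫ z, g z :=
    (rotation a).measurePreserving.integral_comp (rotation a).toHomeomorph.measurableEmbedding g
  have h2 : ∀ z, g (rotation a z) = -g z := by
    intro z
    rw [rotation_apply, hg _ _ (Circle.norm_coe a), ha]
    ring
  simp only [h2] at h1
  rw [integral_neg] at h1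
  have h3 : (2 : ℂ) * ∫ z, g z = 0 := by
    linear_combination (-1 : ℂ) * h1
  exact (mul_eq_zero.1 h3).resolve_left two_ne_zero

/-- the intended statement -/
theorem main2 (ι : Type) [Fintype ι] (p : ℝ) (m : ι → ℤ) (u : ℂ → ℂ) (v : ι → ℂ → ℂ)
    (hp : 4 ≤ p) (hm : ∀ i, m i ≠ 0) (hu : Continuous u) (hv : ∀ i, Continuous (v i))
    (hur : ∀ a z : ℂ, ‖a‖ = 1 → u (a * z) = u z)
    (hvr : ∀ i, ∀ a z : ℂ, ‖a‖ = 1 → v i (a * z) = a ^ (m i) * v i z)
    (hup : MemLp u (ENNReal.ofReal p) (volume : Measure ℂ))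
    (hvp : ∀ i, MemLp (v i) (ENNReal.ofReal p) (volume : Measure ℂ)) :
    ∫⁻ z : ℂ, ‖u z + ∑ i, v i z‖ₑ ^ p ≤ (∫⁻ z : ℂ, ‖u z‖ₑ ^ p) +
      ENNReal.ofReal (p ^ 2 / 2) * ∫⁻ z : ℂ, (∑ i, ‖v i z‖ₑ) ^ (2 : ℝ) *
        (‖u z‖ₑ + ∑ i, ‖v i z‖ₑ) ^ (p - 2) := by
  have hp0 : 0 < p := by linarith
  set U : ℂ → ℝ := fun z => ‖u z‖ with hU
  set V : ℂ → ℝ := fun z => ∑ i, ‖v i z‖ with hV
  have hUc : Continuous U := hu.norm
  have hVc : Continuous V := continuous_finsetSum _ fun i _ => (hv i).norm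
  have hU0 : ∀ z, 0 ≤ U z := fun z => norm_nonneg _
  have hV0 : ∀ z, 0 ≤ V z := fun z => Finset.sum_nonneg fun i _ => norm_nonneg _
  have hVL : MemLp V (ENNReal.ofReal p) volume :=
    memLp_finsetSum _ fun i _ => (hvp i).norm
  have hWL : MemLp (fun z => U z + V z) (ENNReal.ofReal p) volume := hup.norm.add hVL
  have hW : Integrable (fun z => (U z + V z) ^ p) volume := by
    have h1 := hWL.integrable_norm_rpow (by simpa using hp0) ENNReal.ofReal_ne_top
    rw [ENNReal.toReal_ofReal hp0.le] at h1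
    refine h1.congr (ae_of_all _ fun z => ?_)
    simp only
    rw [Real.norm_of_nonneg (add_nonneg (hU0 z) (hV0 z))]
  have hvV : ∀ z, ‖∑ i, v i z‖ ≤ V z := fun z => norm_sum_le _ _
  -- integrability by comparison
  have hcmp : ∀ f : ℂ → ℝ, Continuous f → (∀ z, |f z| ≤ (U z + V z) ^ p) →
      Integrable f volume := by
    intro f hf hb
    refine hW.mono' hf.aestronglyMeasurable (ae_of_all _ fun z => ?_)
    rw [Real.norm_eq_abs]
    exact hb z
  have hcmpC : ∀ f : ℂ → ℂ, Continuous f → (∀ z, ‖f z‖ ≤ (U z + V z) ^ p) →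
      Integrable f volume := by
    intro f hf hb
    exact hW.mono' hf.aestronglyMeasurable (ae_of_all _ hb)
  -- the linear term
  set g : ι → ℂ → ℂ := fun i z => ((U z ^ (p - 2) : ℝ) : ℂ) * (starRingEnd ℂ (u z) * v i z) with hg
  have hUp : Continuous fun z => U z ^ (p - 2) := hUc.rpow_const fun z => Or.inr (by linarith)
  have hgc : ∀ i, Continuous (g i) := by
    intro i
    exact (Complex.continuous_ofReal.comp hUp).mul ((Complex.continuous_conj.comp hu).mul (hv i))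
  have hgb : ∀ i z, ‖g i z‖ ≤ (U z + V z) ^ p := by
    intro i z
    have h1 : ‖v i z‖ ≤ V z :=
      Finset.single_le_sum (f := fun i => ‖v i z‖) (fun j _ => norm_nonneg _) (Finset.mem_univ i)
    have hW0 : 0 ≤ U z + V z := add_nonneg (hU0 z) (hV0 z)
    simp only [hg]
    rw [norm_mul, norm_mul, RCLike.norm_conj, Complex.norm_real,
      Real.norm_of_nonneg (Real.rpow_nonneg (hU0 z) _)]
    calc U z ^ (p - 2) * (‖u z‖ * ‖v i z‖) ≤
          (U z + V z) ^ (p - 2) * ((U z + V z) * (U z + V z)) := by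
          apply mul_le_mul _ _ (by positivity) (by positivity)
          · exact Real.rpow_le_rpow (hU0 z) (by linarith [hV0 z]) (by linarith)
          · apply mul_le_mul _ _ (norm_nonneg _) hW0
            · change U z ≤ _; linarith [hV0 z]
            · linarith [hU0 z]
      _ = (U z + V z) ^ p := by
          rw [← sq, ← Real.rpow_natCast (U z + V z) 2,
            ← Real.rpow_add_of_nonneg hW0 (by linarith) (by norm_num)]
          congr 1
          push_cast
          ring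
  have hgi : ∀ i, Integrable (g i) volume := fun i => hcmpC _ (hgc i) (hgb i)
  have hg0 : ∀ i, ∫ z, g i z = 0 := by
    intro i
    refine int_zero (g i) (m i) (hm i) fun a z ha => ?_
    simp only [hg, hU]
    rw [hur a z ha, hvr i a z ha]
    ring
  set L : ℂ → ℝ := fun z => U z ^ (p - 2) * (starRingEnd ℂ (u z) * ∑ i, v i z).re with hL
  have hLg : ∀ z, L z = ∑ i, (g i z).re := by
    intro z
    simp only [hL, hg]
    rw [Finset.mul_sum, Complex.re_sum, Finset.mul_sum]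
    exact Finset.sum_congr rfl fun i _ => (Complex.re_ofReal_mul _ _).symm
  have hLi : Integrable L volume := by
    have h1 : L = fun z => ∑ i, (g i z).re := funext hLg
    rw [h1]
    exact integrable_finsetSum _ fun i _ => (hgi i).re
  have hL0 : ∫ z, L z = 0 := by
    simp only [hLg]
    have hre : ∀ i, Integrable (fun z => (g i z).re) volume := fun i => (hgi i).re
    rw [integral_finsetSum _ fun i _ => hre i]
    refine Finset.sum_eq_zero fun i _ => ?_
    have h1 := integral_re (hgi i)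
    have h2 : ∫ z, (g i z).re = (∫ z, g i z).re := h1
    rw [h2, hg0 i, Complex.zero_re]
  -- the other terms
  have hFc : Continuous fun z => ‖u z + ∑ i, v i z‖ ^ p :=
    (hu.add (continuous_finsetSum _ fun i _ => hv i)).norm.rpow_const fun z => Or.inr hp0.le
  have hFi : Integrable (fun z => ‖u z + ∑ i, v i z‖ ^ p) volume := by
    refine hcmp _ hFc fun z => ?_
    rw [abs_of_nonneg (by positivity)]
    exact Real.rpow_le_rpow (norm_nonneg _)
      ((norm_add_le _ _).trans (by simpa [hU] using hvV z)) hp0.le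
  have hUi : Integrable (fun z => U z ^ p) volume := by
    refine hcmp _ (hUc.rpow_const fun z => Or.inr hp0.le) fun z => ?_
    rw [abs_of_nonneg (Real.rpow_nonneg (hU0 z) _)]
    exact Real.rpow_le_rpow (hU0 z) (by linarith [hV0 z]) hp0.le
  have hGn : ∀ z, 0 ≤ V z ^ (2 : ℝ) * (U z + V z) ^ (p - 2) := fun z =>
    mul_nonneg (Real.rpow_nonneg (hV0 z) _) (Real.rpow_nonneg (add_nonneg (hU0 z) (hV0 z)) _)
  have hGi : Integrable (fun z => V z ^ (2 : ℝ) * (U z + V z) ^ (p - 2)) volume := by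
    refine hcmp _ ((hVc.rpow_const fun z => Or.inr (by norm_num)).mul
      ((hUc.add hVc).rpow_const fun z => Or.inr (by linarith))) fun z => ?_
    have hW0 : 0 ≤ U z + V z := add_nonneg (hU0 z) (hV0 z)
    rw [abs_of_nonneg (hGn z)]
    calc V z ^ (2 : ℝ) * (U z + V z) ^ (p - 2) ≤
          (U z + V z) ^ (2 : ℝ) * (U z + V z) ^ (p - 2) := by
          apply mul_le_mul_of_nonneg_right _ (Real.rpow_nonneg hW0 _)
          exact Real.rpow_le_rpow (hV0 z) (by linarith [hU0 z]) (by norm_num)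
      _ = (U z + V z) ^ p := by
          rw [← Real.rpow_add_of_nonneg hW0 (by norm_num) (by linarith)]
          congr 1
          ring
  -- the real inequality
  have hmain : ∫ z, ‖u z + ∑ i, v i z‖ ^ p ≤ (∫ z, U z ^ p) +
      p ^ 2 / 2 * ∫ z, V z ^ (2 : ℝ) * (U z + V z) ^ (p - 2) := by
    calc ∫ z, ‖u z + ∑ i, v i z‖ ^ p ≤ ∫ z, ((U z ^ p + p * L z) +
          p ^ 2 / 2 * (V z ^ (2 : ℝ) * (U z + V z) ^ (p - 2))) := by
          refine integral_mono hFi ((hUi.add (hLi.const_mul p)).add (hGi.const_mul _)) fun z => ?_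
          exact pointwise hp (u z) (∑ i, v i z) (V z) (hvV z)
      _ = _ := by
          have hUL : Integrable (fun z => U z ^ p + p * L z) volume :=
            hUi.add (hLi.const_mul p)
          rw [integral_add hUL (hGi.const_mul _),
            integral_add hUi (hLi.const_mul p), integral_const_mul, integral_const_mul, hL0]
          ring
  -- conversion
  have hE1 : ∫⁻ z : ℂ, ‖u z + ∑ i, v i z‖ₑ ^ p =
      ENNReal.ofReal (∫ z, ‖u z + ∑ i, v i z‖ ^ p) := by
    rw [ofReal_integral_eq_lintegral_ofReal hFi (ae_of_all _ fun z => by positivity)]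
    refine lintegral_congr fun z => ?_
    rw [← ofReal_norm, ENNReal.ofReal_rpow_of_nonneg (norm_nonneg _) hp0.le]
  have hE2 : ∫⁻ z : ℂ, ‖u z‖ₑ ^ p = ENNReal.ofReal (∫ z, U z ^ p) := by
    rw [ofReal_integral_eq_lintegral_ofReal hUi
      (ae_of_all _ fun z => Real.rpow_nonneg (hU0 z) _)]
    refine lintegral_congr fun z => ?_
    rw [← ofReal_norm, ENNReal.ofReal_rpow_of_nonneg (norm_nonneg _) hp0.le]
  have hE3 : ∫⁻ z : ℂ, (∑ i, ‖v i z‖ₑ) ^ (2 : ℝ) * (‖u z‖ₑ + ∑ i, ‖v i z‖ₑ) ^ (p - 2) =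
      ENNReal.ofReal (∫ z, V z ^ (2 : ℝ) * (U z + V z) ^ (p - 2)) := by
    rw [ofReal_integral_eq_lintegral_ofReal hGi (ae_of_all _ hGn)]
    refine lintegral_congr fun z => ?_
    have h1 : ∑ i, ‖v i z‖ₑ = ENNReal.ofReal (V z) := by
      simp only [hV]
      rw [ENNReal.ofReal_sum_of_nonneg fun i _ => norm_nonneg _]
      exact Finset.sum_congr rfl fun i _ => (ofReal_norm _).symm
    rw [h1, ← ofReal_norm, ← ENNReal.ofReal_add (norm_nonneg _) (hV0 z),
      ENNReal.ofReal_rpow_of_nonneg (hV0 z) (by norm_num),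
      ENNReal.ofReal_rpow_of_nonneg (add_nonneg (norm_nonneg _) (hV0 z)) (by linarith),
      ← ENNReal.ofReal_mul (Real.rpow_nonneg (hV0 z) _)]
  rw [hE1, hE2, hE3, ← ENNReal.ofReal_mul (by positivity), ← ENNReal.ofReal_add
    (integral_nonneg fun z => Real.rpow_nonneg (hU0 z) _)
    (mul_nonneg (by positivity) (integral_nonneg hGn))]
  exact ENNReal.ofReal_le_ofReal hmain

/-- FS-ANG -/
theorem main : S_ANG := fun ι _ p m u v hp hm hu hv hur hvr hup hvp =>
  main2 ι p m u v hp hm hu hv hur hvr hup hvp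

end Pool.NH61.FS.Ang
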