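import Pool.Agent.NH61.FS.Def

/-! # Project FS: the cross term -/

set_option autoImplicit false

open MeasureTheory Set Filter Topology
open scoped SchwartzMap ENNReal

namespace Pool.NH61.FS.CC

open Pool.Agent.Y282.RB (Tn Cn kk th KK)

/-- Young's inequality. -/
theorem yg {p : ℝ} (hp : 2 < p) {η : ℝ} (hη : 0 < η) (x z : ℝ≥0∞) :
    x ^ (1 - 2 / p) * z ≤ ENNReal.ofReal η * x +
      ENNReal.ofReal (η ^ (-((p - 2) / 2))) * z ^ (p / 2) := by
  have hp0 : 0 < p := by linarith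
  have hp2 : 0 < p - 2 := by linarith
  have hq0 : 0 ≤ 1 - 2 / p := by
    rw [sub_nonneg, div_le_one hp0]
    exact hp.le
  have hPQ : Real.HolderConjugate (p / (p - 2)) (p / 2) := by
    rw [Real.holderConjugate_iff]
    constructor
    · rw [one_lt_div hp2]
      linarith
    · rw [inv_div, inv_div]
      field_simp
      ring
  have hqP : (1 - 2 / p) * (p / (p - 2)) = 1 := by
    field_simp
  have hqQ : -(1 - 2 / p) * (p / 2) = -((p - 2) / 2) := by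
    field_simp
  have h1 := ENNReal.young_inequality ((ENNReal.ofReal η * x) ^ (1 - 2 / p))
    (ENNReal.ofReal (η ^ (-(1 - 2 / p))) * z) hPQ
  have hP1 : (1 : ℝ≥0∞) ≤ ENNReal.ofReal (p / (p - 2)) := by
    rw [ENNReal.one_le_ofReal, le_div_iff₀ hp2]
    linarith
  have hQ1 : (1 : ℝ≥0∞) ≤ ENNReal.ofReal (p / 2) := by
    rw [ENNReal.one_le_ofReal]
    linarith
  have hdiv : ∀ w c : ℝ≥0∞, 1 ≤ c → w / c ≤ w := by
    intro w c hc
    rw [div_eq_mul_inv]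
    calc w * c⁻¹ ≤ w * 1 := by gcongr; exact ENNReal.inv_le_one.2 hc
      _ = w := mul_one _
  have h2 : (ENNReal.ofReal η * x) ^ (1 - 2 / p) * (ENNReal.ofReal (η ^ (-(1 - 2 / p))) * z) =
      x ^ (1 - 2 / p) * z := by
    rw [ENNReal.mul_rpow_of_nonneg _ _ hq0]
    have h3 : ENNReal.ofReal η ^ (1 - 2 / p) * ENNReal.ofReal (η ^ (-(1 - 2 / p))) = 1 := by
      rw [ENNReal.ofReal_rpow_of_nonneg hη.le hq0, ← ENNReal.ofReal_mul (by positivity),
        ← Real.rpow_add hη, add_neg_cancel, Real.rpow_zero, ENNReal.ofReal_one]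
    calc ENNReal.ofReal η ^ (1 - 2 / p) * x ^ (1 - 2 / p) *
          (ENNReal.ofReal (η ^ (-(1 - 2 / p))) * z)
        = (ENNReal.ofReal η ^ (1 - 2 / p) * ENNReal.ofReal (η ^ (-(1 - 2 / p)))) *
          (x ^ (1 - 2 / p) * z) := by ring
      _ = _ := by rw [h3, one_mul]
  have h3 : ((ENNReal.ofReal η * x) ^ (1 - 2 / p)) ^ (p / (p - 2)) = ENNReal.ofReal η * x := by
    rw [← ENNReal.rpow_mul, hqP, ENNReal.rpow_one]
  have h4 : (ENNReal.ofReal (η ^ (-(1 - 2 / p))) * z) ^ (p / 2) =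
      ENNReal.ofReal (η ^ (-((p - 2) / 2))) * z ^ (p / 2) := by
    rw [ENNReal.mul_rpow_of_nonneg _ _ (by linarith),
      ENNReal.ofReal_rpow_of_nonneg (by positivity) (by linarith), ← Real.rpow_mul hη.le, hqQ]
  rw [h2, h3, h4] at h1
  exact h1.trans (add_le_add (hdiv _ _ hP1) (hdiv _ _ hQ1))

/-- The Cauchy-Schwarz inequality. -/
theorem cs {μ : Measure ℝ} {F G : ℝ → ℝ≥0∞} (hF : Measurable F) (hG : Measurable G) :
    (∫⁻ y, F y * G y ∂μ) ^ 2 ≤ (∫⁻ y, F y ∂μ) * ∫⁻ y, F y * G y ^ 2 ∂μ := by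
  have h1 := ENNReal.lintegral_mul_le_Lp_mul_Lq μ Real.HolderConjugate.two_two
    (f := fun y => F y ^ (1 / 2 : ℝ)) (g := fun y => F y ^ (1 / 2 : ℝ) * G y)
    (hF.pow_const _).aemeasurable ((hF.pow_const _).mul hG).aemeasurable
  have h2 : ∀ x : ℝ≥0∞, x ^ (1 / 2 : ℝ) * x ^ (1 / 2 : ℝ) = x := by
    intro x
    rw [← ENNReal.rpow_add_of_nonneg _ _ (by norm_num) (by norm_num)]
    norm_num
  have h3 : ∀ x : ℝ≥0∞, (x ^ (1 / 2 : ℝ)) ^ (2 : ℝ) = x := by
    intro x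
    rw [← ENNReal.rpow_mul]
    norm_num
  have e1 : ∫⁻ y, ((fun y => F y ^ (1 / 2 : ℝ)) * fun y => F y ^ (1 / 2 : ℝ) * G y) y ∂μ =
      ∫⁻ y, F y * G y ∂μ := by
    refine lintegral_congr fun y => ?_
    change F y ^ (1 / 2 : ℝ) * (F y ^ (1 / 2 : ℝ) * G y) = F y * G y
    rw [← mul_assoc, h2]
  have e2 : ∫⁻ y, (fun y => F y ^ (1 / 2 : ℝ)) y ^ (2 : ℝ) ∂μ = ∫⁻ y, F y ∂μ :=
    lintegral_congr fun y => h3 _
  have e3 : ∫⁻ y, (fun y => F y ^ (1 / 2 : ℝ) * G y) y ^ (2 : ℝ) ∂μ =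
      ∫⁻ y, F y * G y ^ 2 ∂μ := by
    refine lintegral_congr fun y => ?_
    change (F y ^ (1 / 2 : ℝ) * G y) ^ (2 : ℝ) = F y * G y ^ 2
    rw [ENNReal.mul_rpow_of_nonneg _ _ (by norm_num), h3, ENNReal.rpow_two]
  rw [e1, e2, e3] at h1
  calc (∫⁻ y, F y * G y ∂μ) ^ 2
      ≤ ((∫⁻ y, F y ∂μ) ^ (1 / 2 : ℝ) * (∫⁻ y, F y * G y ^ 2 ∂μ) ^ (1 / 2 : ℝ)) ^ 2 := by
        gcongr
    _ = _ := by
        rw [mul_pow, sq, sq, h2, h2]

theorem one_le_rho {y : ℝ} (hy : 0 < y) : 1 ≤ rho y := by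
  unfold rho
  rcases le_total 1 y with h | h
  · exact le_max_of_le_left h
  · exact le_max_of_le_right ((one_le_inv₀ hy).2 h)

theorem beta_int (h5 : S_KI) {B : ℝ} (hB : 0 ≤ B) {β : ℝ → ℝ} (hK : Ker B β) :
    ∫⁻ y in Ioi (0 : ℝ), ENNReal.ofReal (β y) ≤ ENNReal.ofReal (6 * B) := by
  refine le_trans ?_ (h5 B β hB hK)
  refine setLIntegral_mono_ae' measurableSet_Ioi (Eventually.of_forall fun y hy => ?_)
  refine ENNReal.ofReal_le_ofReal ?_
  have h1 := Real.one_le_rpow (one_le_rho hy) (show (0 : ℝ) ≤ 1 / 4 by norm_num)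
  exact le_mul_of_one_le_right (hK.2.1 y) h1

/-- The pointwise bound of `v ^ 2`. -/
theorem v_bound {B6 : ℝ} (hB6 : 0 ≤ B6) {a β : ℝ → ℝ} (ha : Continuous a) (ha0 : ∀ t, 0 ≤ a t)
    (hβ : Measurable β) (hβ0 : ∀ y, 0 ≤ β y)
    (hβI : ∫⁻ y in Ioi (0 : ℝ), ENNReal.ofReal (β y) ≤ ENNReal.ofReal B6) {t v : ℝ}
    (hv0 : 0 ≤ v) (hv : v ≤ a t + ∫ y in Ioi (0 : ℝ), β y * a (y * t)) :
    ENNReal.ofReal (v ^ 2) ≤ ENNReal.ofReal (2 * (1 + B6)) * (ENNReal.ofReal (a t ^ 2) +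
      ∫⁻ y in Ioi (0 : ℝ), ENNReal.ofReal (β y) * ENNReal.ofReal (a (y * t) ^ 2)) := by
  have hat : Measurable fun y : ℝ => a (y * t) :=
    (ha.comp (continuous_id.mul continuous_const)).measurable
  obtain ⟨Y, hY⟩ : ∃ Y, Y = ∫⁻ y in Ioi (0 : ℝ), ENNReal.ofReal (β y) * ENNReal.ofReal (a (y * t)) :=
    ⟨_, rfl⟩
  obtain ⟨S, hS⟩ : ∃ S, S = ∫⁻ y in Ioi (0 : ℝ),
    ENNReal.ofReal (β y) * ENNReal.ofReal (a (y * t) ^ 2) := ⟨_, rfl⟩
  have h1 : ENNReal.ofReal v ≤ ENNReal.ofReal (a t) + Y := by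
    refine (ENNReal.ofReal_le_ofReal hv).trans ?_
    refine ENNReal.ofReal_add_le.trans ?_
    gcongr
    rw [integral_eq_lintegral_of_nonneg_ae
      (Eventually.of_forall fun y => mul_nonneg (hβ0 y) (ha0 _))
      (hβ.mul hat).aestronglyMeasurable]
    refine ENNReal.ofReal_toReal_le.trans (le_of_eq ?_)
    rw [hY]
    exact lintegral_congr fun y => ENNReal.ofReal_mul (hβ0 y)
  have h2 : Y ^ 2 ≤ ENNReal.ofReal B6 * S := by
    have h3 := cs (μ := volume.restrict (Ioi (0 : ℝ))) (F := fun y => ENNReal.ofReal (β y))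
      (G := fun y => ENNReal.ofReal (a (y * t))) hβ.ennreal_ofReal hat.ennreal_ofReal
    rw [← hY] at h3
    refine h3.trans ?_
    have h4 : ∫⁻ y in Ioi (0 : ℝ), ENNReal.ofReal (β y) * ENNReal.ofReal (a (y * t)) ^ 2 = S := by
      rw [hS]
      exact lintegral_congr fun y => by rw [ENNReal.ofReal_pow (ha0 _)]
    rw [h4]
    gcongr
  have h3 : ENNReal.ofReal (v ^ 2) ≤ 2 * (ENNReal.ofReal (a t ^ 2) + Y ^ 2) := by
    rw [ENNReal.ofReal_pow hv0, ENNReal.ofReal_pow (ha0 t)]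
    have h4 := ENNReal.rpow_add_le_mul_rpow_add_rpow (ENNReal.ofReal (a t)) Y
      (show (1 : ℝ) ≤ 2 by norm_num)
    rw [ENNReal.rpow_two, ENNReal.rpow_two, ENNReal.rpow_two] at h4
    have h5 : (2 : ℝ≥0∞) ^ ((2 : ℝ) - 1) = 2 := by norm_num
    rw [h5] at h4
    exact le_trans (by gcongr) h4
  refine h3.trans ?_
  have h4 : ENNReal.ofReal (2 * (1 + B6)) = 2 * (1 + ENNReal.ofReal B6) := by
    rw [ENNReal.ofReal_mul (by norm_num), ENNReal.ofReal_add (by norm_num) hB6,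
      ENNReal.ofReal_one, ENNReal.ofReal_ofNat]
  rw [h4, mul_assoc]
  gcongr
  calc ENNReal.ofReal (a t ^ 2) + Y ^ 2 ≤ ENNReal.ofReal (a t ^ 2) + ENNReal.ofReal B6 * S := by
        gcongr
    _ ≤ (1 + ENNReal.ofReal B6) * ENNReal.ofReal (a t ^ 2) + (1 + ENNReal.ofReal B6) * S := by
        gcongr
        · exact le_mul_of_one_le_left bot_le le_self_add
        · exact le_add_self
    _ = _ := by rw [mul_add, hS]

theorem integrable_of {φ : ℝ → ℝ} (hφ : Continuous φ) {R : ℝ} (hR : ∀ t, R ≤ t → φ t = 0) :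
    IntegrableOn φ (Ioi (0 : ℝ)) := by
  have h1 : IntegrableOn φ (Icc 0 (max R 0)) := hφ.continuousOn.integrableOn_Icc
  have h2 : IntegrableOn φ (Ioi (max R 0)) := by
    refine (integrableOn_zero (μ := volume) (s := Ioi (max R 0))).congr_fun (fun t ht => ?_)
      measurableSet_Ioi
    exact (hR t ((le_max_left _ _).trans (le_of_lt ht))).symm
  refine (h1.union h2).mono_set fun t ht => ?_
  rcases le_or_gt t (max R 0) with h | h
  · exact Or.inl ⟨le_of_lt ht, h⟩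
  · exact Or.inr h

theorem Cn_nonneg {p : ℝ} (hp : 1 ≤ p) (n : ℕ) : 0 ≤ Cn p n := by
  unfold Cn
  refine Finset.prod_nonneg fun j _ => ?_
  have h1 : 1 / p ≤ 1 := by rw [div_le_one (by linarith)]; exact hp
  have h2 : 0 ≤ 1 / p := by positivity
  have h3 : (0 : ℝ) ≤ (j : ℝ) := Nat.cast_nonneg j
  refine div_nonneg ?_ ?_ <;> linarith

/-- the pointwise and integrated inequality on the half line -/
theorem core (h2 : S_DIL) (h3 : S_ZI) (h4 : S_CRS) (h5 : S_KI) {p C M' ε' B K : ℝ}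
    {g u L δ : ℝ → ℝ} (hp : 16 ≤ p) (hC : 1 ≤ C) (hCp : C / p ≤ 1 / 16) (hM' : 1 ≤ M')
    (hε' : 0 < ε') (hB : 1 ≤ B) (hK : 0 ≤ K) (hg : Continuous g) (hg0 : ∀ t, 0 ≤ g t)
    (_hu : Continuous u) (hu0 : ∀ t, 0 ≤ u t)
    (hEnv : Env p C M' ε' (fun t => K * g t) u L δ)
    {ι : Type} [Fintype ι] (a β v : ι → ℝ → ℝ) (ha : ∀ i, Continuous (a i))
    (ha0 : ∀ i t, 0 ≤ a i t) (hβ : ∀ i, Ker B (β i)) (hv : ∀ i, Measurable (v i))
    (hv0 : ∀ i t, 0 ≤ v i t)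
    (hva : ∀ i t, 0 < t → v i t ≤ a i t + ∫ y in Ioi (0 : ℝ), β i y * a i (y * t))
    {η : ℝ} (hη : 0 < η) :
    ∫⁻ t in Ioi (0 : ℝ), ENNReal.ofReal (u t ^ (p - 2) * ∑ i, v i t ^ 2) ≤
      ENNReal.ofReal C * (ENNReal.ofReal (2 * (1 + 6 * B) * (1 + 6 * B)) *
        (ENNReal.ofReal (M' * K ^ (p - 2)) *
          (∫⁻ t in Ioi (0 : ℝ), ENNReal.ofReal (g t ^ (p - 2) * ∑ i, a i t ^ 2)) +
          (ENNReal.ofReal (η * ε' * ∫ t in Ioi (0 : ℝ), δ t) +
            ENNReal.ofReal (η ^ (-((p - 2) / 2))) *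
              ∫⁻ t in Ioi (0 : ℝ), ENNReal.ofReal ((∑ i, a i t ^ 2) ^ (p / 2))) +
          (ENNReal.ofReal (η * (C / p) * 32 * ∫ t in Ioi (0 : ℝ), δ t) +
            ENNReal.ofReal (η ^ (-((p - 2) / 2))) *
              ∫⁻ t in Ioi (0 : ℝ), ENNReal.ofReal ((∑ i, a i t ^ 2) ^ (p / 2))))) +
      (ENNReal.ofReal (η * ε' * ∫ t in Ioi (0 : ℝ), δ t) +
        ENNReal.ofReal (η ^ (-((p - 2) / 2))) *
          ∫⁻ t in Ioi (0 : ℝ), ENNReal.ofReal ((∑ i, v i t ^ 2) ^ (p / 2))) := by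
  have hp0 : (0 : ℝ) < p := by linarith
  have hp2 : (2 : ℝ) < p := by linarith
  obtain ⟨q, hq⟩ : ∃ q, q = 1 - 2 / p := ⟨_, rfl⟩
  have hq0 : 0 ≤ q := by
    rw [hq, sub_nonneg, div_le_one hp0]
    exact hp2.le
  have hq1 : q ≤ 1 := by
    rw [hq]
    have : 0 < 2 / p := by positivity
    linarith
  have hpq : p * q = p - 2 := by
    rw [hq]
    field_simp
  obtain ⟨κ, hκ⟩ : ∃ κ, κ = C / p := ⟨_, rfl⟩
  have hκ0 : 0 ≤ κ := by rw [hκ]; positivity
  rw [← hκ] at hCp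
  obtain ⟨R, hR0, hR⟩ := hEnv.supp
  have hδI : IntegrableOn δ (Ioi (0 : ℝ)) := integrable_of hEnv.contD fun t ht => (hR t ht).2
  obtain ⟨I, hI⟩ : ∃ I, I = ∫ t in Ioi (0 : ℝ), δ t := ⟨_, rfl⟩
  have hI' : ENNReal.ofReal I = ∫⁻ t in Ioi (0 : ℝ), ENNReal.ofReal (δ t) := by
    rw [hI]
    exact ofReal_integral_eq_lintegral_ofReal hδI (Eventually.of_forall hEnv.D0)
  rw [← hI, ← hκ]
  -- the functions
  obtain ⟨LLq, hLLq⟩ : ∃ LLq : ℝ → ℝ≥0∞, ∀ t, LLq t = ENNReal.ofReal (L t) ^ q := ⟨_, fun _ => rfl⟩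
  obtain ⟨DDq, hDDq⟩ : ∃ DDq : ℝ → ℝ≥0∞, ∀ t, DDq t = ENNReal.ofReal (ε' * δ t) ^ q :=
    ⟨_, fun _ => rfl⟩
  obtain ⟨ZZq, hZZq⟩ : ∃ ZZq : ℝ → ℝ≥0∞, ∀ t, ZZq t = (ENNReal.ofReal κ * Zs δ t) ^ q :=
    ⟨_, fun _ => rfl⟩
  obtain ⟨A, hA⟩ : ∃ A : ℝ → ℝ≥0∞, ∀ t, A t = ∑ i, ENNReal.ofReal (a i t ^ 2) := ⟨_, fun _ => rfl⟩
  obtain ⟨W, hW⟩ : ∃ W : ℝ → ℝ≥0∞, ∀ t, W t = ∑ i, ENNReal.ofReal (v i t ^ 2) := ⟨_, fun _ => rfl⟩
  obtain ⟨E, hE⟩ : ∃ E, E = ENNReal.ofReal (η ^ (-((p - 2) / 2))) := ⟨_, rfl⟩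
  have hA' : ∀ t, A t = ENNReal.ofReal (∑ i, a i t ^ 2) := fun t => by
    rw [hA, ENNReal.ofReal_sum_of_nonneg fun i _ => sq_nonneg _]
  have hW' : ∀ t, W t = ENNReal.ofReal (∑ i, v i t ^ 2) := fun t => by
    rw [hW, ENNReal.ofReal_sum_of_nonneg fun i _ => sq_nonneg _]
  have hZm := (h3 δ hEnv.contD hEnv.D0).1
  have mLL : Measurable LLq := by
    rw [funext hLLq]
    exact hEnv.contL.measurable.ennreal_ofReal.pow_const _
  have mDD : Measurable DDq := by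
    rw [funext hDDq]
    exact (measurable_const.mul hEnv.contD.measurable).ennreal_ofReal.pow_const _
  have mZZ : Measurable ZZq := by
    rw [funext hZZq]
    exact (measurable_const.mul hZm).pow_const _
  have mAi : ∀ i, Measurable fun t => ENNReal.ofReal (a i t ^ 2) := fun i =>
    ((ha i).pow 2).measurable.ennreal_ofReal
  have mA : Measurable A := by
    rw [funext hA]
    exact Finset.measurable_sum _ fun i _ => mAi i
  have mWi : ∀ i, Measurable fun t => ENNReal.ofReal (v i t ^ 2) := fun i =>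
    ((hv i).pow_const 2).ennreal_ofReal
  have mW : Measurable W := by
    rw [funext hW]
    exact Finset.measurable_sum _ fun i _ => mWi i
  have mLW : Measurable fun t => LLq t * W t := mLL.mul mW
  have mLA : Measurable fun t => LLq t * A t := mLL.mul mA
  have mLWi : ∀ i, Measurable fun t => LLq t * ENNReal.ofReal (v i t ^ 2) := fun i =>
    mLL.mul (mWi i)
  have mLAi : ∀ i, Measurable fun t => LLq t * ENNReal.ofReal (a i t ^ 2) := fun i =>
    mLL.mul (mAi i)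
  have mALZ : ∀ i, Measurable fun t => ENNReal.ofReal (a i t ^ 2) * (LLq t + ZZq t) := fun i =>
    (mAi i).mul (mLL.add mZZ)
  have mεδ : Measurable fun t => ENNReal.ofReal (ε' * δ t) :=
    (measurable_const.mul hEnv.contD.measurable).ennreal_ofReal
  have mκZ : Measurable fun t => ENNReal.ofReal κ * Zs δ t := hZm.const_mul _
  have hApow : ∀ t, ENNReal.ofReal ((∑ i, a i t ^ 2) ^ (p / 2)) = A t ^ (p / 2) := fun t => by
    rw [hA', ENNReal.ofReal_rpow_of_nonneg (Finset.sum_nonneg fun i _ => sq_nonneg _)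
      (by positivity)]
  have hWpow : ∀ t, ENNReal.ofReal ((∑ i, v i t ^ 2) ^ (p / 2)) = W t ^ (p / 2) := fun t => by
    rw [hW', ENNReal.ofReal_rpow_of_nonneg (Finset.sum_nonneg fun i _ => sq_nonneg _)
      (by positivity)]
  simp only [hApow, hWpow]
  rw [← hE]
  -- Young for `δ`
  have hDDW : ∀ F : ℝ → ℝ≥0∞, Measurable F → ∫⁻ t in Ioi (0 : ℝ), DDq t * F t ≤
      ENNReal.ofReal (η * ε' * I) + E * ∫⁻ t in Ioi (0 : ℝ), F t ^ (p / 2) := by
    intro F hF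
    calc ∫⁻ t in Ioi (0 : ℝ), DDq t * F t
        ≤ ∫⁻ t in Ioi (0 : ℝ), (ENNReal.ofReal η * ENNReal.ofReal (ε' * δ t) +
          E * F t ^ (p / 2)) := by
          refine lintegral_mono fun t => ?_
          rw [hDDq, hq, hE]
          exact yg hp2 hη _ _
      _ = ENNReal.ofReal η * (∫⁻ t in Ioi (0 : ℝ), ENNReal.ofReal (ε' * δ t)) +
          E * ∫⁻ t in Ioi (0 : ℝ), F t ^ (p / 2) := by
          have mF : Measurable fun t => F t ^ (p / 2) := hF.pow_const _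
          have mEF : Measurable fun t => E * F t ^ (p / 2) := mF.const_mul _
          rw [lintegral_add_right _ mEF, lintegral_const_mul _ mεδ, lintegral_const_mul _ mF]
      _ = _ := by
          have e3 : ∫⁻ t in Ioi (0 : ℝ), ENNReal.ofReal (ε' * δ t) =
              ENNReal.ofReal ε' * ∫⁻ t in Ioi (0 : ℝ), ENNReal.ofReal (δ t) := by
            rw [← lintegral_const_mul _ hEnv.contD.measurable.ennreal_ofReal]
            exact lintegral_congr fun t => ENNReal.ofReal_mul hε'.le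
          rw [e3, mul_assoc η, ENNReal.ofReal_mul hη.le, ENNReal.ofReal_mul hε'.le, hI']
  -- Young for `Z`
  have hZZW : ∀ F : ℝ → ℝ≥0∞, Measurable F → ∫⁻ t in Ioi (0 : ℝ), ZZq t * F t ≤
      ENNReal.ofReal (η * κ * 32 * I) + E * ∫⁻ t in Ioi (0 : ℝ), F t ^ (p / 2) := by
    intro F hF
    calc ∫⁻ t in Ioi (0 : ℝ), ZZq t * F t
        ≤ ∫⁻ t in Ioi (0 : ℝ), (ENNReal.ofReal η * (ENNReal.ofReal κ * Zs δ t) +
          E * F t ^ (p / 2)) := by
          refine lintegral_mono fun t => ?_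
          rw [hZZq, hq, hE]
          exact yg hp2 hη _ _
      _ = ENNReal.ofReal η * (ENNReal.ofReal κ * ∫⁻ t in Ioi (0 : ℝ), Zs δ t) +
          E * ∫⁻ t in Ioi (0 : ℝ), F t ^ (p / 2) := by
          have mF : Measurable fun t => F t ^ (p / 2) := hF.pow_const _
          have mEF : Measurable fun t => E * F t ^ (p / 2) := mF.const_mul _
          rw [lintegral_add_right _ mEF, lintegral_const_mul _ mκZ, lintegral_const_mul _ hZm,
            lintegral_const_mul _ mF]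
      _ = _ := by
          have e3 : ENNReal.ofReal (η * κ * 32 * I) =
              ENNReal.ofReal η * (ENNReal.ofReal κ * (32 * ENNReal.ofReal I)) := by
            rw [mul_assoc, mul_assoc, ENNReal.ofReal_mul hη.le,
              ENNReal.ofReal_mul hκ0, ENNReal.ofReal_mul (by norm_num), ENNReal.ofReal_ofNat]
          rw [e3, (h3 δ hEnv.contD hEnv.D0).2, ← hI']
  -- the dilation inequality
  have hdil : ∀ s t : ℝ, 0 < s → 0 < t →
      t * L t ≤ rho (t / s) ^ κ * (s * L s + κ * |∫ x in s..t, δ x|) :=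
    h2 κ L δ hκ0 hEnv.contL hEnv.contD hEnv.L0 hEnv.D0 (by rw [hκ]; exact hEnv.lip)
  -- the cross term
  have hcross : ∀ i, ∫⁻ t in Ioi (0 : ℝ), LLq t * ENNReal.ofReal (v i t ^ 2) ≤
      ENNReal.ofReal (2 * (1 + 6 * B) * (1 + 6 * B)) *
        ∫⁻ t in Ioi (0 : ℝ), ENNReal.ofReal (a i t ^ 2) * (LLq t + ZZq t) := by
    intro i
    have hbI := beta_int h5 (by linarith) (hβ i)
    have h6 := h4 p κ (6 * B) L δ hp hκ0 hCp hEnv.contL hEnv.contD hEnv.L0 hEnv.D0 hdil (β i)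
      (hβ i).1 (hβ i).2.1 (h5 B (β i) (by linarith) (hβ i))
      (fun t => ENNReal.ofReal (a i t ^ 2)) (mAi i)
    rw [← hq] at h6
    have h7 : ∫⁻ t in Ioi (0 : ℝ), LLq t * ENNReal.ofReal (v i t ^ 2) ≤
        ENNReal.ofReal (2 * (1 + 6 * B)) * ((∫⁻ t in Ioi (0 : ℝ),
          LLq t * ENNReal.ofReal (a i t ^ 2)) + ∫⁻ t in Ioi (0 : ℝ), ENNReal.ofReal (L t) ^ q *
            ∫⁻ y in Ioi (0 : ℝ), ENNReal.ofReal (β i y) * ENNReal.ofReal (a i (y * t) ^ 2)) := by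
      rw [← lintegral_add_left (mLAi i), ← lintegral_const_mul' _ _ ENNReal.ofReal_ne_top]
      refine setLIntegral_mono_ae' measurableSet_Ioi (Eventually.of_forall fun t ht => ?_)
      have h8 := v_bound (by linarith) (ha i) (ha0 i) (hβ i).1 (hβ i).2.1 hbI (hv0 i t)
        (hva i t ht)
      calc LLq t * ENNReal.ofReal (v i t ^ 2) ≤ LLq t * (ENNReal.ofReal (2 * (1 + 6 * B)) *
            (ENNReal.ofReal (a i t ^ 2) + ∫⁻ y in Ioi (0 : ℝ), ENNReal.ofReal (β i y) *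
              ENNReal.ofReal (a i (y * t) ^ 2))) := by gcongr
        _ = _ := by rw [← hLLq]; ring
    refine h7.trans ?_
    have h10 : ENNReal.ofReal (2 * (1 + 6 * B) * (1 + 6 * B)) =
        ENNReal.ofReal (2 * (1 + 6 * B)) * ENNReal.ofReal (1 + 6 * B) :=
      ENNReal.ofReal_mul (by linarith)
    rw [h10, mul_assoc]
    refine mul_le_mul_right ?_ _
    have h9 : ENNReal.ofReal (1 + 6 * B) = 1 + ENNReal.ofReal (6 * B) := by
      rw [ENNReal.ofReal_add (by norm_num) (by linarith), ENNReal.ofReal_one]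
    rw [h9, add_mul, one_mul]
    refine add_le_add ?_ ?_
    · refine lintegral_mono fun t => ?_
      rw [mul_comm]
      gcongr
      exact le_self_add
    · refine h6.trans (le_of_eq ?_)
      congr 1
      refine lintegral_congr fun t => ?_
      rw [hLLq, hZZq]
  have hcrossS : ∫⁻ t in Ioi (0 : ℝ), LLq t * W t ≤
      ENNReal.ofReal (2 * (1 + 6 * B) * (1 + 6 * B)) *
        ∫⁻ t in Ioi (0 : ℝ), A t * (LLq t + ZZq t) := by
    have e1 : ∫⁻ t in Ioi (0 : ℝ), LLq t * W t =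
        ∑ i, ∫⁻ t in Ioi (0 : ℝ), LLq t * ENNReal.ofReal (v i t ^ 2) := by
      rw [← lintegral_finsetSum _ fun i _ => mLWi i]
      exact lintegral_congr fun t => by rw [hW, Finset.mul_sum]
    have e2 : ∫⁻ t in Ioi (0 : ℝ), A t * (LLq t + ZZq t) =
        ∑ i, ∫⁻ t in Ioi (0 : ℝ), ENNReal.ofReal (a i t ^ 2) * (LLq t + ZZq t) := by
      rw [← lintegral_finsetSum _ fun i _ => mALZ i]
      exact lintegral_congr fun t => by rw [hA, Finset.sum_mul]
    rw [e1, e2, Finset.mul_sum]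
    exact Finset.sum_le_sum fun i _ => hcross i
  -- the pointwise bounds
  have hpt1 : ∀ t, 0 < t → ENNReal.ofReal (u t ^ (p - 2) * ∑ i, v i t ^ 2) ≤
      ENNReal.ofReal C * (LLq t * W t) + DDq t * W t := by
    intro t ht
    have h6 : u t ^ (p - 2) ≤ C * L t ^ q + (ε' * δ t) ^ q := by
      rw [← hpq, Real.rpow_mul (hu0 t)]
      calc (u t ^ p) ^ q ≤ (C * L t + ε' * δ t) ^ q :=
            Real.rpow_le_rpow (Real.rpow_nonneg (hu0 t) _) (hEnv.u_le t ht) hq0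
        _ ≤ (C * L t) ^ q + (ε' * δ t) ^ q :=
            Real.rpow_add_le_add_rpow (mul_nonneg (by linarith) (hEnv.L0 t))
              (mul_nonneg hε'.le (hEnv.D0 t)) hq0 hq1
        _ ≤ _ := by
            gcongr
            rw [Real.mul_rpow (by linarith) (hEnv.L0 t)]
            refine mul_le_mul_of_nonneg_right ?_ (Real.rpow_nonneg (hEnv.L0 t) _)
            calc C ^ q ≤ C ^ (1 : ℝ) := Real.rpow_le_rpow_of_exponent_le hC hq1
              _ = C := Real.rpow_one C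
    have h7 : 0 ≤ ∑ i, v i t ^ 2 := Finset.sum_nonneg fun i _ => sq_nonneg _
    calc ENNReal.ofReal (u t ^ (p - 2) * ∑ i, v i t ^ 2)
        ≤ ENNReal.ofReal ((C * L t ^ q + (ε' * δ t) ^ q) * ∑ i, v i t ^ 2) :=
          ENNReal.ofReal_le_ofReal (mul_le_mul_of_nonneg_right h6 h7)
      _ = _ := by
          have hLq : 0 ≤ L t ^ q := Real.rpow_nonneg (hEnv.L0 t) _
          have hDq : 0 ≤ (ε' * δ t) ^ q :=
            Real.rpow_nonneg (mul_nonneg hε'.le (hEnv.D0 t)) _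
          rw [add_mul, ENNReal.ofReal_add (mul_nonneg (mul_nonneg (by linarith) hLq) h7)
            (mul_nonneg hDq h7), ENNReal.ofReal_mul (mul_nonneg (by linarith) hLq),
            ENNReal.ofReal_mul (by linarith : (0 : ℝ) ≤ C), ENNReal.ofReal_mul hDq, ← hW',
            hLLq, hDDq, ENNReal.ofReal_rpow_of_nonneg (hEnv.L0 t) hq0,
            ENNReal.ofReal_rpow_of_nonneg (mul_nonneg hε'.le (hEnv.D0 t)) hq0, mul_assoc]
  have hpt2 : ∀ t, 0 < t → LLq t * A t ≤ ENNReal.ofReal (M' * K ^ (p - 2)) *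
      ENNReal.ofReal (g t ^ (p - 2) * ∑ i, a i t ^ 2) + DDq t * A t := by
    intro t ht
    have h6 : L t ^ q ≤ M' * K ^ (p - 2) * g t ^ (p - 2) + (ε' * δ t) ^ q := by
      have hfp : 0 ≤ (K * g t) ^ p := Real.rpow_nonneg (mul_nonneg hK (hg0 t)) _
      calc L t ^ q ≤ (M' * (K * g t) ^ p + ε' * δ t) ^ q :=
            Real.rpow_le_rpow (hEnv.L0 t) (hEnv.L_le t ht) hq0
        _ ≤ (M' * (K * g t) ^ p) ^ q + (ε' * δ t) ^ q :=
            Real.rpow_add_le_add_rpow (mul_nonneg (by linarith) hfp)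
              (mul_nonneg hε'.le (hEnv.D0 t)) hq0 hq1
        _ ≤ _ := by
            gcongr
            rw [Real.mul_rpow (by linarith) hfp, ← Real.rpow_mul (mul_nonneg hK (hg0 t)), hpq,
              Real.mul_rpow hK (hg0 t), mul_assoc]
            refine mul_le_mul_of_nonneg_right ?_
              (mul_nonneg (Real.rpow_nonneg hK _) (Real.rpow_nonneg (hg0 t) _))
            calc M' ^ q ≤ M' ^ (1 : ℝ) := Real.rpow_le_rpow_of_exponent_le hM' hq1
              _ = M' := Real.rpow_one M'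
    have h7 : 0 ≤ ∑ i, a i t ^ 2 := Finset.sum_nonneg fun i _ => sq_nonneg _
    have hgq : 0 ≤ g t ^ (p - 2) := Real.rpow_nonneg (hg0 t) _
    have hMK : 0 ≤ M' * K ^ (p - 2) := mul_nonneg (by linarith) (Real.rpow_nonneg hK _)
    have hDq : 0 ≤ (ε' * δ t) ^ q := Real.rpow_nonneg (mul_nonneg hε'.le (hEnv.D0 t)) _
    calc LLq t * A t = ENNReal.ofReal (L t ^ q * ∑ i, a i t ^ 2) := by
          rw [ENNReal.ofReal_mul (Real.rpow_nonneg (hEnv.L0 t) _), ← hA', hLLq,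
            ENNReal.ofReal_rpow_of_nonneg (hEnv.L0 t) hq0]
      _ ≤ ENNReal.ofReal ((M' * K ^ (p - 2) * g t ^ (p - 2) + (ε' * δ t) ^ q) *
            ∑ i, a i t ^ 2) := ENNReal.ofReal_le_ofReal (mul_le_mul_of_nonneg_right h6 h7)
      _ = _ := by
          rw [add_mul, ENNReal.ofReal_add (mul_nonneg (mul_nonneg hMK hgq) h7)
            (mul_nonneg hDq h7), mul_assoc (M' * K ^ (p - 2)), ENNReal.ofReal_mul hMK,
            ENNReal.ofReal_mul hDq, ← hA', hDDq,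
            ENNReal.ofReal_rpow_of_nonneg (mul_nonneg hε'.le (hEnv.D0 t)) hq0]
  -- summing up
  have hgA : Measurable fun t => ENNReal.ofReal (g t ^ (p - 2) * ∑ i, a i t ^ 2) := by
    refine (Measurable.mul (hg.measurable.pow_const _) ?_).ennreal_ofReal
    exact Finset.measurable_sum _ fun i _ => ((ha i).pow 2).measurable
  have hALL : ∫⁻ t in Ioi (0 : ℝ), LLq t * A t ≤ ENNReal.ofReal (M' * K ^ (p - 2)) *
      (∫⁻ t in Ioi (0 : ℝ), ENNReal.ofReal (g t ^ (p - 2) * ∑ i, a i t ^ 2)) +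
      (ENNReal.ofReal (η * ε' * I) + E * ∫⁻ t in Ioi (0 : ℝ), A t ^ (p / 2)) := by
    calc ∫⁻ t in Ioi (0 : ℝ), LLq t * A t
        ≤ ∫⁻ t in Ioi (0 : ℝ), (ENNReal.ofReal (M' * K ^ (p - 2)) *
          ENNReal.ofReal (g t ^ (p - 2) * ∑ i, a i t ^ 2) + DDq t * A t) :=
          setLIntegral_mono_ae' measurableSet_Ioi (Eventually.of_forall fun t ht => hpt2 t ht)
      _ = ENNReal.ofReal (M' * K ^ (p - 2)) *
          (∫⁻ t in Ioi (0 : ℝ), ENNReal.ofReal (g t ^ (p - 2) * ∑ i, a i t ^ 2)) +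
          ∫⁻ t in Ioi (0 : ℝ), DDq t * A t := by
          have mg : Measurable fun t => ENNReal.ofReal (M' * K ^ (p - 2)) *
              ENNReal.ofReal (g t ^ (p - 2) * ∑ i, a i t ^ 2) := hgA.const_mul _
          rw [lintegral_add_left mg, lintegral_const_mul _ hgA]
      _ ≤ _ := by
          gcongr
          exact hDDW A mA
  have hAZ : ∫⁻ t in Ioi (0 : ℝ), A t * (LLq t + ZZq t) ≤
      ENNReal.ofReal (M' * K ^ (p - 2)) *
        (∫⁻ t in Ioi (0 : ℝ), ENNReal.ofReal (g t ^ (p - 2) * ∑ i, a i t ^ 2)) +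
      (ENNReal.ofReal (η * ε' * I) + E * ∫⁻ t in Ioi (0 : ℝ), A t ^ (p / 2)) +
      (ENNReal.ofReal (η * κ * 32 * I) + E * ∫⁻ t in Ioi (0 : ℝ), A t ^ (p / 2)) := by
    have e1 : ∫⁻ t in Ioi (0 : ℝ), A t * (LLq t + ZZq t) =
        (∫⁻ t in Ioi (0 : ℝ), LLq t * A t) + ∫⁻ t in Ioi (0 : ℝ), ZZq t * A t := by
      rw [← lintegral_add_left mLA]
      exact lintegral_congr fun t => by ring
    rw [e1]
    exact add_le_add hALL (hZZW A mA)
  calc ∫⁻ t in Ioi (0 : ℝ), ENNReal.ofReal (u t ^ (p - 2) * ∑ i, v i t ^ 2)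
      ≤ ∫⁻ t in Ioi (0 : ℝ), (ENNReal.ofReal C * (LLq t * W t) + DDq t * W t) :=
        setLIntegral_mono_ae' measurableSet_Ioi (Eventually.of_forall fun t ht => hpt1 t ht)
    _ = ENNReal.ofReal C * (∫⁻ t in Ioi (0 : ℝ), LLq t * W t) +
        ∫⁻ t in Ioi (0 : ℝ), DDq t * W t := by
        have mCLW : Measurable fun t => ENNReal.ofReal C * (LLq t * W t) := mLW.const_mul _
        rw [lintegral_add_left mCLW, lintegral_const_mul _ mLW]
    _ ≤ _ := by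
        gcongr
        · exact hcrossS.trans (by gcongr)
        · exact hDDW W mW

theorem main (h1 : S_ENV) (h2 : S_DIL) (h3 : S_ZI) (h4 : S_CRS) (h5 : S_KI) : S_CC := by
  intro n B hn hB
  obtain ⟨C, hC, hE⟩ := h1 n hn
  obtain ⟨B2, hB2⟩ : ∃ B2 : ℝ, B2 = 2 * (1 + 6 * B) * (1 + 6 * B) := ⟨_, rfl⟩
  have hB2' : 1 ≤ B2 := by rw [hB2]; nlinarith
  have hCB : 1 ≤ C * B2 := by nlinarith
  refine ⟨2 * (C * B2), by linarith, fun ε hε hε1 => ?_⟩
  obtain ⟨ε', hε'⟩ : ∃ ε' : ℝ, ε' = ε / (2 * (1 + C * B2)) := ⟨_, rfl⟩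
  have hε'0 : 0 < ε' := by rw [hε']; positivity
  have hε'e : ε' * (1 + C * B2) = ε / 2 := by
    rw [hε']
    field_simp
  have hε'1 : ε' ≤ 1 := by nlinarith
  obtain ⟨M', p1, hM', hp1, hE'⟩ := hE ε' hε'0 hε'1
  refine ⟨C * B2 * M', max (max p1 16) (max (16 * C) (64 * C * (C * B2) / ε)), by nlinarith,
    le_max_of_le_left (le_max_right _ _), fun p hp h hh hR => ?_⟩
  have hpp1 : p1 ≤ p := (le_max_left _ _).trans ((le_max_left _ _).trans hp)
  have hp16 : 16 ≤ p := (le_max_right _ _).trans ((le_max_left _ _).trans hp)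
  have hpC : 16 * C ≤ p := (le_max_left _ _).trans ((le_max_right _ _).trans hp)
  have hpε : 64 * C * (C * B2) / ε ≤ p := (le_max_right _ _).trans ((le_max_right _ _).trans hp)
  have hp0 : 0 < p := by linarith
  obtain ⟨L, δ, hEnv⟩ := hE' p hpp1 h hh hR
  obtain ⟨K, hK⟩ : ∃ K, K = Cn p n := ⟨_, rfl⟩
  have hK0 : 0 ≤ K := by rw [hK]; exact Cn_nonneg (by linarith) n
  obtain ⟨g, hg⟩ : ∃ g : ℝ → ℝ, ∀ t, g t = ‖(t : ℂ) ^ n * iteratedDeriv n h t‖ :=
    ⟨_, fun _ => rfl⟩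
  obtain ⟨u, hu⟩ : ∃ u : ℝ → ℝ,
      ∀ t, u t = ‖iteratedDeriv n (fun x : ℝ => (x : ℂ) ^ n * h x) t‖ := ⟨_, fun _ => rfl⟩
  have hg0 : ∀ t, 0 ≤ g t := fun t => by rw [hg]; exact norm_nonneg _
  have hu0 : ∀ t, 0 ≤ u t := fun t => by rw [hu]; exact norm_nonneg _
  have hgc : Continuous g := by
    rw [funext hg]
    exact ((Complex.continuous_ofReal.pow n).mul
      (hh.continuous_iteratedDeriv n (by exact_mod_cast le_top))).norm
  have hxh : ContDiff ℝ (⊤ : ℕ∞) (fun x : ℝ => (x : ℂ) ^ n * h x) :=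
    (Complex.ofRealCLM.contDiff.pow n).mul hh
  have huc : Continuous u := by
    rw [funext hu]
    exact (hxh.continuous_iteratedDeriv n (by exact_mod_cast le_top)).norm
  simp only [← hg, ← hu, ← hK] at hEnv ⊢
  obtain ⟨R1, hR1⟩ := hR
  -- supports
  have hsupp : ∀ F : ℝ → ℂ, ContDiff ℝ (⊤ : ℕ∞) F → (∀ x, R1 ≤ x → F x = 0) →
      ∀ t, R1 + 1 ≤ t → iteratedDeriv n F t = 0 := by
    intro F _ hF t ht
    have h6 : F =ᶠ[𝓝 t] fun _ => (0 : ℂ) := by
      filter_upwards [Ioi_mem_nhds (show R1 < t by linarith)] with x hx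
      exact hF x (le_of_lt hx)
    rw [h6.iteratedDeriv_eq]
    simp
  have hu1 : ∀ t, R1 + 1 ≤ t → u t = 0 := by
    intro t ht
    rw [hu, hsupp _ hxh (fun x hx => by rw [hR1 x hx, mul_zero]) t ht, norm_zero]
  have hg1 : ∀ t, R1 + 1 ≤ t → g t = 0 := by
    intro t ht
    rw [hg, hsupp _ hh hR1 t ht, mul_zero, norm_zero]
  have huI : IntegrableOn (fun t => u t ^ p) (Ioi (0 : ℝ)) :=
    integrable_of (huc.rpow_const fun _ => Or.inr hp0.le) (R := R1 + 1) fun t ht => by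
      rw [hu1 t ht, Real.zero_rpow hp0.ne']
  have hfI : IntegrableOn (fun t => (K * g t) ^ p) (Ioi (0 : ℝ)) :=
    integrable_of ((continuous_const.mul hgc).rpow_const fun _ => Or.inr hp0.le)
      (R := R1 + 1) fun t ht => by rw [hg1 t ht, mul_zero, Real.zero_rpow hp0.ne']
  obtain ⟨I, hI⟩ : ∃ I, I = ∫ t in Ioi (0 : ℝ), δ t := ⟨_, rfl⟩
  have hI0 : 0 ≤ I := by
    rw [hI]
    exact integral_nonneg fun t => hEnv.D0 t
  refine ⟨I, hI0, ?_, ?_⟩
  · have h6 := hEnv.int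
    have h7 : ∫⁻ t in Ioi (0 : ℝ), ENNReal.ofReal (u t ^ p) =
        ENNReal.ofReal (∫ t in Ioi (0 : ℝ), u t ^ p) :=
      (ofReal_integral_eq_lintegral_ofReal huI
        (Eventually.of_forall fun t => Real.rpow_nonneg (hu0 t) _)).symm
    have h8 : ∫⁻ t in Ioi (0 : ℝ), ENNReal.ofReal ((K * g t) ^ p) =
        ENNReal.ofReal (∫ t in Ioi (0 : ℝ), (K * g t) ^ p) :=
      (ofReal_integral_eq_lintegral_ofReal hfI
        (Eventually.of_forall fun t => Real.rpow_nonneg (mul_nonneg hK0 (hg0 t)) _)).symm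
    rw [h7, ← ENNReal.ofReal_add (integral_nonneg fun t => Real.rpow_nonneg (hu0 t) _) hI0, hI,
      h6, ← h8, ← lintegral_const_mul _
        ((hgc.rpow_const fun _ => Or.inr hp0.le).measurable.ennreal_ofReal)]
    refine lintegral_congr fun t => ?_
    rw [← ENNReal.ofReal_mul (Real.rpow_nonneg hK0 _), Real.mul_rpow hK0 (hg0 t)]
  · intro ι _ a β v ha ha0 _ hβ hv hv0 hva η hη
    have hCp : C / p ≤ 1 / 16 := by
      rw [div_le_div_iff₀ hp0 (by norm_num)]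
      linarith
    have h6 := core h2 h3 h4 h5 hp16 hC hCp hM' hε'0 hB hK0 hgc hg0 huc hu0 hEnv a β v ha ha0 hβ
      hv hv0 hva hη
    refine h6.trans ?_
    rw [← hI, ← hB2]
    obtain ⟨X, hX⟩ : ∃ X, X = ∫⁻ t in Ioi (0 : ℝ),
      ENNReal.ofReal (g t ^ (p - 2) * ∑ i, a i t ^ 2) := ⟨_, rfl⟩
    obtain ⟨EA, hEA⟩ : ∃ EA, EA = ∫⁻ t in Ioi (0 : ℝ),
      ENNReal.ofReal ((∑ i, a i t ^ 2) ^ (p / 2)) := ⟨_, rfl⟩
    obtain ⟨EW, hEW⟩ : ∃ EW, EW = ∫⁻ t in Ioi (0 : ℝ),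
      ENNReal.ofReal ((∑ i, v i t ^ 2) ^ (p / 2)) := ⟨_, rfl⟩
    rw [← hX, ← hEA, ← hEW]
    obtain ⟨E, hE⟩ : ∃ E, E = ENNReal.ofReal (η ^ (-((p - 2) / 2))) := ⟨_, rfl⟩
    have hD : ENNReal.ofReal (2 * (C * B2) * η ^ (-((p - 2) / 2))) =
        2 * (ENNReal.ofReal C * ENNReal.ofReal B2) * E := by
      rw [ENNReal.ofReal_mul (by linarith), ENNReal.ofReal_mul (by norm_num),
        ENNReal.ofReal_mul (by linarith), ENNReal.ofReal_ofNat, hE]
    have hMK : ENNReal.ofReal (C * B2 * M' * K ^ (p - 2)) =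
        ENNReal.ofReal C * ENNReal.ofReal B2 * ENNReal.ofReal (M' * K ^ (p - 2)) := by
      rw [mul_assoc, ENNReal.ofReal_mul (by linarith : (0 : ℝ) ≤ C * B2),
        ENNReal.ofReal_mul (by linarith : (0 : ℝ) ≤ C)]
    rw [hD, hMK, ← hE]
    have hcI : ENNReal.ofReal C * ENNReal.ofReal B2 * (ENNReal.ofReal (η * ε' * I) +
        ENNReal.ofReal (η * (C / p) * 32 * I)) + ENNReal.ofReal (η * ε' * I) ≤
        ENNReal.ofReal (ε * η * I) := by
      have hηI : 0 ≤ η * I := mul_nonneg hη.le hI0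
      have hCp0 : 0 ≤ C / p := by positivity
      have e1 : 0 ≤ η * ε' * I := by nlinarith
      have e2 : 0 ≤ η * (C / p) * 32 * I := by
        have : η * (C / p) * 32 * I = 32 * ((C / p) * (η * I)) := by ring
        rw [this]
        positivity
      rw [← ENNReal.ofReal_add e1 e2, ← ENNReal.ofReal_mul (by linarith : (0 : ℝ) ≤ C),
        ← ENNReal.ofReal_mul (by linarith : (0 : ℝ) ≤ C * B2),
        ← ENNReal.ofReal_add (by positivity) e1]
      refine ENNReal.ofReal_le_ofReal ?_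
      have h7 : C * B2 * (32 * (C / p)) ≤ ε / 2 := by
        rw [div_le_iff₀ hε] at hpε
        rw [show C * B2 * (32 * (C / p)) = (32 * C * (C * B2)) / p by ring, div_le_iff₀ hp0]
        linarith
      have h8 : C * B2 * (η * ε' * I + η * (C / p) * 32 * I) + η * ε' * I =
          (ε' * (1 + C * B2) + C * B2 * (32 * (C / p))) * (η * I) := by ring
      rw [h8, hε'e]
      have h9 : ε / 2 + C * B2 * (32 * (C / p)) ≤ ε := by linarith
      calc (ε / 2 + C * B2 * (32 * (C / p))) * (η * I) ≤ ε * (η * I) :=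
            mul_le_mul_of_nonneg_right h9 hηI
        _ = ε * η * I := by ring
    calc ENNReal.ofReal C * (ENNReal.ofReal B2 * (ENNReal.ofReal (M' * K ^ (p - 2)) * X +
          (ENNReal.ofReal (η * ε' * I) + E * EA) +
          (ENNReal.ofReal (η * (C / p) * 32 * I) + E * EA))) +
          (ENNReal.ofReal (η * ε' * I) + E * EW)
        = ENNReal.ofReal C * ENNReal.ofReal B2 * ENNReal.ofReal (M' * K ^ (p - 2)) * X +
          (ENNReal.ofReal C * ENNReal.ofReal B2 * (ENNReal.ofReal (η * ε' * I) +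
            ENNReal.ofReal (η * (C / p) * 32 * I)) + ENNReal.ofReal (η * ε' * I)) +
          (2 * (ENNReal.ofReal C * ENNReal.ofReal B2) * E * EA + E * EW) := by ring
      _ ≤ ENNReal.ofReal C * ENNReal.ofReal B2 * ENNReal.ofReal (M' * K ^ (p - 2)) * X +
          ENNReal.ofReal (ε * η * I) +
          (2 * (ENNReal.ofReal C * ENNReal.ofReal B2) * E * EA +
            2 * (ENNReal.ofReal C * ENNReal.ofReal B2) * E * EW) := by
          gcongr
          have h7 : (1 : ℝ≥0∞) ≤ 2 * (ENNReal.ofReal C * ENNReal.ofReal B2) := by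
            rw [← ENNReal.ofReal_mul (by linarith)]
            have h8 : (1 : ℝ≥0∞) ≤ ENNReal.ofReal (C * B2) := ENNReal.one_le_ofReal.2 hCB
            calc (1 : ℝ≥0∞) ≤ 2 * 1 := by norm_num
              _ ≤ 2 * ENNReal.ofReal (C * B2) := by gcongr
          exact le_mul_of_one_le_left bot_le h7
      _ = _ := by ring

end Pool.NH61.FS.CC
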