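import Pool.Agent.NH61.FS.Def

/-! # Project FS: the complex chain -/

set_option autoImplicit false

open MeasureTheory Set Filter Topology
open scoped SchwartzMap ENNReal

namespace Pool.NH61.FS.Chn

/-- the operator `x d/dx + a` -/
noncomputable def Da (a : ℝ) (f : ℝ → ℂ) : ℝ → ℂ := fun x => (x : ℂ) * deriv f x + (a : ℂ) * f x

/-- the operators `(D + n - k + 1) ... (D + n)` -/
noncomputable def Sop (n : ℕ) : ℕ → (ℝ → ℂ) → ℝ → ℂ
  | 0, f => f
  | k + 1, f => Da ((n : ℝ) - k) (Sop n k f)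

/-- `x ^ j h ^ (j)` -/
noncomputable def Aj (h : ℝ → ℂ) (j : ℕ) : ℝ → ℂ := fun x => (x : ℂ) ^ j * iteratedDeriv j h x

lemma smooth_x : ContDiff ℝ (⊤ : ℕ∞) (fun x : ℝ => (x : ℂ)) := Complex.ofRealCLM.contDiff

lemma hd_x (x : ℝ) : HasDerivAt (fun t : ℝ => (t : ℂ)) 1 x := (hasDerivAt_id (x : ℂ)).comp_ofReal

lemma hd_pow (j : ℕ) (x : ℝ) :
    HasDerivAt (fun t : ℝ => (t : ℂ) ^ j) ((j : ℂ) * (x : ℂ) ^ (j - 1)) x :=
  (hasDerivAt_pow j (x : ℂ)).comp_ofReal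

lemma smooth_deriv {f : ℝ → ℂ} (hf : ContDiff ℝ (⊤ : ℕ∞) f) : ContDiff ℝ (⊤ : ℕ∞) (deriv f) := by
  have h : ContDiff ℝ ((⊤ : ℕ∞) + 1 : WithTop ℕ∞) f := by
    have e : ((⊤ : ℕ∞) + 1 : WithTop ℕ∞) = ((⊤ : ℕ∞) : WithTop ℕ∞) := rfl
    rw [e]
    exact hf
  exact (contDiff_succ_iff_deriv.1 h).2.2

lemma smooth_iter {f : ℝ → ℂ} (hf : ContDiff ℝ (⊤ : ℕ∞) f) (j : ℕ) :
    ContDiff ℝ (⊤ : ℕ∞) (iteratedDeriv j f) := by
  induction j with
  | zero => rwa [iteratedDeriv_zero]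
  | succ j ih =>
    rw [iteratedDeriv_succ]
    exact smooth_deriv ih

lemma smooth_diff {f : ℝ → ℂ} (hf : ContDiff ℝ (⊤ : ℕ∞) f) (x : ℝ) : DifferentiableAt ℝ f x :=
  (hf.differentiable (by norm_num)).differentiableAt

lemma smooth_Da {f : ℝ → ℂ} (hf : ContDiff ℝ (⊤ : ℕ∞) f) (a : ℝ) :
    ContDiff ℝ (⊤ : ℕ∞) (Da a f) :=
  (smooth_x.mul (smooth_deriv hf)).add (contDiff_const.mul hf)

lemma smooth_Sop {f : ℝ → ℂ} (hf : ContDiff ℝ (⊤ : ℕ∞) f) (n k : ℕ) :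
    ContDiff ℝ (⊤ : ℕ∞) (Sop n k f) := by
  induction k with
  | zero => exact hf
  | succ k ih => exact smooth_Da ih _

lemma smooth_Aj {f : ℝ → ℂ} (hf : ContDiff ℝ (⊤ : ℕ∞) f) (j : ℕ) :
    ContDiff ℝ (⊤ : ℕ∞) (Aj f j) :=
  (smooth_x.pow j).mul (smooth_iter hf j)

lemma deriv_Da {f : ℝ → ℂ} (hf : ContDiff ℝ (⊤ : ℕ∞) f) (a x : ℝ) :
    deriv (Da a f) x = deriv f x + (x : ℂ) * deriv (deriv f) x + (a : ℂ) * deriv f x := by
  have h1 : HasDerivAt f (deriv f x) x := (smooth_diff hf x).hasDerivAt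
  have h2 : HasDerivAt (deriv f) (deriv (deriv f) x) x :=
    (smooth_diff (smooth_deriv hf) x).hasDerivAt
  have h3 : HasDerivAt (Da a f) (1 * deriv f x + (x : ℂ) * deriv (deriv f) x + (a : ℂ) * deriv f x) x :=
    ((hd_x x).mul h2).add (h1.const_mul (a : ℂ))
  rw [h3.deriv, one_mul]

lemma Da_comm {f : ℝ → ℂ} (hf : ContDiff ℝ (⊤ : ℕ∞) f) (a b : ℝ) :
    Da a (Da b f) = Da b (Da a f) := by
  funext x
  show (x : ℂ) * deriv (Da b f) x + (a : ℂ) * Da b f x =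
    (x : ℂ) * deriv (Da a f) x + (b : ℂ) * Da a f x
  rw [deriv_Da hf, deriv_Da hf]
  simp only [Da]
  ring

lemma Da_Sop {f : ℝ → ℂ} (hf : ContDiff ℝ (⊤ : ℕ∞) f) (a : ℝ) (n k : ℕ) :
    Da a (Sop n k f) = Sop n k (Da a f) := by
  induction k with
  | zero => rfl
  | succ k ih =>
    show Da a (Da ((n : ℝ) - k) (Sop n k f)) = Da ((n : ℝ) - k) (Sop n k (Da a f))
    rw [Da_comm (smooth_Sop hf n k), ih]

lemma Da_Aj {h : ℝ → ℂ} (hh : ContDiff ℝ (⊤ : ℕ∞) h) (j : ℕ) :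
    Da (-(j : ℝ)) (Aj h j) = Aj h (j + 1) := by
  funext x
  have h1 : HasDerivAt (iteratedDeriv j h) (iteratedDeriv (j + 1) h x) x := by
    rw [iteratedDeriv_succ]
    exact (smooth_diff (smooth_iter hh j) x).hasDerivAt
  have h2 : HasDerivAt (Aj h j) ((j : ℂ) * (x : ℂ) ^ (j - 1) * iteratedDeriv j h x +
      (x : ℂ) ^ j * iteratedDeriv (j + 1) h x) x := (hd_pow j x).mul h1
  show (x : ℂ) * deriv (Aj h j) x + ((-(j : ℝ) : ℝ) : ℂ) * Aj h j x = Aj h (j + 1) x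
  rw [h2.deriv]
  simp only [Aj]
  rcases j with _ | j
  · simp
  · rw [Nat.add_sub_cancel]
    push_cast
    ring

lemma iter_step {f : ℝ → ℂ} (hf : ContDiff ℝ (⊤ : ℕ∞) f) (m : ℕ) :
    iteratedDeriv (m + 1) (fun t : ℝ => (t : ℂ) ^ (m + 1) * f t) =
      iteratedDeriv m (fun t : ℝ => (t : ℂ) ^ m * Da ((m : ℝ) + 1) f t) := by
  rw [iteratedDeriv_succ']
  congr 1
  funext x
  have h1 : HasDerivAt f (deriv f x) x := (smooth_diff hf x).hasDerivAt
  have h2 : HasDerivAt (fun t : ℝ => (t : ℂ) ^ (m + 1) * f t)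
      (((m + 1 : ℕ) : ℂ) * (x : ℂ) ^ (m + 1 - 1) * f x + (x : ℂ) ^ (m + 1) * deriv f x) x :=
    (hd_pow (m + 1) x).mul h1
  rw [h2.deriv]
  simp only [Da]
  rw [Nat.add_sub_cancel]
  push_cast
  ring

lemma iter_Sop {f : ℝ → ℂ} (hf : ContDiff ℝ (⊤ : ℕ∞) f) (n : ℕ) : ∀ k, k ≤ n →
    iteratedDeriv n (fun t : ℝ => (t : ℂ) ^ n * f t) =
      iteratedDeriv (n - k) (fun t : ℝ => (t : ℂ) ^ (n - k) * Sop n k f t) := by
  intro k
  induction k with
  | zero => intro _; rfl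
  | succ k ih =>
    intro hk
    rw [ih (by omega)]
    obtain ⟨m, hm⟩ : ∃ m, n - k = m + 1 := ⟨n - k - 1, by omega⟩
    have hm' : n - (k + 1) = m := by omega
    have hm2 : (m : ℝ) + 1 = (n : ℝ) - k := by
      have h1 : n = m + 1 + k := by omega
      rw [h1]
      push_cast
      ring
    rw [hm, hm', iter_step (smooth_Sop hf n k), hm2]
    rfl

lemma van_deriv {f : ℝ → ℂ} {R : ℝ} (h : ∀ x, R < x → f x = 0) : ∀ x, R < x → deriv f x = 0 := by
  intro x hx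
  have h1 : f =ᶠ[nhds x] fun _ => (0 : ℂ) := by
    filter_upwards [Ioi_mem_nhds hx] with y hy using h y hy
  rw [h1.deriv_eq]
  simp

lemma van_iter {f : ℝ → ℂ} {R : ℝ} (h : ∀ x, R < x → f x = 0) (j : ℕ) :
    ∀ x, R < x → iteratedDeriv j f x = 0 := by
  induction j with
  | zero => rwa [iteratedDeriv_zero]
  | succ j ih =>
    rw [iteratedDeriv_succ]
    exact van_deriv ih

lemma van_Da {f : ℝ → ℂ} {R : ℝ} (h : ∀ x, R < x → f x = 0) (a : ℝ) :
    ∀ x, R < x → Da a f x = 0 := by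
  intro x hx
  simp only [Da]
  rw [van_deriv h x hx, h x hx]
  ring

lemma van_Sop {f : ℝ → ℂ} {R : ℝ} (h : ∀ x, R < x → f x = 0) (n k : ℕ) :
    ∀ x, R < x → Sop n k f x = 0 := by
  induction k with
  | zero => exact h
  | succ k ih => exact van_Da ih _

lemma van_Aj {f : ℝ → ℂ} {R : ℝ} (h : ∀ x, R < x → f x = 0) (j : ℕ) :
    ∀ x, R < x → Aj f j x = 0 := by
  intro x hx
  simp only [Aj]
  rw [van_iter h j x hx, mul_zero]

theorem main : S_CHN := by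
  intro n h hh hR
  obtain ⟨R, hR⟩ := hR
  have hv : ∀ x, max R 0 < x → h x = 0 := fun x hx => hR x ((le_max_left _ _).trans hx.le)
  refine ⟨fun j => if j < n then Sop n (n - (j + 1)) (Aj h j) else fun _ => 0,
    fun j => if j ≤ n then Sop n (n - j) (Aj h j) else fun _ => 0, max R 0 + 1,
    by positivity, ?_, ?_, ?_, ?_, ?_, ?_, ?_, ?_⟩
  · intro j
    dsimp only
    split_ifs
    · exact smooth_Sop (smooth_Aj hh j) _ _
    · exact contDiff_const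
  · intro j
    dsimp only
    split_ifs
    · exact smooth_Sop (smooth_Aj hh j) _ _
    · exact contDiff_const
  · intro j x hx
    dsimp only
    split_ifs
    · exact van_Sop (van_Aj hv j) _ _ x (by linarith)
    · rfl
  · intro j x hx
    dsimp only
    split_ifs
    · exact van_Sop (van_Aj hv j) _ _ x (by linarith)
    · rfl
  · intro x
    dsimp only
    rw [if_pos le_rfl, Nat.sub_self]
    rfl
  · intro x
    dsimp only
    rw [if_pos (Nat.zero_le n), Nat.sub_zero, iter_Sop hh n n le_rfl, Nat.sub_self]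
    have e : Aj h 0 = h := by
      funext y
      simp [Aj]
    rw [e, iteratedDeriv_zero, pow_zero, one_mul]
  · intro j hj x
    dsimp only
    rw [if_pos hj, if_pos (Nat.succ_le_of_lt hj)]
    have h1 := congrFun (Da_Sop (smooth_Aj hh j) (-(j : ℝ)) n (n - (j + 1))) x
    rw [Da_Aj hh] at h1
    rw [← h1]
    simp only [Da]
    push_cast
    ring
  · intro j hj x
    dsimp only
    rw [if_pos hj, if_pos hj.le]
    obtain ⟨k, hk⟩ : ∃ k, n - (j + 1) = k := ⟨_, rfl⟩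
    have hk' : n - j = k + 1 := by omega
    have hk2 : (n : ℝ) - k = (j : ℝ) + 1 := by
      have h1 : n = k + (j + 1) := by omega
      rw [h1]
      push_cast
      ring
    rw [hk, hk']
    show _ = Da ((n : ℝ) - k) (Sop n k (Aj h j)) x
    rw [hk2]
    simp only [Da]
    push_cast
    ring

end Pool.NH61.FS.Chn
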