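import Pool.Agent.NH61.FS.Def

/-! # Project FS: the core inequality -/

set_option autoImplicit false

open MeasureTheory Set Filter Topology
open scoped SchwartzMap ENNReal

namespace Pool.NH61.FS.Core

open Pool.Agent.Y282.RB (Tn Cn kk th KK)

lemma K_ge (p : ℝ) (n : ℕ) (hn : 1 ≤ n) (hp : 2 ≤ p) : p / 2 ≤ Cn p n := by
  obtain ⟨m, rfl⟩ : ∃ m, n = m + 1 := ⟨n - 1, by omega⟩
  have hp0 : (0 : ℝ) < p := by linarith
  unfold Cn
  rw [Finset.prod_range_succ']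
  have h0 : p / 2 ≤ ((((0 : ℕ) : ℝ) + 1 - 1 / p) / (((0 : ℕ) : ℝ) + 1 / p)) := by
    have : ((((0 : ℕ) : ℝ) + 1 - 1 / p) / (((0 : ℕ) : ℝ) + 1 / p)) = p - 1 := by
      push_cast
      field_simp
      ring
    rw [this]; linarith
  have h1 : 1 ≤ ∏ k ∈ Finset.range m,
      ((((k + 1 : ℕ) : ℝ) + 1 - 1 / p) / (((k + 1 : ℕ) : ℝ) + 1 / p)) := by
    have h2 : (∏ k ∈ Finset.range m, (1 : ℝ)) ≤ ∏ k ∈ Finset.range m,
      ((((k + 1 : ℕ) : ℝ) + 1 - 1 / p) / (((k + 1 : ℕ) : ℝ) + 1 / p)) := by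
      apply Finset.prod_le_prod
      · intro _ _; exact zero_le_one
      · intro k _
        have h3 : 0 < (((k + 1 : ℕ) : ℝ) + 1 / p) := by positivity
        rw [le_div_iff₀ h3]
        have h4 : 1 / p ≤ 1 / 2 := by
          apply one_div_le_one_div_of_le <;> linarith
        linarith
    simpa using h2
  nlinarith

lemma pt_a (u V R p : ℝ) (hu : 0 ≤ u) (hV : 0 ≤ V) (hR : 0 < R) (hp : 2 ≤ p) :
    (u + V) ^ (p - 2) ≤ Real.exp R * u ^ (p - 2) + ((1 + p / R) * V) ^ (p - 2) := by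
  have hp0 : 0 < p := by linarith
  rcases le_or_gt V (R / p * u) with h | h
  · have h1 : (u + V) ^ (p - 2) ≤ ((1 + R / p) * u) ^ (p - 2) :=
      Real.rpow_le_rpow (by linarith) (by nlinarith) (by linarith)
    rw [Real.mul_rpow (by positivity) hu] at h1
    have h2 : (1 + R / p) ^ (p - 2) ≤ Real.exp R := by
      calc (1 + R / p) ^ (p - 2) ≤ (Real.exp (R / p)) ^ (p - 2) :=
            Real.rpow_le_rpow (by positivity) (by linarith [Real.add_one_le_exp (R / p)])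
              (by linarith)
        _ = Real.exp (R / p * (p - 2)) := by rw [← Real.exp_mul]
        _ ≤ Real.exp R := by
            apply Real.exp_le_exp.mpr
            rw [div_mul_eq_mul_div, div_le_iff₀ hp0]; nlinarith
    have h3 : 0 ≤ u ^ (p - 2) := Real.rpow_nonneg hu _
    have h4 : 0 ≤ ((1 + p / R) * V) ^ (p - 2) := Real.rpow_nonneg (by positivity) _
    nlinarith [mul_le_mul_of_nonneg_right h2 h3]
  · have h1 : u ≤ p / R * V := by
      have : R * u < V * p := by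
        rw [div_mul_eq_mul_div, div_lt_iff₀ hp0] at h; exact h
      rw [div_mul_eq_mul_div, le_div_iff₀ hR]; nlinarith
    have h2 : (u + V) ^ (p - 2) ≤ ((1 + p / R) * V) ^ (p - 2) :=
      Real.rpow_le_rpow (by linarith) (by nlinarith) (by linarith)
    have h3 : 0 ≤ Real.exp R * u ^ (p - 2) := by positivity
    linarith

lemma pt_d (x z r : ℝ) (hx : 0 ≤ x) (hz : 0 ≤ z) (hr : 1 < r) :
    x ^ r + r / 2 * (x ^ (r - 1) * z) + 1 / 2 * z ^ r ≤ (x + z) ^ r := by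
  have h1 : x ^ r + z ^ r ≤ (x + z) ^ r := Real.add_rpow_le_rpow_add hx hz hr.le
  have h2 : x ^ r + r * (x ^ (r - 1) * z) ≤ (x + z) ^ r := by
    rcases eq_or_lt_of_le hx with h | h
    · rw [← h, Real.zero_rpow (by linarith), Real.zero_rpow (by linarith)]
      simp only [zero_mul, mul_zero, add_zero, zero_add]
      positivity
    · have h3 := one_add_mul_self_le_rpow_one_add (s := z / x) (by
        have : 0 ≤ z / x := by positivity
        linarith) hr.le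
      have h4 : x + z = x * (1 + z / x) := by field_simp
      rw [h4, Real.mul_rpow hx (by positivity)]
      have h5 : x ^ r + r * (x ^ (r - 1) * z) = x ^ r * (1 + r * (z / x)) := by
        rw [Real.rpow_sub h, Real.rpow_one]
        field_simp
      rw [h5]
      exact mul_le_mul_of_nonneg_left h3 (by positivity)
  linarith

lemma sum_rpow_le {ι : Type} (s : Finset ι) (x : ι → ℝ) (hx : ∀ i, 0 ≤ x i) (r : ℝ) (hr : 1 ≤ r) :
    ∑ i ∈ s, x i ^ r ≤ (∑ i ∈ s, x i) ^ r := by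
  classical
  induction s using Finset.induction_on with
  | empty => simp; positivity
  | insert i s hi ih =>
    rw [Finset.sum_insert hi, Finset.sum_insert hi]
    have := Real.add_rpow_le_rpow_add (hx i) (Finset.sum_nonneg fun j (_ : j ∈ s) => hx j) hr
    linarith

lemma rpow_sum_le {ι : Type} [Fintype ι] (x : ι → ℝ) (hx : ∀ i, 0 ≤ x i) (r N1 : ℝ) (hr : 1 ≤ r)
    (hN : (Fintype.card ι : ℝ) ≤ N1) (hN1 : 1 ≤ N1) :
    (∑ i, x i) ^ r ≤ N1 ^ r * ∑ i, x i ^ r := by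
  have h := Real.rpow_sum_le_const_mul_sum_rpow (s := (Finset.univ : Finset ι)) (f := x) hr
  have h1 : ∀ i, |x i| = x i := fun i => abs_of_nonneg (hx i)
  simp only [h1] at h
  refine h.trans ?_
  apply mul_le_mul_of_nonneg_right _ (Finset.sum_nonneg fun i _ => Real.rpow_nonneg (hx i) _)
  have h2 : (((Finset.univ : Finset ι).card : ℝ)) ≤ N1 := by simpa using hN
  calc (((Finset.univ : Finset ι).card : ℝ)) ^ (r - 1) ≤ N1 ^ (r - 1) :=
        Real.rpow_le_rpow (by positivity) h2 (by linarith)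
    _ ≤ N1 ^ r := Real.rpow_le_rpow_of_exponent_le hN1 (by linarith)

lemma ptT {ι : Type} [Fintype ι] (v : ι → ℝ) (hv : ∀ i, 0 ≤ v i) (u R p N1 : ℝ) (hu : 0 ≤ u)
    (hR : 0 < R) (hp : 4 ≤ p) (hN : (Fintype.card ι : ℝ) ≤ N1) (hN1 : 1 ≤ N1) :
    (∑ i, v i) ^ 2 * (u + ∑ i, v i) ^ (p - 2) ≤
      Real.exp R * N1 * (u ^ (p - 2) * ∑ i, v i ^ 2) +
        (1 + p / R) ^ p * N1 ^ (p / 2) * (∑ i, v i ^ 2) ^ (p / 2) := by
  have hV : 0 ≤ ∑ i, v i := Finset.sum_nonneg fun i _ => hv i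
  have hW : 0 ≤ ∑ i, v i ^ 2 := Finset.sum_nonneg fun i _ => sq_nonneg _
  have hVW : (∑ i, v i) ^ 2 ≤ N1 * ∑ i, v i ^ 2 := by
    have h := sq_sum_le_card_mul_sum_sq (s := (Finset.univ : Finset ι)) (f := v)
    refine h.trans (mul_le_mul_of_nonneg_right ?_ hW)
    simpa using hN
  generalize (∑ i, v i) = V at hV hVW ⊢
  generalize (∑ i, v i ^ 2) = W at hW hVW ⊢
  have h1 := pt_a u V R p hu hV hR (by linarith)
  have h2 : V ^ 2 * (u + V) ^ (p - 2) ≤
      V ^ 2 * (Real.exp R * u ^ (p - 2) + ((1 + p / R) * V) ^ (p - 2)) :=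
    mul_le_mul_of_nonneg_left h1 (sq_nonneg _)
  have hpR : 1 ≤ 1 + p / R := by
    have : 0 < p / R := by positivity
    linarith
  have h3 : V ^ 2 * (Real.exp R * u ^ (p - 2)) ≤ Real.exp R * N1 * (u ^ (p - 2) * W) := by
    have h4 : 0 ≤ Real.exp R * u ^ (p - 2) := by positivity
    nlinarith [mul_le_mul_of_nonneg_right hVW h4]
  have h5 : V ^ 2 * ((1 + p / R) * V) ^ (p - 2) ≤ (1 + p / R) ^ p * N1 ^ (p / 2) * W ^ (p / 2) := by
    rw [Real.mul_rpow (by positivity) hV]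
    have h6 : V ^ 2 * V ^ (p - 2) = V ^ p := by
      rcases eq_or_lt_of_le hV with h | h
      · rw [← h, Real.zero_rpow (show p - 2 ≠ 0 by intro h'; linarith),
          Real.zero_rpow (show p ≠ 0 by intro h'; linarith)]; simp
      · rw [← Real.rpow_natCast, ← Real.rpow_add h]; congr 1; push_cast; ring
    have h7 : V ^ p ≤ N1 ^ (p / 2) * W ^ (p / 2) := by
      rw [← Real.mul_rpow (by positivity) hW]
      have h8 : V ^ p = (V ^ 2) ^ (p / 2) := by
        rw [← Real.rpow_natCast, ← Real.rpow_mul hV]; congr 1; push_cast; ring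
      rw [h8]
      exact Real.rpow_le_rpow (sq_nonneg _) hVW (by linarith)
    have h9 : (1 + p / R) ^ (p - 2) ≤ (1 + p / R) ^ p :=
      Real.rpow_le_rpow_of_exponent_le hpR (by linarith)
    calc V ^ 2 * ((1 + p / R) ^ (p - 2) * V ^ (p - 2))
        = (1 + p / R) ^ (p - 2) * (V ^ 2 * V ^ (p - 2)) := by ring
      _ = (1 + p / R) ^ (p - 2) * V ^ p := by rw [h6]
      _ ≤ (1 + p / R) ^ p * (N1 ^ (p / 2) * W ^ (p / 2)) :=
          mul_le_mul h9 h7 (by positivity) (by positivity)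
      _ = _ := by ring
  calc _ ≤ _ := h2
    _ = V ^ 2 * (Real.exp R * u ^ (p - 2)) + V ^ 2 * ((1 + p / R) * V) ^ (p - 2) := by ring
    _ ≤ _ := add_le_add h3 h5

lemma four_rpow_ge (p : ℝ) (hp : 2 ≤ p) : 4 * p ^ 2 ≤ (4 : ℝ) ^ p := by
  have h1 : p ≤ (2 : ℝ) ^ (p - 1) := by
    have h := one_add_mul_self_le_rpow_one_add (s := 1) (by norm_num) (p := p - 1) (by linarith)
    norm_num at h
    linarith
  have h2 : (2 : ℝ) ^ p = 2 * 2 ^ (p - 1) := by
    rw [Real.rpow_sub (by norm_num), Real.rpow_one]; ring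
  have h3 : (4 : ℝ) ^ p = ((2 : ℝ) ^ p) ^ 2 := by
    have : (4 : ℝ) = 2 ^ (2 : ℝ) := by norm_num
    rw [this, ← Real.rpow_mul (by norm_num), ← Real.rpow_natCast, ← Real.rpow_mul (by norm_num)]
    congr 1; push_cast; ring
  rw [h3, h2]
  nlinarith

lemma num (p K Q D M G N1 B' R : ℝ) (hp16 : 16 ≤ p) (hK : p / 2 ≤ K) (hQ : 0 < Q) (hD : 1 ≤ D)
    (_hM : 1 ≤ M) (hN1 : 1 ≤ N1) (hB' : 1 ≤ B') (hG : G = √N1 * B') (hR : R = 16 * N1 * B')
    (h1 : 16 * N1 * B' ≤ p) (h2 : 16 * Q * M ≤ p) (h3 : 1024 * Q * D * G ^ 2 ≤ p) :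
    (p ^ 2 * Q) * (M * K ^ (p - 2)) ≤ p / 4 * K ^ p ∧
    (p ^ 2 * Q) * (D * (64 * G ^ 2 / p ^ 2) ^ (-((p - 2) / 2)) * (1 + G ^ p)) ≤ K ^ p / 8 ∧
    p ^ 2 / 2 * ((1 + p / R) ^ p * N1 ^ (p / 2) * G ^ p) ≤ K ^ p / 8 := by
  have hp0 : 0 < p := by linarith
  have hK0 : 0 < K := by linarith
  have hs : 1 ≤ √N1 := by rw [Real.one_le_sqrt]; exact hN1
  have hG1 : 1 ≤ G := by rw [hG]; nlinarith
  have h4 := four_rpow_ge p (by linarith)
  have hKp : (p / 2) ^ p ≤ K ^ p := Real.rpow_le_rpow (by positivity) hK hp0.le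
  have h8 : (4 : ℝ) ^ p * (p / 8) ^ p = (p / 2) ^ p := by
    rw [← Real.mul_rpow (by norm_num) (by positivity)]; congr 1; ring
  refine ⟨?_, ?_, ?_⟩
  · have e : K ^ p = K ^ (p - 2) * K ^ 2 := by
      rw [← Real.rpow_natCast, ← Real.rpow_add hK0]; congr 1; push_cast; ring
    rw [e]
    have h5 : p ^ 2 * Q * M ≤ p / 4 * K ^ 2 := by
      have : p ^ 2 / 4 ≤ K ^ 2 := by nlinarith
      nlinarith [mul_le_mul_of_nonneg_left this hp0.le, mul_le_mul_of_nonneg_left h2 (sq_nonneg p)]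
    have h6 : 0 ≤ K ^ (p - 2) := by positivity
    nlinarith [mul_le_mul_of_nonneg_right h5 h6]
  · have e1 : (64 * G ^ 2 / p ^ 2) ^ (-((p - 2) / 2)) = (p / (8 * G)) ^ (p - 2) := by
      have : 64 * G ^ 2 / p ^ 2 = ((p / (8 * G)) ^ (-2 : ℝ)) := by
        rw [Real.rpow_neg (by positivity)]
        norm_num
        field_simp
        norm_num
      rw [this, ← Real.rpow_mul (by positivity)]
      congr 1; ring
    have e2 : (p / (8 * G)) ^ (p - 2) * p ^ 2 = 64 * G ^ 2 * (p / (8 * G)) ^ p := by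
      have : (p / (8 * G)) ^ p = (p / (8 * G)) ^ (p - 2) * (p / (8 * G)) ^ 2 := by
        rw [← Real.rpow_natCast, ← Real.rpow_add (by positivity)]; congr 1; push_cast; ring
      rw [this]
      field_simp
      norm_num
    have e3 : (p / (8 * G)) ^ p * G ^ p = (p / 8) ^ p := by
      rw [← Real.mul_rpow (by positivity) (by positivity)]; congr 1; field_simp
    have h5 : 1 + G ^ p ≤ 2 * G ^ p := by
      have : 1 ≤ G ^ p := Real.one_le_rpow hG1 hp0.le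
      linarith
    rw [e1]
    calc (p ^ 2 * Q) * (D * (p / (8 * G)) ^ (p - 2) * (1 + G ^ p))
        ≤ (p ^ 2 * Q) * (D * (p / (8 * G)) ^ (p - 2) * (2 * G ^ p)) := by gcongr
      _ = 2 * Q * D * ((p / (8 * G)) ^ (p - 2) * p ^ 2) * G ^ p := by ring
      _ = 128 * Q * D * G ^ 2 * ((p / (8 * G)) ^ p * G ^ p) := by rw [e2]; ring
      _ = 128 * Q * D * G ^ 2 * (p / 8) ^ p := by rw [e3]
      _ ≤ (4 : ℝ) ^ p / 8 * (p / 8) ^ p := by
          apply mul_le_mul_of_nonneg_right _ (by positivity)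
          nlinarith
      _ = (p / 2) ^ p / 8 := by rw [← h8]; ring
      _ ≤ K ^ p / 8 := by linarith
  · have hs2 : √N1 * √N1 = N1 := Real.mul_self_sqrt (by linarith)
    have e1 : (1 + p / R) ^ p * N1 ^ (p / 2) * G ^ p = ((1 + p / R) * √N1 * G) ^ p := by
      have hR0 : 0 < R := by rw [hR]; positivity
      rw [Real.mul_rpow (by positivity) (by positivity), Real.mul_rpow (by positivity)
        (by positivity)]
      congr 2
      rw [Real.sqrt_eq_rpow, ← Real.rpow_mul (by positivity)]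
      congr 1; ring
    have e2 : (1 + p / R) * √N1 * G ≤ p / 8 := by
      rw [hG]
      have : (1 + p / R) * √N1 * (√N1 * B') = (1 + p / R) * (N1 * B') := by
        calc (1 + p / R) * √N1 * (√N1 * B') = (1 + p / R) * ((√N1 * √N1) * B') := by ring
          _ = _ := by rw [hs2]
      rw [this, hR]
      have h6 : (1 + p / (16 * N1 * B')) * (N1 * B') = N1 * B' + p / 16 := by
        field_simp
      rw [h6]
      linarith
    rw [e1]
    have hR0 : 0 < R := by rw [hR]; positivity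
    calc p ^ 2 / 2 * ((1 + p / R) * √N1 * G) ^ p ≤ p ^ 2 / 2 * (p / 8) ^ p := by gcongr
      _ ≤ (4 : ℝ) ^ p / 8 * (p / 8) ^ p := by
          apply mul_le_mul_of_nonneg_right _ (by positivity)
          linarith
      _ = (p / 2) ^ p / 8 := by rw [← h8]; ring
      _ ≤ K ^ p / 8 := by linarith

lemma wp_le (μ : Measure ℝ) (ι : Type) [Fintype ι] (a v : ι → ℝ → ℝ)
    (ham : ∀ i, Measurable (a i)) (ha0 : ∀ i t, 0 ≤ a i t)
    (hvm : ∀ i, Measurable (v i)) (hv0 : ∀ i t, 0 ≤ v i t) (p N1 B' G : ℝ) (hp : 16 ≤ p)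
    (hN1 : 1 ≤ N1) (hB' : 0 ≤ B') (hG : G = √N1 * B') (hcard : (Fintype.card ι : ℝ) ≤ N1)
    (hv : ∀ i, ∫⁻ t, ENNReal.ofReal (v i t ^ p) ∂μ ≤
      ENNReal.ofReal (B' ^ p) * ∫⁻ t, ENNReal.ofReal (a i t ^ p) ∂μ) :
    ∫⁻ t, ENNReal.ofReal ((∑ i, v i t ^ 2) ^ (p / 2)) ∂μ ≤
      ENNReal.ofReal (G ^ p) * ∫⁻ t, ENNReal.ofReal ((∑ i, a i t ^ 2) ^ (p / 2)) ∂μ := by
  have hsq : ∀ x : ℝ, 0 ≤ x → (x ^ 2) ^ (p / 2) = x ^ p := by
    intro x hx
    rw [← Real.rpow_natCast, ← Real.rpow_mul hx]; congr 1; push_cast; ring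
  have hGp : ENNReal.ofReal (G ^ p) = ENNReal.ofReal (N1 ^ (p / 2)) * ENNReal.ofReal (B' ^ p) := by
    rw [← ENNReal.ofReal_mul (by positivity), hG, Real.mul_rpow (by positivity) hB']
    congr 2
    rw [Real.sqrt_eq_rpow, ← Real.rpow_mul (by positivity)]
    congr 1; ring
  calc ∫⁻ t, ENNReal.ofReal ((∑ i, v i t ^ 2) ^ (p / 2)) ∂μ
      ≤ ∫⁻ t, ENNReal.ofReal (N1 ^ (p / 2)) * ∑ i, ENNReal.ofReal (v i t ^ p) ∂μ := by
        apply lintegral_mono
        intro t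
        show ENNReal.ofReal ((∑ i, v i t ^ 2) ^ (p / 2)) ≤
          ENNReal.ofReal (N1 ^ (p / 2)) * ∑ i, ENNReal.ofReal (v i t ^ p)
        rw [← ENNReal.ofReal_sum_of_nonneg (fun i _ => Real.rpow_nonneg (hv0 i t) _),
          ← ENNReal.ofReal_mul (by positivity)]
        apply ENNReal.ofReal_le_ofReal
        have h := rpow_sum_le (fun i => v i t ^ 2) (fun i => sq_nonneg _) (p / 2) N1 (by linarith)
          hcard hN1
        simpa only [hsq _ (hv0 _ t)] using h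
    _ = ENNReal.ofReal (N1 ^ (p / 2)) * ∑ i, ∫⁻ t, ENNReal.ofReal (v i t ^ p) ∂μ := by
        rw [lintegral_const_mul' _ _ ENNReal.ofReal_ne_top, lintegral_finsetSum]
        intro i _
        exact ((hvm i).pow_const p).ennreal_ofReal
    _ ≤ ENNReal.ofReal (N1 ^ (p / 2)) *
        ∑ i, ENNReal.ofReal (B' ^ p) * ∫⁻ t, ENNReal.ofReal (a i t ^ p) ∂μ := by
        gcongr with i _
        exact hv i
    _ = ENNReal.ofReal (G ^ p) * ∫⁻ t, ∑ i, ENNReal.ofReal (a i t ^ p) ∂μ := by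
        rw [← Finset.mul_sum, ← mul_assoc, hGp, lintegral_finsetSum]
        intro i _
        exact ((ham i).pow_const p).ennreal_ofReal
    _ ≤ _ := by
        gcongr with t
        rw [← ENNReal.ofReal_sum_of_nonneg (fun i _ => Real.rpow_nonneg (ha0 i t) _)]
        apply ENNReal.ofReal_le_ofReal
        have h := sum_rpow_le Finset.univ (fun i => a i t ^ 2) (fun i => sq_nonneg _) (p / 2)
          (by linarith)
        simpa only [hsq _ (ha0 _ t)] using h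

lemma rhs_ge (ι : Type) [Fintype ι] (μ : Measure ℝ) (f : ℝ → ℝ) (a : ι → ℝ → ℝ)
    (hf : Measurable f) (hf0 : ∀ t, 0 ≤ f t) (ham : ∀ i, Measurable (a i))
    (K p : ℝ) (hp : 16 ≤ p) (hK : 0 < K) :
    ENNReal.ofReal (K ^ p) * ∫⁻ t, ENNReal.ofReal (f t ^ p) ∂μ +
      ENNReal.ofReal (p / 4 * K ^ p) *
        ∫⁻ t, ENNReal.ofReal (f t ^ (p - 2) * ∑ i, a i t ^ 2) ∂μ +
      ENNReal.ofReal (K ^ p / 4) * ∫⁻ t, ENNReal.ofReal ((∑ i, a i t ^ 2) ^ (p / 2)) ∂μ ≤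
      ENNReal.ofReal (K ^ p) *
      ∫⁻ t, ENNReal.ofReal ((f t ^ 2 + ∑ i, a i t ^ 2) ^ (p / 2)) ∂μ := by
  have hmA : Measurable fun t => ENNReal.ofReal (f t ^ (p - 2) * ∑ i, a i t ^ 2) :=
    ((hf.pow_const _).mul (Finset.measurable_sum _ fun i _ => (ham i).pow_const 2)).ennreal_ofReal
  have hmf : Measurable fun t => ENNReal.ofReal (f t ^ p) := (hf.pow_const _).ennreal_ofReal
  have hmfA : Measurable fun t => ENNReal.ofReal (K ^ p) * ENNReal.ofReal (f t ^ p) +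
      ENNReal.ofReal (p / 4 * K ^ p) * ENNReal.ofReal (f t ^ (p - 2) * ∑ i, a i t ^ 2) :=
    (hmf.const_mul _).add (hmA.const_mul _)
  rw [← lintegral_const_mul' _ _ ENNReal.ofReal_ne_top,
    ← lintegral_const_mul' _ _ ENNReal.ofReal_ne_top,
    ← lintegral_const_mul' _ _ ENNReal.ofReal_ne_top,
    ← lintegral_const_mul' _ _ ENNReal.ofReal_ne_top,
    ← lintegral_add_left (hmf.const_mul _),
    ← lintegral_add_left hmfA]
  apply lintegral_mono
  intro t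
  show ENNReal.ofReal _ * ENNReal.ofReal _ + ENNReal.ofReal _ * ENNReal.ofReal _ +
    ENNReal.ofReal _ * ENNReal.ofReal _ ≤ ENNReal.ofReal _ * ENNReal.ofReal _
  have hf0' := hf0 t
  have hAn : 0 ≤ ∑ i, a i t ^ 2 := Finset.sum_nonneg fun i _ => sq_nonneg _
  rw [← ENNReal.ofReal_mul (by positivity), ← ENNReal.ofReal_mul (by positivity),
    ← ENNReal.ofReal_mul (by positivity), ← ENNReal.ofReal_mul (by positivity),
    ← ENNReal.ofReal_add (by positivity) (by positivity),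
    ← ENNReal.ofReal_add (by positivity) (by positivity)]
  apply ENNReal.ofReal_le_ofReal
  have h := pt_d (f t ^ 2) (∑ i, a i t ^ 2) (p / 2) (sq_nonneg _) hAn (by linarith)
  have e1 : (f t ^ 2) ^ (p / 2) = f t ^ p := by
    rw [← Real.rpow_natCast, ← Real.rpow_mul hf0']; congr 1; push_cast; ring
  have e2 : (f t ^ 2) ^ (p / 2 - 1) = f t ^ (p - 2) := by
    rw [← Real.rpow_natCast, ← Real.rpow_mul hf0']; congr 1; push_cast; ring
  rw [e1, e2] at h
  have hKp : 0 ≤ K ^ p := by positivity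
  have h5 : 0 ≤ (∑ i, a i t ^ 2) ^ (p / 2) := by positivity
  nlinarith [mul_le_mul_of_nonneg_left h hKp, mul_nonneg hKp h5]

lemma assemble (ι : Type) [Fintype ι] (μ : Measure ℝ) (u f : ℝ → ℝ) (a v : ι → ℝ → ℝ)
    (hu : Measurable u) (hf : Measurable f) (hu0 : ∀ t, 0 ≤ u t) (hf0 : ∀ t, 0 ≤ f t)
    (ham : ∀ i, Measurable (a i)) (ha0 : ∀ i t, 0 ≤ a i t)
    (hvm : ∀ i, Measurable (v i)) (hv0 : ∀ i t, 0 ≤ v i t)
    (K p Q D M G N1 B' R I η ε : ℝ) (hp : 16 ≤ p) (hK : 0 < K) (hQ : 0 < Q)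
    (hQd : Q = N1 * Real.exp R / 2) (hD : 0 < D) (_hM : 0 < M) (hN1 : 1 ≤ N1) (hB' : 0 ≤ B')
    (hG : G = √N1 * B') (hR0 : 0 < R) (_hI : 0 ≤ I) (hη : 0 < η)
    (hcard : (Fintype.card ι : ℝ) ≤ N1) (hηε : p ^ 2 * Q * (ε * η) = 1)
    (n1 : (p ^ 2 * Q) * (M * K ^ (p - 2)) ≤ p / 4 * K ^ p)
    (n2 : (p ^ 2 * Q) * (D * η ^ (-((p - 2) / 2)) * (1 + G ^ p)) ≤ K ^ p / 8)
    (n3 : p ^ 2 / 2 * ((1 + p / R) ^ p * N1 ^ (p / 2) * G ^ p) ≤ K ^ p / 8)
    (hIe : ∫⁻ t, ENNReal.ofReal (u t ^ p) ∂μ + ENNReal.ofReal I =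
      ENNReal.ofReal (K ^ p) * ∫⁻ t, ENNReal.ofReal (f t ^ p) ∂μ)
    (hcc : ∫⁻ t, ENNReal.ofReal (u t ^ (p - 2) * ∑ i, v i t ^ 2) ∂μ ≤
      ENNReal.ofReal (M * K ^ (p - 2)) *
        ∫⁻ t, ENNReal.ofReal (f t ^ (p - 2) * ∑ i, a i t ^ 2) ∂μ +
      ENNReal.ofReal (ε * η * I) +
      ENNReal.ofReal (D * η ^ (-((p - 2) / 2))) *
        (∫⁻ t, ENNReal.ofReal ((∑ i, a i t ^ 2) ^ (p / 2)) ∂μ +
          ∫⁻ t, ENNReal.ofReal ((∑ i, v i t ^ 2) ^ (p / 2)) ∂μ))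
    (hv : ∀ i, ∫⁻ t, ENNReal.ofReal (v i t ^ p) ∂μ ≤
      ENNReal.ofReal (B' ^ p) * ∫⁻ t, ENNReal.ofReal (a i t ^ p) ∂μ) :
    ∫⁻ t, ENNReal.ofReal (u t ^ p) ∂μ + ENNReal.ofReal (p ^ 2 / 2) *
      ∫⁻ t, ENNReal.ofReal ((∑ i, v i t) ^ 2 * (u t + ∑ i, v i t) ^ (p - 2)) ∂μ ≤
    ENNReal.ofReal (K ^ p) *
      ∫⁻ t, ENNReal.ofReal ((f t ^ 2 + ∑ i, a i t ^ 2) ^ (p / 2)) ∂μ := by
  have hW := wp_le μ ι a v ham ha0 hvm hv0 p N1 B' G hp hN1 hB' hG hcard hv
  have hG0 : 0 ≤ G := by rw [hG]; positivity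
  have hmW : Measurable fun t => ENNReal.ofReal (u t ^ (p - 2) * ∑ i, v i t ^ 2) :=
    ((hu.pow_const _).mul (Finset.measurable_sum _ fun i _ => (hvm i).pow_const 2)).ennreal_ofReal
  -- the cross term
  have hT : ∫⁻ t, ENNReal.ofReal ((∑ i, v i t) ^ 2 * (u t + ∑ i, v i t) ^ (p - 2)) ∂μ ≤
      ENNReal.ofReal (Real.exp R * N1) *
        ∫⁻ t, ENNReal.ofReal (u t ^ (p - 2) * ∑ i, v i t ^ 2) ∂μ +
      ENNReal.ofReal ((1 + p / R) ^ p * N1 ^ (p / 2)) *
        ∫⁻ t, ENNReal.ofReal ((∑ i, v i t ^ 2) ^ (p / 2)) ∂μ := by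
    rw [← lintegral_const_mul' _ _ ENNReal.ofReal_ne_top,
      ← lintegral_const_mul' _ _ ENNReal.ofReal_ne_top,
      ← lintegral_add_left (hmW.const_mul _)]
    apply lintegral_mono
    intro t
    show ENNReal.ofReal _ ≤ ENNReal.ofReal _ * ENNReal.ofReal _ +
      ENNReal.ofReal _ * ENNReal.ofReal _
    have hu0' := hu0 t
    have hWn : 0 ≤ ∑ i, v i t ^ 2 := Finset.sum_nonneg fun i _ => sq_nonneg _
    rw [← ENNReal.ofReal_mul (by positivity), ← ENNReal.ofReal_mul (by positivity),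
      ← ENNReal.ofReal_add (by positivity) (by positivity)]
    apply ENNReal.ofReal_le_ofReal
    exact ptT (fun i => v i t) (fun i => hv0 i t) (u t) R p N1 (hu0 t) hR0 (by linarith) hcard hN1
  -- the right side
  have hd := rhs_ge ι μ f a hf hf0 ham K p hp hK
  refine le_trans ?_ hd
  set U := ∫⁻ t, ENNReal.ofReal (u t ^ p) ∂μ
  set X := ∫⁻ t, ENNReal.ofReal (f t ^ (p - 2) * ∑ i, a i t ^ 2) ∂μ
  set Ap := ∫⁻ t, ENNReal.ofReal ((∑ i, a i t ^ 2) ^ (p / 2)) ∂μ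
  set Wp := ∫⁻ t, ENNReal.ofReal ((∑ i, v i t ^ 2) ^ (p / 2)) ∂μ
  set J := ∫⁻ t, ENNReal.ofReal (u t ^ (p - 2) * ∑ i, v i t ^ 2) ∂μ
  rw [← hIe]
  have hGp0 : 0 ≤ G ^ p := by positivity
  have hAW : Ap + Wp ≤ ENNReal.ofReal (1 + G ^ p) * Ap := by
    rw [ENNReal.ofReal_add zero_le_one hGp0, add_mul, ENNReal.ofReal_one, one_mul]
    exact add_le_add le_rfl hW
  calc U + ENNReal.ofReal (p ^ 2 / 2) *
      ∫⁻ t, ENNReal.ofReal ((∑ i, v i t) ^ 2 * (u t + ∑ i, v i t) ^ (p - 2)) ∂μ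
      ≤ U + ENNReal.ofReal (p ^ 2 / 2) * (ENNReal.ofReal (Real.exp R * N1) *
        (ENNReal.ofReal (M * K ^ (p - 2)) * X + ENNReal.ofReal (ε * η * I) +
          ENNReal.ofReal (D * η ^ (-((p - 2) / 2))) * (ENNReal.ofReal (1 + G ^ p) * Ap)) +
        ENNReal.ofReal ((1 + p / R) ^ p * N1 ^ (p / 2)) * (ENNReal.ofReal (G ^ p) * Ap)) := by
        refine add_le_add le_rfl (mul_le_mul' le_rfl (hT.trans ?_))
        refine add_le_add (mul_le_mul' le_rfl (hcc.trans ?_)) (mul_le_mul' le_rfl hW)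
        exact add_le_add le_rfl (mul_le_mul' le_rfl hAW)
    _ = U + (ENNReal.ofReal ((p ^ 2 * Q) * (M * K ^ (p - 2))) * X + ENNReal.ofReal I +
        ENNReal.ofReal ((p ^ 2 * Q) * (D * η ^ (-((p - 2) / 2)) * (1 + G ^ p))) * Ap +
        ENNReal.ofReal (p ^ 2 / 2 * ((1 + p / R) ^ p * N1 ^ (p / 2) * G ^ p)) * Ap) := by
        have e0 : ENNReal.ofReal (p ^ 2 / 2) * ENNReal.ofReal (Real.exp R * N1) =
            ENNReal.ofReal (p ^ 2 * Q) := by
          rw [← ENNReal.ofReal_mul (by positivity), hQd]; congr 1; ring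
        have e1 : ENNReal.ofReal ((p ^ 2 * Q) * (M * K ^ (p - 2))) =
            ENNReal.ofReal (p ^ 2 * Q) * ENNReal.ofReal (M * K ^ (p - 2)) :=
          ENNReal.ofReal_mul (by positivity)
        have e2 : ENNReal.ofReal I = ENNReal.ofReal (p ^ 2 * Q) * ENNReal.ofReal (ε * η * I) := by
          rw [← ENNReal.ofReal_mul (by positivity)]
          congr 1
          calc I = 1 * I := by ring
            _ = (p ^ 2 * Q * (ε * η)) * I := by rw [hηε]
            _ = _ := by ring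
        have e3 : ENNReal.ofReal ((p ^ 2 * Q) * (D * η ^ (-((p - 2) / 2)) * (1 + G ^ p))) =
            ENNReal.ofReal (p ^ 2 * Q) * (ENNReal.ofReal (D * η ^ (-((p - 2) / 2))) *
              ENNReal.ofReal (1 + G ^ p)) := by
          rw [ENNReal.ofReal_mul (p := p ^ 2 * Q) (by positivity),
            ENNReal.ofReal_mul (p := D * η ^ (-((p - 2) / 2))) (by positivity)]
        have e4 : ENNReal.ofReal (p ^ 2 / 2 * ((1 + p / R) ^ p * N1 ^ (p / 2) * G ^ p)) =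
            ENNReal.ofReal (p ^ 2 / 2) * (ENNReal.ofReal ((1 + p / R) ^ p * N1 ^ (p / 2)) *
              ENNReal.ofReal (G ^ p)) := by
          rw [ENNReal.ofReal_mul (p := p ^ 2 / 2) (by positivity),
            ENNReal.ofReal_mul (p := (1 + p / R) ^ p * N1 ^ (p / 2)) (by positivity)]
        rw [e1, e2, e3, e4, ← e0]
        ring
    _ ≤ U + (ENNReal.ofReal (p / 4 * K ^ p) * X + ENNReal.ofReal I +
        ENNReal.ofReal (K ^ p / 8) * Ap + ENNReal.ofReal (K ^ p / 8) * Ap) := by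
        gcongr
    _ = (U + ENNReal.ofReal I) + ENNReal.ofReal (p / 4 * K ^ p) * X +
        ENNReal.ofReal (K ^ p / 4) * Ap := by
        have e5 : ENNReal.ofReal (K ^ p / 4) =
            ENNReal.ofReal (K ^ p / 8) + ENNReal.ofReal (K ^ p / 8) := by
          rw [← ENNReal.ofReal_add (by positivity) (by positivity)]; congr 1; ring
        rw [e5]
        ring

theorem main (h1 : S_CC) : S_CORE := by
  intro n N B B' hn hB hB'
  obtain ⟨D, hD, hcc⟩ := h1 n B hn hB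
  set N1 : ℝ := (N : ℝ) + 1 with hN1def
  have hN1 : 1 ≤ N1 := by rw [hN1def]; have : (0 : ℝ) ≤ N := Nat.cast_nonneg _; linarith
  set R : ℝ := 16 * N1 * B' with hR
  have hR0 : 0 < R := by rw [hR]; positivity
  set Q : ℝ := N1 * Real.exp R / 2 with hQdef
  have hQ : 0 < Q := by rw [hQdef]; positivity
  set G : ℝ := √N1 * B' with hG
  have hs : 1 ≤ √N1 := by rw [Real.one_le_sqrt]; exact hN1
  have hG1 : 1 ≤ G := by rw [hG]; nlinarith
  have hQ1 : 1 ≤ Q := by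
    rw [hQdef]
    have h2 : R + 1 ≤ Real.exp R := Real.add_one_le_exp R
    have h3 : 16 ≤ R := by rw [hR]; nlinarith
    nlinarith
  have hε0 : 0 < 1 / (64 * G ^ 2 * Q) := by positivity
  have hε1 : 1 / (64 * G ^ 2 * Q) ≤ 1 := by
    rw [div_le_one (by positivity)]
    nlinarith [mul_le_mul hG1 hG1 zero_le_one (by linarith)]
  obtain ⟨M, p1, hM, hp1, hcc2⟩ := hcc _ hε0 hε1
  refine ⟨max p1 (max (16 * N1 * B') (max (16 * Q * M) (1024 * Q * D * G ^ 2))),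
    hp1.trans (le_max_left _ _), ?_⟩
  intro p hp ι _ hcard h hh hhR a β v hac ha0 has hβ hvm hv0 hva hvp
  have hpp1 : p1 ≤ p := (le_max_left _ _).trans hp
  have hpa : 16 * N1 * B' ≤ p := ((le_max_left _ _).trans (le_max_right _ _)).trans hp
  have hpb : 16 * Q * M ≤ p :=
    (((le_max_left _ _).trans (le_max_right _ _)).trans (le_max_right _ _)).trans hp
  have hpc : 1024 * Q * D * G ^ 2 ≤ p :=
    (((le_max_right _ _).trans (le_max_right _ _)).trans (le_max_right _ _)).trans hp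
  have hp16 : 16 ≤ p := hp1.trans hpp1
  have hp0 : 0 < p := by linarith
  have hcardN1 : (Fintype.card ι : ℝ) ≤ N1 := by
    have : (Fintype.card ι : ℝ) ≤ N := by exact_mod_cast hcard
    linarith
  obtain ⟨I, hI, hIe, hcc3⟩ := hcc2 p hpp1 h hh hhR
  have hcc4 := hcc3 ι a β v hac ha0 has hβ hvm hv0 hva (64 * G ^ 2 / p ^ 2) (by positivity)
  have hK := K_ge p n hn (by linarith)
  obtain ⟨n1, n2, n3⟩ := num p (Cn p n) Q D M G N1 B' R hp16 hK hQ hD hM hN1 hB' hG hR hpa hpb hpc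
  -- continuity
  have hu_c : Continuous fun t : ℝ =>
      ‖iteratedDeriv n (fun x : ℝ => (x : ℂ) ^ n * h x) t‖ := by
    have hc : ContDiff ℝ (⊤ : ℕ∞) (fun x : ℝ => (x : ℂ) ^ n * h x) :=
      (Complex.ofRealCLM.contDiff.pow n).mul hh
    exact (hc.continuous_iteratedDeriv n (by exact_mod_cast le_top)).norm
  have hf_c : Continuous fun t : ℝ => ‖(t : ℂ) ^ n * iteratedDeriv n h t‖ :=
    (((Complex.continuous_ofReal).pow n).mul
      (hh.continuous_iteratedDeriv n (by exact_mod_cast le_top))).norm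
  have hηε : p ^ 2 * Q * (1 / (64 * G ^ 2 * Q) * (64 * G ^ 2 / p ^ 2)) = 1 := by
    field_simp
  exact assemble ι (volume.restrict (Ioi (0 : ℝ)))
    (fun t => ‖iteratedDeriv n (fun x : ℝ => (x : ℂ) ^ n * h x) t‖)
    (fun t => ‖(t : ℂ) ^ n * iteratedDeriv n h t‖) a v hu_c.measurable hf_c.measurable (fun t => norm_nonneg _)
    (fun t => norm_nonneg _) (fun i => (hac i).measurable) ha0 hvm hv0 (Cn p n) p Q D M G N1 B' R I
    (64 * G ^ 2 / p ^ 2) (1 / (64 * G ^ 2 * Q)) hp16 (by linarith) hQ hQdef (by linarith)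
    (by linarith) hN1 (by linarith) hG hR0 hI (by positivity) hcardN1 hηε n1 n2 n3 hIe hcc4 hvp

end Pool.NH61.FS.Core
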