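import Pool.Agent.NH61.FS.Def

/-! # Project FS: the cross term, one kernel -/

set_option autoImplicit false

open MeasureTheory Set Filter Topology
open scoped SchwartzMap ENNReal

namespace Pool.NH61.FS.Crs

theorem measurable_rho : Measurable rho := by
  unfold rho
  exact measurable_id.max measurable_inv

theorem one_le_rho {y : ℝ} (hy : 0 < y) : 1 ≤ rho y := by
  unfold rho
  rcases le_total 1 y with h | h
  · exact le_max_of_le_left h
  · exact le_max_of_le_right ((one_le_inv₀ hy).2 h)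

theorem rho_inv {y : ℝ} : rho y⁻¹ = rho y := by
  unfold rho
  rw [inv_inv, max_comm]

/-- `ρ` is bounded between `s` and `s / y` -/
theorem rho_between {s y t : ℝ} (hs : 0 < s) (hy : 0 < y) (ht : t ∈ Set.uIoc s (s / y)) :
    rho (t / s) ≤ rho y := by
  have ht0 : 0 < t := by
    rcases le_total s (s / y) with h | h
    · rw [Set.uIoc_of_le h] at ht
      exact hs.trans ht.1
    · rw [Set.uIoc_of_ge h] at ht
      exact (div_pos hs hy).trans ht.1
  unfold rho
  rcases le_total s (s / y) with h | h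
  · rw [Set.uIoc_of_le h] at ht
    have h1 : 1 < t / s := (one_lt_div hs).2 ht.1
    have h2 : t / s ≤ y⁻¹ := by
      rw [div_le_iff₀ hs]
      calc t ≤ s / y := ht.2
        _ = y⁻¹ * s := by rw [div_eq_mul_inv, mul_comm]
    have h3 : (t / s)⁻¹ ≤ 1 := inv_le_one_of_one_le₀ h1.le
    exact max_le (h2.trans (le_max_right _ _)) ((h3.trans (h1.le.trans h2)).trans (le_max_right _ _))
  · rw [Set.uIoc_of_ge h] at ht
    have h1 : t / s ≤ 1 := (div_le_one hs).2 ht.2
    have h2 : (t / s)⁻¹ ≤ y := by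
      rw [inv_div, div_le_iff₀ ht0]
      have := ht.1.le
      rw [div_le_iff₀ hy] at this
      linarith [mul_comm y t]
    have h3 : 1 ≤ (t / s)⁻¹ := (one_le_inv₀ (div_pos ht0 hs)).2 h1
    exact max_le ((h1.trans (h3.trans h2)).trans (le_max_left _ _)) (h2.trans (le_max_left _ _))

/-- the integral of `δ` between `s` and `s / y` -/
theorem int_le {δ : ℝ → ℝ} (hδ : Continuous δ) (hδ0 : ∀ t, 0 ≤ δ t) {s y : ℝ} (hs : 0 < s)
    (hy : 0 < y) :
    ENNReal.ofReal (|∫ x in s..s / y, δ x| / s) ≤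
      ENNReal.ofReal (rho y ^ (1 / 16 : ℝ)) * Zs δ s := by
  have hi : IntegrableOn δ (Set.uIoc s (s / y)) volume :=
    intervalIntegrable_iff.1 (hδ.intervalIntegrable _ _)
  have h1 : |∫ x in s..s / y, δ x| ≤ ∫ x in Set.uIoc s (s / y), δ x := by
    rw [intervalIntegral.abs_intervalIntegral_eq]
    rw [abs_of_nonneg]
    exact setIntegral_nonneg measurableSet_uIoc fun x _ => hδ0 x
  have hρ : 0 < rho y := lt_of_lt_of_le one_pos (one_le_rho hy)
  calc ENNReal.ofReal (|∫ x in s..s / y, δ x| / s)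
      ≤ ENNReal.ofReal ((∫ x in Set.uIoc s (s / y), δ x) / s) :=
        ENNReal.ofReal_le_ofReal (div_le_div_of_nonneg_right h1 hs.le)
    _ = ENNReal.ofReal (∫ x in Set.uIoc s (s / y), δ x / s) := by
        rw [integral_div]
    _ = ∫⁻ x in Set.uIoc s (s / y), ENNReal.ofReal (δ x / s) := by
        rw [ofReal_integral_eq_lintegral_ofReal (hi.div_const s)]
        exact Eventually.of_forall fun x => div_nonneg (hδ0 x) hs.le
    _ ≤ ∫⁻ x in Set.uIoc s (s / y), ENNReal.ofReal (rho y ^ (1 / 16 : ℝ)) *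
          ENNReal.ofReal (δ x * rho (x / s) ^ (-(1 / 16) : ℝ) / s) := by
        refine setLIntegral_mono' measurableSet_uIoc fun x hx => ?_
        rw [← ENNReal.ofReal_mul (Real.rpow_nonneg hρ.le _)]
        refine ENNReal.ofReal_le_ofReal ?_
        have hx0 : 0 < x := by
          rcases le_total s (s / y) with h | h
          · rw [Set.uIoc_of_le h] at hx
            exact hs.trans hx.1
          · rw [Set.uIoc_of_ge h] at hx
            exact (div_pos hs hy).trans hx.1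
        have h2 := rho_between hs hy hx
        have h3 : 0 < rho (x / s) := lt_of_lt_of_le one_pos (one_le_rho (div_pos hx0 hs))
        have h4 : 1 ≤ rho y ^ (1 / 16 : ℝ) * rho (x / s) ^ (-(1 / 16) : ℝ) := by
          rw [Real.rpow_neg h3.le, ← div_eq_mul_inv, one_le_div (Real.rpow_pos_of_pos h3 _)]
          exact Real.rpow_le_rpow h3.le h2 (by norm_num)
        calc δ x / s = 1 * (δ x / s) := (one_mul _).symm
          _ ≤ (rho y ^ (1 / 16 : ℝ) * rho (x / s) ^ (-(1 / 16) : ℝ)) * (δ x / s) :=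
            mul_le_mul_of_nonneg_right h4 (div_nonneg (hδ0 x) hs.le)
          _ = _ := by ring
    _ ≤ ∫⁻ x in Ioi (0 : ℝ), ENNReal.ofReal (rho y ^ (1 / 16 : ℝ)) *
          ENNReal.ofReal (δ x * rho (x / s) ^ (-(1 / 16) : ℝ) / s) := by
        refine lintegral_mono_set ?_
        intro x hx
        rcases le_total s (s / y) with h | h
        · rw [Set.uIoc_of_le h] at hx
          exact hs.trans hx.1
        · rw [Set.uIoc_of_ge h] at hx
          exact (div_pos hs hy).trans hx.1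
    _ = ENNReal.ofReal (rho y ^ (1 / 16 : ℝ)) * Zs δ s := by
        rw [lintegral_const_mul' _ _ ENNReal.ofReal_ne_top]
        rfl

/-- substitution -/
theorem subst {y : ℝ} (hy : 0 < y) (G : ℝ → ℝ≥0∞) :
    ∫⁻ t in Ioi (0 : ℝ), G (y * t) = ENNReal.ofReal y⁻¹ * ∫⁻ s in Ioi (0 : ℝ), G s := by
  have h1 : ∫⁻ s in Ioi (0 : ℝ), G s = ∫⁻ s, (Ioi (0 : ℝ)).indicator G s :=
    (lintegral_indicator measurableSet_Ioi _).symm
  have h2 : ∫⁻ t in Ioi (0 : ℝ), G (y * t) = ∫⁻ t, (Ioi (0 : ℝ)).indicator G (y * t) := by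
    rw [← lintegral_indicator measurableSet_Ioi]
    refine lintegral_congr fun t => ?_
    by_cases ht : 0 < t
    · rw [Set.indicator_of_mem (show t ∈ Ioi (0 : ℝ) from ht),
        Set.indicator_of_mem (show y * t ∈ Ioi (0 : ℝ) from mul_pos hy ht)]
    · rw [Set.indicator_of_notMem (show t ∉ Ioi (0 : ℝ) from ht),
        Set.indicator_of_notMem]
      intro h
      exact ht (pos_of_mul_pos_right h hy.le)
  rw [h1, h2]
  have h3 := Real.map_volume_mul_left hy.ne'
  rw [show (∫⁻ t, (Ioi (0 : ℝ)).indicator G (y * t)) =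
    ∫⁻ s, (Ioi (0 : ℝ)).indicator G s ∂(Measure.map (y * ·) volume) from ?_]
  · rw [h3, lintegral_smul_measure, abs_of_pos (inv_pos.2 hy), smul_eq_mul]
  · exact ((MeasurableEquiv.mulLeft₀ y hy.ne').measurableEmbedding.lintegral_map _).symm

/-- the pointwise bound -/
theorem ptw {p κ : ℝ} {L δ : ℝ → ℝ} (hp : 16 ≤ p) (hκ : 0 ≤ κ) (hκ1 : κ ≤ 1 / 16)
    (hδ : Continuous δ) (hL0 : ∀ t, 0 ≤ L t) (hδ0 : ∀ t, 0 ≤ δ t)
    (H : ∀ s t : ℝ, 0 < s → 0 < t →
      t * L t ≤ rho (t / s) ^ κ * (s * L s + κ * |∫ x in s..t, δ x|))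
    {s y : ℝ} (hs : 0 < s) (hy : 0 < y) :
    ENNReal.ofReal y⁻¹ * ENNReal.ofReal (L (s / y)) ^ (1 - 2 / p) ≤
      ENNReal.ofReal (rho y ^ (1 / 4 : ℝ)) * (ENNReal.ofReal (L s) ^ (1 - 2 / p) +
        (ENNReal.ofReal κ * Zs δ s) ^ (1 - 2 / p)) := by
  have hρ1 : 1 ≤ rho y := one_le_rho hy
  have hρ : 0 < rho y := lt_of_lt_of_le one_pos hρ1
  have hp0 : 0 < p := by linarith
  have ha0 : 0 ≤ 1 - 2 / p := by
    rw [sub_nonneg, div_le_one hp0]
    linarith
  have h2p : 0 ≤ 2 / p := by positivity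
  have h2p8 : 2 / p ≤ 1 / 8 := by
    rw [div_le_div_iff₀ hp0 (by norm_num)]
    linarith
  have ha1 : 1 - 2 / p ≤ 1 := by linarith
  have h1 := H s (s / y) hs (div_pos hs hy)
  have h2 : rho (s / y / s) = rho y := by
    rw [show s / y / s = y⁻¹ by field_simp, rho_inv]
  rw [h2] at h1
  have h3 : L (s / y) ≤ y * rho y ^ κ * (L s + κ * (|∫ x in s..s / y, δ x| / s)) := by
    have h4 : L (s / y) = (y / s) * (s / y * L (s / y)) := by field_simp
    rw [h4]
    calc (y / s) * (s / y * L (s / y)) ≤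
        (y / s) * (rho y ^ κ * (s * L s + κ * |∫ x in s..s / y, δ x|)) :=
          mul_le_mul_of_nonneg_left h1 (by positivity)
      _ = _ := by field_simp
  have h5 : ENNReal.ofReal (L (s / y)) ≤ ENNReal.ofReal (y * rho y ^ (1 / 8 : ℝ)) *
      (ENNReal.ofReal (L s) + ENNReal.ofReal κ * Zs δ s) := by
    have hrk : rho y ^ κ ≤ rho y ^ (1 / 16 : ℝ) := Real.rpow_le_rpow_of_exponent_le hρ1 hκ1
    have hr16 : 1 ≤ rho y ^ (1 / 16 : ℝ) := Real.one_le_rpow hρ1 (by norm_num)
    calc ENNReal.ofReal (L (s / y))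
        ≤ ENNReal.ofReal (y * rho y ^ κ * (L s + κ * (|∫ x in s..s / y, δ x| / s))) :=
          ENNReal.ofReal_le_ofReal h3
      _ ≤ ENNReal.ofReal (y * rho y ^ (1 / 16 : ℝ) *
          (L s + κ * (|∫ x in s..s / y, δ x| / s))) := by
          refine ENNReal.ofReal_le_ofReal ?_
          refine mul_le_mul_of_nonneg_right (mul_le_mul_of_nonneg_left hrk hy.le) ?_
          have := hL0 s
          positivity
      _ = ENNReal.ofReal (y * rho y ^ (1 / 16 : ℝ)) * (ENNReal.ofReal (L s) +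
          ENNReal.ofReal κ * ENNReal.ofReal (|∫ x in s..s / y, δ x| / s)) := by
          rw [ENNReal.ofReal_mul (by positivity), ENNReal.ofReal_add (hL0 s) (by positivity),
            ENNReal.ofReal_mul hκ]
      _ ≤ ENNReal.ofReal (y * rho y ^ (1 / 16 : ℝ)) * (ENNReal.ofReal (L s) +
          ENNReal.ofReal κ * (ENNReal.ofReal (rho y ^ (1 / 16 : ℝ)) * Zs δ s)) := by
          gcongr
          exact int_le hδ hδ0 hs hy
      _ ≤ ENNReal.ofReal (y * rho y ^ (1 / 16 : ℝ)) *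
          (ENNReal.ofReal (rho y ^ (1 / 16 : ℝ)) * (ENNReal.ofReal (L s) +
          ENNReal.ofReal κ * Zs δ s)) := by
          refine mul_le_mul' le_rfl ?_
          rw [mul_add]
          refine add_le_add ?_ (le_of_eq ?_)
          · calc ENNReal.ofReal (L s) = 1 * ENNReal.ofReal (L s) := (one_mul _).symm
              _ ≤ _ := by
                refine mul_le_mul' ?_ le_rfl
                rw [← ENNReal.ofReal_one]
                exact ENNReal.ofReal_le_ofReal hr16
          · ring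
      _ = _ := by
          rw [← mul_assoc, ← ENNReal.ofReal_mul (by positivity), mul_assoc y,
            ← Real.rpow_add hρ]
          norm_num
  calc ENNReal.ofReal y⁻¹ * ENNReal.ofReal (L (s / y)) ^ (1 - 2 / p)
      ≤ ENNReal.ofReal y⁻¹ * (ENNReal.ofReal (y * rho y ^ (1 / 8 : ℝ)) *
        (ENNReal.ofReal (L s) + ENNReal.ofReal κ * Zs δ s)) ^ (1 - 2 / p) := by
        gcongr
    _ = (ENNReal.ofReal y⁻¹ * ENNReal.ofReal (y * rho y ^ (1 / 8 : ℝ)) ^ (1 - 2 / p)) *
        (ENNReal.ofReal (L s) + ENNReal.ofReal κ * Zs δ s) ^ (1 - 2 / p) := by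
        rw [ENNReal.mul_rpow_of_nonneg _ _ ha0, mul_assoc]
    _ ≤ ENNReal.ofReal (rho y ^ (1 / 4 : ℝ)) *
        (ENNReal.ofReal (L s) + ENNReal.ofReal κ * Zs δ s) ^ (1 - 2 / p) := by
        gcongr
        rw [ENNReal.ofReal_rpow_of_pos (by positivity), ← ENNReal.ofReal_mul (by positivity)]
        refine ENNReal.ofReal_le_ofReal ?_
        rw [Real.mul_rpow hy.le (by positivity), ← Real.rpow_mul hρ.le]
        have e1 : y⁻¹ * (y ^ (1 - 2 / p) * rho y ^ (1 / 8 * (1 - 2 / p))) =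
            y⁻¹ ^ (2 / p) * rho y ^ (1 / 8 * (1 - 2 / p)) := by
          rw [← mul_assoc]
          congr 1
          rw [Real.inv_rpow hy.le, Real.rpow_sub hy, Real.rpow_one]
          field_simp
        rw [e1]
        have e2 : y⁻¹ ^ (2 / p) ≤ rho y ^ (1 / 8 : ℝ) := by
          calc y⁻¹ ^ (2 / p) ≤ rho y ^ (2 / p) :=
                Real.rpow_le_rpow (by positivity) (le_max_right _ _) h2p
            _ ≤ _ := Real.rpow_le_rpow_of_exponent_le hρ1 h2p8
        have e3 : rho y ^ (1 / 8 * (1 - 2 / p)) ≤ rho y ^ (1 / 8 : ℝ) :=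
          Real.rpow_le_rpow_of_exponent_le hρ1 (by nlinarith)
        calc y⁻¹ ^ (2 / p) * rho y ^ (1 / 8 * (1 - 2 / p)) ≤
            rho y ^ (1 / 8 : ℝ) * rho y ^ (1 / 8 : ℝ) :=
              mul_le_mul e2 e3 (by positivity) (by positivity)
          _ = rho y ^ (1 / 4 : ℝ) := by
              rw [← Real.rpow_add hρ]
              norm_num
    _ ≤ _ := by
        gcongr
        exact ENNReal.rpow_add_le_add_rpow _ _ ha0 ha1

theorem main : S_CRS := by
  intro p κ B L δ hp hκ hκ1 hL hδ hL0 hδ0 H β hβ hβ0 hB g hg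
  have hmL : Measurable fun t => ENNReal.ofReal (L t) ^ (1 - 2 / p) :=
    (ENNReal.measurable_ofReal.comp hL.measurable).pow_const _
  have hmβ : Measurable fun y => ENNReal.ofReal (β y) := ENNReal.measurable_ofReal.comp hβ
  -- Tonelli
  have h1 : ∫⁻ t in Ioi (0 : ℝ), ENNReal.ofReal (L t) ^ (1 - 2 / p) *
      ∫⁻ y in Ioi (0 : ℝ), ENNReal.ofReal (β y) * g (y * t) =
      ∫⁻ y in Ioi (0 : ℝ), ENNReal.ofReal (β y) *
        ∫⁻ t in Ioi (0 : ℝ), ENNReal.ofReal (L t) ^ (1 - 2 / p) * g (y * t) := by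
    calc _ = ∫⁻ t in Ioi (0 : ℝ), ∫⁻ y in Ioi (0 : ℝ), ENNReal.ofReal (L t) ^ (1 - 2 / p) *
          (ENNReal.ofReal (β y) * g (y * t)) := by
          refine lintegral_congr fun t => ?_
          rw [lintegral_const_mul]
          exact hmβ.mul (hg.comp (measurable_id.mul_const t))
      _ = ∫⁻ y in Ioi (0 : ℝ), ∫⁻ t in Ioi (0 : ℝ), ENNReal.ofReal (L t) ^ (1 - 2 / p) *
          (ENNReal.ofReal (β y) * g (y * t)) := by
          refine lintegral_lintegral_swap ?_
          refine Measurable.aemeasurable ?_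
          refine (hmL.comp measurable_fst).mul ((hmβ.comp measurable_snd).mul (hg.comp ?_))
          exact measurable_snd.mul measurable_fst
      _ = _ := by
          refine lintegral_congr fun y => ?_
          rw [← lintegral_const_mul]
          · refine lintegral_congr fun t => ?_
            ring
          · exact hmL.mul (hg.comp (measurable_id.const_mul y))
  rw [h1]
  set J := ∫⁻ s in Ioi (0 : ℝ), g s *
      (ENNReal.ofReal (L s) ^ (1 - 2 / p) + (ENNReal.ofReal κ * Zs δ s) ^ (1 - 2 / p)) with hJ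
  have h2 : ∀ y ∈ Ioi (0 : ℝ), ENNReal.ofReal (β y) *
      ∫⁻ t in Ioi (0 : ℝ), ENNReal.ofReal (L t) ^ (1 - 2 / p) * g (y * t) ≤
      ENNReal.ofReal (β y * rho y ^ (1 / 4 : ℝ)) * J := by
    intro y hy
    have hy0 : 0 < y := hy
    have h3 : ∫⁻ t in Ioi (0 : ℝ), ENNReal.ofReal (L t) ^ (1 - 2 / p) * g (y * t) =
        ENNReal.ofReal y⁻¹ * ∫⁻ s in Ioi (0 : ℝ),
          ENNReal.ofReal (L (s / y)) ^ (1 - 2 / p) * g s := by
      rw [← subst hy0 fun s => ENNReal.ofReal (L (s / y)) ^ (1 - 2 / p) * g s]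
      refine lintegral_congr fun t => ?_
      rw [mul_div_cancel_left₀ t hy0.ne']
    rw [h3, ENNReal.ofReal_mul (hβ0 y), mul_assoc]
    refine mul_le_mul' le_rfl ?_
    rw [hJ, ← lintegral_const_mul' _ _ ENNReal.ofReal_ne_top,
      ← lintegral_const_mul' _ _ ENNReal.ofReal_ne_top]
    refine setLIntegral_mono' measurableSet_Ioi fun s hs => ?_
    have h4 := ptw hp hκ hκ1 hδ hL0 hδ0 H (show 0 < s from hs) hy0
    calc ENNReal.ofReal y⁻¹ * (ENNReal.ofReal (L (s / y)) ^ (1 - 2 / p) * g s) =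
        (ENNReal.ofReal y⁻¹ * ENNReal.ofReal (L (s / y)) ^ (1 - 2 / p)) * g s := by ring
      _ ≤ (ENNReal.ofReal (rho y ^ (1 / 4 : ℝ)) * (ENNReal.ofReal (L s) ^ (1 - 2 / p) +
        (ENNReal.ofReal κ * Zs δ s) ^ (1 - 2 / p))) * g s := by gcongr
      _ = _ := by ring
  calc _ ≤ ∫⁻ y in Ioi (0 : ℝ), ENNReal.ofReal (β y * rho y ^ (1 / 4 : ℝ)) * J :=
        setLIntegral_mono' measurableSet_Ioi h2
    _ = (∫⁻ y in Ioi (0 : ℝ), ENNReal.ofReal (β y * rho y ^ (1 / 4 : ℝ))) * J := by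
        rw [lintegral_mul_const]
        exact ENNReal.measurable_ofReal.comp (hβ.mul (measurable_rho.pow_const _))
    _ ≤ _ := by gcongr

end Pool.NH61.FS.Crs
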