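import Pool.Agent.NH61.FS.Def

/-! # Project FS: Gronwall -/

set_option autoImplicit false

open MeasureTheory Set Filter Topology
open scoped SchwartzMap ENNReal

namespace Pool.NH61.FS.Dil

theorem fwd {κ D s t : ℝ} {L : ℝ → ℝ} (hκ : 0 ≤ κ) (hL : Continuous L) (hs : 0 < s)
    (hst : s ≤ t) (h : ∀ x ∈ Icc s t, x * L x ≤ D + κ * ∫ y in s..x, L y) :
    t * L t ≤ (t / s) ^ κ * D := by
  have ht : 0 < t := hs.trans_le hst
  have hd : ∀ x : ℝ, HasDerivAt (fun x => D + κ * ∫ y in s..x, L y) (κ * L x) x := by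
    intro x
    have := (intervalIntegral.integral_hasDerivAt_right (hL.intervalIntegrable s x)
      (hL.stronglyMeasurableAtFilter _ _) hL.continuousAt).const_mul κ
    exact this.const_add D
  have hd2 : ∀ x : ℝ, 0 < x → HasDerivAt (fun x => (D + κ * ∫ y in s..x, L y) * x ^ (-κ))
      (κ * L x * x ^ (-κ) + (D + κ * ∫ y in s..x, L y) * (-κ * x ^ (-κ - 1))) x := by
    intro x hx
    exact (hd x).mul (Real.hasDerivAt_rpow_const (Or.inl hx.ne'))
  have hanti : AntitoneOn (fun x => (D + κ * ∫ y in s..x, L y) * x ^ (-κ)) (Icc s t) := by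
    refine antitoneOn_of_deriv_nonpos (convex_Icc s t) ?_ ?_ ?_
    · intro x hx
      exact (hd2 x (hs.trans_le hx.1)).continuousAt.continuousWithinAt
    · intro x hx
      rw [interior_Icc] at hx
      exact (hd2 x (hs.trans hx.1)).differentiableAt.differentiableWithinAt
    · intro x hx
      rw [interior_Icc] at hx
      have hx0 : 0 < x := hs.trans hx.1
      rw [(hd2 x hx0).deriv]
      have h1 := h x ⟨hx.1.le, hx.2.le⟩
      have h2 : x ^ (-κ) = x * x ^ (-κ - 1) := by
        rw [Real.rpow_sub hx0, Real.rpow_one]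
        field_simp
      rw [h2]
      have h3 : 0 ≤ x ^ (-κ - 1) := Real.rpow_nonneg hx0.le _
      have h4 : κ * L x * (x * x ^ (-κ - 1)) + (D + κ * ∫ y in s..x, L y) * (-κ * x ^ (-κ - 1)) =
          -(κ * x ^ (-κ - 1) * ((D + κ * ∫ y in s..x, L y) - x * L x)) := by ring
      rw [h4]
      exact neg_nonpos.2 (mul_nonneg (mul_nonneg hκ h3) (by linarith))
  have h5 := hanti (left_mem_Icc.2 hst) (right_mem_Icc.2 hst) hst
  simp only [intervalIntegral.integral_same, mul_zero, add_zero] at h5
  have h6 := h t (right_mem_Icc.2 hst)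
  have h7 : 0 < t ^ κ := Real.rpow_pos_of_pos ht _
  calc t * L t ≤ D + κ * ∫ y in s..t, L y := h6
    _ = (D + κ * ∫ y in s..t, L y) * t ^ (-κ) * t ^ κ := by
        rw [Real.rpow_neg ht.le]
        field_simp
    _ ≤ D * s ^ (-κ) * t ^ κ := mul_le_mul_of_nonneg_right h5 h7.le
    _ = (t / s) ^ κ * D := by
        rw [Real.div_rpow ht.le hs.le, Real.rpow_neg hs.le]
        field_simp

theorem bwd {κ D s t : ℝ} {L : ℝ → ℝ} (hκ : 0 ≤ κ) (hL : Continuous L) (ht : 0 < t)
    (hts : t ≤ s) (h : ∀ x ∈ Icc t s, x * L x ≤ D + κ * ∫ y in x..s, L y) :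
    t * L t ≤ (s / t) ^ κ * D := by
  have hs : 0 < s := ht.trans_le hts
  have hd : ∀ x : ℝ, HasDerivAt (fun x => D + κ * ∫ y in x..s, L y) (κ * -L x) x := by
    intro x
    have := (intervalIntegral.integral_hasDerivAt_left (hL.intervalIntegrable x s)
      (hL.stronglyMeasurableAtFilter _ _) hL.continuousAt).const_mul κ
    exact this.const_add D
  have hd2 : ∀ x : ℝ, 0 < x → HasDerivAt (fun x => (D + κ * ∫ y in x..s, L y) * x ^ κ)
      (κ * -L x * x ^ κ + (D + κ * ∫ y in x..s, L y) * (κ * x ^ (κ - 1))) x := by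
    intro x hx
    exact (hd x).mul (Real.hasDerivAt_rpow_const (Or.inl hx.ne'))
  have hmono : MonotoneOn (fun x => (D + κ * ∫ y in x..s, L y) * x ^ κ) (Icc t s) := by
    refine monotoneOn_of_deriv_nonneg (convex_Icc t s) ?_ ?_ ?_
    · intro x hx
      exact (hd2 x (ht.trans_le hx.1)).continuousAt.continuousWithinAt
    · intro x hx
      rw [interior_Icc] at hx
      exact (hd2 x (ht.trans hx.1)).differentiableAt.differentiableWithinAt
    · intro x hx
      rw [interior_Icc] at hx
      have hx0 : 0 < x := ht.trans hx.1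
      rw [(hd2 x hx0).deriv]
      have h1 := h x ⟨hx.1.le, hx.2.le⟩
      have h2 : x ^ κ = x * x ^ (κ - 1) := by
        rw [Real.rpow_sub hx0, Real.rpow_one]
        field_simp
      rw [h2]
      have h3 : 0 ≤ x ^ (κ - 1) := Real.rpow_nonneg hx0.le _
      have h4 : κ * -L x * (x * x ^ (κ - 1)) + (D + κ * ∫ y in x..s, L y) * (κ * x ^ (κ - 1)) =
          κ * x ^ (κ - 1) * ((D + κ * ∫ y in x..s, L y) - x * L x) := by ring
      rw [h4]
      exact mul_nonneg (mul_nonneg hκ h3) (by linarith)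
  have h5 := hmono (left_mem_Icc.2 hts) (right_mem_Icc.2 hts) hts
  simp only [intervalIntegral.integral_same, mul_zero, add_zero] at h5
  have h6 := h t (left_mem_Icc.2 hts)
  have h7 : 0 < t ^ κ := Real.rpow_pos_of_pos ht _
  calc t * L t ≤ D + κ * ∫ y in t..s, L y := h6
    _ = (D + κ * ∫ y in t..s, L y) * t ^ κ * (t ^ κ)⁻¹ := by
        field_simp
    _ ≤ D * s ^ κ * (t ^ κ)⁻¹ := mul_le_mul_of_nonneg_right h5 (inv_nonneg.2 h7.le)
    _ = (s / t) ^ κ * D := by
        rw [Real.div_rpow hs.le ht.le]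
        field_simp

theorem main : S_DIL := by
  intro κ L δ hκ hL hδ hL0 hδ0 H s t hs ht
  have hiL : ∀ a b : ℝ, IntervalIntegrable L volume a b := fun a b => hL.intervalIntegrable a b
  have hiδ : ∀ a b : ℝ, IntervalIntegrable δ volume a b := fun a b => hδ.intervalIntegrable a b
  rcases le_total s t with hst | hts
  · have hρ : rho (t / s) = t / s := by
      unfold rho
      have h1 : 1 ≤ t / s := (one_le_div hs).2 hst
      exact max_eq_left ((inv_le_one_of_one_le₀ h1).trans h1)
    have hD : 0 ≤ ∫ x in s..t, δ x := intervalIntegral.integral_nonneg hst fun x _ => hδ0 x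
    rw [hρ, abs_of_nonneg hD]
    refine fwd hκ hL hs hst fun x hx => ?_
    have h1 := (abs_le.1 (H s x hs hx.1)).2
    rw [intervalIntegral.integral_add (hiL _ _) (hiδ _ _)] at h1
    have h2 : ∫ y in s..x, δ y ≤ ∫ y in s..t, δ y := by
      rw [← intervalIntegral.integral_add_adjacent_intervals (hiδ s x) (hiδ x t)]
      have := intervalIntegral.integral_nonneg (μ := volume) hx.2 fun y _ => hδ0 y
      linarith
    have h3 := mul_le_mul_of_nonneg_left h2 hκ
    linarith
  · have hρ : rho (t / s) = s / t := by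
      unfold rho
      have h1 : t / s ≤ 1 := (div_le_one hs).2 hts
      rw [inv_div]
      exact max_eq_right (h1.trans ((one_le_div ht).2 hts))
    have hD : 0 ≤ ∫ x in t..s, δ x := intervalIntegral.integral_nonneg hts fun x _ => hδ0 x
    rw [hρ, intervalIntegral.integral_symm, abs_neg, abs_of_nonneg hD]
    refine bwd hκ hL ht hts fun x hx => ?_
    have hx0 : 0 < x := ht.trans_le hx.1
    have h1 := (abs_le.1 (H x s hx0 hx.2)).1
    rw [intervalIntegral.integral_add (hiL _ _) (hiδ _ _)] at h1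
    have h2 : ∫ y in x..s, δ y ≤ ∫ y in t..s, δ y := by
      rw [← intervalIntegral.integral_add_adjacent_intervals (hiδ t x) (hiδ x s)]
      have := intervalIntegral.integral_nonneg (μ := volume) hx.1 fun y _ => hδ0 y
      linarith
    have h3 := mul_le_mul_of_nonneg_left h2 hκ
    linarith

end Pool.NH61.FS.Dil
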