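import Pool.Agent.NH61.FS.Def

/-! # Project FS: variation of the modulus (helper49) -/

set_option autoImplicit false

namespace Pool.NH61.FS.EE

open Pool.Agent.Y282.RB (kk th KK)

theorem kk_nonneg {σ : ℝ} (h0 : 0 < σ) (h1 : σ ≤ 1 / 4) (j : ℕ) : 0 ≤ kk σ j := by
  unfold kk
  have h2 : (0 : ℝ) ≤ j := j.cast_nonneg
  have h3 : 0 < (j : ℝ) + 1 - σ := by linarith
  positivity

theorem kk_zero {σ : ℝ} (h0 : 0 < σ) (h1 : σ ≤ 1 / 4) : kk σ 0 * σ ≤ 2 := by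
  unfold kk
  have h3 : 0 < 1 - σ := by linarith
  have h4 : (2 * ((0 : ℕ) : ℝ) + 1) / ((((0 : ℕ) : ℝ) + σ) * (((0 : ℕ) : ℝ) + 1 - σ)) * σ =
      1 / (1 - σ) := by
    push_cast
    simp only [mul_zero, zero_add]
    field_simp
  rw [h4, div_le_iff₀ h3]
  linarith

theorem kk_le_two {σ : ℝ} (h0 : 0 < σ) (h1 : σ ≤ 1 / 4) {j : ℕ} (hj : 1 ≤ j) : kk σ j ≤ 2 := by
  unfold kk
  have h2 : (1 : ℝ) ≤ j := by exact_mod_cast hj
  have h3 : 0 < (j : ℝ) + 1 - σ := by linarith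
  rw [div_le_iff₀ (by positivity)]
  nlinarith [mul_pos h0 (by linarith : (0:ℝ) < 1 - σ)]

theorem kk_ge {σ : ℝ} (h0 : 0 < σ) (h1 : σ ≤ 1 / 4) (j : ℕ) : 1 / ((j : ℝ) + 1) ≤ kk σ j := by
  unfold kk
  have h2 : (0 : ℝ) ≤ j := j.cast_nonneg
  have h3 : 0 < (j : ℝ) + 1 - σ := by linarith
  rw [div_le_div_iff₀ (by positivity) (by positivity)]
  nlinarith [mul_pos h0 (by linarith : (0:ℝ) < 1 - σ), sq_nonneg σ]

theorem KK_ge {p : ℝ} (hp : 4 ≤ p) {n : ℕ} (hn : 1 ≤ n) : p ≤ KK (1 / p) n := by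
  have hp0 : 0 < p := by linarith
  have h0 : 0 < 1 / p := by positivity
  have h1 : 1 / p ≤ 1 / 4 := one_div_le_one_div_of_le (by norm_num) hp
  have h2 : kk (1 / p) 0 ≤ KK (1 / p) n :=
    Finset.single_le_sum (f := fun j => kk (1 / p) j) (fun j _ => kk_nonneg h0 h1 j)
      (Finset.mem_range.2 (by omega))
  refine le_trans ?_ h2
  unfold kk
  push_cast
  have h3 : 0 < 1 - 1 / p := by linarith
  have h4 : (2 * (0 : ℝ) + 1) / ((0 + 1 / p) * (0 + 1 - 1 / p)) = p / (1 - 1 / p) := by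
    simp only [mul_zero, zero_add]
    field_simp
  rw [h4, le_div_iff₀ h3]
  nlinarith

theorem th_bd {σ : ℝ} (h0 : 0 < σ) (h1 : σ ≤ 1 / 4) (j : ℕ) : 1 / 2 ≤ th σ j ∧ th σ j ≤ 1 := by
  unfold th
  have h2 : (0 : ℝ) ≤ j := j.cast_nonneg
  constructor
  · rw [div_le_div_iff₀ (by norm_num) (by positivity)]
    linarith
  · rw [div_le_iff₀ (by positivity)]
    linarith

theorem TTC_nonneg (n : ℕ) (γ : ℕ → ℂ) : 0 ≤ TTC n γ :=
  Finset.sum_nonneg fun j _ => by positivity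

/-- the identity `K (a - 1) = ∑ k_j (a - |y_j|^2)` -/
theorem ident {σ : ℝ} {n : ℕ} {γ : ℕ → ℂ} (hK : 0 < KK σ n) (h : LamC σ n γ = 1) (a : ℝ) :
    KK σ n * (a - 1) = ∑ j ∈ Finset.range n, kk σ j * (a - ‖yC σ γ j‖ ^ 2) := by
  unfold LamC at h
  rw [div_eq_one_iff_eq hK.ne'] at h
  simp only [mul_sub]
  rw [Finset.sum_sub_distrib, h, ← Finset.sum_mul]
  unfold KK
  ring

theorem d_le {n : ℕ} {γ : ℕ → ℂ} {l : ℕ} (hl : l < n) :
    ‖γ l - γ (l + 1)‖ ≤ (2 * (l : ℝ) + 1) * √(TTC n γ) := by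
  have h0 : (0 : ℝ) ≤ l := l.cast_nonneg
  have h1 : ‖γ l - γ (l + 1)‖ ^ 2 / (2 * (l : ℝ) + 1) ≤ TTC n γ :=
    Finset.single_le_sum (f := fun j : ℕ => ‖γ j - γ (j + 1)‖ ^ 2 / (2 * (j : ℝ) + 1))
      (fun j _ => by positivity) (Finset.mem_range.2 hl)
  rw [div_le_iff₀ (by positivity)] at h1
  have h2 : ‖γ l - γ (l + 1)‖ ^ 2 ≤ ((2 * (l : ℝ) + 1) * √(TTC n γ)) ^ 2 := by
    rw [mul_pow, Real.sq_sqrt (TTC_nonneg n γ)]
    have := TTC_nonneg n γ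
    nlinarith [mul_nonneg this h0, mul_nonneg this (mul_nonneg h0 h0)]
  exact (sq_le_sq₀ (norm_nonneg _) (by positivity)).1 h2

theorem g_le {n : ℕ} {γ : ℕ → ℂ} (i : ℕ) (hi : i ≤ n) :
    ‖γ i - γ 0‖ ≤ (i : ℝ) ^ 2 * √(TTC n γ) := by
  induction i with
  | zero => simp
  | succ i ih =>
    have h1 := ih (by omega)
    have h2 := d_le (n := n) (γ := γ) (l := i) (by omega)
    have h3 : γ (i + 1) - γ 0 = (γ i - γ 0) - (γ i - γ (i + 1)) := by ring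
    rw [h3]
    refine (norm_sub_le _ _).trans ((add_le_add h1 h2).trans (le_of_eq ?_))
    push_cast
    ring

theorem y_le {σ : ℝ} (h0 : 0 < σ) (h1 : σ ≤ 1 / 4) {n : ℕ} {γ : ℕ → ℂ} {j : ℕ} (hj : j < n) :
    ‖yC σ γ j - γ 0‖ ≤ (n : ℝ) ^ 2 * √(TTC n γ) := by
  obtain ⟨ht1, ht2⟩ := th_bd h0 h1 j
  have h2 : yC σ γ j - γ 0 = (th σ j : ℂ) * (γ j - γ 0) +
      ((1 - th σ j : ℝ) : ℂ) * (γ (j + 1) - γ 0) := by
    unfold yC
    push_cast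
    ring
  have hS := Real.sqrt_nonneg (TTC n γ)
  have e1 : (j : ℝ) ^ 2 * √(TTC n γ) ≤ (n : ℝ) ^ 2 * √(TTC n γ) := by
    have : (j : ℝ) ≤ n := by exact_mod_cast hj.le
    gcongr
  have e2 : ((j + 1 : ℕ) : ℝ) ^ 2 * √(TTC n γ) ≤ (n : ℝ) ^ 2 * √(TTC n γ) := by
    have : ((j + 1 : ℕ) : ℝ) ≤ n := by exact_mod_cast hj
    gcongr
  have e3 := (g_le (n := n) (γ := γ) j hj.le).trans e1
  have e4 := (g_le (n := n) (γ := γ) (j + 1) hj).trans e2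
  rw [h2]
  refine (norm_add_le _ _).trans ?_
  rw [norm_mul, norm_mul, Complex.norm_real, Complex.norm_real, Real.norm_of_nonneg (by linarith),
    Real.norm_of_nonneg (by linarith)]
  nlinarith [mul_le_mul_of_nonneg_left e3 (by linarith : (0:ℝ) ≤ th σ j),
    mul_le_mul_of_nonneg_left e4 (by linarith : (0:ℝ) ≤ 1 - th σ j)]

theorem y0_eq {σ : ℝ} (γ : ℕ → ℂ) : yC σ γ 0 - γ 0 = -((σ : ℂ) * (γ 0 - γ 1)) := by
  unfold yC th
  push_cast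
  ring

/-- `|a^2 - b^2| ≤ e (2 a + e)` -/
theorem sq_diff {a b e : ℝ} (ha : 0 ≤ a) (hb : 0 ≤ b) (h : |a - b| ≤ e) :
    |a ^ 2 - b ^ 2| ≤ e * (2 * a + e) := by
  have h1 := abs_le.1 h
  have h2 : a ^ 2 - b ^ 2 = (a - b) * (a + b) := by ring
  rw [h2, abs_mul, abs_of_nonneg (by linarith : 0 ≤ a + b)]
  exact mul_le_mul h (by linarith) (by linarith) ((abs_nonneg _).trans h)

theorem e1 : S_E1 := by
  intro n hn
  have hnR : (1 : ℝ) ≤ n := by exact_mod_cast hn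
  refine ⟨4 * (n : ℝ) ^ 5, ?_, fun p γ hp hL => ?_⟩
  · have : (1 : ℝ) ≤ (n : ℝ) ^ 5 := one_le_pow₀ hnR
    linarith
  have hp0 : 0 < p := by linarith
  have h0 : 0 < 1 / p := by positivity
  have h1 : 1 / p ≤ 1 / 4 := one_div_le_one_div_of_le (by norm_num) hp
  have hK := KK_ge hp hn
  have hid := ident (by linarith : 0 < KK (1 / p) n) hL (‖γ 0‖ ^ 2)
  set S := √(TTC n γ) with hS
  have hS0 : 0 ≤ S := Real.sqrt_nonneg _
  have hS2 : S ^ 2 = TTC n γ := Real.sq_sqrt (TTC_nonneg n γ)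
  set g := ‖γ 0‖ with hg
  have hg0 : 0 ≤ g := norm_nonneg _
  have hn4 : (1 : ℝ) ≤ (n : ℝ) ^ 4 := one_le_pow₀ hnR
  have hn2 : (1 : ℝ) ≤ (n : ℝ) ^ 2 := one_le_pow₀ hnR
  have hn24 : (n : ℝ) ^ 2 * (n : ℝ) ^ 2 = (n : ℝ) ^ 4 := by ring
  have hn24' : (n : ℝ) ^ 2 ≤ (n : ℝ) ^ 4 := by nlinarith
  have hterm : ∀ j ∈ Finset.range n, |kk (1 / p) j * (g ^ 2 - ‖yC (1 / p) γ j‖ ^ 2)| ≤
      4 * (n : ℝ) ^ 4 * (g * S + S ^ 2) := by
    intro j hj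
    have hjn := Finset.mem_range.1 hj
    rw [abs_mul, abs_of_nonneg (kk_nonneg h0 h1 j)]
    have hab : |g - ‖yC (1 / p) γ j‖| ≤ ‖yC (1 / p) γ j - γ 0‖ := by
      rw [hg, abs_sub_comm]
      exact abs_norm_sub_norm_le _ _
    rcases Nat.eq_zero_or_pos j with h | h
    · subst h
      have e1 : ‖yC (1 / p) γ 0 - γ 0‖ ≤ 1 / p * S := by
        rw [y0_eq, norm_neg, norm_mul, Complex.norm_real, Real.norm_of_nonneg h0.le]
        have := d_le (n := n) (γ := γ) (l := 0) hjn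
        have e2 : ‖γ 0 - γ 1‖ ≤ S := by simpa using this
        exact mul_le_mul_of_nonneg_left e2 h0.le
      have e2 := sq_diff hg0 (norm_nonneg _) (hab.trans e1)
      have e3 : kk (1 / p) 0 * |g ^ 2 - ‖yC (1 / p) γ 0‖ ^ 2| ≤
          kk (1 / p) 0 * (1 / p * S * (2 * g + 1 / p * S)) :=
        mul_le_mul_of_nonneg_left e2 (kk_nonneg h0 h1 0)
      have e4 : kk (1 / p) 0 * (1 / p * S * (2 * g + 1 / p * S)) =
          (kk (1 / p) 0 * (1 / p)) * (S * (2 * g + 1 / p * S)) := by ring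
      have e5 : (kk (1 / p) 0 * (1 / p)) * (S * (2 * g + 1 / p * S)) ≤
          2 * (S * (2 * g + 1 / p * S)) :=
        mul_le_mul_of_nonneg_right (kk_zero h0 h1) (by positivity)
      have e6 : 1 / p * S ≤ S := by nlinarith
      have e7 : S * (2 * g + 1 / p * S) ≤ S * (2 * g + S) := by gcongr
      have e8 : 4 * (g * S + S ^ 2) ≤ 4 * (n : ℝ) ^ 4 * (g * S + S ^ 2) := by
        have : 0 ≤ g * S + S ^ 2 := by positivity
        nlinarith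
      nlinarith [sq_nonneg S, mul_nonneg hg0 hS0]
    · have e1 := y_le h0 h1 (n := n) (γ := γ) hjn
      have e2 := sq_diff hg0 (norm_nonneg _) (hab.trans e1)
      have e3 : kk (1 / p) j * |g ^ 2 - ‖yC (1 / p) γ j‖ ^ 2| ≤
          2 * ((n : ℝ) ^ 2 * S * (2 * g + (n : ℝ) ^ 2 * S)) :=
        mul_le_mul (kk_le_two h0 h1 h) e2 (abs_nonneg _) (by norm_num)
      have e4 : 2 * ((n : ℝ) ^ 2 * S * (2 * g + (n : ℝ) ^ 2 * S)) =
          4 * (n : ℝ) ^ 2 * (g * S) + 2 * (n : ℝ) ^ 4 * S ^ 2 := by ring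
      have e5 : 4 * (n : ℝ) ^ 2 * (g * S) ≤ 4 * (n : ℝ) ^ 4 * (g * S) := by
        have : 0 ≤ g * S := by positivity
        nlinarith
      nlinarith [sq_nonneg S, mul_nonneg (by positivity : (0:ℝ) ≤ (n:ℝ)^4) (sq_nonneg S)]
  have hsum : |KK (1 / p) n * (g ^ 2 - 1)| ≤ n * (4 * (n : ℝ) ^ 4 * (g * S + S ^ 2)) := by
    rw [hid]
    refine (Finset.abs_sum_le_sum_abs _ _).trans ((Finset.sum_le_sum hterm).trans ?_)
    rw [Finset.sum_const, Finset.card_range, nsmul_eq_mul]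
  rw [abs_mul, abs_of_nonneg (by linarith : 0 ≤ KK (1 / p) n)] at hsum
  have h5 : p * |g ^ 2 - 1| ≤ KK (1 / p) n * |g ^ 2 - 1| :=
    mul_le_mul_of_nonneg_right hK (abs_nonneg _)
  rw [← hS2, div_mul_eq_mul_div, le_div_iff₀ hp0]
  calc |g ^ 2 - 1| * p = p * |g ^ 2 - 1| := mul_comm _ _
    _ ≤ n * (4 * (n : ℝ) ^ 4 * (g * S + S ^ 2)) := h5.trans hsum
    _ = 4 * (n : ℝ) ^ 5 * (g * S + S ^ 2) := by ring

/-- downward recursion -/
theorem down {σ : ℝ} (h0 : 0 < σ) (h1 : σ ≤ 1 / 4) {n : ℕ} {γ : ℕ → ℂ} (i : ℕ) (hi : i < n) :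
    ‖γ (n - i)‖ ≤ 2 * ∑ j ∈ Finset.Ico (n - i) n, ‖yC σ γ j‖ + ‖γ n‖ := by
  induction i with
  | zero => simp
  | succ i ih =>
    have h2 := ih (by omega)
    obtain ⟨m, hm⟩ : ∃ m, n - (i + 1) = m := ⟨_, rfl⟩
    have hm1 : n - i = m + 1 := by omega
    rw [hm]
    rw [hm1] at h2
    rw [Finset.sum_eq_sum_Ico_succ_bot (by omega : m < n)]
    obtain ⟨ht1, ht2⟩ := th_bd h0 h1 m
    have h3 : (th σ m : ℂ) * γ m = yC σ γ m - ((1 - th σ m : ℝ) : ℂ) * γ (m + 1) := by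
      unfold yC
      ring
    have h4 := congrArg norm h3
    rw [norm_mul, Complex.norm_real, Real.norm_of_nonneg (by linarith)] at h4
    have h5 : ‖yC σ γ m - ((1 - th σ m : ℝ) : ℂ) * γ (m + 1)‖ ≤
        ‖yC σ γ m‖ + (1 - th σ m) * ‖γ (m + 1)‖ := by
      refine (norm_sub_le _ _).trans ?_
      rw [norm_mul, Complex.norm_real, Real.norm_of_nonneg (by linarith)]
    have h6 : ‖γ m‖ ≤ 2 * ‖yC σ γ m‖ + ‖γ (m + 1)‖ := by
      have h7 := norm_nonneg (γ m)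
      have h8 := norm_nonneg (γ (m + 1))
      have h9 := norm_nonneg (yC σ γ m)
      rw [← h4] at h5
      nlinarith
    linarith

theorem e2 : S_E2 := by
  intro n hn
  have hnR : (1 : ℝ) ≤ n := by exact_mod_cast hn
  set C' : ℝ := 12 + 2 * n + 16 * (n : ℝ) ^ 2 with hC'
  have hC'0 : 12 ≤ C' := by rw [hC']; nlinarith [sq_nonneg (n : ℝ)]
  refine ⟨2 * C', by linarith, fun p γ hp hL hgn => ?_⟩
  have hp4 : 4 ≤ p := by linarith
  have hp0 : 0 < p := by linarith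
  have h0 : 0 < 1 / p := by positivity
  have h1 : 1 / p ≤ 1 / 4 := one_div_le_one_div_of_le (by norm_num) hp4
  have hK := KK_ge hp4 hn
  have hid := ident (by linarith : 0 < KK (1 / p) n) hL (‖γ 0‖ ^ 2)
  set g := ‖γ 0‖ with hg
  have hg0 : 0 ≤ g := norm_nonneg _
  rcases le_or_gt (g ^ 2) 1 with h | ha
  · have : 0 ≤ 2 * C' / p := by positivity
    linarith
  set Y := ∑ j ∈ Finset.Ico 1 n, ‖yC (1 / p) γ j‖ with hY
  -- `|γ 1| ≤ 2 Y + |γ n|`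
  have hg1 : ‖γ 1‖ ≤ 2 * Y + ‖γ n‖ := by
    have := down h0 h1 (n := n) (γ := γ) (n - 1) (by omega)
    rwa [show n - (n - 1) = 1 by omega] at this
  have hd0 : ‖γ 0 - γ 1‖ ≤ 3 * g + 2 * Y := by
    have := norm_sub_le (γ 0) (γ 1)
    linarith
  have hd00 : 0 ≤ ‖γ 0 - γ 1‖ := norm_nonneg _
  have hY0 : 0 ≤ Y := Finset.sum_nonneg fun j _ => norm_nonneg _
  -- the first term
  have hy0 : g ^ 2 - ‖yC (1 / p) γ 0‖ ^ 2 ≤ 2 * (1 / p) * g * ‖γ 0 - γ 1‖ := by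
    have e1 : |g - ‖yC (1 / p) γ 0‖| ≤ 1 / p * ‖γ 0 - γ 1‖ := by
      have : |g - ‖yC (1 / p) γ 0‖| ≤ ‖yC (1 / p) γ 0 - γ 0‖ := by
        rw [hg, abs_sub_comm]
        exact abs_norm_sub_norm_le _ _
      refine this.trans (le_of_eq ?_)
      rw [y0_eq, norm_neg, norm_mul, Complex.norm_real, Real.norm_of_nonneg h0.le]
    obtain ⟨e2, e3⟩ := abs_le.1 e1
    have e4 := norm_nonneg (yC (1 / p) γ 0)
    set x := 1 / p * ‖γ 0 - γ 1‖ with hx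
    have hx0 : 0 ≤ x := by positivity
    have e5 : 2 * (1 / p) * g * ‖γ 0 - γ 1‖ = 2 * g * x := by rw [hx]; ring
    rw [e5]
    rcases le_or_gt x g with h | h
    · nlinarith
    · nlinarith [sq_nonneg ‖yC (1 / p) γ 0‖]
  have hT0 : kk (1 / p) 0 * (g ^ 2 - ‖yC (1 / p) γ 0‖ ^ 2) ≤ 4 * g * (3 * g + 2 * Y) := by
    have e1 : kk (1 / p) 0 * (g ^ 2 - ‖yC (1 / p) γ 0‖ ^ 2) ≤
        kk (1 / p) 0 * (2 * (1 / p) * g * ‖γ 0 - γ 1‖) :=
      mul_le_mul_of_nonneg_left hy0 (kk_nonneg h0 h1 0)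
    have e2 : kk (1 / p) 0 * (2 * (1 / p) * g * ‖γ 0 - γ 1‖) =
        (kk (1 / p) 0 * (1 / p)) * (2 * g * ‖γ 0 - γ 1‖) := by ring
    have e3 : (kk (1 / p) 0 * (1 / p)) * (2 * g * ‖γ 0 - γ 1‖) ≤ 2 * (2 * g * ‖γ 0 - γ 1‖) :=
      mul_le_mul_of_nonneg_right (kk_zero h0 h1) (by positivity)
    have e4 : g * ‖γ 0 - γ 1‖ ≤ g * (3 * g + 2 * Y) := mul_le_mul_of_nonneg_left hd0 hg0
    nlinarith
  -- the other terms
  have hTj : ∀ j ∈ Finset.Ico 1 n, kk (1 / p) j * (g ^ 2 - ‖yC (1 / p) γ j‖ ^ 2) +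
      8 * g * ‖yC (1 / p) γ j‖ ≤ (2 + 16 * n) * g ^ 2 := by
    intro j hj
    obtain ⟨hj1, hj2⟩ := Finset.mem_Ico.1 hj
    have e1 := kk_le_two h0 h1 hj1
    have e2 := kk_ge h0 h1 j
    have e3 : 1 / (n : ℝ) ≤ kk (1 / p) j := by
      refine le_trans ?_ e2
      have : ((j : ℝ) + 1) ≤ n := by exact_mod_cast hj2
      exact one_div_le_one_div_of_le (by positivity) this
    have e4 := norm_nonneg (yC (1 / p) γ j)
    set t := ‖yC (1 / p) γ j‖ with ht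
    have e5 : 8 * g * t ≤ 16 * n * g ^ 2 + 1 / (n : ℝ) * t ^ 2 := by
      have e6 : 16 * n * g ^ 2 + 1 / (n : ℝ) * t ^ 2 - 8 * g * t =
          1 / (n : ℝ) * (4 * n * g - t) ^ 2 := by
        have : (n : ℝ) ≠ 0 := by positivity
        field_simp
        ring
      have e7 : 0 ≤ 1 / (n : ℝ) * (4 * n * g - t) ^ 2 := by positivity
      linarith
    have e6 : 1 / (n : ℝ) * t ^ 2 ≤ kk (1 / p) j * t ^ 2 :=
      mul_le_mul_of_nonneg_right e3 (sq_nonneg _)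
    have e7 : kk (1 / p) j * g ^ 2 ≤ 2 * g ^ 2 := mul_le_mul_of_nonneg_right e1 (sq_nonneg _)
    nlinarith
  have hsum : ∑ j ∈ Finset.Ico 1 n, (kk (1 / p) j * (g ^ 2 - ‖yC (1 / p) γ j‖ ^ 2)) + 8 * g * Y ≤
      n * ((2 + 16 * n) * g ^ 2) := by
    rw [hY, Finset.mul_sum, ← Finset.sum_add_distrib]
    refine (Finset.sum_le_sum hTj).trans ?_
    rw [Finset.sum_const, Nat.card_Ico, nsmul_eq_mul]
    have : ((n - 1 : ℕ) : ℝ) ≤ n := by exact_mod_cast Nat.sub_le n 1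
    exact mul_le_mul_of_nonneg_right this (by positivity)
  have hid2 : KK (1 / p) n * (g ^ 2 - 1) = kk (1 / p) 0 * (g ^ 2 - ‖yC (1 / p) γ 0‖ ^ 2) +
      ∑ j ∈ Finset.Ico 1 n, (kk (1 / p) j * (g ^ 2 - ‖yC (1 / p) γ j‖ ^ 2)) := by
    rw [hid, Finset.range_eq_Ico, Finset.sum_eq_sum_Ico_succ_bot (by omega : 0 < n)]
  have hfin : p * (g ^ 2 - 1) ≤ C' * g ^ 2 := by
    have e1 : p * (g ^ 2 - 1) ≤ KK (1 / p) n * (g ^ 2 - 1) :=
      mul_le_mul_of_nonneg_right hK (by linarith)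
    have e2 : C' * g ^ 2 = 12 * g ^ 2 + n * ((2 + 16 * n) * g ^ 2) := by rw [hC']; ring
    rw [e2]
    nlinarith
  -- conclusion
  rw [← sub_le_iff_le_add', le_div_iff₀ hp0]
  nlinarith

end Pool.NH61.FS.EE
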