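import Pool.Agent.NH61.FS.Def

/-! # Project FS: the envelope -/

set_option autoImplicit false

open MeasureTheory Set Filter Topology
open scoped SchwartzMap ENNReal

namespace Pool.NH61.FS.EnvP

open Pool.Agent.Y282.RB (Tn Cn kk th KK)

/-- the partial products -/
noncomputable def cc (σ : ℝ) (j : ℕ) : ℝ :=
  ∏ i ∈ Finset.range j, (((i : ℝ) + 1 - σ) / ((i : ℝ) + σ))

theorem cc_zero (σ : ℝ) : cc σ 0 = 1 := by simp [cc]

theorem cc_succ (σ : ℝ) (j : ℕ) : cc σ (j + 1) = cc σ j * (((j : ℝ) + 1 - σ) / ((j : ℝ) + σ)) := by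
  rw [cc, Finset.prod_range_succ]; rfl

theorem cc_pos {σ : ℝ} (h0 : 0 < σ) (h1 : σ < 1) (j : ℕ) : 0 < cc σ j := by
  apply Finset.prod_pos
  intro i _
  have : (0 : ℝ) ≤ i := Nat.cast_nonneg i
  apply div_pos <;> linarith

theorem kk_pos {σ : ℝ} (h0 : 0 < σ) (h1 : σ < 1) (j : ℕ) : 0 < kk σ j := by
  have : (0 : ℝ) ≤ j := Nat.cast_nonneg j
  unfold kk
  apply div_pos
  · linarith
  · apply mul_pos <;> linarith

theorem KK_pos {σ : ℝ} (h0 : 0 < σ) (h1 : σ < 1) {n : ℕ} (hn : 1 ≤ n) : 0 < KK σ n := by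
  apply Finset.sum_pos
  · intro i _; exact kk_pos h0 h1 i
  · exact ⟨0, Finset.mem_range.2 hn⟩

theorem KK_ge {σ : ℝ} (h0 : 0 < σ) (h1 : σ < 1) {n : ℕ} (hn : 1 ≤ n) : 1 / σ ≤ KK σ n := by
  have h2 : kk σ 0 ≤ KK σ n :=
    Finset.single_le_sum (f := fun j => kk σ j) (fun i _ => (kk_pos h0 h1 i).le)
      (Finset.mem_range.2 hn)
  refine le_trans ?_ h2
  unfold kk
  push_cast
  rw [div_le_div_iff₀ h0 (by nlinarith)]
  nlinarith

/-- the identity `2 Re (y conj (a - b))` -/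
theorem two_inner (s : ℝ) (a b : ℂ) :
    2 * inner ℝ ((s : ℂ) * a + ((1 - s : ℝ) : ℂ) * b) (a - b) =
      ‖a‖ ^ 2 - ‖b‖ ^ 2 + (2 * s - 1) * ‖a - b‖ ^ 2 := by
  rw [Complex.inner, ← Complex.normSq_eq_norm_sq, ← Complex.normSq_eq_norm_sq,
    ← Complex.normSq_eq_norm_sq]
  simp only [Complex.normSq_apply, Complex.mul_re, Complex.add_re, Complex.sub_re,
    Complex.sub_im, Complex.add_im, Complex.mul_im, Complex.conj_re, Complex.conj_im,
    Complex.ofReal_re, Complex.ofReal_im]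
  ring

theorem sum_inner (p : ℝ) (n : ℕ) (γ : ℕ → ℂ) :
    2 * ∑ j ∈ Finset.range n, inner ℝ (yC (1 / p) γ j) (γ j - γ (j + 1)) = DD p n γ := by
  rw [Finset.mul_sum]
  have h1 : ∀ j ∈ Finset.range n, 2 * inner ℝ (yC (1 / p) γ j) (γ j - γ (j + 1)) =
      (‖γ j‖ ^ 2 - ‖γ (j + 1)‖ ^ 2) +
        (1 - 2 / p) * (‖γ j - γ (j + 1)‖ ^ 2 / (2 * (j : ℝ) + 1)) := by
    intro j _
    unfold yC
    rw [two_inner]
    have : 2 * th (1 / p) j - 1 = (1 - 2 / p) / (2 * (j : ℝ) + 1) := by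
      unfold th
      have : (2 * (j : ℝ) + 1) ≠ 0 := by positivity
      field_simp
      ring
    rw [this]
    ring
  rw [Finset.sum_congr rfl h1, Finset.sum_add_distrib, ← Finset.mul_sum, Finset.sum_range_sub']
  rfl

theorem main (h1 : S_CHN) (h2 : S_PT) : S_ENV := by
  intro n hn
  obtain ⟨C, hC, hCε⟩ := h2 n hn
  refine ⟨C, hC, fun ε hε hε1 => ?_⟩
  obtain ⟨M, p1, hM, hp1, hpt⟩ := hCε ε hε hε1
  refine ⟨M, p1, hM, hp1, fun p hp h hh hR0 => ?_⟩
  obtain ⟨X, G, R, hR, hX, hG, hXR, hGR, hGn, hG0, hXG1, hXG0⟩ := h1 n h hh hR0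
  have hp4 : 4 ≤ p := by linarith
  have hp0 : 0 < p := by linarith
  obtain ⟨σ, hσ⟩ : ∃ σ : ℝ, σ = 1 / p := ⟨_, rfl⟩
  have hσ0 : 0 < σ := by rw [hσ]; positivity
  have hσp : σ * p = 1 := by rw [hσ]; field_simp
  have hσ1 : σ < 1 := by nlinarith
  have hKp : 0 < KK σ n := KK_pos hσ0 hσ1 hn
  have hKge : p ≤ KK σ n := by
    have := KK_ge hσ0 hσ1 hn
    rwa [hσ, one_div_one_div, ← hσ] at this
  let γ : ℝ → ℕ → ℂ := fun x j => (((-1) ^ j * cc σ j : ℝ) : ℂ) * G j x
  let Y : ℕ → ℝ → ℂ := fun j x => (((-1) ^ j * cc σ j * ((j : ℝ) + 1 - σ) : ℝ) : ℂ) * X j x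
  let Y' : ℕ → ℝ → ℂ := fun j x => (((-1) ^ j * cc σ j * ((j : ℝ) + 1 - σ) : ℝ) : ℂ) * deriv (X j) x
  have hγs : ∀ x j, γ x (j + 1) =
      - ((((-1) ^ j * cc σ j * (((j : ℝ) + 1 - σ) / ((j : ℝ) + σ)) : ℝ) : ℂ) * G (j + 1) x) := by
    intro x j
    change (((-1) ^ (j + 1) * cc σ (j + 1) : ℝ) : ℂ) * G (j + 1) x = _
    rw [cc_succ, pow_succ]
    push_cast
    ring
  have hyy : ∀ x j, j < n → yC σ (γ x) j = Y j x := by
    intro x j hj
    have h1 := hXG1 j hj x
    have h2 := hXG0 j hj x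
    have hj0 : (0 : ℝ) ≤ j := Nat.cast_nonneg j
    have hne1 : (2 * (j : ℂ) + 1) ≠ 0 := by
      have : ((2 * (j : ℝ) + 1 : ℝ) : ℂ) ≠ 0 := Complex.ofReal_ne_zero.2 (by positivity)
      push_cast at this
      exact this
    have hne2 : ((j : ℂ) + σ) ≠ 0 := by
      have : (((j : ℝ) + σ : ℝ) : ℂ) ≠ 0 := Complex.ofReal_ne_zero.2 (by positivity)
      push_cast at this
      exact this
    unfold yC th
    rw [hγs]
    change _ * ((((-1) ^ j * cc σ j : ℝ) : ℂ) * G j x) + _ =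
      (((-1) ^ j * cc σ j * ((j : ℝ) + 1 - σ) : ℝ) : ℂ) * X j x
    have h3 : G j x = G (j + 1) x + (2 * (j : ℂ) + 1) * X j x := by rw [← h1, ← h2]; ring
    rw [h3]
    push_cast
    have hne1' : ((j : ℂ) * 2 + 1) ≠ 0 := by rw [mul_comm]; exact hne1
    field_simp
    ring
  have hYd : ∀ (x : ℝ) (j : ℕ), j < n → (x : ℂ) * Y' j x =
      ((-σ : ℝ) : ℂ) * Y j x + (((kk σ j)⁻¹ : ℝ) : ℂ) * (γ x j - γ x (j + 1)) := by
    intro x j hj
    have h1 := hXG1 j hj x
    have h2 := hXG0 j hj x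
    have hj0 : (0 : ℝ) ≤ j := Nat.cast_nonneg j
    have hne1 : (2 * (j : ℂ) + 1) ≠ 0 := by
      have : ((2 * (j : ℝ) + 1 : ℝ) : ℂ) ≠ 0 := Complex.ofReal_ne_zero.2 (by positivity)
      push_cast at this
      exact this
    have hne2 : ((j : ℂ) + σ) ≠ 0 := by
      have : (((j : ℝ) + σ : ℝ) : ℂ) ≠ 0 := Complex.ofReal_ne_zero.2 (by positivity)
      push_cast at this
      exact this
    have hne3 : ((j : ℂ) + 1 - σ) ≠ 0 := by
      have : (((j : ℝ) + 1 - σ : ℝ) : ℂ) ≠ 0 := by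
        apply Complex.ofReal_ne_zero.2
        have : (0 : ℝ) < (j : ℝ) + 1 - σ := by linarith
        exact this.ne'
      push_cast at this
      exact this
    rw [hγs]
    change (x : ℂ) * ((((-1) ^ j * cc σ j * ((j : ℝ) + 1 - σ) : ℝ) : ℂ) * deriv (X j) x) =
      ((-σ : ℝ) : ℂ) * ((((-1) ^ j * cc σ j * ((j : ℝ) + 1 - σ) : ℝ) : ℂ) * X j x) +
      _ * ((((-1) ^ j * cc σ j : ℝ) : ℂ) * G j x - _)
    rw [← h1, ← h2]
    unfold kk
    push_cast
    have hne1' : ((j : ℂ) * 2 + 1) ≠ 0 := by rw [mul_comm]; exact hne1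
    field_simp
    ring
  let L : ℝ → ℝ := fun x => (∑ j ∈ Finset.range n, kk σ j * ‖Y j x‖ ^ 2) / KK σ n
  have hLL : ∀ x, LamC σ n (γ x) = L x := by
    intro x
    unfold LamC
    change _ = (∑ j ∈ Finset.range n, kk σ j * ‖Y j x‖ ^ 2) / KK σ n
    congr 1
    apply Finset.sum_congr rfl
    intro j hj
    rw [hyy x j (Finset.mem_range.1 hj)]
  have hL0 : ∀ x, 0 ≤ L x := by
    intro x
    apply div_nonneg _ hKp.le
    apply Finset.sum_nonneg
    intro j _
    exact mul_nonneg (kk_pos hσ0 hσ1 j).le (sq_nonneg _)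
  have hYD : ∀ j x, HasDerivAt (Y j) (Y' j x) x := by
    intro j x
    have h1 : HasDerivAt (X j) (deriv (X j) x) x :=
      (((hX j).differentiable (by simp)) x).hasDerivAt
    exact h1.const_mul _
  let L' : ℝ → ℝ := fun x => (∑ j ∈ Finset.range n, kk σ j * (2 * inner ℝ (Y j x) (Y' j x))) / KK σ n
  have hLD : ∀ x, HasDerivAt L (L' x) x := by
    intro x
    apply HasDerivAt.div_const
    apply HasDerivAt.fun_sum
    intro j _
    apply HasDerivAt.const_mul
    exact (hYD j x).norm_sq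
  let E : ℝ → ℝ := fun x => DD p n (γ x)
  have hE : ∀ x, 2 * ∑ j ∈ Finset.range n, inner ℝ (Y j x) (γ x j - γ x (j + 1)) = E x := by
    intro x
    change _ = DD p n (γ x)
    rw [← sum_inner p n (γ x)]
    congr 1
    apply Finset.sum_congr rfl
    intro j hj
    rw [← hσ, hyy x j (Finset.mem_range.1 hj)]
  have hxL : ∀ x, x * L' x = -2 * σ * L x + E x / KK σ n := by
    intro x
    rw [← hE x]
    change x * ((∑ j ∈ Finset.range n, kk σ j * (2 * inner ℝ (Y j x) (Y' j x))) / KK σ n) =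
      -2 * σ * ((∑ j ∈ Finset.range n, kk σ j * ‖Y j x‖ ^ 2) / KK σ n) + _
    rw [← mul_div_assoc, ← mul_div_assoc, ← add_div]
    congr 1
    rw [Finset.mul_sum, Finset.mul_sum, Finset.mul_sum, ← Finset.sum_add_distrib]
    apply Finset.sum_congr rfl
    intro j hj
    have h1 := hYd x j (Finset.mem_range.1 hj)
    have hk := (kk_pos hσ0 hσ1 j).ne'
    have h3 : x * inner ℝ (Y j x) (Y' j x) = inner ℝ (Y j x) ((x : ℂ) * Y' j x) := by
      rw [← Complex.real_smul, inner_smul_right]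
    have h2 : x * (kk σ j * (2 * inner ℝ (Y j x) (Y' j x))) =
        kk σ j * (2 * (x * inner ℝ (Y j x) (Y' j x))) := by ring
    rw [h2, h3, h1, ← Complex.real_smul, ← Complex.real_smul, inner_add_right, inner_smul_right,
      inner_smul_right, real_inner_self_eq_norm_sq]
    field_simp
  have hp2 : 0 ≤ p / 2 - 1 := by linarith
  have hpow : ∀ x, L x ^ (p / 2) = L x ^ (p / 2 - 1) * L x := by
    intro x
    have h1 : p / 2 = (p / 2 - 1) + 1 := by ring
    have h2 : (p / 2 - 1) + 1 ≠ 0 := by linarith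
    conv_lhs => rw [h1]
    rw [Real.rpow_add_one' (hL0 x) h2]
  let F : ℝ → ℝ := fun x => p / (2 * KK σ n) * (L x ^ (p / 2 - 1) * E x)
  have hFD : ∀ x, HasDerivAt (fun x => x * L x ^ (p / 2)) (F x) x := by
    intro x
    have h1 := (hLD x).rpow_const (p := p / 2) (Or.inr (by linarith))
    have h2 := (hasDerivAt_id x).mul h1
    have h3 : F x = 1 * L x ^ (p / 2) + id x * (L' x * (p / 2) * L x ^ (p / 2 - 1)) := by
      have h4 := hxL x
      have h5 := hpow x
      have h6 : id x * (L' x * (p / 2) * L x ^ (p / 2 - 1)) =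
          (p / 2) * L x ^ (p / 2 - 1) * (x * L' x) := by
        rw [id]; ring
      rw [h6, h4, h5]
      change p / (2 * KK σ n) * (L x ^ (p / 2 - 1) * E x) = _
      generalize E x = S
      generalize L x ^ (p / 2 - 1) = q
      generalize L x = l
      have hK := hKp.ne'
      field_simp
      have h7 : σ * p = 1 := hσp
      linear_combination (2 * q * l * KK σ n) * h7
    rw [h3]
    exact h2
  have hcY : ∀ j, Continuous (Y j) := fun j => (continuous_const.mul (hX j).continuous)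
  have hcG : ∀ j, Continuous (fun x => γ x j) := fun j => (continuous_const.mul (hG j).continuous)
  have hcL : Continuous L := by
    apply Continuous.div_const
    apply continuous_finsetSum
    intro j _
    exact continuous_const.mul ((hcY j).norm.pow 2)
  have hcE : Continuous E := by
    change Continuous (fun x => DD p n (γ x))
    unfold DD TTC
    apply Continuous.add
    · exact ((hcG 0).norm.pow 2).sub ((hcG n).norm.pow 2)
    · apply Continuous.mul continuous_const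
      apply continuous_finsetSum
      intro j _
      exact ((((hcG j).sub (hcG (j + 1))).norm.pow 2).div_const _)
  have hcLp : Continuous (fun x => L x ^ (p / 2)) := hcL.rpow_const (fun x => Or.inr (by linarith))
  have hcLp1 : Continuous (fun x => L x ^ (p / 2 - 1)) := hcL.rpow_const (fun x => Or.inr hp2)
  have hcF : Continuous F := continuous_const.mul (hcLp1.mul hcE)
  have hcn : cc σ n = Cn p n := by rw [hσ]; rfl
  have hcn0 : 0 < Cn p n := by rw [← hcn]; exact cc_pos hσ0 hσ1 n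
  have hu : ∀ x, ‖γ x 0‖ = ‖iteratedDeriv n (fun x : ℝ => (x : ℂ) ^ n * h x) x‖ := by
    intro x
    change ‖(((-1) ^ 0 * cc σ 0 : ℝ) : ℂ) * G 0 x‖ = _
    rw [cc_zero, pow_zero, one_mul, Complex.ofReal_one, one_mul, hG0]
  have hf : ∀ x, ‖γ x n‖ = Cn p n * ‖(x : ℂ) ^ n * iteratedDeriv n h x‖ := by
    intro x
    change ‖(((-1) ^ n * cc σ n : ℝ) : ℂ) * G n x‖ = _
    rw [norm_mul, Complex.norm_real, Real.norm_eq_abs, abs_mul, abs_pow, abs_neg, abs_one, one_pow,
      one_mul, hcn, abs_of_pos hcn0, hGn]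
  let dd : ℝ → ℝ := fun x => dl p n (γ x)
  have hdd : ∀ x, dd x = ‖γ x n‖ ^ p - ‖γ x 0‖ ^ p + KK σ n * F x := by
    intro x
    change dl p n (γ x) = _ + KK σ n * (p / (2 * KK σ n) * (L x ^ (p / 2 - 1) * E x))
    unfold dl
    rw [← hσ, hLL]
    have hK := hKp.ne'
    change _ = _ + KK σ n * (p / (2 * KK σ n) * (L x ^ (p / 2 - 1) * DD p n (γ x)))
    field_simp
  have hc0 : Continuous (fun x => ‖γ x 0‖ ^ p) :=
    (hcG 0).norm.rpow_const (fun x => Or.inr hp0.le)
  have hc1 : Continuous (fun x => ‖γ x n‖ ^ p) :=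
    (hcG n).norm.rpow_const (fun x => Or.inr hp0.le)
  have hcd : Continuous dd := by
    have : dd = fun x => ‖γ x n‖ ^ p - ‖γ x 0‖ ^ p + KK σ n * F x := funext hdd
    rw [this]
    exact (hc1.sub hc0).add (continuous_const.mul hcF)
  have hγR : ∀ x j, R ≤ x → γ x j = 0 := by
    intro x j hx
    change (((-1) ^ j * cc σ j : ℝ) : ℂ) * G j x = 0
    rw [hGR j x hx, mul_zero]
  have hER : ∀ x, R ≤ x → E x = 0 := by
    intro x hx
    change DD p n (γ x) = 0
    unfold DD TTC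
    simp only [hγR x _ hx]
    simp
  have hLR : ∀ x, R ≤ x → L x ^ (p / 2) = 0 := by
    intro x hx
    have h1 : L x = 0 := by
      change (∑ j ∈ Finset.range n, kk σ j * ‖Y j x‖ ^ 2) / KK σ n = 0
      rw [Finset.sum_eq_zero, zero_div]
      intro j _
      have : Y j x = 0 := by
        change (((-1) ^ j * cc σ j * ((j : ℝ) + 1 - σ) : ℝ) : ℂ) * X j x = 0
        rw [hXR j x hx, mul_zero]
      rw [this, norm_zero]; ring
    rw [h1, Real.zero_rpow (by positivity)]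
  have hFR : ∀ x, R ≤ x → F x = 0 := by
    intro x hx
    change p / (2 * KK σ n) * (L x ^ (p / 2 - 1) * E x) = 0
    rw [hER x hx, mul_zero, mul_zero]
  have hdR : ∀ x, R ≤ x → dd x = 0 := by
    intro x hx
    rw [hdd, hFR x hx, hγR x _ hx, hγR x _ hx]
    simp
  have hPT := fun x => hpt p (γ x) hp
  have hFle : ∀ x, |F x| ≤ C / p * (L x ^ (p / 2) + dd x) := by
    intro x
    have h3 := (hPT x).2.2.2
    rw [← hσ, hLL] at h3
    have h4 : |F x| = p / (2 * KK σ n) * (L x ^ (p / 2 - 1) * |DD p n (γ x)|) := by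
      change |p / (2 * KK σ n) * (L x ^ (p / 2 - 1) * DD p n (γ x))| = _
      rw [abs_mul, abs_mul, abs_of_nonneg (show 0 ≤ p / (2 * KK σ n) by positivity),
        abs_of_nonneg (Real.rpow_nonneg (hL0 x) _)]
    rw [h4]
    have h5 : p / (2 * KK σ n) ≤ 1 := by
      rw [div_le_one (by positivity)]
      linarith
    have h6 : 0 ≤ L x ^ (p / 2 - 1) * |DD p n (γ x)| :=
      mul_nonneg (Real.rpow_nonneg (hL0 x) _) (abs_nonneg _)
    calc p / (2 * KK σ n) * (L x ^ (p / 2 - 1) * |DD p n (γ x)|)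
        ≤ 1 * (L x ^ (p / 2 - 1) * |DD p n (γ x)|) := mul_le_mul_of_nonneg_right h5 h6
      _ = L x ^ (p / 2 - 1) * |DD p n (γ x)| := one_mul _
      _ ≤ C / p * (L x ^ (p / 2) + dd x) := h3
  refine ⟨fun x => L x ^ (p / 2), dd, ?_⟩
  refine ⟨hcLp, hcd, fun t => Real.rpow_nonneg (hL0 t) _, fun t => (hPT t).1,
    ⟨R, hR, fun t ht => ⟨hLR t ht, hdR t ht⟩⟩, ?_, ?_, ?_, ?_⟩
  · intro t _
    have h3 := (hPT t).2.1
    rw [← hσ, hLL, hu] at h3
    exact h3
  · intro t _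
    have h3 := (hPT t).2.2.1
    rw [← hσ, hLL, hf] at h3
    exact h3
  · intro s t _ hst
    have h3 : ∫ x in s..t, F x = t * L t ^ (p / 2) - s * L s ^ (p / 2) :=
      intervalIntegral.integral_eq_sub_of_hasDerivAt (fun x _ => hFD x)
        (hcF.intervalIntegrable _ _)
    change |t * L t ^ (p / 2) - s * L s ^ (p / 2)| ≤ C / p * ∫ x in s..t, (L x ^ (p / 2) + dd x)
    rw [← h3]
    calc |∫ x in s..t, F x| ≤ ∫ x in s..t, |F x| :=
          intervalIntegral.abs_integral_le_integral_abs hst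
      _ ≤ ∫ x in s..t, C / p * (L x ^ (p / 2) + dd x) := by
          apply intervalIntegral.integral_mono_on hst
          · exact hcF.abs.intervalIntegrable _ _
          · exact (continuous_const.mul (hcLp.add hcd)).intervalIntegrable _ _
          · intro x _; exact hFle x
      _ = C / p * ∫ x in s..t, (L x ^ (p / 2) + dd x) := intervalIntegral.integral_const_mul _ _
  · have hI : ∀ g : ℝ → ℝ, (∀ x, R ≤ x → g x = 0) →
        ∫ x in Ioi (0 : ℝ), g x = ∫ x in (0 : ℝ)..R, g x := by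
      intro g hg
      rw [intervalIntegral.integral_of_le hR.le]
      apply setIntegral_eq_of_subset_of_forall_sdiff_eq_zero measurableSet_Ioi Ioc_subset_Ioi_self
      rintro x ⟨hx1, hx2⟩
      apply hg
      by_contra hx
      exact hx2 ⟨hx1, (not_le.1 hx).le⟩
    have e0 : ∫ x in Ioi (0 : ℝ), ‖iteratedDeriv n (fun x : ℝ => (x : ℂ) ^ n * h x) x‖ ^ p =
        ∫ x in (0 : ℝ)..R, ‖γ x 0‖ ^ p := by
      rw [← hI]
      · simp only [hu]
      · intro x hx
        rw [hγR x 0 hx, norm_zero, Real.zero_rpow hp0.ne']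
    have e1 : ∫ x in Ioi (0 : ℝ), (Cn p n * ‖(x : ℂ) ^ n * iteratedDeriv n h x‖) ^ p =
        ∫ x in (0 : ℝ)..R, ‖γ x n‖ ^ p := by
      rw [← hI]
      · simp only [hf]
      · intro x hx
        rw [hγR x n hx, norm_zero, Real.zero_rpow hp0.ne']
    have e2 : ∫ x in Ioi (0 : ℝ), dd x = ∫ x in (0 : ℝ)..R, dd x := hI _ hdR
    rw [e0, e1, e2]
    have h3 : ∫ x in (0 : ℝ)..R, F x = R * L R ^ (p / 2) - 0 * L 0 ^ (p / 2) :=
      intervalIntegral.integral_eq_sub_of_hasDerivAt (fun x _ => hFD x)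
        (hcF.intervalIntegrable _ _)
    rw [hLR R le_rfl, mul_zero, zero_mul, sub_zero] at h3
    have h4 : ∫ x in (0 : ℝ)..R, dd x =
        (∫ x in (0 : ℝ)..R, ‖γ x n‖ ^ p) - (∫ x in (0 : ℝ)..R, ‖γ x 0‖ ^ p) +
          KK σ n * ∫ x in (0 : ℝ)..R, F x := by
      have i1 : IntervalIntegrable (fun x => ‖γ x n‖ ^ p - ‖γ x 0‖ ^ p) volume 0 R :=
        (hc1.sub hc0).intervalIntegrable _ _
      have i2 : IntervalIntegrable (fun x => KK σ n * F x) volume 0 R :=
        (continuous_const.mul hcF).intervalIntegrable _ _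
      calc ∫ x in (0 : ℝ)..R, dd x
          = ∫ x in (0 : ℝ)..R, ((‖γ x n‖ ^ p - ‖γ x 0‖ ^ p) + KK σ n * F x) :=
            intervalIntegral.integral_congr (fun x _ => hdd x)
        _ = (∫ x in (0 : ℝ)..R, (‖γ x n‖ ^ p - ‖γ x 0‖ ^ p)) +
            ∫ x in (0 : ℝ)..R, KK σ n * F x := intervalIntegral.integral_add i1 i2
        _ = _ := by
            rw [intervalIntegral.integral_sub (hc1.intervalIntegrable _ _)
              (hc0.intervalIntegrable _ _), intervalIntegral.integral_const_mul]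
    rw [h4, h3]
    ring

end Pool.NH61.FS.EnvP
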