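import Pool.Agent.NH61.FS.Def

/-! # Project FS: integrals of the kernels -/

set_option autoImplicit false

open MeasureTheory Set Filter Topology
open scoped SchwartzMap ENNReal

namespace Pool.NH61.FS.Ki

/-- the antiderivative on `(1, ∞)` -/
noncomputable def F1 (m y : ℝ) : ℝ :=
  -(4 / 3) * (1 + m * (y - 1)) ^ (-(3 / 4) : ℝ) - 4 * y ^ (-(1 / 4) : ℝ)

noncomputable def g1 (m y : ℝ) : ℝ :=
  m * (1 + m * (y - 1)) ^ (-(7 / 4) : ℝ) + y ^ (-(5 / 4) : ℝ)

theorem derF1 (m y : ℝ) (hm : 1 ≤ m) (hy : 1 ≤ y) : HasDerivAt (F1 m) (g1 m y) y := by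
  have hpos : 0 < 1 + m * (y - 1) := by nlinarith [mul_nonneg (by linarith : (0:ℝ) ≤ m) (by linarith : 0 ≤ y - 1)]
  have h0 : HasDerivAt (fun y : ℝ => 1 + m * (y - 1)) m y := by
    have := ((hasDerivAt_id y).sub_const 1).const_mul m
    simpa using this.const_add 1
  have h1 := (h0.rpow_const (p := (-(3 / 4) : ℝ)) (Or.inl hpos.ne')).const_mul (-(4 / 3) : ℝ)
  have h2 := ((Real.hasDerivAt_rpow_const (x := y) (p := (-(1 / 4) : ℝ))
    (Or.inl (by linarith))).const_mul (4 : ℝ))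
  have h3 := h1.sub h2
  have e : g1 m y = -(4 / 3) * (m * (-(3 / 4) : ℝ) * (1 + m * (y - 1)) ^ ((-(3 / 4) : ℝ) - 1)) -
      4 * ((-(1 / 4) : ℝ) * y ^ ((-(1 / 4) : ℝ) - 1)) := by
    unfold g1
    rw [show ((-(3 / 4) : ℝ) - 1) = -(7 / 4) by norm_num,
      show ((-(1 / 4) : ℝ) - 1) = -(5 / 4) by norm_num]
    ring
  rw [e]
  exact h3

theorem tendF1 (m : ℝ) (hm : 1 ≤ m) : Tendsto (F1 m) atTop (𝓝 0) := by
  have h1 : Tendsto (fun y : ℝ => 1 + m * (y - 1)) atTop atTop := by
    apply tendsto_atTop_add_const_left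
    exact Tendsto.const_mul_atTop (by linarith) (tendsto_atTop_add_const_right _ (-1) tendsto_id)
  have h2 := ((tendsto_rpow_neg_atTop (show (0:ℝ) < 3 / 4 by norm_num)).comp h1).const_mul
    (-(4 / 3) : ℝ)
  have h3 := (tendsto_rpow_neg_atTop (show (0:ℝ) < 1 / 4 by norm_num)).const_mul (4 : ℝ)
  have h4 := h2.sub h3
  simp only [mul_zero, sub_zero] at h4
  exact h4

theorem g1nn (m y : ℝ) (hm : 1 ≤ m) (hy : 1 ≤ y) : 0 ≤ g1 m y := by
  have hpos : 0 < 1 + m * (y - 1) := by nlinarith [mul_nonneg (by linarith : (0:ℝ) ≤ m) (by linarith : 0 ≤ y - 1)]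
  unfold g1
  have := Real.rpow_nonneg hpos.le (-(7 / 4) : ℝ)
  have := Real.rpow_nonneg (show 0 ≤ y by linarith) (-(5 / 4) : ℝ)
  positivity

theorem int1 (m : ℝ) (hm : 1 ≤ m) : IntegrableOn (g1 m) (Ioi 1) ∧
    ∫ y in Ioi (1 : ℝ), g1 m y = 16 / 3 := by
  refine ⟨integrableOn_Ioi_deriv_of_nonneg' (fun y hy => derF1 m y hm hy)
    (fun y hy => g1nn m y hm (le_of_lt hy)) (tendF1 m hm), ?_⟩
  rw [integral_Ioi_of_hasDerivAt_of_nonneg' (fun y hy => derF1 m y hm hy)
    (fun y hy => g1nn m y hm (le_of_lt hy)) (tendF1 m hm)]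
  simp [F1]
  norm_num

/-- the antiderivative on `(0, 1)` -/
noncomputable def F2 (m y : ℝ) : ℝ :=
  5 / 4 * (1 + m * (1 - y))⁻¹ + 2 / 3 * y ^ (3 / 4 : ℝ)

noncomputable def g2 (m y : ℝ) : ℝ :=
  5 / 4 * (m / (1 + m * (1 - y)) ^ 2) + 1 / 2 * y ^ (-(1 / 4) : ℝ)

theorem derF2 (m y : ℝ) (hm : 1 ≤ m) (hy : 0 < y) (hy1 : y < 1) :
    HasDerivAt (F2 m) (g2 m y) y := by
  have hpos : 0 < 1 + m * (1 - y) := by nlinarith [mul_nonneg (by linarith : (0:ℝ) ≤ m) (by linarith : 0 ≤ 1 - y)]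
  have h0 : HasDerivAt (fun y : ℝ => 1 + m * (1 - y)) (-m) y := by
    have := ((hasDerivAt_id y).const_sub 1).const_mul m
    simpa using this.const_add 1
  have h1 := (h0.inv hpos.ne').const_mul (5 / 4 : ℝ)
  have h2 := ((Real.hasDerivAt_rpow_const (x := y) (p := (3 / 4 : ℝ))
    (Or.inl hy.ne')).const_mul (2 / 3 : ℝ))
  have h3 := h1.add h2
  have e : g2 m y = 5 / 4 * (-(-m) / (1 + m * (1 - y)) ^ 2) +
      2 / 3 * ((3 / 4 : ℝ) * y ^ ((3 / 4 : ℝ) - 1)) := by
    unfold g2
    rw [show ((3 / 4 : ℝ) - 1) = -(1 / 4) by norm_num, neg_neg]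
    ring
  rw [e]
  exact h3

theorem g2nn (m y : ℝ) (hm : 1 ≤ m) (hy : 0 < y) (hy1 : y < 1) : 0 ≤ g2 m y := by
  unfold g2
  have := Real.rpow_nonneg hy.le (-(1 / 4) : ℝ)
  positivity

theorem contF2 (m : ℝ) (hm : 1 ≤ m) : ContinuousOn (F2 m) (Icc 0 1) := by
  unfold F2
  apply ContinuousOn.add
  · apply ContinuousOn.mul continuousOn_const
    apply ContinuousOn.inv₀
    · fun_prop
    · intro y hy
      have : 0 < 1 + m * (1 - y) := by nlinarith [mul_nonneg (by linarith : (0:ℝ) ≤ m) (by linarith [hy.2] : 0 ≤ 1 - y)]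
      exact this.ne'
  · apply ContinuousOn.mul continuousOn_const
    apply ContinuousOn.rpow_const continuousOn_id
    intro y _
    right
    norm_num

theorem int2 (m : ℝ) (hm : 1 ≤ m) : IntegrableOn (g2 m) (Ioo 0 1) ∧
    ∫ y in Ioo (0 : ℝ) 1, g2 m y ≤ 2 := by
  have hi : IntegrableOn (g2 m) (Ioc 0 1) :=
    intervalIntegral.integrableOn_deriv_of_nonneg (contF2 m hm)
      (fun y hy => derF2 m y hm hy.1 hy.2) (fun y hy => g2nn m y hm hy.1 hy.2)
  refine ⟨hi.mono_set Ioo_subset_Ioc_self, ?_⟩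
  rw [← integral_Ioc_eq_integral_Ioo, ← intervalIntegral.integral_of_le zero_le_one,
    intervalIntegral.integral_eq_sub_of_hasDerivAt_of_le zero_le_one (contF2 m hm)
      (fun y hy => derF2 m y hm hy.1 hy.2)
      ((intervalIntegrable_iff_integrableOn_Ioc_of_le zero_le_one).2 hi)]
  simp only [F2]
  have h5 : 0 ≤ (1 + m * (1 - 0))⁻¹ := by positivity
  rw [Real.zero_rpow (by norm_num), Real.one_rpow]
  have h6 : (1 + m * (1 - 1))⁻¹ = 1 := by norm_num
  rw [h6]
  linarith

theorem main : S_KI := by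
  intro B β hB hK
  obtain ⟨hmeas, hnn, m, hm, h | h⟩ := hK
  · obtain ⟨h0, h1⟩ := h
    have hle : ∫⁻ y in Ioi (0 : ℝ), ENNReal.ofReal (β y * rho y ^ (1 / 4 : ℝ)) ≤
        ∫⁻ y in Ioi (1 : ℝ), ENNReal.ofReal (B * g1 m y) := by
      rw [← lintegral_indicator measurableSet_Ioi, ← lintegral_indicator measurableSet_Ioi]
      apply lintegral_mono
      intro y
      simp only [indicator]
      by_cases hy1 : 1 < y
      · rw [if_pos (show y ∈ Ioi (0 : ℝ) from by simp only [mem_Ioi]; linarith),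
          if_pos (show y ∈ Ioi (1 : ℝ) from hy1)]
        apply ENNReal.ofReal_le_ofReal
        have hr : rho y = y := by
          unfold rho
          apply max_eq_left
          exact (inv_le_one_of_one_le₀ hy1.le).trans hy1.le
        rw [hr]
        have hy0 : 0 < y := by linarith
        have hpos : 0 < 1 + m * (y - 1) := by
          nlinarith [mul_nonneg (by linarith : (0:ℝ) ≤ m) (by linarith : 0 ≤ y - 1)]
        have hyle : y ≤ 1 + m * (y - 1) := by
          nlinarith [mul_le_mul_of_nonneg_right hm (by linarith : (0:ℝ) ≤ y - 1)]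
        have hq : y ^ (1 / 4 : ℝ) ≤ (1 + m * (y - 1)) ^ (1 / 4 : ℝ) :=
          Real.rpow_le_rpow hy0.le hyle (by norm_num)
        have hq0 : 0 ≤ y ^ (1 / 4 : ℝ) := Real.rpow_nonneg hy0.le _
        calc β y * y ^ (1 / 4 : ℝ)
            ≤ (B * (m / (1 + m * (y - 1)) ^ 2 + y ^ (-(3 / 2) : ℝ))) * y ^ (1 / 4 : ℝ) :=
              mul_le_mul_of_nonneg_right (h1 y hy1) hq0
          _ = B * (m / (1 + m * (y - 1)) ^ 2 * y ^ (1 / 4 : ℝ) +
                y ^ (-(3 / 2) : ℝ) * y ^ (1 / 4 : ℝ)) := by ring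
          _ ≤ B * (m / (1 + m * (y - 1)) ^ 2 * (1 + m * (y - 1)) ^ (1 / 4 : ℝ) +
                y ^ (-(3 / 2) : ℝ) * y ^ (1 / 4 : ℝ)) := by
              apply mul_le_mul_of_nonneg_left _ hB
              apply add_le_add _ le_rfl
              apply mul_le_mul_of_nonneg_left hq
              positivity
          _ = B * g1 m y := by
              unfold g1
              rw [← Real.rpow_add hy0]
              have e : m / (1 + m * (y - 1)) ^ 2 * (1 + m * (y - 1)) ^ (1 / 4 : ℝ) =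
                  m * (1 + m * (y - 1)) ^ (-(7 / 4) : ℝ) := by
                rw [show (-(7 / 4) : ℝ) = 1 / 4 - 2 by norm_num, Real.rpow_sub hpos,
                  Real.rpow_two]
                ring
              rw [e]
              norm_num
      · by_cases hy0 : 0 < y
        · rw [if_pos (show y ∈ Ioi (0 : ℝ) from hy0), h0 y (not_lt.1 hy1)]
          simp
        · rw [if_neg (show ¬ y ∈ Ioi (0 : ℝ) from hy0)]
          exact bot_le
    refine hle.trans ?_
    obtain ⟨i1, i2⟩ := int1 m hm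
    rw [← ofReal_integral_eq_lintegral_ofReal (i1.const_mul B)
      ((ae_restrict_iff' measurableSet_Ioi).2 (ae_of_all _ fun y hy =>
        mul_nonneg hB (g1nn m y hm (le_of_lt hy)))), integral_const_mul, i2]
    apply ENNReal.ofReal_le_ofReal
    linarith
  · obtain ⟨h0, h0', h1⟩ := h
    have hle : ∫⁻ y in Ioi (0 : ℝ), ENNReal.ofReal (β y * rho y ^ (1 / 4 : ℝ)) ≤
        ∫⁻ y in Ioo (0 : ℝ) 1, ENNReal.ofReal (B * g2 m y) := by
      rw [← lintegral_indicator measurableSet_Ioi, ← lintegral_indicator measurableSet_Ioo]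
      apply lintegral_mono
      intro y
      simp only [indicator]
      by_cases hy0 : 0 < y
      · rw [if_pos (show y ∈ Ioi (0 : ℝ) from hy0)]
        by_cases hy1 : y < 1
        · rw [if_pos (show y ∈ Ioo (0 : ℝ) 1 from ⟨hy0, hy1⟩)]
          apply ENNReal.ofReal_le_ofReal
          have hr : rho y = y⁻¹ := by
            unfold rho
            apply max_eq_right
            exact hy1.le.trans ((one_le_inv₀ hy0).2 hy1.le)
          have hpos : 0 < 1 + m * (1 - y) := by
            nlinarith [mul_nonneg (by linarith : (0:ℝ) ≤ m) (by linarith : 0 ≤ 1 - y)]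
          have e1 : rho y ^ (1 / 4 : ℝ) = y ^ (-(1 / 4) : ℝ) := by
            rw [hr, Real.inv_rpow hy0.le, Real.rpow_neg hy0.le]
          rw [e1]
          have hq0 : 0 ≤ y ^ (-(1 / 4) : ℝ) := Real.rpow_nonneg hy0.le _
          have hc : m / (1 + m * (1 - y)) ^ 2 * y ^ (-(1 / 4) : ℝ) ≤ g2 m y := by
            unfold g2
            by_cases hyh : y ≤ 1 / 2
            · have hk : m / (1 + m * (1 - y)) ^ 2 ≤ 1 / 2 := by
                rw [div_le_iff₀ (by positivity)]
                have hx : 1 + m / 2 ≤ 1 + m * (1 - y) := by nlinarith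
                nlinarith [mul_self_nonneg (m / 2 - 1), mul_le_mul hx hx (by positivity) hpos.le]
              have h5 : m / (1 + m * (1 - y)) ^ 2 * y ^ (-(1 / 4) : ℝ) ≤
                  1 / 2 * y ^ (-(1 / 4) : ℝ) := mul_le_mul_of_nonneg_right hk hq0
              have h6 : 0 ≤ 5 / 4 * (m / (1 + m * (1 - y)) ^ 2) := by positivity
              linarith
            · have hk : y ^ (-(1 / 4) : ℝ) ≤ 5 / 4 := by
                have h7 : (1 / 2 : ℝ) ≤ y := (not_le.1 hyh).le
                have h8 : y ^ (-(1 / 4) : ℝ) ≤ (1 / 2 : ℝ) ^ (-(1 / 4) : ℝ) :=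
                  Real.rpow_le_rpow_of_nonpos (by norm_num) h7 (by norm_num)
                have h9 : (1 / 2 : ℝ) ^ (-(1 / 4) : ℝ) ≤ 5 / 4 := by
                  have h10 : (1 / 2 : ℝ) ^ (-(1 / 4) : ℝ) = (2 : ℝ) ^ (1 / 4 : ℝ) := by
                    rw [one_div, Real.inv_rpow (by norm_num), Real.rpow_neg (by norm_num), inv_inv]
                  rw [h10]
                  have h11 : (2 : ℝ) ≤ (5 / 4 : ℝ) ^ (4 : ℝ) := by
                    rw [show (4 : ℝ) = ((4 : ℕ) : ℝ) by norm_num, Real.rpow_natCast]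
                    norm_num
                  calc (2 : ℝ) ^ (1 / 4 : ℝ) ≤ ((5 / 4 : ℝ) ^ (4 : ℝ)) ^ (1 / 4 : ℝ) :=
                        Real.rpow_le_rpow (by norm_num) h11 (by norm_num)
                    _ = 5 / 4 := by
                        rw [← Real.rpow_mul (by norm_num)]
                        norm_num
                exact h8.trans h9
              have h5 : m / (1 + m * (1 - y)) ^ 2 * y ^ (-(1 / 4) : ℝ) ≤
                  m / (1 + m * (1 - y)) ^ 2 * (5 / 4) :=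
                mul_le_mul_of_nonneg_left hk (by positivity)
              have h6 : 0 ≤ 1 / 2 * y ^ (-(1 / 4) : ℝ) := by positivity
              linarith
          calc β y * y ^ (-(1 / 4) : ℝ)
              ≤ B * (m / (1 + m * (1 - y)) ^ 2) * y ^ (-(1 / 4) : ℝ) :=
                mul_le_mul_of_nonneg_right (h1 y hy0 hy1) hq0
            _ = B * (m / (1 + m * (1 - y)) ^ 2 * y ^ (-(1 / 4) : ℝ)) := by ring
            _ ≤ B * g2 m y := mul_le_mul_of_nonneg_left hc hB
        · rw [h0' y (not_lt.1 hy1)]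
          simp
      · rw [if_neg (show ¬ y ∈ Ioi (0 : ℝ) from hy0)]
        exact bot_le
    refine hle.trans ?_
    obtain ⟨i1, i2⟩ := int2 m hm
    rw [← ofReal_integral_eq_lintegral_ofReal (i1.const_mul B)
      ((ae_restrict_iff' measurableSet_Ioo).2 (ae_of_all _ fun y hy =>
        mul_nonneg hB (g2nn m y hm hy.1 hy.2))), integral_const_mul]
    apply ENNReal.ofReal_le_ofReal
    nlinarith

end Pool.NH61.FS.Ki
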