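import Pool.Agent.NH61.FS.Def

/-! # Project FS: kernels of the types k > n -/

set_option autoImplicit false

open MeasureTheory Set Filter Topology
open scoped SchwartzMap ENNReal

namespace Pool.NH61.FS.Kp1

open Pool.Agent.R223.RX (GG kk)

theorem GG_le (n j m : ℕ) (hj : 1 ≤ j) (hjn : j ≤ n) (hm : 1 ≤ m) (y : ℝ) (hy : 0 < y) :
    |GG j m y| ≤ (n : ℝ) ^ 2 * 2 ^ n * (n + 1) ^ n * (m * (1 + m * y) ^ (j - 1)) := by
  unfold GG
  have hm1 : (1 : ℝ) ≤ m := by exact_mod_cast hm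
  have hjn' : (j : ℝ) ≤ n := by exact_mod_cast hjn
  have hw : (0 : ℝ) ≤ m * y := by positivity
  refine (Finset.abs_sum_le_sum_abs _ _).trans ?_
  have hterm : ∀ i ∈ Finset.range j,
      |(-1 : ℝ) ^ i * (((i : ℝ) + 1) * (j.choose (i + 1)) * ((j + m).choose (i + 1))) * y ^ i| ≤
        (n : ℝ) * 2 ^ n * (n + 1) ^ n * (m * (1 + m * y) ^ (j - 1)) := by
    intro i hi
    have hij : i < j := Finset.mem_range.1 hi
    rw [abs_mul, abs_mul, abs_pow, abs_neg, abs_one, one_pow, one_mul,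
      abs_of_nonneg (by positivity), abs_of_nonneg (by positivity)]
    have h1 : (i : ℝ) + 1 ≤ n := by exact_mod_cast (by omega : i + 1 ≤ n)
    have h2 : ((j.choose (i + 1) : ℕ) : ℝ) ≤ 2 ^ n := by
      have h3 : j.choose (i + 1) ≤ 2 ^ n :=
        (Nat.choose_le_two_pow j (i + 1)).trans (Nat.pow_le_pow_right (by norm_num) hjn)
      exact_mod_cast h3
    have h3 : (((j + m).choose (i + 1) : ℕ) : ℝ) ≤ (n + 1) ^ n * (m * (m : ℝ) ^ i) := by
      have h4 : (j + m).choose (i + 1) ≤ (j + m) ^ (i + 1) := Nat.choose_le_pow _ _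
      have h5 : j + m ≤ (n + 1) * m := by nlinarith
      have h6 : (j + m).choose (i + 1) ≤ ((n + 1) * m) ^ (i + 1) :=
        h4.trans (Nat.pow_le_pow_left h5 _)
      have h7 : (n + 1) ^ (i + 1) ≤ (n + 1) ^ n := Nat.pow_le_pow_right (by omega) (by omega)
      have h8 : (j + m).choose (i + 1) ≤ (n + 1) ^ n * (m * m ^ i) := by
        calc (j + m).choose (i + 1) ≤ ((n + 1) * m) ^ (i + 1) := h6
          _ = (n + 1) ^ (i + 1) * (m * m ^ i) := by rw [mul_pow, pow_succ' m]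
          _ ≤ (n + 1) ^ n * (m * m ^ i) := Nat.mul_le_mul_right _ h7
      exact_mod_cast h8
    have h4 : (m : ℝ) ^ i * y ^ i ≤ (1 + m * y) ^ (j - 1) := by
      rw [← mul_pow]
      calc ((m : ℝ) * y) ^ i ≤ (1 + m * y) ^ i := pow_le_pow_left₀ hw (by linarith) i
        _ ≤ (1 + m * y) ^ (j - 1) := pow_le_pow_right₀ (by linarith) (by omega)
    calc ((i : ℝ) + 1) * (j.choose (i + 1)) * ((j + m).choose (i + 1)) * y ^ i
        ≤ (n : ℝ) * 2 ^ n * ((n + 1) ^ n * (m * (m : ℝ) ^ i)) * y ^ i := by gcongr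
      _ = (n : ℝ) * 2 ^ n * (n + 1) ^ n * m * ((m : ℝ) ^ i * y ^ i) := by ring
      _ ≤ (n : ℝ) * 2 ^ n * (n + 1) ^ n * m * (1 + m * y) ^ (j - 1) := by gcongr
      _ = _ := by ring
  refine (Finset.sum_le_sum hterm).trans ?_
  rw [Finset.sum_const, Finset.card_range, nsmul_eq_mul]
  have : (0 : ℝ) ≤ (n : ℝ) * 2 ^ n * (n + 1) ^ n * (m * (1 + m * y) ^ (j - 1)) := by positivity
  calc (j : ℝ) * ((n : ℝ) * 2 ^ n * (n + 1) ^ n * (m * (1 + m * y) ^ (j - 1)))
      ≤ (n : ℝ) * ((n : ℝ) * 2 ^ n * (n + 1) ^ n * (m * (1 + m * y) ^ (j - 1))) := by gcongr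
    _ = _ := by ring

theorem pow_le_exp (k : ℕ) (w : ℝ) (hw : 0 ≤ w) :
    w ^ k ≤ 4 ^ k * k.factorial * Real.exp (w / 4) := by
  have h := Real.pow_div_factorial_le_exp (w / 4) (by positivity) k
  rw [div_le_iff₀ (by positivity), div_pow, div_le_iff₀ (by positivity)] at h
  calc w ^ k ≤ Real.exp (w / 4) * k.factorial * 4 ^ k := h
    _ = _ := by ring

theorem main : S_KP1 := by
  intro n
  set C0 : ℝ := (n : ℝ) ^ 2 * 2 ^ n * (n + 1) ^ n with hC0
  set C1 : ℝ := 2 * (4 ^ (n + 1) * (n + 1).factorial) with hC1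
  set C2 : ℝ := 2 * (2 ^ n * (4 ^ n * n.factorial)) with hC2
  have hC0p : 0 ≤ C0 := by positivity
  have hC1p : 0 ≤ C1 := by positivity
  have hC2p : 0 ≤ C2 := by positivity
  refine ⟨C0 * C1 + C0 * C2, by positivity, fun j m hj hjn hm y hy => ?_⟩
  have hm1 : (1 : ℝ) ≤ m := by exact_mod_cast hm
  have hj1 : (1 : ℝ) ≤ j := by exact_mod_cast hj
  have hw : (0 : ℝ) ≤ m * y := by positivity
  have hG := GG_le n j m hj hjn hm y hy
  rw [← hC0] at hG
  have hexp14 : Real.exp (1 / 4) ≤ 2 := by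
    have h1 : Real.exp (1 / 4) ≤ Real.exp (Real.log 2) :=
      Real.exp_le_exp.2 (by have := Real.log_two_gt_d9; linarith)
    rwa [Real.exp_log (by norm_num)] at h1
  unfold kk
  rw [abs_mul, abs_of_nonneg (by positivity : (0 : ℝ) ≤ (1 + y) ^ (-((j : ℝ) + (m : ℝ) / 2)))]
  rcases le_total y 1 with hy1 | hy1
  · -- small `y`
    have hlog : y / 2 ≤ Real.log (1 + y) := by
      have h1 := Real.one_sub_inv_le_log_of_pos (by linarith : (0 : ℝ) < 1 + y)
      have h2 : y / 2 ≤ 1 - (1 + y)⁻¹ := by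
        have h3 : 1 - (1 + y)⁻¹ = y / (1 + y) := by
          field_simp
          ring
        rw [h3]
        exact div_le_div_of_nonneg_left hy.le (by linarith) (by linarith)
      linarith
    have h1 : (1 + y) ^ (-((j : ℝ) + (m : ℝ) / 2)) ≤ Real.exp (-(m * y / 4)) := by
      rw [Real.rpow_def_of_pos (by linarith)]
      refine Real.exp_le_exp.2 ?_
      have h2 : y / 2 * ((j : ℝ) + (m : ℝ) / 2) ≤ Real.log (1 + y) * ((j : ℝ) + (m : ℝ) / 2) :=
        mul_le_mul_of_nonneg_right hlog (by positivity)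
      have h3 : 0 ≤ y * j := by positivity
      nlinarith
    have h2 : (1 + m * y) ^ (j - 1) * (1 + m * y) ^ 2 ≤ C1 * Real.exp (m * y / 4) := by
      rw [← pow_add]
      calc (1 + (m : ℝ) * y) ^ (j - 1 + 2) ≤ (1 + m * y) ^ (n + 1) :=
            pow_le_pow_right₀ (by linarith) (by omega)
        _ ≤ 4 ^ (n + 1) * (n + 1).factorial * Real.exp ((1 + m * y) / 4) :=
            pow_le_exp (n + 1) _ (by linarith)
        _ = 4 ^ (n + 1) * (n + 1).factorial * (Real.exp (1 / 4) * Real.exp (m * y / 4)) := by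
            rw [← Real.exp_add]
            congr 2
            ring
        _ ≤ 4 ^ (n + 1) * (n + 1).factorial * (2 * Real.exp (m * y / 4)) := by gcongr
        _ = _ := by rw [hC1]; ring
    have h3 : Real.exp (-(m * y / 4)) * (1 + m * y) ^ (j - 1) ≤ C1 / (1 + m * y) ^ 2 := by
      rw [le_div_iff₀ (by positivity)]
      calc Real.exp (-(m * y / 4)) * (1 + m * y) ^ (j - 1) * (1 + m * y) ^ 2
          = Real.exp (-(m * y / 4)) * ((1 + m * y) ^ (j - 1) * (1 + m * y) ^ 2) := by ring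
        _ ≤ Real.exp (-(m * y / 4)) * (C1 * Real.exp (m * y / 4)) := by gcongr
        _ = C1 * (Real.exp (-(m * y / 4)) * Real.exp (m * y / 4)) := by ring
        _ = C1 := by rw [← Real.exp_add]; simp
    have h4 : (1 + y) ^ (-((j : ℝ) + (m : ℝ) / 2)) * |GG j m y| ≤
        C0 * C1 * ((m : ℝ) / (1 + m * y) ^ 2) := by
      calc (1 + y) ^ (-((j : ℝ) + (m : ℝ) / 2)) * |GG j m y|
          ≤ Real.exp (-(m * y / 4)) * (C0 * (m * (1 + m * y) ^ (j - 1))) := by gcongr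
        _ = C0 * m * (Real.exp (-(m * y / 4)) * (1 + m * y) ^ (j - 1)) := by ring
        _ ≤ C0 * m * (C1 / (1 + m * y) ^ 2) := by gcongr
        _ = _ := by ring
    have h5 : (0 : ℝ) ≤ (1 + y) ^ (-(3 / 2) : ℝ) := by positivity
    have h6 : (0 : ℝ) ≤ (m : ℝ) / (1 + m * y) ^ 2 := by positivity
    nlinarith [mul_nonneg (mul_nonneg hC0p hC2p) h6, mul_nonneg (mul_nonneg hC0p hC2p) h5,
      mul_nonneg (mul_nonneg hC0p hC1p) h5]
  · -- large `y`
    have h1 : (1 + (m : ℝ) * y) ^ (j - 1) ≤ (2 * m) ^ (j - 1) * (1 + y) ^ (j - 1) := by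
      rw [← mul_pow]
      refine pow_le_pow_left₀ (by positivity) ?_ _
      nlinarith
    have h2 : (1 + y) ^ (-((j : ℝ) + (m : ℝ) / 2)) * (1 + y) ^ (j - 1) ≤
        (1 + y) ^ (-(3 / 2) : ℝ) * Real.exp (-((m - 1) / 4)) := by
      have h3 : (1 + y) ^ (j - 1) = (1 + y) ^ ((j : ℝ) - 1) := by
        rw [← Real.rpow_natCast, Nat.cast_sub hj, Nat.cast_one]
      rw [h3, ← Real.rpow_add (by linarith)]
      have h4 : -((j : ℝ) + (m : ℝ) / 2) + ((j : ℝ) - 1) = -(3 / 2) + (-((m - 1) / 2)) := by ring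
      rw [h4, Real.rpow_add (by linarith)]
      refine mul_le_mul_of_nonneg_left ?_ (by positivity)
      rw [Real.rpow_def_of_pos (by linarith)]
      refine Real.exp_le_exp.2 ?_
      have h5 : (1 / 2 : ℝ) ≤ Real.log (1 + y) := by
        have h6 : Real.log 2 ≤ Real.log (1 + y) := Real.log_le_log (by norm_num) (by linarith)
        have := Real.log_two_gt_d9
        linarith
      have h6 : (1 / 2 : ℝ) * (((m : ℝ) - 1) / 2) ≤ Real.log (1 + y) * (((m : ℝ) - 1) / 2) :=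
        mul_le_mul_of_nonneg_right h5 (by linarith)
      linarith
    have h3 : (m : ℝ) * (2 * m) ^ (j - 1) * Real.exp (-((m - 1) / 4)) ≤ C2 := by
      have h4 : (m : ℝ) * (2 * m) ^ (j - 1) ≤ (2 * m) ^ n := by
        calc (m : ℝ) * (2 * m) ^ (j - 1) ≤ (2 * m) * (2 * m) ^ (j - 1) := by
              gcongr
              linarith
          _ = (2 * (m : ℝ)) ^ (j - 1 + 1) := by rw [pow_succ]; ring
          _ ≤ (2 * (m : ℝ)) ^ n := pow_le_pow_right₀ (by linarith) (by omega)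
      calc (m : ℝ) * (2 * m) ^ (j - 1) * Real.exp (-((m - 1) / 4))
          ≤ (2 * m) ^ n * Real.exp (-((m - 1) / 4)) := by gcongr
        _ = 2 ^ n * (m : ℝ) ^ n * Real.exp (-((m - 1) / 4)) := by rw [mul_pow]
        _ ≤ 2 ^ n * (4 ^ n * n.factorial * Real.exp (m / 4)) * Real.exp (-((m - 1) / 4)) := by
            gcongr
            exact pow_le_exp n m (by linarith)
        _ = 2 ^ n * (4 ^ n * n.factorial) * (Real.exp (m / 4) * Real.exp (-((m - 1) / 4))) := by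
            ring
        _ = 2 ^ n * (4 ^ n * n.factorial) * Real.exp (1 / 4) := by
            rw [← Real.exp_add]
            congr 2
            ring
        _ ≤ 2 ^ n * (4 ^ n * n.factorial) * 2 := by gcongr
        _ = C2 := by rw [hC2]; ring
    have h4 : (1 + y) ^ (-((j : ℝ) + (m : ℝ) / 2)) * |GG j m y| ≤
        C0 * C2 * (1 + y) ^ (-(3 / 2) : ℝ) := by
      calc (1 + y) ^ (-((j : ℝ) + (m : ℝ) / 2)) * |GG j m y|
          ≤ (1 + y) ^ (-((j : ℝ) + (m : ℝ) / 2)) *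
            (C0 * (m * ((2 * m) ^ (j - 1) * (1 + y) ^ (j - 1)))) := by
            refine mul_le_mul_of_nonneg_left (hG.trans ?_) (by positivity)
            gcongr
        _ = C0 * (m * (2 * m) ^ (j - 1)) *
            ((1 + y) ^ (-((j : ℝ) + (m : ℝ) / 2)) * (1 + y) ^ (j - 1)) := by ring
        _ ≤ C0 * (m * (2 * m) ^ (j - 1)) *
            ((1 + y) ^ (-(3 / 2) : ℝ) * Real.exp (-((m - 1) / 4))) := by gcongr
        _ = C0 * (m * (2 * m) ^ (j - 1) * Real.exp (-((m - 1) / 4))) *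
            (1 + y) ^ (-(3 / 2) : ℝ) := by ring
        _ ≤ C0 * C2 * (1 + y) ^ (-(3 / 2) : ℝ) := by gcongr
    have h5 : (0 : ℝ) ≤ (1 + y) ^ (-(3 / 2) : ℝ) := by positivity
    have h6 : (0 : ℝ) ≤ (m : ℝ) / (1 + m * y) ^ 2 := by positivity
    nlinarith [mul_nonneg (mul_nonneg hC0p hC2p) h6, mul_nonneg (mul_nonneg hC0p hC1p) h6,
      mul_nonneg (mul_nonneg hC0p hC1p) h5]

end Pool.NH61.FS.Kp1
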