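import Pool.Agent.NH61.FS.Def

/-! # Project FS: kernels of the types k <= n -/

set_option autoImplicit false

open MeasureTheory Set Filter Topology
open scoped SchwartzMap ENNReal

namespace Pool.NH61.FS.Kp2

open Pool.Agent.R223.RY (PP KC)

theorem PP_bound (n j m : ℕ) (hj : j ≤ n) (x : ℝ) (hx : 0 < x) :
    |PP j m x| ≤ ((n : ℝ) * ((n + 1) * (2 ^ n * (2 * n + 1) ^ n))) *
      (((m : ℝ) + 1) * (1 + (m + 1) * x) ^ n) := by
  have hz : 0 ≤ ((m : ℝ) + 1) * x := by positivity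
  unfold PP
  have hterm : ∀ i ∈ Finset.range j, |(-1 : ℝ) ^ i * (((i : ℝ) + 1) * (j.choose (i + 1)) *
      ((j + m + i).choose (i + 1))) * x ^ i| ≤
      (((n : ℝ) + 1) * (2 ^ n * (2 * n + 1) ^ n)) * (((m : ℝ) + 1) * (1 + (m + 1) * x) ^ n) := by
    intro i hi
    have hij : i < j := Finset.mem_range.mp hi
    rw [abs_mul, abs_mul, abs_pow, abs_neg, abs_one, one_pow, one_mul,
      abs_of_nonneg (show (0 : ℝ) ≤ x ^ i by positivity),
      abs_of_nonneg (show (0 : ℝ) ≤ ((i : ℝ) + 1) * (j.choose (i + 1)) *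
        ((j + m + i).choose (i + 1)) by positivity)]
    have h1 : (i : ℝ) + 1 ≤ (n : ℝ) + 1 := by
      have : (i : ℝ) ≤ n := by exact_mod_cast (by omega : i ≤ n)
      linarith
    have h2 : ((j.choose (i + 1) : ℕ) : ℝ) ≤ 2 ^ n := by
      have h3 : j.choose (i + 1) ≤ 2 ^ n :=
        (Nat.choose_le_two_pow j (i + 1)).trans (Nat.pow_le_pow_right (by norm_num) hj)
      exact_mod_cast h3
    have h3 : (((j + m + i).choose (i + 1) : ℕ) : ℝ) ≤ ((2 * n + 1 : ℝ) * (m + 1)) ^ (i + 1) := by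
      have h4 : (j + m + i).choose (i + 1) ≤ ((2 * n + 1) * (m + 1)) ^ (i + 1) := by
        refine (Nat.choose_le_pow (j + m + i) (i + 1)).trans (Nat.pow_le_pow_left ?_ _)
        nlinarith [Nat.zero_le (2 * n * m)]
      exact_mod_cast h4
    have h4 : ((2 * n + 1 : ℝ) * (m + 1)) ^ (i + 1) * x ^ i ≤
        (2 * n + 1) ^ n * (((m : ℝ) + 1) * (1 + (m + 1) * x) ^ n) := by
      have e1 : ((2 * n + 1 : ℝ) * (m + 1)) ^ (i + 1) * x ^ i =
          (2 * n + 1) ^ (i + 1) * (((m : ℝ) + 1) * (((m : ℝ) + 1) * x) ^ i) := by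
        rw [mul_pow, mul_pow, pow_succ ((m : ℝ) + 1) i]
        ring
      rw [e1]
      have e2 : ((2 : ℝ) * n + 1) ^ (i + 1) ≤ (2 * n + 1) ^ n :=
        pow_le_pow_right₀ (by linarith [Nat.cast_nonneg (α := ℝ) n]) (by omega)
      have e3 : (((m : ℝ) + 1) * x) ^ i ≤ (1 + (m + 1) * x) ^ n :=
        (pow_le_pow_left₀ hz (by linarith) i).trans
          (pow_le_pow_right₀ (by linarith) (by omega))
      gcongr
    calc ((i : ℝ) + 1) * (j.choose (i + 1)) * ((j + m + i).choose (i + 1)) * x ^ i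
        ≤ ((n : ℝ) + 1) * 2 ^ n * ((2 * n + 1 : ℝ) * (m + 1)) ^ (i + 1) * x ^ i := by gcongr
      _ = ((n : ℝ) + 1) * 2 ^ n * (((2 * n + 1 : ℝ) * (m + 1)) ^ (i + 1) * x ^ i) := by ring
      _ ≤ ((n : ℝ) + 1) * 2 ^ n *
          ((2 * n + 1) ^ n * (((m : ℝ) + 1) * (1 + (m + 1) * x) ^ n)) := by gcongr
      _ = _ := by ring
  calc |∑ i ∈ Finset.range j, (-1 : ℝ) ^ i * (((i : ℝ) + 1) * (j.choose (i + 1)) *
        ((j + m + i).choose (i + 1))) * x ^ i|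
      ≤ ∑ i ∈ Finset.range j, |(-1 : ℝ) ^ i * (((i : ℝ) + 1) * (j.choose (i + 1)) *
        ((j + m + i).choose (i + 1))) * x ^ i| := Finset.abs_sum_le_sum_abs _ _
    _ ≤ ∑ i ∈ Finset.range j, (((n : ℝ) + 1) * (2 ^ n * (2 * n + 1) ^ n)) *
        (((m : ℝ) + 1) * (1 + (m + 1) * x) ^ n) := Finset.sum_le_sum hterm
    _ = (j : ℝ) * ((((n : ℝ) + 1) * (2 ^ n * (2 * n + 1) ^ n)) *
        (((m : ℝ) + 1) * (1 + (m + 1) * x) ^ n)) := by
        rw [Finset.sum_const, Finset.card_range, nsmul_eq_mul]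
    _ ≤ (n : ℝ) * ((((n : ℝ) + 1) * (2 ^ n * (2 * n + 1) ^ n)) *
        (((m : ℝ) + 1) * (1 + (m + 1) * x) ^ n)) := by
        have : (j : ℝ) ≤ n := by exact_mod_cast hj
        gcongr
    _ = _ := by ring

theorem exp_bound (N : ℕ) (z : ℝ) (hz : 0 ≤ z) :
    (1 + z) ^ N * Real.exp (-(z / 4)) ≤ 4 ^ N * N.factorial * Real.exp (1 / 4) := by
  have h1 := Real.pow_div_factorial_le_exp ((1 + z) / 4) (by positivity) N
  have hf : (0 : ℝ) < N.factorial := by exact_mod_cast N.factorial_pos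
  rw [div_le_iff₀ hf, div_pow, div_le_iff₀ (by positivity)] at h1
  have h2 : Real.exp ((1 + z) / 4) = Real.exp (1 / 4) * Real.exp (z / 4) := by
    rw [← Real.exp_add]
    congr 1
    ring
  rw [h2] at h1
  have h3 : Real.exp (z / 4) * Real.exp (-(z / 4)) = 1 := by
    rw [← Real.exp_add]
    simp
  calc (1 + z) ^ N * Real.exp (-(z / 4))
      ≤ (Real.exp (1 / 4) * Real.exp (z / 4) * N.factorial * 4 ^ N) * Real.exp (-(z / 4)) := by
        gcongr
    _ = 4 ^ N * N.factorial * Real.exp (1 / 4) * (Real.exp (z / 4) * Real.exp (-(z / 4))) := by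
        ring
    _ = _ := by rw [h3, mul_one]

theorem weight_bound (n m : ℕ) (x : ℝ) (hx : 0 < x) (hx1 : x < 1) :
    (1 - x) ^ ((m : ℝ) / 2) * (1 + (m + 1) * x) ^ (n + 2) ≤
      4 ^ (n + 2) * (n + 2).factorial * Real.exp (1 / 4) + 2 ^ (n + 2) := by
  rcases Nat.eq_zero_or_pos m with hm | hm
  · subst hm
    have h1 : (1 + (((0 : ℕ) : ℝ) + 1) * x) ^ (n + 2) ≤ (2 : ℝ) ^ (n + 2) := by
      apply pow_le_pow_left₀ (by positivity)
      rw [Nat.cast_zero]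
      linarith
    have h2 : (0 : ℝ) ≤ 4 ^ (n + 2) * (n + 2).factorial * Real.exp (1 / 4) := by positivity
    have h3 : (1 - x) ^ (((0 : ℕ) : ℝ) / 2) = 1 := by
      rw [Nat.cast_zero, zero_div, Real.rpow_zero]
    rw [h3, one_mul]
    exact h1.trans (le_add_of_nonneg_left h2)
  · have hm1 : (1 : ℝ) ≤ m := by exact_mod_cast hm
    have h1 : (1 - x) ^ ((m : ℝ) / 2) ≤ Real.exp (-(((m : ℝ) + 1) * x / 4)) := by
      calc (1 - x) ^ ((m : ℝ) / 2) ≤ Real.exp (-x) ^ ((m : ℝ) / 2) :=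
            Real.rpow_le_rpow (by linarith) (Real.one_sub_le_exp_neg x) (by positivity)
        _ = Real.exp (-x * (m / 2)) := (Real.exp_mul _ _).symm
        _ ≤ _ := by
            apply Real.exp_le_exp.mpr
            nlinarith
    have h2 := exp_bound (n + 2) (((m : ℝ) + 1) * x) (by positivity)
    have h3 : (0 : ℝ) ≤ 2 ^ (n + 2) := by positivity
    calc (1 - x) ^ ((m : ℝ) / 2) * (1 + (m + 1) * x) ^ (n + 2)
        ≤ Real.exp (-(((m : ℝ) + 1) * x / 4)) * (1 + (m + 1) * x) ^ (n + 2) := by gcongr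
      _ = (1 + (m + 1) * x) ^ (n + 2) * Real.exp (-(((m : ℝ) + 1) * x / 4)) := mul_comm _ _
      _ ≤ _ := by linarith

theorem main : S_KP2 := by
  intro n
  refine ⟨((n : ℝ) * ((n + 1) * (2 ^ n * (2 * n + 1) ^ n))) *
    (4 ^ (n + 2) * (n + 2).factorial * Real.exp (1 / 4) + 2 ^ (n + 2)), by positivity, ?_⟩
  intro j m hj x hx hx1
  have hz : 0 < 1 + ((m : ℝ) + 1) * x := by positivity
  have h1 := PP_bound n j m hj x hx
  have h2 := weight_bound n m x hx hx1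
  have h0 : 0 ≤ (1 - x) ^ ((m : ℝ) / 2) := Real.rpow_nonneg (by linarith) _
  unfold KC
  rw [abs_mul, abs_of_nonneg h0]
  calc (1 - x) ^ ((m : ℝ) / 2) * |PP j m x|
      ≤ (1 - x) ^ ((m : ℝ) / 2) * (((n : ℝ) * ((n + 1) * (2 ^ n * (2 * n + 1) ^ n))) *
        (((m : ℝ) + 1) * (1 + (m + 1) * x) ^ n)) := by gcongr
    _ = ((n : ℝ) * ((n + 1) * (2 ^ n * (2 * n + 1) ^ n))) *
        ((1 - x) ^ ((m : ℝ) / 2) * (1 + (m + 1) * x) ^ (n + 2)) *
        (((m : ℝ) + 1) / (1 + (m + 1) * x) ^ 2) := by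
        rw [pow_add (1 + ((m : ℝ) + 1) * x) n 2]
        field_simp
    _ ≤ _ := by gcongr

end Pool.NH61.FS.Kp2
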