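import Pool.Agent.NH61.FS.Def

/-! # Project FS: the four pointwise inequalities (by helper45) -/

set_option autoImplicit false

open MeasureTheory Set Filter Topology
open scoped SchwartzMap ENNReal

namespace Pool.NH61.FS.Pt

open Pool.Agent.Y282.RB (kk th KK)

theorem ph_nonneg {r b : ℝ} (hr : 1 ≤ r) (hb : 0 ≤ b) : 0 ≤ ph r b := by
  unfold ph
  have h := one_add_mul_self_le_rpow_one_add (s := b - 1) (by linarith) hr
  rw [show 1 + (b - 1) = b by ring] at h
  linarith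

theorem kk_pos {σ : ℝ} (h0 : 0 < σ) (h1 : σ < 1) (j : ℕ) : 0 < kk σ j := by
  unfold kk
  have hj : (0 : ℝ) ≤ j := Nat.cast_nonneg j
  apply div_pos (by linarith)
  apply mul_pos <;> linarith

theorem KK_pos {σ : ℝ} (h0 : 0 < σ) (h1 : σ < 1) {n : ℕ} (hn : 1 ≤ n) : 0 < KK σ n := by
  unfold KK
  exact Finset.sum_pos (fun j _ => kk_pos h0 h1 j) ⟨0, Finset.mem_range.2 (by omega)⟩

/-- the lower bound of `b ^ r` for `b` near one -/
theorem exp_le_rpow {r b s : ℝ} (hr : 0 < r) (hs : 2 * s ≤ r) (h1 : b ≤ 1)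
    (hb : r * (1 - b) ≤ s) : Real.exp (-(2 * s)) ≤ b ^ r := by
  set y := 1 - b with hy
  have hy0 : 0 ≤ y := by linarith
  have hy1 : y ≤ 1 / 2 := by
    have h2 : r * y ≤ r / 2 := by linarith
    by_contra h3
    push Not at h3
    nlinarith
  have hb' : b = 1 - y := by rw [hy]; ring
  have h2 : Real.exp (-(2 * y)) ≤ b := by
    rw [Real.exp_neg, inv_le_comm₀ (Real.exp_pos _) (by linarith)]
    rw [inv_le_iff_one_le_mul₀ (by linarith)]
    have h3 := Real.add_one_le_exp (2 * y)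
    nlinarith
  calc Real.exp (-(2 * s)) ≤ Real.exp (-(2 * y) * r) := by
        apply Real.exp_le_exp.2
        nlinarith
    _ = (Real.exp (-(2 * y))) ^ r := by rw [← Real.exp_mul]
    _ ≤ b ^ r := Real.rpow_le_rpow (Real.exp_pos _).le h2 hr.le

/-- `r |b - 1| ≤ 1 + ph r b` -/
theorem abs_le_ph {r b : ℝ} (hr : 2 ≤ r) (hb : 0 ≤ b) : r * |b - 1| ≤ 1 + ph r b := by
  rcases le_total b 1 with h | h
  · rw [abs_of_nonpos (by linarith)]
    unfold ph
    have := Real.rpow_nonneg hb r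
    nlinarith
  · rw [abs_of_nonneg (by linarith)]
    set y := b - 1 with hy
    have hy0 : 0 ≤ y := by linarith
    have h1 := one_add_mul_self_le_rpow_one_add (s := y) (by linarith) (p := r / 2) (by linarith)
    rw [show 1 + y = b by rw [hy]; ring] at h1
    have h2 : (b ^ (r / 2)) ^ 2 = b ^ r := by
      rw [← Real.rpow_natCast, ← Real.rpow_mul hb]
      congr 1
      push_cast
      ring
    have h3 : (1 + r / 2 * y) ^ 2 ≤ b ^ r := by
      rw [← h2]
      apply pow_le_pow_left₀ (by positivity) h1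
    unfold ph
    rw [← hy]
    nlinarith [sq_nonneg (r * y / 2 - 1)]

/-- the case `Λ = 1`, in terms of real numbers -/
theorem core {p C1 ε x b T : ℝ} (hC1 : 1 ≤ C1) (hε : 0 < ε) (hε1 : ε ≤ 1) (hp4 : 4 ≤ p)
    (hp1 : 24 * C1 / ε ≤ p) (hp2 : 4 * (2 / ε + 1) ≤ p) (hx : 0 ≤ x) (hb : 0 ≤ b) (hT : 0 ≤ T)
    (e1 : |x ^ 2 - 1| ≤ C1 / p * (x * √T + T))
    (slk : (4 / ε) * ph (p / 2) (x ^ 2) ≤ ph (p / 2) b + (p / 2 - 1) * T) {d : ℝ}
    (hd : d = b ^ (p / 2) - (x ^ 2) ^ (p / 2) + p / 2 * (x ^ 2 - b + (1 - 2 / p) * T)) :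
    0 ≤ d ∧ (x ^ 2) ^ (p / 2) ≤ 18 * C1 + ε * d ∧ 1 ≤ Real.exp (4 / ε + 2) * b ^ (p / 2) + ε * d ∧
      |x ^ 2 - b + (1 - 2 / p) * T| ≤ 18 * C1 / p * (1 + d) := by
  have hp0 : 0 < p := by linarith
  set a := x ^ 2 with ha
  have ha0 : 0 ≤ a := sq_nonneg x
  have hPa := ph_nonneg (r := p / 2) (b := a) (by linarith) ha0
  have hPb := ph_nonneg (r := p / 2) (b := b) (by linarith) hb
  have hQT : 0 ≤ (p / 2 - 1) * T := mul_nonneg (by linarith) hT
  have hd' : d = ph (p / 2) b - ph (p / 2) a + (p / 2 - 1) * T := by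
    rw [hd]
    unfold ph
    field_simp
    ring
  set Pa := ph (p / 2) a with hPa'
  set Pb := ph (p / 2) b with hPb'
  have hPa2 : Pa ≤ ε / 4 * (Pb + (p / 2 - 1) * T) := by
    have h1 : ε / 4 * (4 / ε * Pa) = Pa := by
      field_simp
    rw [← h1]
    exact mul_le_mul_of_nonneg_left slk (by positivity)
  have hPa3 : 2 * Pa ≤ Pb + (p / 2 - 1) * T := by nlinarith
  have hQ : Pb + (p / 2 - 1) * T ≤ 2 * d := by rw [hd']; linarith
  have hd0 : 0 ≤ d := by linarith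
  have hPa4 : Pa ≤ ε / 2 * d := by nlinarith
  have hpT : p * T ≤ 8 * d := by nlinarith
  have hpC : 24 * C1 ≤ p * ε := by
    rw [div_le_iff₀ hε] at hp1
    exact hp1
  have hpC' : 24 * C1 ≤ p := by nlinarith
  -- the bound for `a - 1`
  have hsq : x * √T ≤ (1 + |a - 1| + T) / 2 := by
    have h1 : √T ^ 2 = T := Real.sq_sqrt hT
    have h2 := sq_nonneg (x - √T)
    have h3 : a ≤ 1 + |a - 1| := by linarith [le_abs_self (a - 1)]
    nlinarith
  have hpa : p * |a - 1| ≤ C1 * (1 + 3 * T) := by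
    have h1 : p * |a - 1| ≤ C1 * (x * √T + T) := by
      have h2 := mul_le_mul_of_nonneg_left e1 hp0.le
      have h3 : p * (C1 / p * (x * √T + T)) = C1 * (x * √T + T) := by
        field_simp
      rwa [h3] at h2
    have h2 : C1 * (x * √T + T) ≤ C1 * ((1 + |a - 1| + T) / 2 + T) :=
      mul_le_mul_of_nonneg_left (by linarith) (by linarith)
    have h3 : 0 ≤ |a - 1| := abs_nonneg _
    have h4 : C1 * |a - 1| ≤ p * |a - 1| := mul_le_mul_of_nonneg_right (by linarith) h3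
    nlinarith
  refine ⟨hd0, ?_, ?_, ?_⟩
  · have h1 : a ^ (p / 2) = Pa + 1 + p / 2 * (a - 1) := by
      rw [hPa']
      unfold ph
      ring
    have h2 : p / 2 * (a - 1) ≤ C1 / 2 * (1 + 3 * T) := by
      have := le_abs_self (a - 1)
      nlinarith
    have h3 : C1 * T * 3 ≤ ε * d := by
      -- 24 C1 T ≤ p ε T ≤ 8 ε d
      have h4 : 24 * C1 * T ≤ ε * (p * T) := by nlinarith
      nlinarith
    rw [h1]
    nlinarith
  · by_contra hcon
    push Not at hcon
    have hbr := Real.rpow_nonneg hb (p / 2)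
    have hMpos := Real.exp_pos (4 / ε + 2)
    have h1 : ε * d < 1 := by
      have : 0 ≤ Real.exp (4 / ε + 2) * b ^ (p / 2) := by positivity
      linarith
    have h2 : Real.exp (4 / ε + 2) * b ^ (p / 2) < 1 := by
      have : 0 ≤ ε * d := by positivity
      linarith
    have h3 : b ≤ 1 := by
      by_contra h4
      push Not at h4
      have h5 : 1 ≤ b ^ (p / 2) := Real.one_le_rpow h4.le (by linarith)
      have h6 : 1 ≤ Real.exp (4 / ε + 2) := Real.one_le_exp (by positivity)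
      nlinarith
    have h4 : d < 1 / ε := by
      rw [lt_div_iff₀ hε]
      linarith
    have h5 : p / 2 * (1 - b) ≤ 2 / ε + 1 := by
      have h6 : Pb = b ^ (p / 2) - 1 + p / 2 * (1 - b) := by
        rw [hPb']
        unfold ph
        ring
      have h7 : (2 : ℝ) / ε = 2 * (1 / ε) := by ring
      rw [h7]
      linarith
    have h6 := exp_le_rpow (r := p / 2) (b := b) (s := 2 / ε + 1) (by linarith) (by linarith) h3 h5
    have h7 : Real.exp (4 / ε + 2) * Real.exp (-(2 * (2 / ε + 1))) = 1 := by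
      rw [← Real.exp_add]
      rw [show 4 / ε + 2 + -(2 * (2 / ε + 1)) = 0 by ring, Real.exp_zero]
    have h8 := mul_le_mul_of_nonneg_left h6 hMpos.le
    rw [h7] at h8
    linarith
  · have h1 := abs_le_ph (r := p / 2) (b := b) (by linarith) hb
    rw [← hPb'] at h1
    have h2 : |a - b + (1 - 2 / p) * T| ≤ |a - 1| + |b - 1| + T := by
      have h3 : a - b + (1 - 2 / p) * T = (a - 1) - (b - 1) + (1 - 2 / p) * T := by ring
      rw [h3]
      have h4 : |(1 - 2 / p) * T| ≤ T := by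
        have h5 : 0 < 2 / p := by positivity
        have h6 : 2 / p ≤ 1 := by
          rw [div_le_one hp0]
          linarith
        rw [abs_of_nonneg (mul_nonneg (by linarith) hT)]
        nlinarith
      calc |(a - 1) - (b - 1) + (1 - 2 / p) * T| ≤ |(a - 1) - (b - 1)| + |(1 - 2 / p) * T| :=
            abs_add_le _ _
        _ ≤ (|a - 1| + |b - 1|) + T := add_le_add (abs_sub _ _) h4
    refine h2.trans ?_
    rw [div_mul_eq_mul_div, le_div_iff₀ hp0]
    have h3 : 4 * T ≤ 8 * d := by nlinarith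
    have h4 : p * |b - 1| ≤ 2 + 4 * d := by
      have : Pb ≤ 2 * d := by linarith
      nlinarith
    nlinarith

/-- multiplication by a constant -/
theorem yC_smul (σ c : ℝ) (γ : ℕ → ℂ) (j : ℕ) :
    yC σ (fun i => (c : ℂ) * γ i) j = (c : ℂ) * yC σ γ j := by
  unfold yC
  ring

theorem LamC_smul (σ c : ℝ) (n : ℕ) (γ : ℕ → ℂ) :
    LamC σ n (fun i => (c : ℂ) * γ i) = c ^ 2 * LamC σ n γ := by
  unfold LamC
  rw [← mul_div_assoc, Finset.mul_sum]
  congr 1
  refine Finset.sum_congr rfl fun j _ => ?_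
  rw [yC_smul, norm_mul, mul_pow, Complex.norm_real, Real.norm_eq_abs, sq_abs]
  ring

theorem TTC_smul (c : ℝ) (n : ℕ) (γ : ℕ → ℂ) :
    TTC n (fun i => (c : ℂ) * γ i) = c ^ 2 * TTC n γ := by
  unfold TTC
  rw [Finset.mul_sum]
  refine Finset.sum_congr rfl fun j _ => ?_
  rw [← mul_sub, norm_mul, mul_pow, Complex.norm_real, Real.norm_eq_abs, sq_abs]
  ring

theorem TTC_nonneg (n : ℕ) (γ : ℕ → ℂ) : 0 ≤ TTC n γ := by
  unfold TTC
  exact Finset.sum_nonneg fun j _ => by positivity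

theorem LamC_nonneg {σ : ℝ} (h0 : 0 < σ) (h1 : σ < 1) {n : ℕ} (hn : 1 ≤ n) (γ : ℕ → ℂ) :
    0 ≤ LamC σ n γ := by
  unfold LamC
  refine div_nonneg (Finset.sum_nonneg fun j _ => ?_) (KK_pos h0 h1 hn).le
  exact mul_nonneg (kk_pos h0 h1 j).le (sq_nonneg _)

theorem sq_rpow {x p : ℝ} (hx : 0 ≤ x) : (x ^ 2) ^ (p / 2) = x ^ p := by
  rw [← Real.rpow_natCast, ← Real.rpow_mul hx]
  congr 1
  push_cast
  ring

/-- the four inequalities for one `γ` -/
def Four (C M ε p : ℝ) (n : ℕ) (γ : ℕ → ℂ) : Prop :=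
  0 ≤ dl p n γ ∧
    ‖γ 0‖ ^ p ≤ C * LamC (1 / p) n γ ^ (p / 2) + ε * dl p n γ ∧
    LamC (1 / p) n γ ^ (p / 2) ≤ M * ‖γ n‖ ^ p + ε * dl p n γ ∧
    LamC (1 / p) n γ ^ (p / 2 - 1) * |DD p n γ| ≤
      C / p * (LamC (1 / p) n γ ^ (p / 2) + dl p n γ)

/-- homogeneity -/
theorem Four.scale {C M ε p : ℝ} {n : ℕ} {γ : ℕ → ℂ} (hp : 4 ≤ p) {c : ℝ} (hc : 0 < c)
    (hL0 : 0 ≤ LamC (1 / p) n γ) (h : Four C M ε p n γ) :
    Four C M ε p n (fun i => (c : ℂ) * γ i) := by
  have hcp : (c ^ 2) ^ (p / 2) = c ^ p := sq_rpow hc.le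
  have hcp0 : 0 < c ^ p := Real.rpow_pos_of_pos hc p
  have n1 : ∀ i, ‖(c : ℂ) * γ i‖ = c * ‖γ i‖ := by
    intro i
    rw [norm_mul, Complex.norm_real, Real.norm_eq_abs, abs_of_pos hc]
  have n2 : ∀ i, ‖(c : ℂ) * γ i‖ ^ p = c ^ p * ‖γ i‖ ^ p := by
    intro i
    rw [n1, Real.mul_rpow hc.le (norm_nonneg _)]
  have l1 : (c ^ 2 * LamC (1 / p) n γ) ^ (p / 2) = c ^ p * LamC (1 / p) n γ ^ (p / 2) := by
    rw [Real.mul_rpow (by positivity) hL0, hcp]
  have l2 : (c ^ 2 * LamC (1 / p) n γ) ^ (p / 2 - 1) * c ^ 2 =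
      c ^ p * LamC (1 / p) n γ ^ (p / 2 - 1) := by
    rw [Real.mul_rpow (by positivity) hL0, Real.rpow_sub_one (by positivity), hcp]
    field_simp
  have d1 : DD p n (fun i => (c : ℂ) * γ i) = c ^ 2 * DD p n γ := by
    unfold DD
    rw [TTC_smul, n1, n1]
    ring
  have d2 : dl p n (fun i => (c : ℂ) * γ i) = c ^ p * dl p n γ := by
    unfold dl
    rw [LamC_smul, d1, n2, n2]
    have : p / 2 * (c ^ 2 * LamC (1 / p) n γ) ^ (p / 2 - 1) * (c ^ 2 * DD p n γ) =
        p / 2 * ((c ^ 2 * LamC (1 / p) n γ) ^ (p / 2 - 1) * c ^ 2) * DD p n γ := by ring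
    rw [this, l2]
    ring
  obtain ⟨h1, h2, h3, h4⟩ := h
  refine ⟨?_, ?_, ?_, ?_⟩
  · rw [d2]
    positivity
  · rw [LamC_smul, l1, d2, n2]
    nlinarith
  · rw [LamC_smul, l1, d2, n2]
    nlinarith
  · rw [LamC_smul, d2, d1, abs_mul, abs_of_pos (by positivity : (0 : ℝ) < c ^ 2), ← mul_assoc, l2,
      l1]
    have h5 := mul_le_mul_of_nonneg_left h4 hcp0.le
    calc c ^ p * LamC (1 / p) n γ ^ (p / 2 - 1) * |DD p n γ|
        = c ^ p * (LamC (1 / p) n γ ^ (p / 2 - 1) * |DD p n γ|) := by ring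
      _ ≤ c ^ p * (C / p * (LamC (1 / p) n γ ^ (p / 2) + dl p n γ)) := h5
      _ = _ := by ring

/-- the case `Λ > 0` -/
theorem pos_case {C M ε p : ℝ} {n : ℕ} (hp : 4 ≤ p)
    (H : ∀ γ : ℕ → ℂ, LamC (1 / p) n γ = 1 → Four C M ε p n γ) (γ : ℕ → ℂ)
    (hL : 0 < LamC (1 / p) n γ) : Four C M ε p n γ := by
  set L := LamC (1 / p) n γ with hLdef
  have hs : 0 < √L := Real.sqrt_pos.2 hL
  have h1 : LamC (1 / p) n (fun i => (((√L)⁻¹ : ℝ) : ℂ) * γ i) = 1 := by
    rw [LamC_smul, ← hLdef, inv_pow, Real.sq_sqrt hL.le]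
    field_simp
  have h2 := (H _ h1).scale hp hs (by rw [h1]; norm_num)
  have h3 : (fun i => ((√L : ℝ) : ℂ) * ((((√L)⁻¹ : ℝ) : ℂ) * γ i)) = γ := by
    funext i
    rw [← mul_assoc, ← Complex.ofReal_mul, mul_inv_cancel₀ hs.ne', Complex.ofReal_one, one_mul]
  rw [h3] at h2
  exact h2

/-- the case `Λ = 0`, by continuity -/
theorem zero_case {C M ε p : ℝ} {n : ℕ} (hn : 1 ≤ n) (hp : 4 ≤ p)
    (H : ∀ γ : ℕ → ℂ, 0 < LamC (1 / p) n γ → Four C M ε p n γ) (γ : ℕ → ℂ)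
    (hL : LamC (1 / p) n γ = 0) : Four C M ε p n γ := by
  have hp0 : 0 < p := by linarith
  have hσ0 : 0 < 1 / p := by positivity
  have hσ1 : 1 / p < 1 := by rw [div_lt_one hp0]; linarith
  have hK := KK_pos hσ0 hσ1 hn
  set g : ℝ → ℕ → ℂ := fun s i => γ i + (s : ℂ) with hg
  have hy0 : ∀ j ∈ Finset.range n, yC (1 / p) γ j = 0 := by
    have h1 : ∑ j ∈ Finset.range n, kk (1 / p) j * ‖yC (1 / p) γ j‖ ^ 2 = 0 := by
      unfold LamC at hL
      rcases div_eq_zero_iff.1 hL with h | h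
      · exact h
      · exact absurd h hK.ne'
    intro j hj
    have h2 := (Finset.sum_eq_zero_iff_of_nonneg (fun j _ => by
      have := kk_pos hσ0 hσ1 j
      positivity)).1 h1 j hj
    have h3 := kk_pos hσ0 hσ1 j
    have h4 : ‖yC (1 / p) γ j‖ ^ 2 = 0 := by
      rcases mul_eq_zero.1 h2 with h | h
      · exact absurd h h3.ne'
      · exact h
    exact norm_eq_zero.1 (pow_eq_zero_iff (two_ne_zero) |>.1 h4)
  have hLs : ∀ s : ℝ, LamC (1 / p) n (g s) = s ^ 2 := by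
    intro s
    have h1 : ∀ j ∈ Finset.range n, kk (1 / p) j * ‖yC (1 / p) (g s) j‖ ^ 2 =
        s ^ 2 * kk (1 / p) j := by
      intro j hj
      have h2 : yC (1 / p) (g s) j = yC (1 / p) γ j + (s : ℂ) := by
        unfold yC
        rw [hg]
        push_cast
        ring
      rw [h2, hy0 j hj, zero_add, Complex.norm_real, Real.norm_eq_abs, sq_abs]
      ring
    unfold LamC
    rw [Finset.sum_congr rfl h1, ← Finset.mul_sum]
    exact mul_div_cancel_right₀ _ hK.ne'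
  have hTs : ∀ s : ℝ, TTC n (g s) = TTC n γ := by
    intro s
    unfold TTC
    refine Finset.sum_congr rfl fun j _ => ?_
    rw [hg]
    simp only [add_sub_add_right_eq_sub]
  have hg0 : g 0 = γ := by
    funext i
    rw [hg]
    simp
  -- continuity
  have cn : ∀ i, Continuous fun s : ℝ => ‖g s i‖ := by
    intro i
    rw [hg]
    fun_prop
  have cnp : ∀ i, Continuous fun s : ℝ => ‖g s i‖ ^ p := fun i =>
    (cn i).rpow_const fun _ => Or.inr hp0.le
  have cL : ∀ e : ℝ, 0 ≤ e → Continuous fun s : ℝ => LamC (1 / p) n (g s) ^ e := by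
    intro e he
    simp only [hLs]
    exact (by fun_prop : Continuous fun s : ℝ => s ^ 2).rpow_const fun _ => Or.inr he
  have cD : Continuous fun s : ℝ => DD p n (g s) := by
    unfold DD
    simp only [hTs]
    exact ((cn 0).pow 2 |>.sub ((cn n).pow 2)).add continuous_const
  have cd : Continuous fun s : ℝ => dl p n (g s) := by
    unfold dl
    exact ((cnp n).sub (cnp 0)).add ((continuous_const.mul (cL _ (by linarith))).mul cD)
  have hpos : ∀ᶠ s : ℝ in 𝓝[>] 0, Four C M ε p n (g s) := by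
    filter_upwards [self_mem_nhdsWithin] with s hs
    apply H
    rw [hLs]
    exact pow_pos hs 2
  have lim : ∀ F G : ℝ → ℝ, Continuous F → Continuous G → (∀ s, Four C M ε p n (g s) → F s ≤ G s) →
      F 0 ≤ G 0 := by
    intro F G hF hG h
    have h1 : Tendsto F (𝓝[>] 0) (𝓝 (F 0)) := (hF.tendsto 0).mono_left nhdsWithin_le_nhds
    have h2 : Tendsto G (𝓝[>] 0) (𝓝 (G 0)) := (hG.tendsto 0).mono_left nhdsWithin_le_nhds
    exact le_of_tendsto_of_tendsto h1 h2 (hpos.mono fun s hs => h s hs)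
  rw [← hg0]
  refine ⟨?_, ?_, ?_, ?_⟩
  · exact lim (fun _ => 0) _ continuous_const cd fun s h => h.1
  · exact lim _ (fun s => C * LamC (1 / p) n (g s) ^ (p / 2) + ε * dl p n (g s)) (cnp 0)
      ((continuous_const.mul (cL _ (by linarith))).add (continuous_const.mul cd)) fun s h => h.2.1
  · exact lim _ (fun s => M * ‖g s n‖ ^ p + ε * dl p n (g s)) (cL _ (by linarith))
      ((continuous_const.mul (cnp n)).add (continuous_const.mul cd)) fun s h => h.2.2.1
  · exact lim (fun s => LamC (1 / p) n (g s) ^ (p / 2 - 1) * |DD p n (g s)|)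
      (fun s => C / p * (LamC (1 / p) n (g s) ^ (p / 2) + dl p n (g s)))
      ((cL _ (by linarith)).mul cD.abs)
      (continuous_const.mul ((cL _ (by linarith)).add cd)) fun s h => h.2.2.2

theorem main (h1 : S_E1) (h2 : S_SLK) : S_PT := by
  intro n hn
  obtain ⟨C1, hC1, he1⟩ := h1 n hn
  refine ⟨18 * C1, by linarith, ?_⟩
  intro ε hε hε1
  obtain ⟨p1, hp1, hslk⟩ := h2 n hn (4 / ε) (by rw [le_div_iff₀ hε]; linarith)
  refine ⟨Real.exp (4 / ε + 2), max p1 (max (24 * C1 / ε) (4 * (2 / ε + 1))),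
    Real.one_le_exp (by positivity), le_max_of_le_left hp1, ?_⟩
  intro p γ hp
  have q1 : p1 ≤ p := (le_max_left _ _).trans hp
  have q2 : 24 * C1 / ε ≤ p := ((le_max_left _ _).trans (le_max_right _ _)).trans hp
  have q3 : 4 * (2 / ε + 1) ≤ p := ((le_max_right _ _).trans (le_max_right _ _)).trans hp
  have hp4 : 4 ≤ p := hp1.trans q1
  have hp0 : 0 < p := by linarith
  have hσ0 : 0 < 1 / p := by positivity
  have hσ1 : 1 / p < 1 := by rw [div_lt_one hp0]; linarith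
  have H1 : ∀ γ : ℕ → ℂ, LamC (1 / p) n γ = 1 →
      Four (18 * C1) (Real.exp (4 / ε + 2)) ε p n γ := by
    intro γ hγ
    have e1 := he1 p γ hp4 hγ
    have sl := hslk p γ q1 hγ
    have hdl : dl p n γ = (‖γ n‖ ^ 2) ^ (p / 2) - (‖γ 0‖ ^ 2) ^ (p / 2) +
        p / 2 * (‖γ 0‖ ^ 2 - ‖γ n‖ ^ 2 + (1 - 2 / p) * TTC n γ) := by
      unfold dl DD
      rw [hγ, Real.one_rpow, sq_rpow (norm_nonneg _), sq_rpow (norm_nonneg _)]
      ring
    obtain ⟨k1, k2, k3, k4⟩ := core hC1 hε hε1 hp4 q2 q3 (norm_nonneg (γ 0))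
      (sq_nonneg ‖γ n‖) (TTC_nonneg n γ) e1 sl hdl
    rw [sq_rpow (norm_nonneg _)] at k2 k3
    refine ⟨k1, ?_, ?_, ?_⟩
    · rw [hγ, Real.one_rpow]
      linarith
    · rw [hγ, Real.one_rpow]
      exact k3
    · rw [hγ, Real.one_rpow, Real.one_rpow, one_mul]
      exact k4
  have H2 := pos_case hp4 H1
  rcases (LamC_nonneg hσ0 hσ1 hn γ).eq_or_lt with h | h
  · exact zero_case hn hp4 H2 γ h.symm
  · exact H2 γ h

end Pool.NH61.FS.Pt
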