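import Pool.Agent.NH61.FS.Def
import Pool.Agent.R223.RD.TR
import Pool.Agent.Y282.RB.A1
import Pool.Agent.Y282.RB.A2

/-! # Project FS: representation, type 2 n -/

set_option autoImplicit false

open MeasureTheory Set Filter Topology
open scoped SchwartzMap ENNReal

namespace Pool.NH61.FS.Rp0

open Pool.Agent.Y282.RB (Tn rad)
open Pool.Agent.R223.RD (Cc)

theorem main : S_RP0 := by
  intro n f hf p hp ε hε
  have hf' : ∀ a z : ℂ, ‖a‖ = 1 → f (a * z) = a ^ (2 * n) * f z := by
    intro a z ha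
    rw [hf a z ha]
    congr 1
  obtain ⟨w, g, hw, hg, -, hd⟩ := Pool.Agent.R223.RD.TR.tr2 (2 * n) f hf' p hp ε hε
  obtain ⟨hw1, r, R, hr, hrR, hw2, hw3⟩ := hw
  have hwc : HasCompactSupport w := by
    refine HasCompactSupport.intro (isCompact_Icc (a := r) (b := R)) fun x hx => ?_
    rcases le_total x r with h | h
    · exact hw2 x h
    · rcases le_total R x with h' | h'
      · exact hw3 x h'
      · exact absurd (Set.mem_Icc.2 ⟨h, h'⟩) hx
  obtain ⟨h, hh1, hh2, hh3⟩ := Pool.Agent.Y282.RB.A1.main n w hw1 hwc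
  refine ⟨h, g, hh1, hh2, ⟨r, R, hr, ?_, ?_⟩, ?_, ?_, ?_, hd⟩
  · intro t ht
    rw [hh3]
    exact hw2 t ht
  · intro t ht
    rw [hh3]
    exact hw3 t ht
  · intro z
    rw [hg z, hh3, norm_mul, norm_mul, norm_pow, norm_pow, pow_mul, Complex.norm_real,
      Real.norm_eq_abs, abs_of_nonneg (Complex.normSq_nonneg z), Complex.sq_norm]
  · intro z
    have h1 : (g : ℂ → ℂ) = rad n (iteratedDeriv n h) := by
      funext z
      rw [hg z, hh3]
      rfl
    rw [h1]
    exact Pool.Agent.Y282.RB.A2.main n h hh1 hh2 z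
  · intro a z ha
    rw [hg, hg, mul_pow, Complex.normSq_mul]
    have h1 : Complex.normSq a = 1 := by
      rw [Complex.normSq_eq_norm_sq, ha]
      norm_num
    have h2 : a ^ (2 * n : ℤ) = a ^ (2 * n) := by exact_mod_cast zpow_natCast a (2 * n)
    rw [h1, one_mul, h2, mul_assoc]

end Pool.NH61.FS.Rp0
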