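import Pool.Agent.NH61.FS.Def
import Pool.Agent.R223.RX.PLN
import Pool.Agent.R223.RX.SH
import Pool.Agent.R223.RX.KER
import Pool.Agent.R223.RD.TR

/-! # Project FS: representation, types k > n -/

set_option autoImplicit false

open MeasureTheory Set Filter Topology
open scoped SchwartzMap ENNReal ContDiff

namespace Pool.NH61.FS.Rp1

open Pool.Agent.Y282.RB (Tn)
open Pool.Agent.Y282.RB.A2 (HH db dd db_iter dd_iter Tn_db HH_smooth)
open Pool.Agent.R223.RD (Cc)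
open Pool.Agent.R223.RX (kk GG opA)

lemma kk_meas (j m : ℕ) : Measurable (kk j m) := by
  unfold kk GG
  refine Measurable.mul ?_ ?_
  · exact (measurable_const.add measurable_id).pow_const _
  · exact Finset.measurable_sum _ fun i _ => measurable_const.mul (measurable_id.pow_const _)

/-- the kernel -/
noncomputable def bk (j m : ℕ) (y : ℝ) : ℝ := if 1 < y then |kk j m (y - 1)| else 0

lemma bk_ker {n : ℕ} {B : ℝ} (hKP : ∀ j m : ℕ, 1 ≤ j → j ≤ n → 1 ≤ m →
    ∀ y : ℝ, 0 < y → |kk j m y| ≤ B * ((m : ℝ) / (1 + m * y) ^ 2 + (1 + y) ^ (-(3 / 2) : ℝ)))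
    {j m : ℕ} (hj : 1 ≤ j) (hjn : j ≤ n) (hm : 1 ≤ m) : Ker B (bk j m) := by
  refine ⟨?_, ?_, (m : ℝ), by exact_mod_cast hm, Or.inl ⟨?_, ?_⟩⟩
  · refine Measurable.ite measurableSet_Ioi ?_ measurable_const
    exact ((kk_meas j m).comp (measurable_id.sub_const 1)).abs
  · intro y
    unfold bk
    split_ifs
    · exact abs_nonneg _
    · exact le_rfl
  · intro y hy
    unfold bk
    rw [if_neg (not_lt.2 hy)]
  · intro y hy
    unfold bk
    rw [if_pos hy]
    have h := hKP j m hj hjn hm (y - 1) (by linarith)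
    rwa [add_sub_cancel] at h

/-- the representation for `T^j` -/
lemma core {j m : ℕ} (hj : 1 ≤ j) {w : ℝ → ℂ} (hw : Cc w) {g : 𝓢(ℂ, ℂ)}
    (hg : ∀ z, g z = z ^ (2 * j + m) * w (Complex.normSq z)) :
    ∃ a : ℝ → ℝ, Continuous a ∧ (∀ t, 0 ≤ a t) ∧
      (∃ r R : ℝ, 0 < r ∧ (∀ t, t ≤ r → a t = 0) ∧ ∀ t, R ≤ t → a t = 0) ∧
      (∀ z, ‖g z‖ = a (Complex.normSq z)) ∧
      ∀ z : ℂ, z ≠ 0 → ‖Tn j g z‖ ≤ a (Complex.normSq z) +
        ∫ y in Ioi (0 : ℝ), bk j m y * a (y * Complex.normSq z) := by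
  have hC := Pool.Agent.R223.RX.PLN.Cc_mul ((j : ℝ) + (m : ℝ) / 2) w hw
  set a0 : ℝ → ℂ := fun s => ((s ^ ((j : ℝ) + (m : ℝ) / 2) : ℝ) : ℂ) * w s with ha0
  obtain ⟨hC1, r, R, hr, hrR, hCr, hCR⟩ := hC
  have hw' := hw
  obtain ⟨hw1, r', R', ha, haR, hwa, hwR⟩ := hw'
  have hwc : HasCompactSupport w := by
    refine HasCompactSupport.intro (isCompact_Icc (a := r') (b := R')) fun x hx => ?_
    rcases le_or_gt R' x with h1 | h1
    · exact hwR x h1
    · apply hwa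
      by_contra hcon
      push Not at hcon
      exact hx ⟨hcon.le, h1.le⟩
  obtain ⟨h, hh1, ⟨R'', hR''⟩, hh2⟩ := Pool.Agent.Y282.RB.A1.main j w hw1 hwc
  obtain ⟨u, hu⟩ := Pool.Agent.R892.BR.exists_schwartz (j + m) h hh1 R'' hR''
  have e1 : g = db^[j] u := by
    ext z
    rw [db_iter hh1 hu j z, hh2, hg z]
    congr 2
    ring
  have e2 : ∀ z, Tn j g z = z ^ m * HH (j + m) h j (Complex.normSq z) := by
    intro z
    rw [e1, Tn_db, dd_iter hh1 hu j (by omega) z, Nat.add_sub_cancel_left]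
  have hsq : ∀ (z : ℂ) (c : ℝ), (Complex.normSq z) ^ c = ‖z‖ ^ (2 * c) := by
    intro z c
    rw [Complex.normSq_eq_norm_sq, ← Real.rpow_natCast, ← Real.rpow_mul (norm_nonneg _)]
    norm_num
  refine ⟨fun t => ‖a0 t‖, hC1.continuous.norm, fun t => norm_nonneg _,
    ⟨r, R, hr, fun t ht => by simp only; rw [hCr t ht, norm_zero],
      fun t ht => by simp only; rw [hCR t ht, norm_zero]⟩, fun z => ?_, fun z hz => ?_⟩
  · simp only [ha0]
    rw [hg, norm_mul, norm_mul, norm_pow, Complex.norm_real, Real.norm_eq_abs,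
      abs_of_nonneg (Real.rpow_nonneg (Complex.normSq_nonneg z) _), hsq, ← Real.rpow_natCast]
    congr 2
    push_cast
    ring
  · set t := Complex.normSq z with ht
    have ht0 : 0 < t := Complex.normSq_pos.2 hz
    have hb : ‖Tn j g z‖ = ‖opA (kk j m) a0 t‖ := by
      have h3 := Pool.Agent.R223.RX.KER.main j m h hj hh1 ⟨R'', hR''⟩ t ht0
      rw [hh2] at h3
      rw [← h3, e2, norm_mul, norm_mul, norm_pow, Complex.norm_real, Real.norm_eq_abs,
        abs_of_nonneg (Real.rpow_nonneg ht0.le _), ht, hsq, ← Real.rpow_natCast]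
      congr 2
      ring
    rw [hb]
    unfold opA
    refine (norm_sub_le _ _).trans (add_le_add_right ?_ _)
    refine (norm_integral_le_integral_norm _).trans_eq ?_
    rw [← integral_indicator measurableSet_Ioi, ← integral_indicator measurableSet_Ioi,
      ← integral_sub_right_eq_self _ (1 : ℝ)]
    refine integral_congr_ae (Eventually.of_forall fun y => ?_)
    simp only
    rcases lt_or_ge 1 y with hy | hy
    · rw [indicator_of_mem (show y - 1 ∈ Ioi (0:ℝ) from by rw [mem_Ioi]; linarith),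
        indicator_of_mem (show y ∈ Ioi (0:ℝ) from by rw [mem_Ioi]; linarith)]
      unfold bk
      rw [if_pos hy, norm_mul, Complex.norm_real, Real.norm_eq_abs]
      congr 3
      ring
    · rw [indicator_of_notMem (show y - 1 ∉ Ioi (0:ℝ) from by rw [mem_Ioi]; linarith)]
      have hb0 : bk j m y = 0 := by
        unfold bk
        rw [if_neg (not_lt.2 hy)]
      by_cases h0 : y ∈ Ioi (0:ℝ)
      · rw [indicator_of_mem h0, hb0, zero_mul]
      · rw [indicator_of_notMem h0]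

lemma type_g {k : ℕ} {w : ℝ → ℂ} {g : 𝓢(ℂ, ℂ)}
    (hg : ∀ z, g z = z ^ k * w (Complex.normSq z)) (a z : ℂ) (ha : ‖a‖ = 1) :
    g (a * z) = a ^ (k : ℤ) * g z := by
  rw [hg, hg, map_mul, Complex.normSq_eq_norm_sq a, ha, mul_pow, zpow_natCast]
  simp only [one_pow, one_mul]
  ring

theorem main (h : S_KP1) : S_RP1 := by
  intro n hn
  obtain ⟨B0, hB0, hKP0⟩ := h n
  refine ⟨B0 + 1, by linarith, ?_⟩
  have hKP : ∀ j m : ℕ, 1 ≤ j → j ≤ n → 1 ≤ m → ∀ y : ℝ, 0 < y → |kk j m y| ≤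
      (B0 + 1) * ((m : ℝ) / (1 + m * y) ^ 2 + (1 + y) ^ (-(3 / 2) : ℝ)) := by
    intro j m h1 h2 h3 y hy
    refine (hKP0 j m h1 h2 h3 y hy).trans ?_
    refine mul_le_mul_of_nonneg_right (by linarith) ?_
    positivity
  intro k f hk hk2 hf p hp ε hε
  obtain ⟨K, rfl⟩ : ∃ K : ℕ, k = (K : ℤ) := ⟨k.toNat, by omega⟩
  have hf' : ∀ a z : ℂ, ‖a‖ = 1 → f (a * z) = a ^ K * f z := by
    intro a z ha
    rw [hf a z ha, zpow_natCast]
  obtain ⟨w, g, hw, hg, -, hfg⟩ := Pool.Agent.R223.RD.TR.tr2 K f hf' p hp ε hε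
  refine ⟨g, fun a z ha => type_g hg a z ha, ?_, hfg⟩
  rcases lt_or_gt_of_ne hk2 with hlt | hgt
  · -- n < K < 2 n
    obtain ⟨j, hj⟩ : ∃ j : ℕ, K = n + j := ⟨K - n, by omega⟩
    obtain ⟨m, hm⟩ : ∃ m : ℕ, n = j + m := ⟨n - j, by omega⟩
    have hK : K = 2 * j + m := by omega
    have hj1 : 1 ≤ j := by omega
    have hm1 : 1 ≤ m := by omega
    subst hK
    obtain ⟨a, h1, h2, h3, h4, h5⟩ := core hj1 hw hg
    refine ⟨a, bk j m, h1, h2, h3, h4, bk_ker hKP hj1 (by omega) hm1, fun z hz => ?_⟩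
    rw [hm, Pool.Agent.R223.RX.SH.main j m w g hj1 hw hg z]
    exact h5 z hz
  · obtain ⟨m, hm⟩ : ∃ m : ℕ, K = 2 * n + m := ⟨K - 2 * n, by omega⟩
    have hm1 : 1 ≤ m := by omega
    subst hm
    obtain ⟨a, h1, h2, h3, h4, h5⟩ := core hn hw hg
    exact ⟨a, bk n m, h1, h2, h3, h4, bk_ker hKP hn le_rfl hm1, h5⟩

end Pool.NH61.FS.Rp1
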