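import Pool.Agent.NH61.FS.Def
import Pool.Agent.R223.RY.KFN
import Pool.Agent.R223.RY.PV2
import Pool.Agent.R223.RD.AP
import Pool.Agent.R223.RD.TR
import Pool.Agent.R223.RD.SG

/-! # Project FS: representation, types k <= n -/

set_option autoImplicit false

open MeasureTheory Set Filter Topology
open scoped SchwartzMap ENNReal ContDiff

namespace Pool.NH61.FS.Rp2

open Pool.Agent.R223.RD (Cc S_AP S_TR S_TR2 S_SG)
open Pool.Agent.R223.RY (KC opC)
open Pool.Agent.R223.RY.PV2 (AA AA_cc KC_cont single iter_zero_left)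
open Pool.Agent.Y282.RB (Tn)
open Pool.Agent.R223.RD.P (iter_conj)

lemma normSq_rpow (z : ℂ) (s : ℝ) : (Complex.normSq z) ^ s = ‖z‖ ^ (2 * s) := by
  rw [Complex.normSq_eq_norm_sq, ← Real.rpow_natCast, ← Real.rpow_mul (norm_nonneg z)]
  norm_num

/-- the kernel on `(0, 1)` -/
noncomputable def bt (n d : ℕ) (y : ℝ) : ℝ :=
  (Ioo (0 : ℝ) 1).indicator (fun y => |KC n d (1 - y)|) y

lemma bt_ker (n d : ℕ) (B : ℝ)
    (hK : ∀ x : ℝ, 0 < x → x < 1 → |KC n d x| ≤ B * (((d : ℝ) + 1) / (1 + (d + 1) * x) ^ 2)) :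
    Ker B (bt n d) := by
  refine ⟨?_, ?_, (d : ℝ) + 1, ?_, Or.inr ⟨?_, ?_, ?_⟩⟩
  · have h1 : Continuous fun y : ℝ => |KC n d (1 - y)| :=
      ((KC_cont n d).comp (continuous_const.sub continuous_id)).abs
    exact h1.measurable.indicator measurableSet_Ioo
  · intro y
    exact indicator_nonneg (fun _ _ => abs_nonneg _) y
  · have : (0 : ℝ) ≤ d := Nat.cast_nonneg d
    linarith
  · intro y hy
    exact indicator_of_notMem (fun h => absurd h.1 (not_lt.2 hy)) _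
  · intro y hy
    exact indicator_of_notMem (fun h => absurd h.2 (not_lt.2 hy)) _
  · intro y h0 h1
    have hy : y ∈ Ioo (0 : ℝ) 1 := ⟨h0, h1⟩
    have h2 : bt n d y = |KC n d (1 - y)| := by
      unfold bt
      rw [indicator_of_mem hy]
    rw [h2]
    exact hK (1 - y) (by linarith) (by linarith)

lemma op_le (n d : ℕ) (A : ℝ → ℂ) (t : ℝ) :
    ‖opC (KC n d) A t‖ ≤ ‖A t‖ + ∫ y in Ioi (0 : ℝ), bt n d y * ‖A (y * t)‖ := by
  unfold opC
  refine (norm_sub_le _ _).trans (add_le_add le_rfl ?_)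
  refine (norm_integral_le_integral_norm _).trans (le_of_eq ?_)
  have e1 : ∫ y in Ioi (0 : ℝ), bt n d y * ‖A (y * t)‖ =
      ∫ y in Ioo (0 : ℝ) 1, |KC n d (1 - y)| * ‖A (y * t)‖ := by
    have e2 : ∀ y : ℝ, bt n d y * ‖A (y * t)‖ =
        (Ioo (0 : ℝ) 1).indicator (fun y => |KC n d (1 - y)| * ‖A (y * t)‖) y := by
      intro y
      unfold bt
      by_cases hy : y ∈ Ioo (0 : ℝ) 1
      · rw [indicator_of_mem hy, indicator_of_mem hy]
      · rw [indicator_of_notMem hy, indicator_of_notMem hy, zero_mul]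
    simp_rw [e2]
    rw [setIntegral_indicator measurableSet_Ioo]
    congr 2
    exact inter_eq_right.2 fun y hy => hy.1
  rw [e1, ← integral_Ioc_eq_integral_Ioo, ← integral_Ioc_eq_integral_Ioo,
    ← intervalIntegral.integral_of_le zero_le_one, ← intervalIntegral.integral_of_le zero_le_one]
  have e3 := intervalIntegral.integral_comp_sub_left (a := (0 : ℝ)) (b := 1)
    (fun x : ℝ => ‖(KC n d x : ℂ) * A (t * (1 - x))‖) 1
  rw [sub_self, sub_zero] at e3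
  rw [← e3]
  refine intervalIntegral.integral_congr fun y _ => ?_
  show ‖(KC n d (1 - y) : ℂ) * A (t * (1 - (1 - y)))‖ = |KC n d (1 - y)| * ‖A (y * t)‖
  rw [norm_mul, Complex.norm_real, Real.norm_eq_abs]
  congr 3
  ring

/-- the representation on the nice class -/
lemma core (n d : ℕ) (V : ℝ → ℂ) (hV : Cc V) (B : ℝ)
    (hK : ∀ x : ℝ, 0 < x → x < 1 → |KC n d x| ≤ B * (((d : ℝ) + 1) / (1 + (d + 1) * x) ^ 2)) :
    ∃ F : 𝓢(ℂ, ℂ), (∀ z, F z = (z⁻¹) ^ d * iteratedDeriv n V (Complex.normSq z)) ∧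
      ∃ a β : ℝ → ℝ, Continuous a ∧ (∀ t, 0 ≤ a t) ∧
      (∃ r R : ℝ, 0 < r ∧ (∀ t, t ≤ r → a t = 0) ∧ ∀ t, R ≤ t → a t = 0) ∧
      (∀ z, ‖F z‖ = a (Complex.normSq z)) ∧ Ker B β ∧
      ∀ z : ℂ, z ≠ 0 →
        ‖Tn n F z‖ ≤ a (Complex.normSq z) + ∫ y in Ioi (0 : ℝ), β y * a (y * Complex.normSq z) := by
  obtain ⟨k, F, R, hk, hks, hkR, hkRn, hHR, hF1, hF2, hF3⟩ :=
    single Pool.Agent.R223.RD.PC.cj (n + d) n V (Nat.le_add_right n d) hV
  rw [Nat.add_sub_cancel_left] at hF1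
  obtain ⟨hA1, r, R', hr, hrR, hA2, hA3⟩ := AA_cc n ((d : ℝ) / 2) V hV
  have hV0 : iteratedDeriv n V 0 = 0 := by
    obtain ⟨_, a, _, ha, _, hVa, _⟩ := hV
    exact iter_zero_left (a := a) (fun x hx => hVa x hx.le) n 0 ha
  refine ⟨F, hF1, fun t => ‖AA n ((d : ℝ) / 2) V t‖, bt n d, hA1.continuous.norm,
    fun t => norm_nonneg _, ⟨r, R', hr, fun t ht => ?_, fun t ht => ?_⟩, fun z => ?_,
    bt_ker n d B hK, fun z hz => ?_⟩
  · show ‖AA n ((d : ℝ) / 2) V t‖ = 0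
    rw [hA2 t ht, norm_zero]
  · show ‖AA n ((d : ℝ) / 2) V t‖ = 0
    rw [hA3 t ht, norm_zero]
  · rw [hF1 z]
    rcases eq_or_ne z 0 with hz | hz
    · subst hz
      show _ = ‖AA n ((d : ℝ) / 2) V (Complex.normSq 0)‖
      rw [map_zero, hV0, mul_zero, hA2 0 hr.le]
    · show _ = ‖AA n ((d : ℝ) / 2) V (Complex.normSq z)‖
      unfold AA
      rw [norm_mul, norm_mul, norm_pow, norm_inv, Complex.norm_real,
        Real.norm_of_nonneg (Real.rpow_nonneg (Complex.normSq_nonneg z) _), normSq_rpow]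
      congr 1
      have e : 2 * -((d : ℝ) / 2) = -(d : ℝ) := by ring
      rw [e, Real.rpow_neg (norm_nonneg z), Real.rpow_natCast, inv_pow]
  · have ht : 0 < Complex.normSq z := Complex.normSq_pos.2 hz
    have h1 := congrArg norm (Pool.Agent.R223.RY.KFN.main n d V hV (Complex.normSq z) ht)
    rw [norm_mul, Complex.norm_real, Real.norm_of_nonneg (Real.rpow_nonneg ht.le _)] at h1
    have e4 : ‖iteratedDeriv n k (Complex.normSq z)‖ =
        ‖iteratedDeriv n (fun x : ℝ => V x / ((x : ℂ) ^ (n + d))) (Complex.normSq z)‖ := by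
      rw [hk, iter_conj, Complex.norm_conj]
    have e5 : ‖z‖ ^ (n + d + n) = (Complex.normSq z) ^ ((n : ℝ) + (d : ℝ) / 2) := by
      rw [normSq_rpow, ← Real.rpow_natCast]
      congr 1
      push_cast
      ring
    rw [hF3 z, e4, e5, h1]
    exact op_le n d (AA n ((d : ℝ) / 2) V) (Complex.normSq z)

lemma two_half (ε : ℝ) (hε : 0 < ε) :
    ENNReal.ofReal (ε / 2) + ENNReal.ofReal (ε / 2) = ENNReal.ofReal ε := by
  rw [← ENNReal.ofReal_add (by linarith) (by linarith)]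
  congr 1
  ring

lemma tri (p : ℝ) (hp : 2 ≤ p) (ε : ℝ) (hε : 0 < ε) (f g h : 𝓢(ℂ, ℂ))
    (h1 : eLpNorm (f - g : 𝓢(ℂ, ℂ)) (ENNReal.ofReal p) (volume : Measure ℂ)
      ≤ ENNReal.ofReal (ε / 2))
    (h2 : eLpNorm (g - h : 𝓢(ℂ, ℂ)) (ENNReal.ofReal p) (volume : Measure ℂ)
      ≤ ENNReal.ofReal (ε / 2)) :
    eLpNorm (f - h : 𝓢(ℂ, ℂ)) (ENNReal.ofReal p) (volume : Measure ℂ) ≤ ENNReal.ofReal ε := by
  have hP1 : (1 : ℝ≥0∞) ≤ ENNReal.ofReal p := by
    rw [← ENNReal.ofReal_one]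
    exact ENNReal.ofReal_le_ofReal (by linarith)
  have e1 : (⇑(f - h : 𝓢(ℂ, ℂ)) : ℂ → ℂ) = ⇑(f - g : 𝓢(ℂ, ℂ)) + ⇑(g - h : 𝓢(ℂ, ℂ)) := by
    funext z
    show f z - h z = (f z - g z) + (g z - h z)
    ring
  rw [e1, ← two_half ε hε]
  exact (eLpNorm_add_le (f - g).continuous.aestronglyMeasurable
    (g - h).continuous.aestronglyMeasurable hP1).trans (add_le_add h1 h2)

lemma norm_one_of_ge {z : ℂ} (h1 : 1 ≤ Complex.normSq z) : 1 ≤ ‖z‖ := by
  rw [Complex.normSq_eq_norm_sq] at h1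
  nlinarith [norm_nonneg z]

/-- types `-d ≤ 0` -/
lemma neg_case (n d : ℕ) (B : ℝ)
    (hK : ∀ x : ℝ, 0 < x → x < 1 → |KC n d x| ≤ B * (((d : ℝ) + 1) / (1 + (d + 1) * x) ^ 2))
    (f : 𝓢(ℂ, ℂ)) (hf : ∀ a z : ℂ, ‖a‖ = 1 → a ^ d * f (a * z) = f z) (p : ℝ) (hp : 2 ≤ p)
    (ε : ℝ) (hε : 0 < ε) :
    ∃ g : 𝓢(ℂ, ℂ), (∀ a z : ℂ, ‖a‖ = 1 → g (a * z) = (a⁻¹) ^ d * g z) ∧ Rep n B g ∧
    eLpNorm (f - g : 𝓢(ℂ, ℂ)) (ENNReal.ofReal p) (volume : Measure ℂ) ≤ ENNReal.ofReal ε := by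
  obtain ⟨w, g1, hw, hg, hle, hfg⟩ :=
    Pool.Agent.R223.RD.TR.main d f hf p hp (ε / 2) (by linarith)
  obtain ⟨V, hV, hV1, hV2⟩ := Pool.Agent.R223.RD.AP.main p hp n w hw (ε / 2) (by linarith)
  obtain ⟨F, hF, hR⟩ := core n d V hV B hK
  refine ⟨F, fun a z ha => ?_, hR, tri p hp ε hε f g1 F hfg ?_⟩
  · rw [hF, hF, mul_inv, mul_pow, mul_assoc, map_mul, Complex.normSq_eq_norm_sq a, ha, one_pow,
      one_mul]
  · refine (eLpNorm_mono fun z => ?_).trans hV2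
    show ‖g1 z - F z‖ ≤ _
    rw [hg, hF, ← mul_sub, norm_mul]
    rcases lt_or_ge (Complex.normSq z) 1 with h1 | h1
    · rw [hV1 _ h1]
      simp
    · have h2 : ‖(z⁻¹) ^ d‖ ≤ 1 := by
        rw [norm_pow, norm_inv]
        exact pow_le_one₀ (by positivity) (inv_le_one_of_one_le₀ (norm_one_of_ge h1))
      exact mul_le_of_le_one_left (norm_nonneg _) h2

lemma conj_mul_inv (z : ℂ) (hz : z ≠ 0) (k : ℕ) :
    ((starRingEnd ℂ) z) ^ k * (((Complex.normSq z) ^ (-(k : ℝ)) : ℝ) : ℂ) = (z⁻¹) ^ k := by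
  have ht : 0 < Complex.normSq z := Complex.normSq_pos.2 hz
  rw [Real.rpow_neg ht.le, Real.rpow_natCast, ← inv_pow, Complex.ofReal_pow, ← mul_pow,
    ← Complex.inv_def]

/-- types `0 < k ≤ n`, `n = k + n'` -/
lemma pos_case (n' k : ℕ) (B : ℝ)
    (hK : ∀ x : ℝ, 0 < x → x < 1 → |KC n' k x| ≤ B * (((k : ℝ) + 1) / (1 + (k + 1) * x) ^ 2))
    (f : 𝓢(ℂ, ℂ)) (hf : ∀ a z : ℂ, ‖a‖ = 1 → f (a * z) = a ^ k * f z) (p : ℝ) (hp : 2 ≤ p)
    (ε : ℝ) (hε : 0 < ε) :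
    ∃ g : 𝓢(ℂ, ℂ), (∀ a z : ℂ, ‖a‖ = 1 → g (a * z) = a ^ k * g z) ∧ Rep (k + n') B g ∧
    eLpNorm (f - g : 𝓢(ℂ, ℂ)) (ENNReal.ofReal p) (volume : Measure ℂ) ≤ ENNReal.ofReal ε := by
  obtain ⟨w, g1, hw, hg, hle, hfg⟩ :=
    Pool.Agent.R223.RD.TR.tr2 k f hf p hp (ε / 2) (by linarith)
  have hw' : Cc (fun t : ℝ => (t : ℂ) ^ k * w t) := by
    obtain ⟨h1, a, R, h2, h3, h4, h5⟩ := hw
    refine ⟨(Complex.ofRealCLM.contDiff.pow k).mul h1, a, R, h2, h3, fun x hx => ?_,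
      fun x hx => ?_⟩
    · simp only [h4 x hx, mul_zero]
    · simp only [h5 x hx, mul_zero]
  obtain ⟨V, hV, hV1, hV2⟩ := Pool.Agent.R223.RD.AP.main p hp n' _ hw' (ε / 2) (by linarith)
  have hA := AA_cc n' (k : ℝ) V hV
  obtain ⟨hA1, r, R, hr, hrR, hA2, hA3⟩ := id hA
  -- the function g
  have hsq : ContDiff ℝ ∞ (Complex.normSq : ℂ → ℝ) := by
    have e : (Complex.normSq : ℂ → ℝ) = fun z => z.re * z.re + z.im * z.im := by
      funext z
      exact Complex.normSq_apply z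
    rw [e]
    exact (Complex.reCLM.contDiff.mul Complex.reCLM.contDiff).add
      (Complex.imCLM.contDiff.mul Complex.imCLM.contDiff)
  have hs : ContDiff ℝ ∞ (fun z : ℂ => z ^ k * AA n' (k : ℝ) V (Complex.normSq z)) :=
    (contDiff_id.pow k).mul (hA1.comp hsq)
  have hc : HasCompactSupport (fun z : ℂ => z ^ k * AA n' (k : ℝ) V (Complex.normSq z)) := by
    refine HasCompactSupport.intro (isCompact_closedBall (0 : ℂ) (|R| + 1)) fun w hw => ?_
    rw [Metric.mem_closedBall, dist_zero_right, not_le] at hw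
    have h1 : R ≤ Complex.normSq w := by
      rw [Complex.normSq_eq_norm_sq]
      nlinarith [le_abs_self R, abs_nonneg R]
    rw [hA3 _ h1, mul_zero]
  obtain ⟨g, hgd⟩ : ∃ g : 𝓢(ℂ, ℂ), ∀ z, g z = z ^ k * AA n' (k : ℝ) V (Complex.normSq z) :=
    ⟨hc.toSchwartzMap hs, fun z => rfl⟩
  obtain ⟨g', hg', hT⟩ := Pool.Agent.R223.RD.SG.main k n' _ g hA hgd
  obtain ⟨F, hF, a, β, ha1, ha2, ha3, ha4, ha5, ha6⟩ := core n' k V hV B hK
  have hV0 : iteratedDeriv n' V 0 = 0 := by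
    obtain ⟨_, a, _, ha, _, hVa, _⟩ := hV
    exact iter_zero_left (a := a) (fun x hx => hVa x hx.le) n' 0 ha
  have hgF : g' = F := by
    ext z
    rw [hg', hF]
    rcases eq_or_ne z 0 with hz | hz
    · subst hz
      rw [map_zero, map_zero, hV0, mul_zero, hA2 0 hr.le, mul_zero]
    · unfold AA
      rw [← mul_assoc, conj_mul_inv z hz k]
  refine ⟨g, fun b z hb => ?_, ⟨a, β, ha1, ha2, ha3, fun z => ?_, ha5, fun z hz => ?_⟩,
    tri p hp ε hε f g1 g hfg ?_⟩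
  · rw [hgd, hgd, map_mul, Complex.normSq_eq_norm_sq b, hb, one_pow, one_mul, mul_pow, mul_assoc]
  · rw [← ha4, ← hgF, hgd, hg', norm_mul, norm_mul, norm_pow, norm_pow, RCLike.norm_conj]
  · rw [hT z, hgF]
    exact ha6 z hz
  · refine (eLpNorm_mono fun z => ?_).trans hV2
    show ‖g1 z - g z‖ ≤ ‖((Complex.normSq z : ℝ) : ℂ) ^ k * w (Complex.normSq z) -
      iteratedDeriv n' V (Complex.normSq z)‖
    rw [hg, hgd]
    rcases eq_or_ne z 0 with hz | hz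
    · subst hz
      have hw0 : w 0 = 0 := by
        obtain ⟨_, a, R, h2, _, h4, _⟩ := hw
        exact h4 0 h2.le
      rw [map_zero, hw0, hA2 0 hr.le, mul_zero, sub_zero, norm_zero]
      exact norm_nonneg _
    · have ht : 0 < Complex.normSq z := Complex.normSq_pos.2 hz
      have htc : ((Complex.normSq z : ℝ) : ℂ) ≠ 0 := by exact_mod_cast ht.ne'
      have e : z ^ k * w (Complex.normSq z) - z ^ k * AA n' (k : ℝ) V (Complex.normSq z) =
          (z ^ k * (((Complex.normSq z : ℝ) : ℂ) ^ k)⁻¹) *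
            (((Complex.normSq z : ℝ) : ℂ) ^ k * w (Complex.normSq z) -
              iteratedDeriv n' V (Complex.normSq z)) := by
        unfold AA
        rw [Real.rpow_neg ht.le, Real.rpow_natCast]
        push_cast
        field_simp
      rw [e, norm_mul]
      rcases lt_or_ge (Complex.normSq z) 1 with h1 | h1
      · rw [hV1 _ h1]
        simp
      · refine mul_le_of_le_one_left (norm_nonneg _) ?_
        have h2 := norm_one_of_ge h1
        rw [norm_mul, norm_inv, norm_pow, norm_pow, Complex.norm_real,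
          Real.norm_of_nonneg ht.le, Complex.normSq_eq_norm_sq, ← div_eq_mul_inv, ← div_pow]
        refine pow_le_one₀ (by positivity) ?_
        rw [div_le_one (by positivity)]
        nlinarith

theorem main (h : S_KP2) : S_RP2 := by
  intro n _
  obtain ⟨B, hB0, hB⟩ := h n
  refine ⟨B + 1, by linarith, fun k f hk hf p hp ε hε => ?_⟩
  have hB' : ∀ j m : ℕ, j ≤ n → ∀ x : ℝ, 0 < x → x < 1 →
      |KC j m x| ≤ (B + 1) * (((m : ℝ) + 1) / (1 + (m + 1) * x) ^ 2) := by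
    intro j m hj x hx0 hx1
    refine (hB j m hj x hx0 hx1).trans ?_
    gcongr
    linarith
  rcases le_or_gt k 0 with hk0 | hk0
  · obtain ⟨d, hd⟩ : ∃ d : ℕ, k = -(d : ℤ) := ⟨k.natAbs, by omega⟩
    obtain ⟨g, hg1, hg2, hg3⟩ := neg_case n d (B + 1) (hB' n d le_rfl) f (fun a z ha => by
      have ha0 : a ≠ 0 := by
        intro h0
        rw [h0, norm_zero] at ha
        exact zero_ne_one ha
      rw [hf a z ha, hd, zpow_neg, zpow_natCast, ← mul_assoc,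
        mul_inv_cancel₀ (pow_ne_zero _ ha0), one_mul]) p hp ε hε
    refine ⟨g, fun a z ha => ?_, hg2, hg3⟩
    rw [hg1 a z ha, hd, zpow_neg, zpow_natCast, inv_pow]
  · obtain ⟨j, hj⟩ : ∃ j : ℕ, k = (j : ℤ) := ⟨k.natAbs, by omega⟩
    have hjn : j ≤ n := by omega
    obtain ⟨g, hg1, hg2, hg3⟩ := pos_case (n - j) j (B + 1) (hB' (n - j) j (Nat.sub_le n j)) f
      (fun a z ha => by rw [hf a z ha, hj, zpow_natCast]) p hp ε hε
    rw [Nat.add_sub_cancel' hjn] at hg2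
    refine ⟨g, fun a z ha => ?_, hg2, hg3⟩
    rw [hg1 a z ha, hj, zpow_natCast]

end Pool.NH61.FS.Rp2
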