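import Pool.Agent.NH61.FS.Def
import Pool.Agent.Y282.RB.E0

/-! # Project FS: the pointwise inequality with slack -/

set_option autoImplicit false

open MeasureTheory Set Filter Topology
open scoped SchwartzMap ENNReal

namespace Pool.NH61.FS.Slk

theorem ph_low (r x : ℝ) (hr : 2 ≤ r) (h0 : 0 ≤ x) (h1 : x ≤ 1) :
    ph r x ≤ r * (r - 1) / 2 * (1 - x) ^ 2 ∧ ph r x ≤ r - 1 :=
  ⟨Pool.Agent.Y282.RB.E0.low1 r x hr h0 h1, Pool.Agent.Y282.RB.E0.low2 r x hr h0 h1⟩

theorem ph_high (r x : ℝ) (hr : 2 ≤ r) (h1 : 1 ≤ x) :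
    ph r x ≤ r * (r - 1) / 2 * x ^ r * (x - 1) ^ 2 :=
  Pool.Agent.Y282.RB.E0.high r x hr h1

theorem ph_nonneg (r x : ℝ) (hr : 2 ≤ r) (h0 : 0 ≤ x) : 0 ≤ ph r x := by
  have := one_add_mul_self_le_rpow_one_add (s := x - 1) (by linarith) (p := r) (by linarith)
  rw [add_sub_cancel] at this
  unfold ph
  linarith

theorem rpow_bd (r x c : ℝ) (hr : 0 < r) (h1 : 0 ≤ x) (h : x ≤ 1 + c / r) : x ^ r ≤ Real.exp c := by
  have h2 : x ≤ Real.exp (c / r) := h.trans (by
    have := Real.add_one_le_exp (c / r)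
    linarith)
  calc x ^ r ≤ (Real.exp (c / r)) ^ r := Real.rpow_le_rpow h1 h2 hr.le
    _ = Real.exp c := by
      rw [← Real.exp_mul]
      congr 1
      field_simp

theorem core (C1 C2 M p x y s : ℝ) (hC1 : 1 ≤ C1) (hC2 : 1 ≤ C2) (hM : 1 ≤ M) (hx : 0 ≤ x)
    (hy : 0 ≤ y) (hs : 0 ≤ s) (hp4 : 4 ≤ p) (hp8 : 8 * C1 ≤ p)
    (hpa : 9 * C1 ^ 2 * Real.exp (2 * C1) * M ≤ p)
    (hpb : C1 ^ 2 * M ^ 3 ≤ p) (hpc : 2 * M * Real.exp C2 + 2 ≤ p) (hpd : 2 * M ≤ p)
    (H1 : |x ^ 2 - 1| ≤ C1 / p * (x * s + s ^ 2))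
    (H2 : y ≤ 2 * x → x ^ 2 ≤ 1 + C2 / p) :
    M * ph (p / 2) (x ^ 2) ≤ ph (p / 2) (y ^ 2) + (p / 2 - 1) * s ^ 2 := by
  have hp0 : 0 < p := by linarith
  have hr : 2 ≤ p / 2 := by linarith
  have hyn : 0 ≤ ph (p / 2) (y ^ 2) := ph_nonneg _ _ hr (sq_nonneg y)
  have hr1 : 0 < p / 2 - 1 := by linarith
  have hM0 : 0 < M := by linarith
  have hCp : 0 < C1 / p := by positivity
  rcases le_or_gt s 1 with hs1 | hs1
  · have hC8 : C1 / p ≤ 1 / 8 := by
      rw [div_le_div_iff₀ hp0 (by norm_num)]; linarith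
    have hss : x * s + s ^ 2 ≤ (x + 1) * s := by nlinarith
    have hx2 : x ≤ 2 := by
      by_contra hcon
      push Not at hcon
      have h3 : x ^ 2 - 1 ≤ 1 / 8 * ((x + 1) * 1) := by
        calc x ^ 2 - 1 ≤ |x ^ 2 - 1| := le_abs_self _
          _ ≤ C1 / p * (x * s + s ^ 2) := H1
          _ ≤ C1 / p * ((x + 1) * s) := mul_le_mul_of_nonneg_left hss hCp.le
          _ ≤ 1 / 8 * ((x + 1) * 1) := by
              apply mul_le_mul hC8 _ (by positivity) (by norm_num)
              apply mul_le_mul_of_nonneg_left hs1 (by linarith)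
      nlinarith
    have h4 : |x ^ 2 - 1| ≤ 3 * C1 / p * s := by
      calc |x ^ 2 - 1| ≤ C1 / p * (x * s + s ^ 2) := H1
        _ ≤ C1 / p * ((x + 1) * s) := mul_le_mul_of_nonneg_left hss hCp.le
        _ ≤ C1 / p * (3 * s) := by
            apply mul_le_mul_of_nonneg_left _ hCp.le
            apply mul_le_mul_of_nonneg_right _ hs
            linarith
        _ = 3 * C1 / p * s := by ring
    have h5 : (x ^ 2 - 1) ^ 2 ≤ (3 * C1 / p * s) ^ 2 := by
      rw [← sq_abs (x ^ 2 - 1)]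
      exact pow_le_pow_left₀ (abs_nonneg _) h4 2
    have h6 : ∀ E : ℝ, 0 ≤ E → 9 * C1 ^ 2 * E * M ≤ p →
        M * (p / 2 * (p / 2 - 1) / 2 * E * (x ^ 2 - 1) ^ 2) ≤ (p / 2 - 1) * s ^ 2 := by
      intro E hE hEp
      calc M * (p / 2 * (p / 2 - 1) / 2 * E * (x ^ 2 - 1) ^ 2)
          ≤ M * (p / 2 * (p / 2 - 1) / 2 * E * (3 * C1 / p * s) ^ 2) := by gcongr
        _ = (p / 2 - 1) * s ^ 2 * ((9 * C1 ^ 2 * E * M) / (4 * p)) := by
            field_simp
            ring
        _ ≤ (p / 2 - 1) * s ^ 2 * 1 := by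
            apply mul_le_mul_of_nonneg_left _ (by positivity)
            rw [div_le_one (by positivity)]
            linarith
        _ = (p / 2 - 1) * s ^ 2 := mul_one _
    rcases le_or_gt (x ^ 2) 1 with hx1 | hx1
    · have h7 := (ph_low (p / 2) (x ^ 2) hr (sq_nonneg x) hx1).1
      have h8 := h6 1 (by norm_num) (by
        refine le_trans ?_ hpa
        have : (1 : ℝ) ≤ Real.exp (2 * C1) := Real.one_le_exp (by linarith)
        gcongr)
      have h9 : M * ph (p / 2) (x ^ 2) ≤ M * (p / 2 * (p / 2 - 1) / 2 * 1 * (x ^ 2 - 1) ^ 2) := by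
        apply mul_le_mul_of_nonneg_left _ hM0.le
        calc ph (p / 2) (x ^ 2) ≤ _ := h7
          _ = _ := by ring
      linarith
    · have h7 := ph_high (p / 2) (x ^ 2) hr hx1.le
      have h8 := h6 (Real.exp (2 * C1)) (Real.exp_pos _).le hpa
      have h10 : (x ^ 2) ^ (p / 2) ≤ Real.exp (2 * C1) := by
        apply rpow_bd _ _ _ (by linarith) (by positivity)
        have h11 : x ^ 2 - 1 ≤ 3 * C1 / p := by
          calc x ^ 2 - 1 ≤ |x ^ 2 - 1| := le_abs_self _
            _ ≤ 3 * C1 / p * s := h4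
            _ ≤ 3 * C1 / p * 1 := mul_le_mul_of_nonneg_left hs1 (by positivity)
            _ = 3 * C1 / p := mul_one _
        have h12 : 3 * C1 / p ≤ 2 * C1 / (p / 2) := by
          rw [div_le_div_iff₀ hp0 (by linarith)]
          nlinarith
        linarith
      have h9 : M * ph (p / 2) (x ^ 2) ≤
          M * (p / 2 * (p / 2 - 1) / 2 * Real.exp (2 * C1) * (x ^ 2 - 1) ^ 2) := by
        apply mul_le_mul_of_nonneg_left _ hM0.le
        refine h7.trans ?_
        gcongr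
      linarith
  · have hs2 : 1 ≤ s ^ 2 := by nlinarith
    have hfin : ∀ w : ℝ, w ≤ (p / 2 - 1) → w ≤ ph (p / 2) (y ^ 2) + (p / 2 - 1) * s ^ 2 := by
      intro w hw
      have : (p / 2 - 1) * 1 ≤ (p / 2 - 1) * s ^ 2 := mul_le_mul_of_nonneg_left hs2 hr1.le
      linarith
    rcases le_or_gt (x ^ 2) 1 with hx1 | hx1
    · have h7 := ph_low (p / 2) (x ^ 2) hr (sq_nonneg x) hx1
      rcases le_or_gt M (s ^ 2) with hMs | hMs
      · have h8 : M * ph (p / 2) (x ^ 2) ≤ M * (p / 2 - 1) := mul_le_mul_of_nonneg_left h7.2 hM0.le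
        have h9 : M * (p / 2 - 1) ≤ s ^ 2 * (p / 2 - 1) := mul_le_mul_of_nonneg_right hMs hr1.le
        linarith
      · apply hfin
        have hx' : x ≤ 1 := by nlinarith
        have h8 : |x ^ 2 - 1| ≤ 2 * C1 * M / p := by
          calc |x ^ 2 - 1| ≤ C1 / p * (x * s + s ^ 2) := H1
            _ ≤ C1 / p * (2 * M) := by
                apply mul_le_mul_of_nonneg_left _ hCp.le
                nlinarith
            _ = 2 * C1 * M / p := by ring
        have h5 : (x ^ 2 - 1) ^ 2 ≤ (2 * C1 * M / p) ^ 2 := by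
          rw [← sq_abs (x ^ 2 - 1)]
          exact pow_le_pow_left₀ (abs_nonneg _) h8 2
        calc M * ph (p / 2) (x ^ 2) ≤ M * (p / 2 * (p / 2 - 1) / 2 * (1 - x ^ 2) ^ 2) :=
              mul_le_mul_of_nonneg_left h7.1 hM0.le
          _ = M * (p / 2 * (p / 2 - 1) / 2 * (x ^ 2 - 1) ^ 2) := by ring
          _ ≤ M * (p / 2 * (p / 2 - 1) / 2 * (2 * C1 * M / p) ^ 2) := by gcongr
          _ = (p / 2 - 1) * ((C1 ^ 2 * M ^ 3) / p) := by
              field_simp
          _ ≤ (p / 2 - 1) * 1 := by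
              apply mul_le_mul_of_nonneg_left _ hr1.le
              rw [div_le_one hp0]
              exact hpb
          _ = p / 2 - 1 := mul_one _
    · have hph : ph (p / 2) (x ^ 2) ≤ (x ^ 2) ^ (p / 2) := by
        unfold ph
        nlinarith
      rcases le_or_gt y (2 * x) with hyx | hyx
      · apply hfin
        have h8 := H2 hyx
        have h9 : (x ^ 2) ^ (p / 2) ≤ Real.exp C2 := by
          apply rpow_bd _ _ _ (by linarith) (by positivity)
          have h12 : C2 / p ≤ C2 / (p / 2) := by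
            apply div_le_div_of_nonneg_left (by linarith) (by linarith) (by linarith)
          linarith
        have h10 : M * ph (p / 2) (x ^ 2) ≤ M * Real.exp C2 :=
          mul_le_mul_of_nonneg_left (hph.trans h9) hM0.le
        linarith
      · have hb4 : 4 * x ^ 2 ≤ y ^ 2 := by nlinarith
        have hb : 4 ≤ y ^ 2 := by linarith
        have hy0 : 0 < y ^ 2 := by linarith
        have h8 : 1 + (p / 2 - 1) * 3 ≤ (4 : ℝ) ^ (p / 2 - 1) := by
          have := one_add_mul_self_le_rpow_one_add (s := (3 : ℝ)) (by norm_num) (p := p / 2 - 1)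
            (by linarith)
          norm_num at this ⊢
          linarith
        have h9 : (4 : ℝ) ^ (p / 2 - 1) ≤ (y ^ 2) ^ (p / 2 - 1) :=
          Real.rpow_le_rpow (by norm_num) hb (by linarith)
        have h10 : (y ^ 2) ^ (p / 2) = (y ^ 2) ^ (p / 2 - 1) * y ^ 2 := by
          rw [← Real.rpow_add_one hy0.ne']
          congr 1
          ring
        have h11 : p * y ^ 2 ≤ (y ^ 2) ^ (p / 2) := by
          rw [h10]
          apply mul_le_mul_of_nonneg_right _ hy0.le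
          linarith
        have h12 : (y ^ 2) ^ (p / 2) / 2 ≤ ph (p / 2) (y ^ 2) := by
          unfold ph
          nlinarith
        have h13 : (4 * x ^ 2) ^ (p / 2) ≤ (y ^ 2) ^ (p / 2) :=
          Real.rpow_le_rpow (by positivity) hb4 (by linarith)
        rw [Real.mul_rpow (by norm_num) (by positivity)] at h13
        have h14 : (4 : ℝ) ^ (p / 2) = (4 : ℝ) ^ (p / 2 - 1) * 4 := by
          rw [← Real.rpow_add_one (by norm_num)]
          congr 1
          ring
        have h15 : 2 * M ≤ (4 : ℝ) ^ (p / 2) := by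
          rw [h14]
          nlinarith
        have h16 : 0 ≤ (x ^ 2) ^ (p / 2) := by positivity
        have h17 : M * ph (p / 2) (x ^ 2) ≤ M * (x ^ 2) ^ (p / 2) :=
          mul_le_mul_of_nonneg_left hph hM0.le
        have h18 : 2 * M * (x ^ 2) ^ (p / 2) ≤ (4 : ℝ) ^ (p / 2) * (x ^ 2) ^ (p / 2) :=
          mul_le_mul_of_nonneg_right h15 h16
        have h19 : 0 ≤ (p / 2 - 1) * s ^ 2 := by positivity
        linarith

theorem TTC_nonneg (n : ℕ) (γ : ℕ → ℂ) : 0 ≤ TTC n γ := by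
  unfold TTC
  apply Finset.sum_nonneg
  intro j _
  positivity

theorem main (h1 : S_E1) (h2 : S_E2) : S_SLK := by
  intro n hn M hM
  obtain ⟨C1, hC1, H1⟩ := h1 n hn
  obtain ⟨C2, hC2, H2⟩ := h2 n hn
  have hC10 : 0 < C1 := by linarith
  have hM0 : 0 < M := by linarith
  have e1 := Real.exp_pos (2 * C1)
  have e2 := Real.exp_pos C2
  have f1 : 0 < 9 * C1 ^ 2 * Real.exp (2 * C1) * M := by positivity
  have f2 : 0 < C1 ^ 2 * M ^ 3 := by positivity
  have f3 : 0 < 2 * M * Real.exp C2 := by positivity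
  refine ⟨4 + 8 * C1 + C2 + 9 * C1 ^ 2 * Real.exp (2 * C1) * M + C1 ^ 2 * M ^ 3 +
    (2 * M * Real.exp C2 + 2) + 2 * M, by linarith, ?_⟩
  intro p γ hp hL
  have hp4 : 4 ≤ p := by linarith
  have k1 := H1 p γ hp4 hL
  have k2 := H2 p γ (by linarith) hL
  have hs := Real.sq_sqrt (TTC_nonneg n γ)
  have := core C1 C2 M p ‖γ 0‖ ‖γ n‖ (√(TTC n γ)) hC1 hC2 hM (norm_nonneg _) (norm_nonneg _)
    (Real.sqrt_nonneg _) hp4 (by linarith) (by linarith) (by linarith) (by linarith) (by linarith)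
    (by rw [hs]; exact k1) k2
  rw [hs] at this
  exact this

end Pool.NH61.FS.Slk
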