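import Pool.Agent.NH61.FS.Def

/-! # Project FS: the integral of Z -/

set_option autoImplicit false

open MeasureTheory Set Filter Topology
open scoped SchwartzMap ENNReal

namespace Pool.NH61.FS.Zi

theorem measurable_rho : Measurable rho := by
  unfold rho
  exact measurable_id.max measurable_inv

/-- the inner integral -/
theorem inner {t : ℝ} (ht : 0 < t) :
    ∫⁻ s in Ioi (0 : ℝ), ENNReal.ofReal (rho (t / s) ^ (-(1 / 16) : ℝ) / s) = 32 := by
  have hsplit : Ioi (0 : ℝ) = Ioc 0 t ∪ Ioi t := (Ioc_union_Ioi_eq_Ioi ht.le).symm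
  have hdisj : Disjoint (Ioc (0 : ℝ) t) (Ioi t) :=
    Set.disjoint_left.2 fun x h1 h2 => absurd h1.2 (not_le.2 h2)
  rw [hsplit, lintegral_union measurableSet_Ioi hdisj]
  have h1 : ∫⁻ s in Ioc (0 : ℝ) t, ENNReal.ofReal (rho (t / s) ^ (-(1 / 16) : ℝ) / s) = 16 := by
    have e1 : ∀ s ∈ Ioc (0 : ℝ) t, ENNReal.ofReal (rho (t / s) ^ (-(1 / 16) : ℝ) / s) =
        ENNReal.ofReal (t ^ (-(1 / 16) : ℝ) * s ^ (-(15 / 16) : ℝ)) := by
      intro s hs
      have hs0 : 0 < s := hs.1
      congr 1
      have hρ : rho (t / s) = t / s := by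
        unfold rho
        have h1 : 1 ≤ t / s := (one_le_div hs0).2 hs.2
        exact max_eq_left ((inv_le_one_of_one_le₀ h1).trans h1)
      rw [hρ, Real.div_rpow ht.le hs0.le]
      have h2 : s ^ (-(15 / 16) : ℝ) = (s ^ (-(1 / 16) : ℝ))⁻¹ * s⁻¹ := by
        rw [← Real.rpow_neg hs0.le, ← Real.rpow_neg_one, ← Real.rpow_add hs0]
        norm_num
      rw [h2]
      field_simp
    rw [setLIntegral_congr_fun measurableSet_Ioc e1]
    have hi : IntervalIntegrable (fun s : ℝ => t ^ (-(1 / 16) : ℝ) * s ^ (-(15 / 16) : ℝ))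
        volume 0 t :=
      (intervalIntegral.intervalIntegrable_rpow' (by norm_num)).const_mul _
    have hi2 : IntegrableOn (fun s : ℝ => t ^ (-(1 / 16) : ℝ) * s ^ (-(15 / 16) : ℝ))
        (Ioc 0 t) volume := (intervalIntegrable_iff_integrableOn_Ioc_of_le ht.le).1 hi
    rw [← ofReal_integral_eq_lintegral_ofReal hi2]
    · rw [← intervalIntegral.integral_of_le ht.le, intervalIntegral.integral_const_mul,
        integral_rpow (Or.inl (by norm_num)), Real.zero_rpow (by norm_num)]
      have h3 : t ^ (-(1 / 16) : ℝ) * ((t ^ (-(15 / 16) + 1 : ℝ) - 0) / (-(15 / 16) + 1)) = 16 := by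
        rw [sub_zero, ← mul_div_assoc, ← Real.rpow_add ht]
        norm_num
      rw [h3]
      norm_num
    · refine (ae_restrict_iff' measurableSet_Ioc).2 (Eventually.of_forall fun s hs => ?_)
      have := hs.1
      positivity
  have h2 : ∫⁻ s in Ioi t, ENNReal.ofReal (rho (t / s) ^ (-(1 / 16) : ℝ) / s) = 16 := by
    have e1 : ∀ s ∈ Ioi t, ENNReal.ofReal (rho (t / s) ^ (-(1 / 16) : ℝ) / s) =
        ENNReal.ofReal (t ^ (1 / 16 : ℝ) * s ^ (-(17 / 16) : ℝ)) := by
      intro s hs
      have hs0 : 0 < s := ht.trans hs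
      congr 1
      have hρ : rho (t / s) = s / t := by
        unfold rho
        have h1 : t / s ≤ 1 := (div_le_one hs0).2 (le_of_lt hs)
        rw [inv_div]
        exact max_eq_right (h1.trans ((one_le_div ht).2 (le_of_lt hs)))
      rw [hρ, Real.div_rpow hs0.le ht.le]
      have h2 : s ^ (-(17 / 16) : ℝ) = s ^ (-(1 / 16) : ℝ) * s⁻¹ := by
        rw [← Real.rpow_neg_one, ← Real.rpow_add hs0]
        norm_num
      have h3 : t ^ (1 / 16 : ℝ) = (t ^ (-(1 / 16) : ℝ))⁻¹ := by
        rw [← Real.rpow_neg ht.le, neg_neg]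
      rw [h2, h3]
      field_simp
    rw [setLIntegral_congr_fun measurableSet_Ioi e1]
    have hi2 : IntegrableOn (fun s : ℝ => t ^ (1 / 16 : ℝ) * s ^ (-(17 / 16) : ℝ))
        (Ioi t) volume := (integrableOn_Ioi_rpow_of_lt (by norm_num) ht).const_mul _
    rw [← ofReal_integral_eq_lintegral_ofReal hi2]
    · rw [integral_const_mul, integral_Ioi_rpow_of_lt (by norm_num) ht]
      have h3 : t ^ (1 / 16 : ℝ) * (-t ^ (-(17 / 16) + 1 : ℝ) / (-(17 / 16) + 1)) = 16 := by
        rw [← mul_div_assoc, mul_neg, ← Real.rpow_add ht]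
        norm_num
      rw [h3]
      norm_num
    · refine (ae_restrict_iff' measurableSet_Ioi).2 (Eventually.of_forall fun s hs => ?_)
      have : 0 < s := ht.trans hs
      positivity
  rw [h1, h2]
  norm_num

theorem main : S_ZI := by
  intro δ hδ hδ0
  have hm : Measurable fun z : ℝ × ℝ =>
      ENNReal.ofReal (δ z.2 * rho (z.2 / z.1) ^ (-(1 / 16) : ℝ) / z.1) := by
    refine ENNReal.measurable_ofReal.comp ?_
    refine Measurable.div (Measurable.mul (hδ.measurable.comp measurable_snd) ?_) measurable_fst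
    exact (measurable_rho.comp (measurable_snd.div measurable_fst)).pow_const _
  refine ⟨?_, ?_⟩
  · unfold Zs
    exact hm.lintegral_prod_right'
  · unfold Zs
    rw [lintegral_lintegral_swap hm.aemeasurable, ← lintegral_const_mul']
    · refine setLIntegral_congr_fun measurableSet_Ioi fun t ht => ?_
      calc ∫⁻ s in Ioi (0 : ℝ), ENNReal.ofReal (δ t * rho (t / s) ^ (-(1 / 16) : ℝ) / s) =
          ∫⁻ s in Ioi (0 : ℝ), ENNReal.ofReal (δ t) *
            ENNReal.ofReal (rho (t / s) ^ (-(1 / 16) : ℝ) / s) := by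
            refine lintegral_congr fun s => ?_
            rw [← ENNReal.ofReal_mul (hδ0 t), mul_div_assoc]
        _ = ENNReal.ofReal (δ t) * 32 := by
            rw [lintegral_const_mul' _ _ ENNReal.ofReal_ne_top, inner ht]
        _ = _ := mul_comm _ _
    · norm_num

end Pool.NH61.FS.Zi
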