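import Pool.Agent.NH61.FS.Fin
import Pool.Agent.NH61.FS.Chn
import Pool.Agent.NH61.FS.EE
import Pool.Agent.NH61.FS.Slk
import Pool.Agent.NH61.FS.Pt
import Pool.Agent.NH61.FS.EnvP
import Pool.Agent.NH61.FS.Dil
import Pool.Agent.NH61.FS.Zi
import Pool.Agent.NH61.FS.Crs
import Pool.Agent.NH61.FS.Ki
import Pool.Agent.NH61.FS.Kp1
import Pool.Agent.NH61.FS.Kp2
import Pool.Agent.NH61.FS.Rp1
import Pool.Agent.NH61.FS.Rp2
import Pool.Agent.NH61.FS.Rp0
import Pool.Agent.NH61.FS.Ang
import Pool.Agent.NH61.FS.Pol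
import Pool.Agent.NH61.FS.CC
import Pool.Agent.NH61.FS.Core

/-! # Project FS: assembly of the inequality for finitely many frequencies -/

set_option autoImplicit false

namespace Pool.NH61.FS.AllA

theorem cc : S_CC :=
  CC.main (EnvP.main Chn.main (Pt.main EE.e1 (Slk.main EE.e1 EE.e2))) Dil.main Zi.main Crs.main
    Ki.main

theorem fin : S_FIN :=
  Fin.main Rp0.main (Rp1.main Kp1.main) (Rp2.main Kp2.main) Ang.main Pol.main (Core.main cc)

end Pool.NH61.FS.AllA
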