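import Pool.Agent.NH61.FS.Def3

/-! # Project FS: S_APX -/

set_option autoImplicit false

open MeasureTheory Set Filter Topology
open scoped SchwartzMap ENNReal ContDiff

namespace Pool.NH61.FS.Apx

/-- finite sums of smooth functions of angular types -/
def Dec (P : ℂ → ℂ) : Prop := ∃ (n : ℕ) (κ : Fin n → ℤ) (h : Fin n → ℂ → ℂ),
  (∀ i, ContDiff ℝ ∞ (h i)) ∧ (∀ i, ∀ a z : ℂ, ‖a‖ = 1 → h i (a * z) = a ^ κ i * h i z) ∧
    ∀ z, P z = ∑ i, h i z

theorem dec_of {ι : Type} [Fintype ι] (κ : ι → ℤ) (h : ι → ℂ → ℂ)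
    (h1 : ∀ i, ContDiff ℝ ∞ (h i)) (h2 : ∀ i, ∀ a z : ℂ, ‖a‖ = 1 → h i (a * z) = a ^ κ i * h i z)
    (P : ℂ → ℂ) (h3 : ∀ z, P z = ∑ i, h i z) : Dec P := by
  let e := Fintype.equivFin ι
  refine ⟨Fintype.card ι, fun i => κ (e.symm i), fun i => h (e.symm i), fun i => h1 _,
    fun i => h2 _, fun z => ?_⟩
  rw [h3 z]
  exact (Equiv.sum_comp e.symm (fun i => h i z)).symm

theorem dec_add {P Q : ℂ → ℂ} (hP : Dec P) (hQ : Dec Q) : Dec (fun z => P z + Q z) := by
  obtain ⟨n, κ, h, a1, a2, a3⟩ := hP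
  obtain ⟨m, κ', h', b1, b2, b3⟩ := hQ
  refine dec_of (ι := Fin n ⊕ Fin m) (Sum.elim κ κ') (Sum.elim h h') ?_ ?_ _ ?_
  · rintro (i | i)
    · exact a1 i
    · exact b1 i
  · rintro (i | i)
    · exact a2 i
    · exact b2 i
  · intro z
    rw [a3, b3, Fintype.sum_sum_type]
    rfl

theorem dec_mul {P Q : ℂ → ℂ} (hP : Dec P) (hQ : Dec Q) : Dec (fun z => P z * Q z) := by
  obtain ⟨n, κ, h, a1, a2, a3⟩ := hP
  obtain ⟨m, κ', h', b1, b2, b3⟩ := hQ
  refine dec_of (ι := Fin n × Fin m) (fun i => κ i.1 + κ' i.2) (fun i z => h i.1 z * h' i.2 z)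
    ?_ ?_ _ ?_
  · exact fun i => (a1 i.1).mul (b1 i.2)
  · intro i a z ha
    have ha0 : a ≠ 0 := by
      rintro rfl
      simp at ha
    rw [a2 i.1 a z ha, b2 i.2 a z ha, zpow_add₀ ha0]
    ring
  · intro z
    rw [a3, b3, Finset.sum_mul_sum, Fintype.sum_prod_type]

theorem dec_star {P : ℂ → ℂ} (hP : Dec P) : Dec (fun z => (starRingEnd ℂ) (P z)) := by
  obtain ⟨n, κ, h, a1, a2, a3⟩ := hP
  refine dec_of (ι := Fin n) (fun i => - κ i) (fun i z => (starRingEnd ℂ) (h i z)) ?_ ?_ _ ?_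
  · intro i
    exact Complex.conjCLE.contDiff.comp (a1 i)
  · intro i a z ha
    rw [a2 i a z ha, map_mul, map_zpow₀, zpow_neg, ← inv_zpow]
    congr 2
    rw [Complex.inv_def, Complex.normSq_eq_norm_sq, ha]
    simp
  · intro z
    rw [a3, map_sum]

theorem dec_const (c : ℂ) : Dec (fun _ => c) :=
  dec_of (ι := Fin 1) (fun _ => 0) (fun _ _ => c) (fun _ => contDiff_const)
    (fun _ a z _ => by simp) _ (fun z => by simp)

theorem dec_id : Dec (fun z => z) :=
  dec_of (ι := Fin 1) (fun _ => 1) (fun _ z => z) (fun _ => contDiff_id)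
    (fun _ a z _ => by simp) _ (fun z => by simp)

/-- the star subalgebra of restrictions -/
def alg (K : Set ℂ) : StarSubalgebra ℂ C(K, ℂ) where
  carrier := {F | ∃ P, Dec P ∧ ∀ z : K, F z = P z}
  mul_mem' := by
    rintro F G ⟨P, hP, h1⟩ ⟨Q, hQ, h2⟩
    exact ⟨_, dec_mul hP hQ, fun z => by simp [h1, h2]⟩
  add_mem' := by
    rintro F G ⟨P, hP, h1⟩ ⟨Q, hQ, h2⟩
    exact ⟨_, dec_add hP hQ, fun z => by simp [h1, h2]⟩
  algebraMap_mem' := by
    intro r
    exact ⟨_, dec_const r, fun z => by simp⟩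
  star_mem' := by
    rintro F ⟨P, hP, h1⟩
    exact ⟨_, dec_star hP, fun z => by simp [h1]⟩

theorem alg_dense (K : Set ℂ) [CompactSpace K] (F : C(K, ℂ)) (ε : ℝ) (hε : 0 < ε) :
    ∃ P, Dec P ∧ ∀ z : K, ‖F z - P z‖ ≤ ε := by
  have hs : (alg K).SeparatesPoints := by
    intro x y hxy
    refine ⟨_, ⟨ContinuousMap.restrict K (ContinuousMap.id ℂ), ⟨_, dec_id, fun z => rfl⟩, rfl⟩, ?_⟩
    intro h
    exact hxy (Subtype.ext h)
  have h1 := ContinuousMap.starSubalgebra_topologicalClosure_eq_top_of_separatesPoints (alg K) hs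
  have h2 : F ∈ closure ((alg K : Set C(K, ℂ))) := by
    have : F ∈ (alg K).topologicalClosure := by rw [h1]; trivial
    exact this
  obtain ⟨G, ⟨P, hP, hG⟩, h3⟩ := Metric.mem_closure_iff.1 h2 ε hε
  refine ⟨P, hP, fun z => ?_⟩
  rw [← hG, ← dist_eq_norm]
  exact (ContinuousMap.dist_apply_le_dist z).trans h3.le

/-- the radial cut-off -/
noncomputable def cut (R : ℝ) (z : ℂ) : ℝ := Real.smoothTransition (2 - ‖z‖ ^ 2 / R ^ 2)

theorem cut_one {R : ℝ} (hR : 0 < R) {z : ℂ} (hz : ‖z‖ ≤ R) : cut R z = 1 := by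
  apply Real.smoothTransition.one_of_one_le
  have : ‖z‖ ^ 2 / R ^ 2 ≤ 1 := by
    rw [div_le_one (by positivity)]
    gcongr
  linarith

theorem cut_zero {R : ℝ} (hR : 0 < R) {z : ℂ} (hz : 2 * R ≤ ‖z‖) : cut R z = 0 := by
  apply Real.smoothTransition.zero_of_nonpos
  have : 2 ≤ ‖z‖ ^ 2 / R ^ 2 := by
    rw [le_div_iff₀ (by positivity)]
    nlinarith
  linarith

theorem cut_smooth (R : ℝ) : ContDiff ℝ ∞ (fun z => (cut R z : ℂ)) := by
  apply Complex.ofRealCLM.contDiff.comp
  apply Real.smoothTransition.contDiff.comp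
  exact contDiff_const.sub ((contDiff_norm_sq ℝ).div_const _)

theorem cut_supp {R : ℝ} (hR : 0 < R) (P : ℂ → ℂ) :
    HasCompactSupport (fun z => (cut R z : ℂ) * P z) := by
  apply HasCompactSupport.intro (isCompact_closedBall (0:ℂ) (2 * R))
  intro z hz
  rw [Metric.mem_closedBall, dist_zero_right, not_le] at hz
  rw [cut_zero hR hz.le]
  simp

theorem main : S_APX := by
  classical
  intro f p hp ε hε
  have hp0 : ENNReal.ofReal p ≠ ⊤ := ENNReal.ofReal_ne_top
  have hp1 : 1 ≤ ENNReal.ofReal p := by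
    rw [← ENNReal.ofReal_one]
    exact ENNReal.ofReal_le_ofReal (by linarith)
  obtain ⟨g, g1, g2, g3⟩ := MemLp.exist_eLpNorm_sub_le hp0 hp1
    (f.memLp (ENNReal.ofReal p) (volume : Measure ℂ)) (half_pos hε)
  obtain ⟨R0, hR0⟩ := g1.isCompact.isBounded.subset_closedBall (0:ℂ)
  set R : ℝ := max R0 1 with hRdef
  have hR : 0 < R := lt_of_lt_of_le one_pos (le_max_right _ _)
  have hsup : ∀ z, R < ‖z‖ → g z = 0 := by
    intro z hz
    by_contra hne
    have h1 : z ∈ Metric.closedBall (0:ℂ) R0 := hR0 (subset_tsupport g hne)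
    rw [Metric.mem_closedBall, dist_zero_right] at h1
    exact absurd (h1.trans (le_max_left _ _)) (not_le.2 hz)
  set K : Set ℂ := Metric.closedBall (0:ℂ) (2 * R) with hK
  have hKc : IsCompact K := isCompact_closedBall _ _
  have : CompactSpace K := isCompact_iff_compactSpace.1 hKc
  set m : ℝ := (volume K).toReal with hm
  have hm0 : 0 ≤ m := ENNReal.toReal_nonneg
  have hmK : volume K ≠ ⊤ := hKc.measure_lt_top.ne
  set δ : ℝ := (ε / 2) / (m ^ (1 / p) + 1) with hδ
  have hmp : 0 ≤ m ^ (1 / p) := Real.rpow_nonneg hm0 _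
  have hδ0 : 0 < δ := by positivity
  obtain ⟨P, ⟨n, κ, h, h1, h2, h3⟩, hP⟩ := alg_dense K
    (ContinuousMap.restrict K ⟨g, g2.continuous⟩) δ hδ0
  have key : eLpNorm (g - fun z => (cut R z : ℂ) * P z) (ENNReal.ofReal p)
      (volume : Measure ℂ) ≤ ENNReal.ofReal (ε / 2) := by
    refine (eLpNorm_sub_le_of_dist_bdd volume hp0 hKc.measurableSet hδ0.le ?_ ?_ ?_).trans ?_
    · intro z
      by_cases hz : z ∈ K
      · have e1 : g z = (cut R z : ℂ) * g z := by
          by_cases hzR : ‖z‖ ≤ R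
          · rw [cut_one hR hzR]; simp
          · rw [hsup z (not_le.1 hzR)]; simp
        rw [dist_eq_norm, e1, ← mul_sub, norm_mul]
        have e2 : ‖(cut R z : ℂ)‖ ≤ 1 := by
          have q0 : 0 ≤ cut R z := Real.smoothTransition.nonneg _
          have q1 : cut R z ≤ 1 := Real.smoothTransition.le_one _
          rw [Complex.norm_real, Real.norm_eq_abs, abs_of_nonneg q0]
          exact q1
        have e3 : ‖g z - P z‖ ≤ δ := hP ⟨z, hz⟩
        calc ‖(cut R z : ℂ)‖ * ‖g z - P z‖ ≤ 1 * δ := by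
              apply mul_le_mul e2 e3 (norm_nonneg _) zero_le_one
          _ = δ := one_mul _
      · rw [Metric.mem_closedBall, dist_zero_right, not_le] at hz
        rw [hsup z (by linarith), cut_zero hR hz.le]
        simpa using hδ0.le
    · intro z hz
      rw [Metric.mem_closedBall, dist_zero_right]
      by_contra hcon
      exact hz (hsup z (by linarith [not_le.1 hcon]))
    · intro z hz
      rw [Metric.mem_closedBall, dist_zero_right]
      by_contra hcon
      apply hz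
      simp only
      rw [cut_zero hR (not_le.1 hcon).le]
      simp
    · rw [ENNReal.toReal_ofReal (by linarith), ← ENNReal.ofReal_toReal hmK, ← hm,
        ENNReal.ofReal_rpow_of_nonneg hm0 (by positivity), ← ENNReal.ofReal_mul hδ0.le]
      apply ENNReal.ofReal_le_ofReal
      rw [hδ, div_mul_eq_mul_div, div_le_iff₀ (by positivity)]
      nlinarith
  let hh : ℤ → ℂ → ℂ := fun k z => ∑ i ∈ Finset.univ.filter (fun i => κ i = k), h i z
  have hhs : ∀ k, ContDiff ℝ ∞ (hh k) := fun k => ContDiff.sum fun i _ => h1 i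
  let G : ℤ → 𝓢(ℂ, ℂ) := fun k => (cut_supp hR (hh k)).toSchwartzMap
    ((cut_smooth R).mul (hhs k))
  have hG : ∀ k z, G k z = (cut R z : ℂ) * hh k z := fun k z => rfl
  refine ⟨Finset.univ.image κ, G, ?_, ?_⟩
  · intro k a z ha
    rw [hG, hG]
    have e1 : cut R (a * z) = cut R z := by
      unfold cut
      rw [norm_mul, ha, one_mul]
    have e2 : hh k (a * z) = a ^ k * hh k z := by
      simp only [hh]
      rw [Finset.mul_sum]
      apply Finset.sum_congr rfl
      intro i hi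
      rw [h2 i a z ha, (Finset.mem_filter.1 hi).2]
    rw [e1, e2]
    ring
  · have e0 : ((f - ∑ k ∈ Finset.univ.image κ, G k : 𝓢(ℂ, ℂ)) : ℂ → ℂ) =
        ((f : ℂ → ℂ) - g) + (g - fun z => (cut R z : ℂ) * P z) := by
      funext z
      have e1 : (∑ k ∈ Finset.univ.image κ, G k : 𝓢(ℂ, ℂ)) z = (cut R z : ℂ) * P z := by
        rw [_root_.sum_apply]
        simp only [hG]
        rw [← Finset.mul_sum, h3 z]
        congr 1
        exact Finset.sum_fiberwise_of_maps_to (fun i _ => Finset.mem_image_of_mem κ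
          (Finset.mem_univ i)) (fun i => h i z)
      simp [e1]
    rw [e0]
    refine (eLpNorm_add_le ?_ ?_ hp1).trans ?_
    · exact (f.continuous.sub g2.continuous).aestronglyMeasurable
    · have hPc : Continuous P := by
        have : P = fun z => ∑ i, h i z := funext h3
        rw [this]
        exact continuous_finsetSum _ fun i _ => (h1 i).continuous
      exact (g2.continuous.sub ((cut_smooth R).continuous.mul hPc)).aestronglyMeasurable
    · calc _ ≤ ENNReal.ofReal (ε / 2) + ENNReal.ofReal (ε / 2) := add_le_add g3 key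
        _ = ENNReal.ofReal ε := by
          rw [← ENNReal.ofReal_add (by linarith) (by linarith), add_halves]

end Pool.NH61.FS.Apx
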