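import Pool.Agent.NH61.FS.Def2
import Pool.Agent.NH61.FS.Core

/-! # Project FS: the square function inequality -/

set_option autoImplicit false

open MeasureTheory Set Filter Topology
open scoped SchwartzMap ENNReal

namespace Pool.NH61.FS.CrMix

open Pool.Agent.Y282.RB (Tn Cn kk th KK)
open Pool.NH61.FS.Core (K_ge pt_d rhs_ge four_rpow_ge)

lemma pt_b (u V R r s : ℝ) (hu : 0 ≤ u) (hV : 0 ≤ V) (hR : 0 < R) (hr : 0 < r) (hs : 0 ≤ s)
    (hsr : s ≤ r) :
    (u + V) ^ s ≤ Real.exp R * u ^ s + ((1 + r / R) * V) ^ s := by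
  rcases le_or_gt V (R / r * u) with h | h
  · have h1 : (u + V) ^ s ≤ ((1 + R / r) * u) ^ s :=
      Real.rpow_le_rpow (by linarith) (by nlinarith) (by linarith)
    rw [Real.mul_rpow (by positivity) hu] at h1
    have h2 : (1 + R / r) ^ s ≤ Real.exp R := by
      calc (1 + R / r) ^ s ≤ (Real.exp (R / r)) ^ s :=
            Real.rpow_le_rpow (by positivity) (by linarith [Real.add_one_le_exp (R / r)])
              (by linarith)
        _ = Real.exp (R / r * s) := by rw [← Real.exp_mul]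
        _ ≤ Real.exp R := by
            apply Real.exp_le_exp.mpr
            rw [div_mul_eq_mul_div, div_le_iff₀ hr]; nlinarith
    have h3 : 0 ≤ u ^ s := Real.rpow_nonneg hu _
    have h4 : 0 ≤ ((1 + r / R) * V) ^ s := Real.rpow_nonneg (by positivity) _
    nlinarith [mul_le_mul_of_nonneg_right h2 h3]
  · have h1 : u ≤ r / R * V := by
      have : R * u < V * r := by
        rw [div_mul_eq_mul_div, div_lt_iff₀ hr] at h; exact h
      rw [div_mul_eq_mul_div, le_div_iff₀ hR]; nlinarith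
    have h2 : (u + V) ^ s ≤ ((1 + r / R) * V) ^ s :=
      Real.rpow_le_rpow (by linarith) (by nlinarith) (by linarith)
    have h3 : 0 ≤ Real.exp R * u ^ s := by positivity
    linarith

/-- tangent line at `x + z` -/
lemma pt_t (x z r : ℝ) (hx : 0 ≤ x) (hz : 0 ≤ z) (hr : 1 < r) :
    (x + z) ^ r ≤ x ^ r + r * (z * (x + z) ^ (r - 1)) := by
  rcases eq_or_lt_of_le (add_nonneg hx hz) with h | h
  · have hx' : x = 0 := by linarith
    have hz' : z = 0 := by linarith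
    subst hx' hz'
    simp
  · have h3 := one_add_mul_self_le_rpow_one_add (s := -(z / (x + z))) (by
      have : z / (x + z) ≤ 1 := by rw [div_le_one h]; linarith
      linarith) hr.le
    have h4 : x = (x + z) * (1 + -(z / (x + z))) := by field_simp; ring
    have h5 : x ^ r = (x + z) ^ r * (1 + -(z / (x + z))) ^ r := by
      rw [← Real.mul_rpow h.le]
      · rw [← h4]
      · have : z / (x + z) ≤ 1 := by rw [div_le_one h]; linarith
        linarith
    have h6 : (x + z) ^ r * (1 + r * -(z / (x + z))) ≤ x ^ r := by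
      rw [h5]; exact mul_le_mul_of_nonneg_left h3 (by positivity)
    have h7 : (x + z) ^ r * (1 + r * -(z / (x + z))) =
        (x + z) ^ r - r * (z * (x + z) ^ (r - 1)) := by
      rw [Real.rpow_sub h, Real.rpow_one]
      field_simp
      ring
    rw [h7] at h6
    linarith

lemma ptT (u W ρ p : ℝ) (hu : 0 ≤ u) (hW : 0 ≤ W) (hρ : 0 < ρ) (hp : 4 ≤ p) :
    (u ^ 2 + W) ^ (p / 2) ≤ u ^ p + p / 2 * Real.exp ρ * (u ^ (p - 2) * W) +
      p / 2 * (1 + p / 2 / ρ) ^ (p / 2) * W ^ (p / 2) := by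
  have h1 := pt_t (u ^ 2) W (p / 2) (sq_nonneg _) hW (by linarith)
  have h2 := pt_b (u ^ 2) W ρ (p / 2) (p / 2 - 1) (sq_nonneg _) hW hρ (by linarith) (by linarith)
    (by linarith)
  have e1 : (u ^ 2) ^ (p / 2) = u ^ p := by
    rw [← Real.rpow_natCast, ← Real.rpow_mul hu]; congr 1; push_cast; ring
  have e2 : (u ^ 2) ^ (p / 2 - 1) = u ^ (p - 2) := by
    rw [← Real.rpow_natCast, ← Real.rpow_mul hu]; congr 1; push_cast; ring
  rw [e1] at h1
  rw [e2] at h2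
  have hpρ : 1 ≤ 1 + p / 2 / ρ := by
    have : 0 < p / 2 / ρ := by positivity
    linarith
  have h3 : W * ((1 + p / 2 / ρ) * W) ^ (p / 2 - 1) ≤ (1 + p / 2 / ρ) ^ (p / 2) * W ^ (p / 2) := by
    rw [Real.mul_rpow (by positivity) hW]
    have h6 : W * W ^ (p / 2 - 1) = W ^ (p / 2) := by
      rcases eq_or_lt_of_le hW with h | h
      · rw [← h, Real.zero_rpow (show p / 2 ≠ 0 by intro h'; linarith)]; simp
      · rw [Real.rpow_sub h, Real.rpow_one]; field_simp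
    have h9 : (1 + p / 2 / ρ) ^ (p / 2 - 1) ≤ (1 + p / 2 / ρ) ^ (p / 2) :=
      Real.rpow_le_rpow_of_exponent_le hpρ (by linarith)
    calc W * ((1 + p / 2 / ρ) ^ (p / 2 - 1) * W ^ (p / 2 - 1))
        = (1 + p / 2 / ρ) ^ (p / 2 - 1) * (W * W ^ (p / 2 - 1)) := by ring
      _ = (1 + p / 2 / ρ) ^ (p / 2 - 1) * W ^ (p / 2) := by rw [h6]
      _ ≤ _ := mul_le_mul_of_nonneg_right h9 (by positivity)
  have h4 : W * (u ^ 2 + W) ^ (p / 2 - 1) ≤ Real.exp ρ * (u ^ (p - 2) * W) +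
      (1 + p / 2 / ρ) ^ (p / 2) * W ^ (p / 2) := by
    have := mul_le_mul_of_nonneg_left h2 hW
    calc _ ≤ _ := this
      _ = Real.exp ρ * (u ^ (p - 2) * W) + W * ((1 + p / 2 / ρ) * W) ^ (p / 2 - 1) := by ring
      _ ≤ _ := by linarith
  have h5 := mul_le_mul_of_nonneg_left h4 (show 0 ≤ p / 2 by linarith)
  calc _ ≤ _ := h1
    _ ≤ u ^ p + p / 2 * (Real.exp ρ * (u ^ (p - 2) * W) +
      (1 + p / 2 / ρ) ^ (p / 2) * W ^ (p / 2)) := by linarith
    _ = _ := by ring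

lemma num (p K E D M C3 ρ : ℝ) (hp16 : 16 ≤ p) (hK : p / 2 ≤ K) (hE : 1 ≤ E) (hD : 1 ≤ D)
    (_hM : 1 ≤ M) (hC3 : 1 ≤ C3) (hρ : ρ = 16 * C3)
    (h1 : 32 * C3 ≤ p) (h2 : 8 * E * M ≤ p) (h3 : 512 * E * D * C3 ≤ p) :
    (p / 2 * E) * (M * K ^ (p - 2)) ≤ p / 4 * K ^ p ∧
    (p / 2 * E) * (D * (64 * C3 / p) ^ (-((p - 2) / 2)) * (1 + (C3 * p) ^ (p / 2))) ≤ K ^ p / 8 ∧
    p / 2 * (1 + p / 2 / ρ) ^ (p / 2) * (C3 * p) ^ (p / 2) ≤ K ^ p / 8 := by
  have hp0 : 0 < p := by linarith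
  have hK0 : 0 < K := by linarith
  have h4 := four_rpow_ge p (by linarith)
  have hKp : (p / 2) ^ p ≤ K ^ p := Real.rpow_le_rpow (by positivity) hK hp0.le
  have h8 : (4 : ℝ) ^ p * (p / 8) ^ p = (p / 2) ^ p := by
    rw [← Real.mul_rpow (by norm_num) (by positivity)]; congr 1; ring
  have h24 : 4 * p ≤ (2 : ℝ) ^ p := by
    have h7 := one_add_mul_self_le_rpow_one_add (s := 1) (by norm_num) (p := p - 3) (by linarith)
    norm_num at h7
    have e2 : (2 : ℝ) ^ p = 8 * 2 ^ (p - 3) := by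
      rw [Real.rpow_sub (by norm_num)]
      norm_num
      ring
    rw [e2]
    linarith
  refine ⟨?_, ?_, ?_⟩
  · have e : K ^ p = K ^ (p - 2) * K ^ 2 := by
      rw [← Real.rpow_natCast, ← Real.rpow_add hK0]; congr 1; push_cast; ring
    rw [e]
    have h5 : p / 2 * E * M ≤ p / 4 * K ^ 2 := by
      have : p ^ 2 / 4 ≤ K ^ 2 := by nlinarith
      nlinarith [mul_le_mul_of_nonneg_left this hp0.le, mul_le_mul_of_nonneg_left h2 hp0.le,
        mul_pos hp0 hp0]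
    have h6 : 0 ≤ K ^ (p - 2) := by positivity
    nlinarith [mul_le_mul_of_nonneg_right h5 h6]
  · have e1 : (64 * C3 / p) ^ (-((p - 2) / 2)) * (C3 * p) ^ (p / 2) =
        64 * C3 / p * (p / 8) ^ p := by
      have : (64 * C3 / p) ^ (-((p - 2) / 2)) = (64 * C3 / p) * ((p / (64 * C3)) ^ (p / 2)) := by
        have e : -((p - 2) / 2) = 1 + -(p / 2) := by ring
        rw [e, Real.rpow_add (by positivity), Real.rpow_one, Real.rpow_neg (by positivity),
          ← Real.inv_rpow (by positivity), inv_div]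
      rw [this, mul_assoc, ← Real.mul_rpow (by positivity) (by positivity)]
      congr 1
      have : p / (64 * C3) * (C3 * p) = (p / 8) ^ (2 : ℝ) := by
        norm_num
        field_simp
        norm_num
      rw [this, ← Real.rpow_mul (by positivity)]
      congr 1; ring
    have h5 : 1 + (C3 * p) ^ (p / 2) ≤ 2 * (C3 * p) ^ (p / 2) := by
      have : 1 ≤ (C3 * p) ^ (p / 2) := Real.one_le_rpow (by nlinarith) (by linarith)
      linarith
    calc (p / 2 * E) * (D * (64 * C3 / p) ^ (-((p - 2) / 2)) * (1 + (C3 * p) ^ (p / 2)))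
        ≤ (p / 2 * E) * (D * (64 * C3 / p) ^ (-((p - 2) / 2)) * (2 * (C3 * p) ^ (p / 2))) := by
          gcongr
      _ = p * E * D * ((64 * C3 / p) ^ (-((p - 2) / 2)) * (C3 * p) ^ (p / 2)) := by ring
      _ = 64 * E * D * C3 * (p / 8) ^ p := by rw [e1]; field_simp
      _ ≤ (4 : ℝ) ^ p / 8 * (p / 8) ^ p := by
          apply mul_le_mul_of_nonneg_right _ (by positivity)
          nlinarith
      _ = (p / 2) ^ p / 8 := by rw [← h8]; ring
      _ ≤ K ^ p / 8 := by linarith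
  · have e1 : (1 + p / 2 / ρ) ^ (p / 2) * (C3 * p) ^ (p / 2) ≤ (p / 4) ^ p := by
      have hρ0 : 0 < ρ := by rw [hρ]; positivity
      rw [← Real.mul_rpow (by positivity) (by positivity)]
      have e2 : (p / 4) ^ p = ((p / 4) ^ (2 : ℝ)) ^ (p / 2) := by
        rw [← Real.rpow_mul (by positivity)]; congr 1; ring
      rw [e2]
      apply Real.rpow_le_rpow (by positivity) _ (by linarith)
      rw [hρ]
      have h6 : (1 + p / 2 / (16 * C3)) * (C3 * p) = C3 * p + p ^ 2 / 32 := by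
        field_simp
        ring
      rw [h6]
      norm_num
      nlinarith
    have e3 : (2 : ℝ) ^ p * (p / 4) ^ p = (p / 2) ^ p := by
      rw [← Real.mul_rpow (by norm_num) (by positivity)]; congr 1; ring
    calc p / 2 * (1 + p / 2 / ρ) ^ (p / 2) * (C3 * p) ^ (p / 2)
        = p / 2 * ((1 + p / 2 / ρ) ^ (p / 2) * (C3 * p) ^ (p / 2)) := by ring
      _ ≤ p / 2 * (p / 4) ^ p := mul_le_mul_of_nonneg_left e1 (by positivity)
      _ ≤ (2 : ℝ) ^ p / 8 * (p / 4) ^ p := by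
          apply mul_le_mul_of_nonneg_right _ (by positivity)
          linarith
      _ = (p / 2) ^ p / 8 := by rw [← e3]; ring
      _ ≤ K ^ p / 8 := by linarith

lemma assemble (ι : Type) [Fintype ι] (μ : Measure ℝ) (u f : ℝ → ℝ) (a v : ι → ℝ → ℝ)
    (hu : Measurable u) (hf : Measurable f) (hu0 : ∀ t, 0 ≤ u t) (hf0 : ∀ t, 0 ≤ f t)
    (ham : ∀ i, Measurable (a i)) (hvm : ∀ i, Measurable (v i))
    (K p E D M C3 ρ I η ε : ℝ) (hp : 16 ≤ p) (hK : 0 < K) (hE : 0 < E)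
    (hEd : E = Real.exp ρ) (hD : 0 < D) (hC3 : 0 < C3)
    (hρ0 : 0 < ρ) (hη : 0 < η) (hηε : p / 2 * E * (ε * η) = 1)
    (n1 : (p / 2 * E) * (M * K ^ (p - 2)) ≤ p / 4 * K ^ p)
    (n2 : (p / 2 * E) * (D * η ^ (-((p - 2) / 2)) * (1 + (C3 * p) ^ (p / 2))) ≤ K ^ p / 8)
    (n3 : p / 2 * (1 + p / 2 / ρ) ^ (p / 2) * (C3 * p) ^ (p / 2) ≤ K ^ p / 8)
    (hIe : ∫⁻ t, ENNReal.ofReal (u t ^ p) ∂μ + ENNReal.ofReal I =
      ENNReal.ofReal (K ^ p) * ∫⁻ t, ENNReal.ofReal (f t ^ p) ∂μ)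
    (hcc : ∫⁻ t, ENNReal.ofReal (u t ^ (p - 2) * ∑ i, v i t ^ 2) ∂μ ≤
      ENNReal.ofReal (M * K ^ (p - 2)) *
        ∫⁻ t, ENNReal.ofReal (f t ^ (p - 2) * ∑ i, a i t ^ 2) ∂μ +
      ENNReal.ofReal (ε * η * I) +
      ENNReal.ofReal (D * η ^ (-((p - 2) / 2))) *
        (∫⁻ t, ENNReal.ofReal ((∑ i, a i t ^ 2) ^ (p / 2)) ∂μ +
          ∫⁻ t, ENNReal.ofReal ((∑ i, v i t ^ 2) ^ (p / 2)) ∂μ))
    (hW : ∫⁻ t, ENNReal.ofReal ((∑ i, v i t ^ 2) ^ (p / 2)) ∂μ ≤
      ENNReal.ofReal ((C3 * p) ^ (p / 2)) *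
        ∫⁻ t, ENNReal.ofReal ((∑ i, a i t ^ 2) ^ (p / 2)) ∂μ) :
    ∫⁻ t, ENNReal.ofReal ((u t ^ 2 + ∑ i, v i t ^ 2) ^ (p / 2)) ∂μ ≤
    ENNReal.ofReal (K ^ p) *
      ∫⁻ t, ENNReal.ofReal ((f t ^ 2 + ∑ i, a i t ^ 2) ^ (p / 2)) ∂μ := by
  have hmW : Measurable fun t => ENNReal.ofReal (u t ^ (p - 2) * ∑ i, v i t ^ 2) :=
    ((hu.pow_const _).mul (Finset.measurable_sum _ fun i _ => (hvm i).pow_const 2)).ennreal_ofReal
  have hmu : Measurable fun t => ENNReal.ofReal (u t ^ p) := (hu.pow_const _).ennreal_ofReal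
  have hmuW : Measurable fun t => ENNReal.ofReal (u t ^ p) +
      ENNReal.ofReal (p / 2 * E) * ENNReal.ofReal (u t ^ (p - 2) * ∑ i, v i t ^ 2) :=
    hmu.add (hmW.const_mul _)
  -- the left side
  have hT : ∫⁻ t, ENNReal.ofReal ((u t ^ 2 + ∑ i, v i t ^ 2) ^ (p / 2)) ∂μ ≤
      ∫⁻ t, ENNReal.ofReal (u t ^ p) ∂μ + ENNReal.ofReal (p / 2 * E) *
        ∫⁻ t, ENNReal.ofReal (u t ^ (p - 2) * ∑ i, v i t ^ 2) ∂μ +
      ENNReal.ofReal (p / 2 * (1 + p / 2 / ρ) ^ (p / 2)) *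
        ∫⁻ t, ENNReal.ofReal ((∑ i, v i t ^ 2) ^ (p / 2)) ∂μ := by
    rw [← lintegral_const_mul' _ _ ENNReal.ofReal_ne_top,
      ← lintegral_const_mul' _ _ ENNReal.ofReal_ne_top,
      ← lintegral_add_left hmu, ← lintegral_add_left hmuW]
    apply lintegral_mono
    intro t
    show ENNReal.ofReal _ ≤ ENNReal.ofReal _ + ENNReal.ofReal _ * ENNReal.ofReal _ +
      ENNReal.ofReal _ * ENNReal.ofReal _
    have hu0' := hu0 t
    have hWn : 0 ≤ ∑ i, v i t ^ 2 := Finset.sum_nonneg fun i _ => sq_nonneg _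
    rw [← ENNReal.ofReal_mul (by positivity), ← ENNReal.ofReal_mul (by positivity),
      ← ENNReal.ofReal_add (by positivity) (by positivity),
      ← ENNReal.ofReal_add (by positivity) (by positivity)]
    apply ENNReal.ofReal_le_ofReal
    rw [hEd]
    exact ptT (u t) (∑ i, v i t ^ 2) ρ p (hu0 t) hWn hρ0 (by linarith)
  -- the right side
  have hd := rhs_ge ι μ f a hf hf0 ham K p hp hK
  refine le_trans ?_ hd
  set U := ∫⁻ t, ENNReal.ofReal (u t ^ p) ∂μ
  set X := ∫⁻ t, ENNReal.ofReal (f t ^ (p - 2) * ∑ i, a i t ^ 2) ∂μ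
  set Ap := ∫⁻ t, ENNReal.ofReal ((∑ i, a i t ^ 2) ^ (p / 2)) ∂μ
  set Wp := ∫⁻ t, ENNReal.ofReal ((∑ i, v i t ^ 2) ^ (p / 2)) ∂μ
  set J := ∫⁻ t, ENNReal.ofReal (u t ^ (p - 2) * ∑ i, v i t ^ 2) ∂μ
  rw [← hIe]
  have hGp0 : 0 ≤ (C3 * p) ^ (p / 2) := by positivity
  have hAW : Ap + Wp ≤ ENNReal.ofReal (1 + (C3 * p) ^ (p / 2)) * Ap := by
    rw [ENNReal.ofReal_add zero_le_one hGp0, add_mul, ENNReal.ofReal_one, one_mul]
    exact add_le_add le_rfl hW
  calc ∫⁻ t, ENNReal.ofReal ((u t ^ 2 + ∑ i, v i t ^ 2) ^ (p / 2)) ∂μ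
      ≤ U + ENNReal.ofReal (p / 2 * E) *
        (ENNReal.ofReal (M * K ^ (p - 2)) * X + ENNReal.ofReal (ε * η * I) +
          ENNReal.ofReal (D * η ^ (-((p - 2) / 2))) *
            (ENNReal.ofReal (1 + (C3 * p) ^ (p / 2)) * Ap)) +
        ENNReal.ofReal (p / 2 * (1 + p / 2 / ρ) ^ (p / 2)) *
          (ENNReal.ofReal ((C3 * p) ^ (p / 2)) * Ap) := by
        refine hT.trans (add_le_add (add_le_add le_rfl (mul_le_mul' le_rfl (hcc.trans ?_)))
          (mul_le_mul' le_rfl hW))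
        exact add_le_add le_rfl (mul_le_mul' le_rfl hAW)
    _ = U + (ENNReal.ofReal ((p / 2 * E) * (M * K ^ (p - 2))) * X + ENNReal.ofReal I +
        ENNReal.ofReal ((p / 2 * E) * (D * η ^ (-((p - 2) / 2)) * (1 + (C3 * p) ^ (p / 2)))) * Ap +
        ENNReal.ofReal (p / 2 * (1 + p / 2 / ρ) ^ (p / 2) * (C3 * p) ^ (p / 2)) * Ap) := by
        have e1 : ENNReal.ofReal ((p / 2 * E) * (M * K ^ (p - 2))) =
            ENNReal.ofReal (p / 2 * E) * ENNReal.ofReal (M * K ^ (p - 2)) :=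
          ENNReal.ofReal_mul (by positivity)
        have e2 : ENNReal.ofReal I = ENNReal.ofReal (p / 2 * E) * ENNReal.ofReal (ε * η * I) := by
          rw [← ENNReal.ofReal_mul (by positivity)]
          congr 1
          calc I = 1 * I := by ring
            _ = (p / 2 * E * (ε * η)) * I := by rw [hηε]
            _ = _ := by ring
        have e3 : ENNReal.ofReal ((p / 2 * E) *
            (D * η ^ (-((p - 2) / 2)) * (1 + (C3 * p) ^ (p / 2)))) =
            ENNReal.ofReal (p / 2 * E) * (ENNReal.ofReal (D * η ^ (-((p - 2) / 2))) *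
              ENNReal.ofReal (1 + (C3 * p) ^ (p / 2))) := by
          rw [ENNReal.ofReal_mul (p := p / 2 * E) (by positivity),
            ENNReal.ofReal_mul (p := D * η ^ (-((p - 2) / 2))) (by positivity)]
        have e4 : ENNReal.ofReal (p / 2 * (1 + p / 2 / ρ) ^ (p / 2) * (C3 * p) ^ (p / 2)) =
            ENNReal.ofReal (p / 2 * (1 + p / 2 / ρ) ^ (p / 2)) *
              ENNReal.ofReal ((C3 * p) ^ (p / 2)) := by
          rw [ENNReal.ofReal_mul (p := p / 2 * (1 + p / 2 / ρ) ^ (p / 2)) (by positivity)]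
        rw [e1, e2, e3, e4]
        ring
    _ ≤ U + (ENNReal.ofReal (p / 4 * K ^ p) * X + ENNReal.ofReal I +
        ENNReal.ofReal (K ^ p / 8) * Ap + ENNReal.ofReal (K ^ p / 8) * Ap) := by
        gcongr
    _ = (U + ENNReal.ofReal I) + ENNReal.ofReal (p / 4 * K ^ p) * X +
        ENNReal.ofReal (K ^ p / 4) * Ap := by
        have e5 : ENNReal.ofReal (K ^ p / 4) =
            ENNReal.ofReal (K ^ p / 8) + ENNReal.ofReal (K ^ p / 8) := by
          rw [← ENNReal.ofReal_add (by positivity) (by positivity)]; congr 1; ring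
        rw [e5]
        ring

theorem main (h1 : S_CC) : S_COREM := by
  intro n B C3 hn hB hC3
  obtain ⟨D, hD, hcc⟩ := h1 n B hn hB
  set ρ : ℝ := 16 * C3 with hρ
  have hρ0 : 0 < ρ := by rw [hρ]; positivity
  set E : ℝ := Real.exp ρ with hE
  have hE1 : 1 ≤ E := by rw [hE]; exact Real.one_le_exp hρ0.le
  have hε0 : 0 < 1 / (32 * E * C3) := by positivity
  have hε1 : 1 / (32 * E * C3) ≤ 1 := by
    rw [div_le_one (by positivity)]
    nlinarith [mul_le_mul hE1 hC3 zero_le_one (by linarith)]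
  obtain ⟨M, p1, hM, hp1, hcc2⟩ := hcc _ hε0 hε1
  refine ⟨max p1 (max (32 * C3) (max (8 * E * M) (512 * E * D * C3))),
    hp1.trans (le_max_left _ _), ?_⟩
  intro p hp ι _ h hh hhR a β v hac ha0 has hβ hvm hv0 hva hvp
  have hpp1 : p1 ≤ p := (le_max_left _ _).trans hp
  have hpa : 32 * C3 ≤ p := ((le_max_left _ _).trans (le_max_right _ _)).trans hp
  have hpb : 8 * E * M ≤ p :=
    (((le_max_left _ _).trans (le_max_right _ _)).trans (le_max_right _ _)).trans hp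
  have hpc : 512 * E * D * C3 ≤ p :=
    (((le_max_right _ _).trans (le_max_right _ _)).trans (le_max_right _ _)).trans hp
  have hp16 : 16 ≤ p := hp1.trans hpp1
  have hp0 : 0 < p := by linarith
  obtain ⟨I, hI, hIe, hcc3⟩ := hcc2 p hpp1 h hh hhR
  have hcc4 := hcc3 ι a β v hac ha0 has hβ hvm hv0 hva (64 * C3 / p) (by positivity)
  have hK := K_ge p n hn (by linarith)
  obtain ⟨n1, n2, n3⟩ := num p (Cn p n) E D M C3 ρ hp16 hK hE1 hD hM hC3 hρ hpa hpb hpc
  -- continuity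
  have hu_c : Continuous fun t : ℝ =>
      ‖iteratedDeriv n (fun x : ℝ => (x : ℂ) ^ n * h x) t‖ := by
    have hc : ContDiff ℝ (⊤ : ℕ∞) (fun x : ℝ => (x : ℂ) ^ n * h x) :=
      (Complex.ofRealCLM.contDiff.pow n).mul hh
    exact (hc.continuous_iteratedDeriv n (by exact_mod_cast le_top)).norm
  have hf_c : Continuous fun t : ℝ => ‖(t : ℂ) ^ n * iteratedDeriv n h t‖ :=
    (((Complex.continuous_ofReal).pow n).mul
      (hh.continuous_iteratedDeriv n (by exact_mod_cast le_top))).norm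
  have hηε : p / 2 * E * (1 / (32 * E * C3) * (64 * C3 / p)) = 1 := by
    field_simp
    norm_num
  exact assemble ι (volume.restrict (Ioi (0 : ℝ)))
    (fun t => ‖iteratedDeriv n (fun x : ℝ => (x : ℂ) ^ n * h x) t‖)
    (fun t => ‖(t : ℂ) ^ n * iteratedDeriv n h t‖) a v hu_c.measurable hf_c.measurable
    (fun t => norm_nonneg _) (fun t => norm_nonneg _) (fun i => (hac i).measurable) hvm
    (Cn p n) p E D M C3 ρ I (64 * C3 / p) (1 / (32 * E * C3)) hp16 (by linarith) (by linarith) hE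
    (by linarith) (by linarith) hρ0 (by positivity) hηε n1 n2 n3 hIe hcc4 hvp

end Pool.NH61.FS.CrMix
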