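import Pool.Agent.NH61.FS.Def2

/-! # Project FS: domination of the kernels -/

set_option autoImplicit false

open MeasureTheory Set Filter Topology
open scoped SchwartzMap ENNReal

namespace Pool.NH61.FS.Dom

/-- the integral over an interval is at most its length times the maximal function -/
theorem int_le_HLM (w : ℝ → ℝ≥0∞) (s r : ℝ) (hr : 0 < r) :
    ∫⁻ t in Ioo (s - r) (s + r), w t ≤ ENNReal.ofReal (2 * r) * HLM w s := by
  have h1 : (ENNReal.ofReal (2 * r))⁻¹ * ∫⁻ t in Ioo (s - r) (s + r), w t ≤ HLM w s :=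
    le_iSup (fun r : {r : ℝ // 0 < r} =>
      (ENNReal.ofReal (2 * r.1))⁻¹ * ∫⁻ t in Ioo (s - r.1) (s + r.1), w t) ⟨r, hr⟩
  have h2 : ENNReal.ofReal (2 * r) ≠ 0 := by
    rw [ne_eq, ENNReal.ofReal_eq_zero, not_le]; linarith
  have h3 : ENNReal.ofReal (2 * r) ≠ ⊤ := ENNReal.ofReal_ne_top
  calc ∫⁻ t in Ioo (s - r) (s + r), w t
      = ENNReal.ofReal (2 * r) *
          ((ENNReal.ofReal (2 * r))⁻¹ * ∫⁻ t in Ioo (s - r) (s + r), w t) := by
        rw [← mul_assoc, ENNReal.mul_inv_cancel h2 h3, one_mul]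
    _ ≤ _ := by gcongr

/-- the kernel -/
noncomputable def phi (m s D : ℝ) : ℝ := m * s / (s + m * D) ^ 2

theorem phi_nonneg {m s D : ℝ} (hm : 0 ≤ m) (hs : 0 ≤ s) : 0 ≤ phi m s D := by
  unfold phi; positivity

theorem phi_meas (m s : ℝ) : Measurable (fun t => phi m s |s - t|) := by
  unfold phi; fun_prop

/-- the level sets of the kernel -/
theorem phi_set {m s l : ℝ} (hm : 0 < m) (hs : 0 < s) (hl : 0 < l) :
    {t : ℝ | l < phi m s |s - t|} =
      Ioo (s - (√(m * s / l) - s) / m) (s + (√(m * s / l) - s) / m) := by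
  ext t
  have h0 : 0 ≤ |s - t| := abs_nonneg _
  have h1 : 0 < s + m * |s - t| := by positivity
  rw [mem_ofPred_eq, phi, lt_div_iff₀ (by positivity), mem_Ioo]
  have h2 : l * (s + m * |s - t|) ^ 2 < m * s ↔ (s + m * |s - t|) ^ 2 < m * s / l := by
    rw [lt_div_iff₀ hl, mul_comm]
  rw [h2, ← Real.lt_sqrt h1.le]
  have h3 : s + m * |s - t| < √(m * s / l) ↔ |s - t| < (√(m * s / l) - s) / m := by
    rw [lt_div_iff₀ hm]
    constructor <;> intro h <;> linarith
  rw [h3, abs_lt]
  constructor <;> rintro ⟨h4, h5⟩ <;> constructor <;> linarith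

/-- the integral of the kernel on the half line -/
theorem phi_int_Ioi {m s : ℝ} (hm : 0 < m) (hs : 0 < s) :
    ∫⁻ x in Ioi (0 : ℝ), ENNReal.ofReal (phi m s x) = 1 := by
  have hd : ∀ x ∈ Ici (0 : ℝ), HasDerivAt (fun x => -(s / (s + m * x))) (phi m s x) x := by
    intro x hx
    have hx0 : 0 < s + m * x := by
      have : (0 : ℝ) ≤ x := hx
      positivity
    have h1 : HasDerivAt (fun x => s + m * x) m x := by
      simpa using ((hasDerivAt_id x).const_mul m).const_add s
    have h2 := ((h1.inv hx0.ne').const_mul s).neg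
    have he : (fun x => -(s / (s + m * x))) = fun x => -(s * (s + m * x)⁻¹) := by
      funext x; rw [div_eq_mul_inv]
    rw [he]
    exact h2.congr_deriv (by unfold phi; field_simp)
  have ht : Tendsto (fun x => -(s / (s + m * x))) atTop (𝓝 0) := by
    have h1 : Tendsto (fun x => s + m * x) atTop atTop :=
      tendsto_atTop_add_const_left _ _ (tendsto_id.const_mul_atTop hm)
    have h2 := (h1.const_div_atTop s).neg
    simpa using h2
  have hpos : ∀ x ∈ Ioi (0 : ℝ), 0 ≤ phi m s x := fun x _ => phi_nonneg hm.le hs.le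
  have hi := integrableOn_Ioi_deriv_of_nonneg' hd hpos ht
  have he := integral_Ioi_of_hasDerivAt_of_tendsto' hd hi ht
  rw [← ofReal_integral_eq_lintegral_ofReal hi
    ((ae_restrict_iff' measurableSet_Ioi).2 (ae_of_all _ hpos)), he]
  simp [hs.ne']

/-- the integral of the kernel -/
theorem phi_int {m s : ℝ} (hm : 0 < m) (hs : 0 < s) :
    ∫⁻ t : ℝ, ENNReal.ofReal (phi m s |s - t|) = 2 := by
  have h1 : ∫⁻ t : ℝ, ENNReal.ofReal (phi m s |s - t|) =
      ∫⁻ x : ℝ, ENNReal.ofReal (phi m s |x|) :=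
    lintegral_sub_left_eq_self (fun x => ENNReal.ofReal (phi m s |x|)) s
  have h2 : ∫⁻ x in Ioi (0 : ℝ), ENNReal.ofReal (phi m s |x|) = 1 := by
    rw [← phi_int_Ioi hm hs]
    refine setLIntegral_congr_fun measurableSet_Ioi fun x hx => ?_
    have hx0 : (0 : ℝ) < x := hx
    simp only [abs_of_pos hx0]
  have h3 : ∫⁻ x in Iic (0 : ℝ), ENNReal.ofReal (phi m s |x|) = 1 := by
    have h4 := (Measure.measurePreserving_neg (volume : Measure ℝ)).setLIntegral_comp_preimage
      (s := Iio (0 : ℝ)) measurableSet_Iio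
      (f := fun x => ENNReal.ofReal (phi m s |x|)) (by unfold phi; fun_prop)
    rw [setLIntegral_congr (Iio_ae_eq_Iic (a := (0 : ℝ)) (μ := volume)).symm, ← h4, ← h2]
    have h5 : (Neg.neg ⁻¹' Iio (0 : ℝ)) = Ioi (0 : ℝ) := by
      ext x; simp
    rw [h5]
    simp only [abs_neg]
  rw [h1, ← lintegral_add_compl _ (measurableSet_Ioi (a := (0 : ℝ))), compl_Ioi, h2, h3]
  norm_num

/-- the maximal function dominates the averages over the kernel -/
theorem phi_HLM {m s : ℝ} (hm : 0 < m) (hs : 0 < s) (w : ℝ → ℝ≥0∞) (hw : Measurable w) :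
    ∫⁻ t : ℝ, w t * ENNReal.ofReal (phi m s |s - t|) ≤ 2 * HLM w s := by
  have h1 : ∫⁻ t : ℝ, w t * ENNReal.ofReal (phi m s |s - t|) =
      ∫⁻ t, ENNReal.ofReal (phi m s |s - t|) ∂(volume.withDensity w) := by
    rw [lintegral_withDensity_eq_lintegral_mul _ hw (phi_meas m s).ennreal_ofReal]
    rfl
  have hnn : ∀ t, 0 ≤ phi m s |s - t| := fun t => phi_nonneg hm.le hs.le
  rw [h1, lintegral_eq_lintegral_meas_lt _ (ae_of_all _ hnn) (phi_meas m s).aemeasurable]
  have h2 : ∫⁻ t : ℝ, ENNReal.ofReal (phi m s |s - t|) =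
      ∫⁻ l in Ioi (0 : ℝ), volume {t : ℝ | l < phi m s |s - t|} :=
    lintegral_eq_lintegral_meas_lt _ (ae_of_all _ hnn) (phi_meas m s).aemeasurable
  rw [phi_int hm hs] at h2
  rw [h2]
  have h3 : (∫⁻ l in Ioi (0 : ℝ), volume {t : ℝ | l < phi m s |s - t|}) * HLM w s =
      ∫⁻ l in Ioi (0 : ℝ), volume {t : ℝ | l < phi m s |s - t|} * HLM w s := by
    rw [lintegral_mul_const]
    refine Antitone.measurable ?_
    intro l l' hll
    exact measure_mono fun t ht => lt_of_le_of_lt hll ht
  rw [h3]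
  refine setLIntegral_mono' measurableSet_Ioi fun l hl => ?_
  have hl0 : (0 : ℝ) < l := hl
  rw [phi_set hm hs hl0, withDensity_apply _ measurableSet_Ioo, Real.volume_Ioo]
  set r := (√(m * s / l) - s) / m with hr
  rcases le_or_gt r 0 with h | h
  · rw [Ioo_eq_empty (by intro h'; linarith)]
    simp
  · refine (int_le_HLM w s r h).trans (le_of_eq ?_)
    have h5 : s + r - (s - r) = 2 * r := by ring
    rw [h5]

/-- change of variables -/
theorem subst (β : ℝ → ℝ) (w : ℝ → ℝ≥0∞) {s : ℝ} (hs : 0 < s) (hβ : ∀ y, 0 ≤ β y) :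
    ∫⁻ y in Ioi (0 : ℝ), ENNReal.ofReal (β y) * w (s / y) * ENNReal.ofReal y⁻¹ =
      ∫⁻ t in Ioi (0 : ℝ), w t * ENNReal.ofReal (β (s / t) / t) := by
  have h1 := lintegral_image_eq_lintegral_abs_deriv_mul (s := Ioi (0 : ℝ)) (f := fun y => s / y)
    (f' := fun y => -(s / y ^ 2)) measurableSet_Ioi (by
      intro y hy
      have hy0 : (y : ℝ) ≠ 0 := ne_of_gt hy
      have h2 := ((hasDerivAt_inv hy0).const_mul s).hasDerivWithinAt (s := Ioi (0 : ℝ))
      have he : (fun y => s / y) = fun y => s * y⁻¹ := by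
        funext x; rw [div_eq_mul_inv]
      rw [he]
      exact h2.congr_deriv (by field_simp)) (by
      intro x hx y hy hxy
      have hx0 : (x : ℝ) ≠ 0 := ne_of_gt hx
      have hy0 : (y : ℝ) ≠ 0 := ne_of_gt hy
      have h3 : s / x = s / y := hxy
      field_simp at h3
      exact h3.symm) (fun t => w t * ENNReal.ofReal (β (s / t) / t))
  have himg : (fun y => s / y) '' Ioi (0 : ℝ) = Ioi (0 : ℝ) := by
    ext t
    constructor
    · rintro ⟨y, hy, rfl⟩
      exact div_pos hs hy
    · intro ht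
      have ht0 : (0 : ℝ) < t := ht
      refine ⟨s / t, div_pos hs ht0, ?_⟩
      change s / (s / t) = t
      field_simp
  rw [himg] at h1
  rw [h1]
  refine setLIntegral_congr_fun measurableSet_Ioi fun y hy => ?_
  have hy0 : (0 : ℝ) < y := hy
  have h4 : s / (s / y) = y := by field_simp
  rw [h4, abs_neg, abs_of_pos (by positivity : (0 : ℝ) < s / y ^ 2)]
  have h5 : ENNReal.ofReal (s / y ^ 2) * (w (s / y) * ENNReal.ofReal (β y / (s / y))) =
      w (s / y) * (ENNReal.ofReal (s / y ^ 2) * ENNReal.ofReal (β y / (s / y))) := by ring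
  rw [h5, ← ENNReal.ofReal_mul (by positivity)]
  have h6 : s / y ^ 2 * (β y / (s / y)) = β y * y⁻¹ := by field_simp
  rw [h6, ENNReal.ofReal_mul (hβ y)]
  ring

/-- pointwise bound of the kernel, first type -/
theorem pt1 {m s t : ℝ} (hm : 1 ≤ m) (ht : 0 < t) (hts : t < s) :
    (m / (1 + m * (s / t - 1)) ^ 2 + (s / t) ^ (-(3 / 2) : ℝ)) / t ≤
      4 * phi m s |s - t| + 1 / s := by
  have hs : 0 < s := ht.trans hts
  have hD : |s - t| = s - t := abs_of_pos (by linarith)
  rw [hD, add_div]
  apply add_le_add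
  · have h1 : 1 + m * (s / t - 1) = (t + m * (s - t)) / t := by field_simp
    have hpos : 0 < t + m * (s - t) := by nlinarith
    rw [h1, phi]
    have h2 : m / ((t + m * (s - t)) / t) ^ 2 / t = m * t / (t + m * (s - t)) ^ 2 := by
      field_simp
    have hpos2 : 0 < s + m * (s - t) := by nlinarith
    rw [h2, mul_div_assoc', div_le_div_iff₀ (by positivity) (by positivity)]
    have h3 : s + m * (s - t) ≤ 2 * (t + m * (s - t)) := by nlinarith
    have h4 : (s + m * (s - t)) ^ 2 ≤ (2 * (t + m * (s - t))) ^ 2 := by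
      apply pow_le_pow_left₀ hpos2.le h3
    calc m * t * (s + m * (s - t)) ^ 2 ≤ m * s * (2 * (t + m * (s - t))) ^ 2 := by
          apply mul_le_mul _ h4 (by positivity) (by positivity)
          nlinarith
      _ = 4 * (m * s) * (t + m * (s - t)) ^ 2 := by ring
  · have h1 : (1 : ℝ) ≤ s / t := by rw [le_div_iff₀ ht]; linarith
    have h2 : (s / t) ^ (-(3 / 2) : ℝ) ≤ (s / t) ^ (-1 : ℝ) :=
      Real.rpow_le_rpow_of_exponent_le h1 (by norm_num)
    rw [Real.rpow_neg_one, inv_div] at h2
    rw [div_le_div_iff₀ ht hs]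
    calc (s / t) ^ (-(3 / 2) : ℝ) * s ≤ t / s * s := by gcongr
      _ = 1 * t := by field_simp

/-- pointwise bound of the kernel, second type -/
theorem pt2 {m s t : ℝ} (hm : 1 ≤ m) (hs : 0 < s) (hts : s < t) :
    (m / (1 + m * (1 - s / t)) ^ 2) / t ≤ 4 * phi m s |s - t| + 1 / t := by
  have ht : 0 < t := hs.trans hts
  have hD : |s - t| = t - s := by rw [abs_sub_comm]; exact abs_of_pos (by linarith)
  have hphi : 0 ≤ phi m s |s - t| := phi_nonneg (by linarith) hs.le
  have h1 : 1 + m * (1 - s / t) = (t + m * (t - s)) / t := by field_simp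
  have hpos : 0 < t + m * (t - s) := by nlinarith
  have h2 : m / ((t + m * (t - s)) / t) ^ 2 / t = m * t / (t + m * (t - s)) ^ 2 := by
    field_simp
  rw [h1, h2]
  rcases le_or_gt t (2 * s) with h | h
  · have h3 : m * t / (t + m * (t - s)) ^ 2 ≤ 4 * phi m s |s - t| := by
      rw [hD, phi]
      have hpos2 : 0 < s + m * (t - s) := by nlinarith
      rw [mul_div_assoc', div_le_div_iff₀ (by positivity) (by positivity)]
      have h4 : (s + m * (t - s)) ^ 2 ≤ (t + m * (t - s)) ^ 2 :=
        pow_le_pow_left₀ hpos2.le (by linarith) _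
      have h5 : m * t ≤ 4 * (m * s) := by nlinarith
      exact mul_le_mul h5 h4 (by positivity) (by positivity)
    have h6 : 0 ≤ 1 / t := by positivity
    linarith
  · have h3 : m * t / (t + m * (t - s)) ^ 2 ≤ 1 / t := by
      rw [div_le_div_iff₀ (by positivity) ht]
      have h4 : (1 + m / 2) * t ≤ t + m * (t - s) := by nlinarith
      have h5 : ((1 + m / 2) * t) ^ 2 ≤ (t + m * (t - s)) ^ 2 :=
        pow_le_pow_left₀ (by positivity) h4 _
      nlinarith [sq_nonneg (m - 2), sq_nonneg t, mul_pos ht ht, mul_nonneg (sq_nonneg (m - 2))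
        (mul_pos ht ht).le]
    linarith

theorem main : S_DOM := by
  intro B β hB hK w hw hw0 s hs
  obtain ⟨-, hβ, m, hm, hcase⟩ := hK
  have hm0 : 0 < m := by linarith
  rw [subst β w hs hβ]
  -- the pointwise bound
  have hpt : ∀ t, 0 < t → ENNReal.ofReal (β (s / t) / t) ≤
      ENNReal.ofReal B * (4 * ENNReal.ofReal (phi m s |s - t|) +
        (Iio s).indicator (fun _ => ENNReal.ofReal (1 / s)) t +
        (Ioi s).indicator (fun t => ENNReal.ofReal t⁻¹) t) := by
    intro t ht
    have hphi : 0 ≤ phi m s |s - t| := phi_nonneg (by linarith) hs.le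
    rcases hcase with ⟨h1, h2⟩ | ⟨h0, h1, h2⟩
    · rcases lt_or_ge t s with hts | hts
      · have hy : 1 < s / t := by rw [lt_div_iff₀ ht]; linarith
        have h3 : β (s / t) / t ≤ B * (4 * phi m s |s - t| + 1 / s) := by
          calc β (s / t) / t ≤ B * (m / (1 + m * (s / t - 1)) ^ 2 + (s / t) ^ (-(3 / 2) : ℝ)) / t :=
                div_le_div_of_nonneg_right (h2 _ hy) ht.le
            _ = B * ((m / (1 + m * (s / t - 1)) ^ 2 + (s / t) ^ (-(3 / 2) : ℝ)) / t) := by ring
            _ ≤ _ := mul_le_mul_of_nonneg_left (pt1 hm ht hts) hB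
        refine (ENNReal.ofReal_le_ofReal h3).trans ?_
        rw [ENNReal.ofReal_mul hB, ENNReal.ofReal_add (by positivity) (by positivity),
          ENNReal.ofReal_mul (by norm_num : (0 : ℝ) ≤ 4)]
        gcongr ENNReal.ofReal B * ?_
        rw [indicator_of_mem (show t ∈ Iio s from hts)]
        have h4 : ENNReal.ofReal 4 = 4 := by norm_num
        rw [h4]
        exact le_self_add
      · have hy : s / t ≤ 1 := by rw [div_le_one ht]; exact hts
        rw [h1 _ hy, zero_div, ENNReal.ofReal_zero]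
        exact bot_le
    · rcases lt_or_ge s t with hts | hts
      · have hy : s / t < 1 := by rw [div_lt_one ht]; exact hts
        have hy0 : 0 < s / t := div_pos hs ht
        have h3 : β (s / t) / t ≤ B * (4 * phi m s |s - t| + 1 / t) := by
          calc β (s / t) / t ≤ B * (m / (1 + m * (1 - s / t)) ^ 2) / t :=
                div_le_div_of_nonneg_right (h2 _ hy0 hy) ht.le
            _ = B * ((m / (1 + m * (1 - s / t)) ^ 2) / t) := by ring
            _ ≤ _ := mul_le_mul_of_nonneg_left (pt2 hm hs hts) hB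
        refine (ENNReal.ofReal_le_ofReal h3).trans ?_
        rw [ENNReal.ofReal_mul hB, ENNReal.ofReal_add (by positivity) (by positivity),
          ENNReal.ofReal_mul (by norm_num : (0 : ℝ) ≤ 4)]
        gcongr
        · have h4 : ENNReal.ofReal 4 = 4 := by norm_num
          rw [h4]
          exact le_self_add
        · rw [indicator_of_mem (show t ∈ Ioi s from hts), one_div]
      · have hy : 1 ≤ s / t := by rw [le_div_iff₀ ht]; linarith
        rw [h1 _ hy, zero_div, ENNReal.ofReal_zero]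
        exact bot_le
  have hmeas1 : Measurable fun t => w t * ENNReal.ofReal (phi m s |s - t|) :=
    hw.mul (phi_meas m s).ennreal_ofReal
  have hI1 : ∫⁻ t in Ioi (0 : ℝ), w t * ENNReal.ofReal (phi m s |s - t|) ≤ 2 * HLM w s :=
    (setLIntegral_le_lintegral _ _).trans (phi_HLM hm0 hs w hw)
  have hI2 : ∫⁻ t in Ioi (0 : ℝ), w t * (Iio s).indicator (fun _ => ENNReal.ofReal (1 / s)) t ≤
      2 * HLM w s := by
    have h1 : ∀ t, w t * (Iio s).indicator (fun _ => ENNReal.ofReal (1 / s)) t =
        (Iio s).indicator (fun t => w t * ENNReal.ofReal (1 / s)) t := by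
      intro t
      by_cases h : t ∈ Iio s
      · rw [indicator_of_mem h, indicator_of_mem h]
      · rw [indicator_of_notMem h, indicator_of_notMem h, mul_zero]
    simp only [h1]
    rw [setLIntegral_indicator measurableSet_Iio, lintegral_mul_const _ hw]
    have h2 : ∫⁻ t in Iio s ∩ Ioi 0, w t ≤ ENNReal.ofReal (2 * s) * HLM w s := by
      refine le_trans (lintegral_mono_set ?_) (int_le_HLM w s s hs)
      rintro t ⟨h3, h4⟩
      have h3' : t < s := h3
      have h4' : 0 < t := h4
      exact ⟨by linarith, by linarith⟩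
    calc (∫⁻ t in Iio s ∩ Ioi 0, w t) * ENNReal.ofReal (1 / s)
        ≤ (ENNReal.ofReal (2 * s) * HLM w s) * ENNReal.ofReal (1 / s) := by gcongr
      _ = (ENNReal.ofReal (2 * s) * ENNReal.ofReal (1 / s)) * HLM w s := by ring
      _ = 2 * HLM w s := by
          rw [← ENNReal.ofReal_mul (by positivity)]
          have : 2 * s * (1 / s) = 2 := by field_simp
          rw [this]
          norm_num
  have hI3 : ∫⁻ t in Ioi (0 : ℝ), w t * (Ioi s).indicator (fun t => ENNReal.ofReal t⁻¹) t =
      HA w s := by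
    have h1 : ∀ t, w t * (Ioi s).indicator (fun t => ENNReal.ofReal t⁻¹) t =
        (Ioi s).indicator (fun t => w t * ENNReal.ofReal t⁻¹) t := by
      intro t
      by_cases h : t ∈ Ioi s
      · rw [indicator_of_mem h, indicator_of_mem h]
      · rw [indicator_of_notMem h, indicator_of_notMem h, mul_zero]
    simp only [h1]
    rw [setLIntegral_indicator measurableSet_Ioi]
    have h2 : Ioi s ∩ Ioi (0 : ℝ) = Ioi s := by
      rw [Ioi_inter_Ioi]
      congr 1
      exact max_eq_left hs.le
    rw [h2]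
    rfl
  calc ∫⁻ t in Ioi (0 : ℝ), w t * ENNReal.ofReal (β (s / t) / t)
      ≤ ∫⁻ t in Ioi (0 : ℝ), ENNReal.ofReal B * ((4 * (w t * ENNReal.ofReal (phi m s |s - t|)) +
        w t * (Iio s).indicator (fun _ => ENNReal.ofReal (1 / s)) t) +
        w t * (Ioi s).indicator (fun t => ENNReal.ofReal t⁻¹) t) := by
        refine setLIntegral_mono' measurableSet_Ioi fun t ht => ?_
        calc w t * ENNReal.ofReal (β (s / t) / t) ≤ w t * (ENNReal.ofReal B *
              (4 * ENNReal.ofReal (phi m s |s - t|) +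
              (Iio s).indicator (fun _ => ENNReal.ofReal (1 / s)) t +
              (Ioi s).indicator (fun t => ENNReal.ofReal t⁻¹) t)) := by
              gcongr
              exact hpt t ht
          _ = _ := by ring
    _ = ENNReal.ofReal B * (4 * (∫⁻ t in Ioi (0 : ℝ), w t * ENNReal.ofReal (phi m s |s - t|)) +
        (∫⁻ t in Ioi (0 : ℝ), w t * (Iio s).indicator (fun _ => ENNReal.ofReal (1 / s)) t) +
        ∫⁻ t in Ioi (0 : ℝ), w t * (Ioi s).indicator (fun t => ENNReal.ofReal t⁻¹) t) := by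
        have hm2 : Measurable fun t => w t * (Iio s).indicator (fun _ => ENNReal.ofReal (1 / s)) t :=
          hw.mul (measurable_const.indicator measurableSet_Iio)
        have hm3 : Measurable fun t => 4 * (w t * ENNReal.ofReal (phi m s |s - t|)) +
            w t * (Iio s).indicator (fun _ => ENNReal.ofReal (1 / s)) t :=
          (hmeas1.const_mul 4).add hm2
        rw [lintegral_const_mul' _ _ ENNReal.ofReal_ne_top,
          lintegral_add_left hm3,
          lintegral_add_left (hmeas1.const_mul 4), lintegral_const_mul _ hmeas1]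
    _ ≤ ENNReal.ofReal B * (4 * (2 * HLM w s) + 2 * HLM w s + HA w s) := by
        gcongr
        exact hI3.le
    _ ≤ ENNReal.ofReal B * (16 * (HLM w s + HA w s)) := by
        gcongr
        calc 4 * (2 * HLM w s) + 2 * HLM w s + HA w s = 10 * HLM w s + 1 * HA w s := by ring
          _ ≤ 16 * HLM w s + 16 * HA w s := by gcongr <;> norm_num
          _ = _ := by ring
    _ = ENNReal.ofReal (16 * B) * (HLM w s + HA w s) := by
        rw [ENNReal.ofReal_mul (by norm_num : (0 : ℝ) ≤ 16)]
        have h4 : ENNReal.ofReal 16 = 16 := by norm_num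
        rw [h4]
        ring

end Pool.NH61.FS.Dom
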