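import Pool.Agent.NH61.FS.Def2

/-! # Project FS: Hardy's inequality -/

set_option autoImplicit false

open MeasureTheory Set Filter Topology
open scoped SchwartzMap ENNReal

namespace Pool.NH61.FS.Har

/-- the integral of a negative power over `(s, ∞)` -/
theorem int_tail {q s : ℝ} (hq : 1 < q) (hs : 0 < s) :
    ∫⁻ t in Ioi s, ENNReal.ofReal (t ^ (-(1 / q) - 1)) = ENNReal.ofReal (q * s ^ (-(1 / q))) := by
  have h0 : 0 < 1 / q := by positivity
  have h1 : -(1 / q) - 1 < -1 := by linarith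
  have hint : IntegrableOn (fun t : ℝ => t ^ (-(1 / q) - 1)) (Ioi s) :=
    integrableOn_Ioi_rpow_of_lt h1 hs
  rw [← ofReal_integral_eq_lintegral_ofReal hint ?_, integral_Ioi_rpow_of_lt h1 hs]
  · congr 1
    have e1 : -(1 / q) - 1 + 1 = -(1 / q) := by ring
    rw [e1]
    field_simp
  · filter_upwards [ae_restrict_mem measurableSet_Ioi] with t ht
    exact Real.rpow_nonneg (hs.trans ht).le _

/-- the integral of a negative power over `(0, t)` -/
theorem int_head {q t : ℝ} (hq : 1 < q) (ht : 0 < t) :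
    ∫⁻ s in Ioo 0 t, ENNReal.ofReal (s ^ (-(1 - 1 / q))) = ENNReal.ofReal (q * t ^ (1 / q)) := by
  have h0 : 0 < 1 / q := by positivity
  have h1 : -1 < -(1 - 1 / q) := by linarith
  have hint : IntegrableOn (fun s : ℝ => s ^ (-(1 - 1 / q))) (Ioo 0 t) := by
    have := (intervalIntegral.intervalIntegrable_rpow' (a := 0) (b := t) h1)
    rw [intervalIntegrable_iff_integrableOn_Ioo_of_le ht.le] at this
    exact this
  rw [← ofReal_integral_eq_lintegral_ofReal hint ?_]
  · congr 1
    rw [← integral_Ioc_eq_integral_Ioo, ← intervalIntegral.integral_of_le ht.le,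
      integral_rpow (Or.inl h1)]
    have e1 : -(1 - 1 / q) + 1 = 1 / q := by ring
    rw [e1, Real.zero_rpow h0.ne']
    field_simp
    ring
  · filter_upwards [ae_restrict_mem measurableSet_Ioo] with s hs
    exact Real.rpow_nonneg hs.1.le _

/-- the pointwise inequality (Hoelder) -/
theorem holder {q : ℝ} (hq : 1 < q) {w : ℝ → ℝ≥0∞} (hw : Measurable w) {s : ℝ} (hs : 0 < s) :
    HA w s ^ q ≤ (∫⁻ t in Ioi s, w t ^ q * ENNReal.ofReal (t ^ (-(1 / q)))) *
      ENNReal.ofReal (q ^ (q - 1) * s ^ (-(1 - 1 / q))) := by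
  have hq0 : 0 < q := by linarith
  have hq1 : 0 < q - 1 := by linarith
  set q' : ℝ := q / (q - 1) with hq'
  have hconj : q.HolderConjugate q' := by
    rw [Real.holderConjugate_iff]
    refine ⟨hq, ?_⟩
    rw [hq']
    field_simp
    ring
  have hq'0 : 0 < q' := by positivity
  set a : ℝ := (q - 1) / q ^ 2 with ha
  set f : ℝ → ℝ≥0∞ := fun t => w t * ENNReal.ofReal (t ^ (a - 1 / q)) with hf
  set g : ℝ → ℝ≥0∞ := fun t => ENNReal.ofReal (t ^ (-a - 1 / q')) with hg
  have hfm : Measurable f := hw.mul (by fun_prop)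
  have hgm : Measurable g := by fun_prop
  have h1 : HA w s = ∫⁻ t in Ioi s, (f * g) t := by
    unfold HA
    refine setLIntegral_congr_fun measurableSet_Ioi fun t ht => ?_
    have ht0 : 0 < t := hs.trans ht
    show w t * ENNReal.ofReal t⁻¹ = w t * ENNReal.ofReal (t ^ (a - 1 / q)) *
      ENNReal.ofReal (t ^ (-a - 1 / q'))
    rw [mul_assoc, ← ENNReal.ofReal_mul (Real.rpow_nonneg ht0.le _), ← Real.rpow_add ht0]
    have e : a - 1 / q + (-a - 1 / q') = -1 := by
      rw [hq']
      field_simp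
      ring
    rw [e, Real.rpow_neg_one]
  have h2 := ENNReal.lintegral_mul_le_Lp_mul_Lq (volume.restrict (Ioi s)) hconj
    hfm.aemeasurable hgm.aemeasurable
  have h3 : ∫⁻ t in Ioi s, f t ^ q = ∫⁻ t in Ioi s, w t ^ q * ENNReal.ofReal (t ^ (-(1 / q))) := by
    refine setLIntegral_congr_fun measurableSet_Ioi fun t ht => ?_
    have ht0 : 0 < t := hs.trans ht
    show (w t * ENNReal.ofReal (t ^ (a - 1 / q))) ^ q = _
    rw [ENNReal.mul_rpow_of_nonneg _ _ hq0.le,
      ENNReal.ofReal_rpow_of_nonneg (Real.rpow_nonneg ht0.le _) hq0.le, ← Real.rpow_mul ht0.le]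
    have e : (a - 1 / q) * q = -(1 / q) := by
      rw [ha]
      field_simp
      ring
    rw [e]
  have h4 : ∫⁻ t in Ioi s, g t ^ q' = ENNReal.ofReal (q * s ^ (-(1 / q))) := by
    rw [← int_tail hq hs]
    refine setLIntegral_congr_fun measurableSet_Ioi fun t ht => ?_
    have ht0 : 0 < t := hs.trans ht
    show (ENNReal.ofReal (t ^ (-a - 1 / q'))) ^ q' = _
    rw [ENNReal.ofReal_rpow_of_nonneg (Real.rpow_nonneg ht0.le _) hq'0.le,
      ← Real.rpow_mul ht0.le]
    have e : (-a - 1 / q') * q' = -(1 / q) - 1 := by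
      rw [ha, hq']
      field_simp
    rw [e]
  rw [h1]
  calc (∫⁻ t in Ioi s, (f * g) t) ^ q
      ≤ ((∫⁻ t in Ioi s, f t ^ q) ^ (1 / q) * (∫⁻ t in Ioi s, g t ^ q') ^ (1 / q')) ^ q :=
        ENNReal.rpow_le_rpow h2 hq0.le
    _ = (∫⁻ t in Ioi s, f t ^ q) * (∫⁻ t in Ioi s, g t ^ q') ^ (q - 1) := by
        rw [ENNReal.mul_rpow_of_nonneg _ _ hq0.le, ← ENNReal.rpow_mul, ← ENNReal.rpow_mul,
          one_div_mul_cancel hq0.ne', ENNReal.rpow_one]
        congr 2
        rw [hq']
        field_simp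
    _ = _ := by
        rw [h3, h4]
        congr 1
        rw [ENNReal.ofReal_rpow_of_nonneg (by positivity) hq1.le,
          Real.mul_rpow hq0.le (Real.rpow_nonneg hs.le _), ← Real.rpow_mul hs.le]
        congr 3
        field_simp

theorem main : S_HAR := by
  intro q hq hq2 w hw
  have hq0 : 0 < q := by linarith
  set F : ℝ → ℝ≥0∞ := fun t => w t ^ q * ENNReal.ofReal (t ^ (-(1 / q))) with hF
  set G : ℝ → ℝ≥0∞ := fun s => ENNReal.ofReal (q ^ (q - 1) * s ^ (-(1 - 1 / q))) with hG
  have hFm : Measurable F := (hw.pow_const q).mul (by fun_prop)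
  have hGm : Measurable G := by fun_prop
  have h1 : ∫⁻ s in Ioi (0 : ℝ), HA w s ^ q ≤
      ∫⁻ s in Ioi (0 : ℝ), ∫⁻ t in Ioi (0 : ℝ), (if s < t then F t * G s else 0) := by
    refine setLIntegral_mono' measurableSet_Ioi fun s hs => ?_
    refine (holder hq hw hs).trans (le_of_eq ?_)
    have h2 : ∫⁻ t in Ioi (0 : ℝ), (if s < t then F t * G s else 0) =
        ∫⁻ t in Ioi (0 : ℝ), (Ioi s).indicator (fun t => F t * G s) t := by
      refine lintegral_congr fun t => ?_
      rw [indicator_apply]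
      rfl
    rw [h2, setLIntegral_indicator measurableSet_Ioi, inter_eq_left.2
      (Ioi_subset_Ioi (le_of_lt hs)), lintegral_mul_const _ hFm]
  refine h1.trans ?_
  rw [lintegral_lintegral_swap]
  · rw [← lintegral_const_mul' _ _ (by
      exact ENNReal.rpow_ne_top_of_nonneg hq0.le (by norm_num))]
    refine setLIntegral_mono' measurableSet_Ioi fun t ht => ?_
    have ht0 : (0 : ℝ) < t := ht
    have h2 : ∫⁻ s in Ioi (0 : ℝ), (if s < t then F t * G s else 0) =
        ∫⁻ s in Ioi (0 : ℝ), (Iio t).indicator (fun s => F t * G s) s := by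
      refine lintegral_congr fun s => ?_
      rw [indicator_apply]
      rfl
    rw [h2, setLIntegral_indicator measurableSet_Iio, inter_comm, Ioi_inter_Iio,
      lintegral_const_mul _ hGm]
    have h3 : ∫⁻ s in Ioo 0 t, G s = ENNReal.ofReal (q ^ q * t ^ (1 / q)) := by
      have e : ∀ s ∈ Ioo 0 t, G s = ENNReal.ofReal (q ^ (q - 1)) *
          ENNReal.ofReal (s ^ (-(1 - 1 / q))) := fun s hs => by
        rw [hG]
        exact ENNReal.ofReal_mul (by positivity)
      rw [setLIntegral_congr_fun measurableSet_Ioo e,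
        lintegral_const_mul' _ _ ENNReal.ofReal_ne_top, int_head hq ht0,
        ← ENNReal.ofReal_mul (by positivity), ← mul_assoc]
      congr 2
      rw [← Real.rpow_add_one hq0.ne']
      congr 1
      ring
    rw [h3, hF]
    show w t ^ q * ENNReal.ofReal (t ^ (-(1 / q))) * ENNReal.ofReal (q ^ q * t ^ (1 / q)) ≤
      2 ^ q * w t ^ q
    rw [mul_assoc, ← ENNReal.ofReal_mul (Real.rpow_nonneg ht0.le _), mul_comm]
    refine mul_le_mul_left (a := w t ^ q) ?_
    have e2 : t ^ (-(1 / q)) * (q ^ q * t ^ (1 / q)) = q ^ q := by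
      rw [mul_left_comm, ← Real.rpow_add ht0, neg_add_cancel, Real.rpow_zero, mul_one]
    rw [e2]
    have e3 : (2 : ℝ≥0∞) ^ q = ENNReal.ofReal (2 ^ q) := by
      rw [← ENNReal.ofReal_rpow_of_nonneg (by norm_num) hq0.le]
      norm_num
    rw [e3]
    exact ENNReal.ofReal_le_ofReal (Real.rpow_le_rpow hq0.le hq2 hq0.le)
  · refine Measurable.aemeasurable ?_
    refine Measurable.ite (measurableSet_lt measurable_fst measurable_snd) ?_ measurable_const
    exact (hFm.comp measurable_snd).mul (hGm.comp measurable_fst)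

end Pool.NH61.FS.Har
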