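import Pool.Agent.NH61.FS.Def2

/-! # Project FS: the maximal inequality -/

set_option autoImplicit false

open MeasureTheory Set Filter Topology
open scoped SchwartzMap ENNReal

namespace Pool.NH61.FS.Max

/-- the pointwise layer cake formula -/
theorem layer_fin (s : ℝ) (hs : 0 < s) (α : ℝ) (hα : 0 ≤ α) :
    ENNReal.ofReal α ^ s = ENNReal.ofReal s * ∫⁻ t in Ioi (0 : ℝ),
      {t : ℝ | ENNReal.ofReal t < ENNReal.ofReal α}.indicator
        (fun t => ENNReal.ofReal (t ^ (s - 1))) t := by
  have h1 : ∫⁻ t in Ioi (0 : ℝ), {t : ℝ | ENNReal.ofReal t < ENNReal.ofReal α}.indicator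
      (fun t => ENNReal.ofReal (t ^ (s - 1))) t =
      ∫⁻ t in Ioo 0 α, ENNReal.ofReal (t ^ (s - 1)) := by
    rw [← lintegral_indicator measurableSet_Ioi, ← lintegral_indicator measurableSet_Ioo]
    congr 1
    ext t
    by_cases ht : 0 < t
    · rw [indicator_of_mem (show t ∈ Ioi (0 : ℝ) from ht)]
      by_cases h2 : t < α
      · rw [indicator_of_mem (show t ∈ Ioo 0 α from ⟨ht, h2⟩), indicator_of_mem]
        exact (ENNReal.ofReal_lt_ofReal_iff_of_nonneg ht.le).mpr h2
      · rw [indicator_of_notMem (fun h : t ∈ Ioo 0 α => h2 h.2), indicator_of_notMem]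
        exact fun h => h2 ((ENNReal.ofReal_lt_ofReal_iff_of_nonneg ht.le).mp h)
    · rw [indicator_of_notMem (show t ∉ Ioi (0 : ℝ) from ht),
        indicator_of_notMem (fun h : t ∈ Ioo 0 α => ht h.1)]
  have h2 : IntervalIntegrable (fun t : ℝ => t ^ (s - 1)) volume 0 α :=
    intervalIntegral.intervalIntegrable_rpow' (by linarith)
  have h3 : ∫⁻ t in Ioo 0 α, ENNReal.ofReal (t ^ (s - 1)) =
      ENNReal.ofReal (∫ t in (0 : ℝ)..α, t ^ (s - 1)) := by
    rw [intervalIntegral.integral_of_le hα, integral_Ioc_eq_integral_Ioo,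
      ofReal_integral_eq_lintegral_ofReal]
    · exact ((intervalIntegrable_iff_integrableOn_Ioo_of_le hα).mp h2)
    · filter_upwards [ae_restrict_mem measurableSet_Ioo] with t ht
      exact Real.rpow_nonneg ht.1.le _
  rw [h1, h3, integral_rpow (Or.inl (by linarith)), ← ENNReal.ofReal_mul hs.le,
    ENNReal.ofReal_rpow_of_nonneg hα hs.le]
  congr 1
  rw [sub_add_cancel, Real.zero_rpow hs.ne']
  field_simp
  ring

theorem layer (s : ℝ) (hs : 0 < s) (a : ℝ≥0∞) :
    a ^ s = ENNReal.ofReal s * ∫⁻ t in Ioi (0 : ℝ),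
      {t : ℝ | ENNReal.ofReal t < a}.indicator (fun t => ENNReal.ofReal (t ^ (s - 1))) t := by
  by_cases ha : a = ⊤
  · subst ha
    rw [ENNReal.top_rpow_of_pos hs]
    symm
    apply ENNReal.eq_top_of_forall_nnreal_le
    intro r
    have h1 := layer_fin s hs ((r : ℝ) ^ (1 / s)) (Real.rpow_nonneg (NNReal.coe_nonneg r) _)
    rw [ENNReal.ofReal_rpow_of_nonneg (Real.rpow_nonneg (NNReal.coe_nonneg r) _) hs.le, ← Real.rpow_mul (NNReal.coe_nonneg r),
      one_div_mul_cancel hs.ne', Real.rpow_one] at h1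
    have h2 : (r : ℝ≥0∞) = ENNReal.ofReal r := by simp
    rw [h2, h1]
    refine mul_le_mul_right (lintegral_mono fun t => ?_) _
    refine indicator_le_indicator_of_subset (fun t ht => ?_) (fun t => zero_le) t
    exact lt_of_lt_of_le (show ENNReal.ofReal t < _ from ht) le_top
  · have h1 := layer_fin s hs a.toReal ENNReal.toReal_nonneg
    rw [ENNReal.ofReal_toReal ha] at h1
    exact h1

/-- the weak type inequality -/
theorem weak (w : ℝ → ℝ≥0∞) (hw : Measurable w) (l : ℝ) (hl : 0 < l) :
    volume {x | ENNReal.ofReal l < HLM w x} ≤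
      ENNReal.ofReal (10 / l) * ∫⁻ x in {x | ENNReal.ofReal l < 2 * w x}, w x := by
  classical
  set S : Set ℝ := {x | ENNReal.ofReal l < 2 * w x} with hS
  have hSm : MeasurableSet S := measurableSet_lt measurable_const (hw.const_mul 2)
  by_cases hfin : ∫⁻ x in S, w x = ⊤
  · rw [hfin, ENNReal.mul_top]
    · exact le_top
    · exact (ENNReal.ofReal_pos.mpr (by positivity)).ne'
  set g : ℝ → ℝ≥0∞ := S.indicator w with hg
  have hgint : ∫⁻ x, g x = ∫⁻ x in S, w x := by
    rw [hg, lintegral_indicator hSm]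
  have hwg : ∀ x, w x ≤ g x + ENNReal.ofReal (l / 2) := by
    intro x
    by_cases hx : x ∈ S
    · rw [hg, indicator_of_mem hx]
      exact le_self_add
    · rw [hg, indicator_of_notMem hx, zero_add]
      have h1 : 2 * w x ≤ ENNReal.ofReal l := not_lt.mp hx
      rw [ENNReal.ofReal_div_of_pos (by norm_num), ENNReal.ofReal_ofNat,
        ENNReal.le_div_iff_mul_le (by simp) (by simp), mul_comm]
      exact h1
  have hrad : ∀ z : ℝ, ∃ ρ : ℝ, z ∈ {x | ENNReal.ofReal l < HLM w x} →
      0 < ρ ∧ ENNReal.ofReal (l * ρ) ≤ ∫⁻ t in Metric.closedBall z ρ, g t := by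
    intro z
    by_cases hz : z ∈ {x | ENNReal.ofReal l < HLM w x}
    · have hz' : ENNReal.ofReal l < HLM w z := hz
      unfold HLM at hz'
      obtain ⟨⟨ρ, hρ⟩, h1⟩ := lt_iSup_iff.mp hz'
      refine ⟨ρ, fun _ => ⟨hρ, ?_⟩⟩
      dsimp only at h1
      have h0 : ENNReal.ofReal (2 * ρ) ≠ 0 := (ENNReal.ofReal_pos.mpr (by positivity)).ne'
      have h2 : ENNReal.ofReal l * ENNReal.ofReal (2 * ρ) ≤ ∫⁻ t in Ioo (z - ρ) (z + ρ), w t := by
        have h3 := mul_le_mul_left h1.le (ENNReal.ofReal (2 * ρ))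
        rw [mul_comm _ (ENNReal.ofReal (2 * ρ)), mul_comm _ (ENNReal.ofReal (2 * ρ)), ← mul_assoc,
          ENNReal.mul_inv_cancel h0 ENNReal.ofReal_ne_top, one_mul] at h3
        rwa [mul_comm]
      have h3 : ∫⁻ t in Ioo (z - ρ) (z + ρ), w t ≤
          (∫⁻ t in Metric.closedBall z ρ, g t) + ENNReal.ofReal (l * ρ) := by
        calc ∫⁻ t in Ioo (z - ρ) (z + ρ), w t
            ≤ ∫⁻ t in Ioo (z - ρ) (z + ρ), (g t + ENNReal.ofReal (l / 2)) :=
              lintegral_mono fun t => hwg t
          _ = (∫⁻ t in Ioo (z - ρ) (z + ρ), g t) +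
              ENNReal.ofReal (l / 2) * volume (Ioo (z - ρ) (z + ρ)) := by
              rw [lintegral_add_right _ measurable_const, setLIntegral_const]
          _ ≤ _ := by
              refine add_le_add (lintegral_mono_set ?_) ?_
              · rw [Real.closedBall_eq_Icc]
                exact Ioo_subset_Icc_self
              · rw [Real.volume_Ioo, ← ENNReal.ofReal_mul (by positivity)]
                apply ENNReal.ofReal_le_ofReal
                nlinarith
      have h4 := h2.trans h3
      rw [← ENNReal.ofReal_mul hl.le, show l * (2 * ρ) = l * ρ + l * ρ by ring,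
        ENNReal.ofReal_add (by positivity) (by positivity)] at h4
      exact ENNReal.le_of_add_le_add_right ENNReal.ofReal_ne_top h4
    · exact ⟨1, fun h => absurd h hz⟩
  choose r hr using hrad
  set R : ℝ := (∫⁻ x, g x).toReal / l with hR
  have hrR : ∀ z ∈ {x | ENNReal.ofReal l < HLM w x}, r z ≤ R := by
    intro z hz
    obtain ⟨h1, h2⟩ := hr z hz
    have h3 : ENNReal.ofReal (l * r z) ≤ ∫⁻ x, g x :=
      h2.trans (setLIntegral_le_lintegral _ _)
    rw [hR, le_div_iff₀ hl, mul_comm]
    refine (ENNReal.ofReal_le_iff_le_toReal ?_).mp h3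
    rw [hgint]
    exact hfin
  obtain ⟨u, hu, hdisj, hcov⟩ := Vitali.exists_disjoint_subfamily_covering_enlargement_closedBall
    {x | ENNReal.ofReal l < HLM w x} (fun z => z) r R hrR 5 (by norm_num)
  have hcount : u.Countable := by
    refine hdisj.countable_of_nonempty_interior ?_
    intro z hz
    refine ⟨z, ?_⟩
    exact Metric.ball_subset_interior_closedBall (Metric.mem_ball_self (hr z (hu hz)).1)
  have hsub : {x | ENNReal.ofReal l < HLM w x} ⊆ ⋃ b ∈ u, Metric.closedBall b (5 * r b) := by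
    intro z hz
    obtain ⟨b, hb, hzb⟩ := hcov z hz
    simp only [Set.mem_iUnion]
    exact ⟨b, hb, hzb (Metric.mem_closedBall_self (hr z hz).1.le)⟩
  have hball : ∀ b ∈ u, volume (Metric.closedBall b (5 * r b)) ≤
      ENNReal.ofReal (10 / l) * ∫⁻ x in Metric.closedBall b (r b), g x := by
    intro b hb
    obtain ⟨h1, h2⟩ := hr b (hu hb)
    rw [Real.volume_closedBall]
    have h3 : 2 * (5 * r b) = 10 / l * (l * r b) := by field_simp; ring
    rw [h3, ENNReal.ofReal_mul (by positivity)]
    gcongr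
  calc volume {x | ENNReal.ofReal l < HLM w x}
      ≤ volume (⋃ b ∈ u, Metric.closedBall b (5 * r b)) := measure_mono hsub
    _ ≤ ∑' b : u, volume (Metric.closedBall (b : ℝ) (5 * r b)) := measure_biUnion_le _ hcount _
    _ ≤ ∑' b : u, ENNReal.ofReal (10 / l) *
        ∫⁻ x in Metric.closedBall (b : ℝ) (r b), g x :=
        ENNReal.tsum_le_tsum fun b => hball b b.2
    _ = ENNReal.ofReal (10 / l) * ∑' b : u, ∫⁻ x in Metric.closedBall (b : ℝ) (r b), g x :=
        ENNReal.tsum_mul_left
    _ = ENNReal.ofReal (10 / l) * ∫⁻ x in ⋃ b ∈ u, Metric.closedBall (b : ℝ) (r b), g x := by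
        rw [lintegral_biUnion hcount (fun b _ => Metric.isClosed_closedBall.measurableSet) hdisj]
    _ ≤ ENNReal.ofReal (10 / l) * ∫⁻ x, g x := by
        gcongr
        exact Measure.restrict_le_self
    _ = _ := by rw [hgint]

theorem main : S_MAX := by
  refine ⟨40, by norm_num, ?_⟩
  intro q hq hq2 w hw
  obtain ⟨g, hg, hle, heq⟩ := exists_measurable_le_lintegral_eq volume (fun x => HLM w x ^ q)
  rw [heq]
  have hq0 : 0 < q := by linarith
  set h : ℝ → ℝ≥0∞ := fun x => g x ^ (1 / q) with hh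
  have hhm : Measurable h := hg.pow_const _
  have hgh : ∀ x, g x = h x ^ q := by
    intro x
    rw [hh, ← ENNReal.rpow_mul, one_div_mul_cancel hq0.ne', ENNReal.rpow_one]
  have hhle : ∀ x, h x ≤ HLM w x := by
    intro x
    have h1 := ENNReal.rpow_le_rpow (hle x) (show 0 ≤ 1 / q by positivity)
    rwa [← ENNReal.rpow_mul, mul_one_div_cancel hq0.ne', ENNReal.rpow_one] at h1
  have hm1 : Measurable (fun z : ℝ × ℝ => {t : ℝ | ENNReal.ofReal t < h z.1}.indicator
      (fun t => ENNReal.ofReal (t ^ (q - 1))) z.2) := by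
    have h1 : (fun z : ℝ × ℝ => {t : ℝ | ENNReal.ofReal t < h z.1}.indicator
      (fun t => ENNReal.ofReal (t ^ (q - 1))) z.2) =
      {z : ℝ × ℝ | ENNReal.ofReal z.2 < h z.1}.indicator
        (fun z => ENNReal.ofReal (z.2 ^ (q - 1))) := by
      ext z
      by_cases hz : ENNReal.ofReal z.2 < h z.1
      · rw [indicator_of_mem (show z.2 ∈ {t : ℝ | ENNReal.ofReal t < h z.1} from hz),
          indicator_of_mem (show z ∈ {z : ℝ × ℝ | ENNReal.ofReal z.2 < h z.1} from hz)]
      · rw [indicator_of_notMem (show z.2 ∉ {t : ℝ | ENNReal.ofReal t < h z.1} from hz),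
          indicator_of_notMem (show z ∉ {z : ℝ × ℝ | ENNReal.ofReal z.2 < h z.1} from hz)]
    rw [h1]
    refine Measurable.indicator ?_ (measurableSet_lt (by fun_prop) (by fun_prop))
    exact ENNReal.measurable_ofReal.comp (measurable_snd.pow_const _)
  have hm2 : Measurable (fun z : ℝ × ℝ => w z.1 * {t : ℝ | ENNReal.ofReal t < 2 * w z.1}.indicator
      (fun t => ENNReal.ofReal (t ^ (q - 1 - 1))) z.2) := by
    have h1 : (fun z : ℝ × ℝ => w z.1 * {t : ℝ | ENNReal.ofReal t < 2 * w z.1}.indicator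
      (fun t => ENNReal.ofReal (t ^ (q - 1 - 1))) z.2) =
      fun z => w z.1 * {z : ℝ × ℝ | ENNReal.ofReal z.2 < 2 * w z.1}.indicator
        (fun z => ENNReal.ofReal (z.2 ^ (q - 1 - 1))) z := by
      ext z
      by_cases hz : ENNReal.ofReal z.2 < 2 * w z.1
      · rw [indicator_of_mem (show z.2 ∈ {t : ℝ | ENNReal.ofReal t < 2 * w z.1} from hz),
          indicator_of_mem (show z ∈ {z : ℝ × ℝ | ENNReal.ofReal z.2 < 2 * w z.1} from hz)]
      · rw [indicator_of_notMem (show z.2 ∉ {t : ℝ | ENNReal.ofReal t < 2 * w z.1} from hz),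
          indicator_of_notMem (show z ∉ {z : ℝ × ℝ | ENNReal.ofReal z.2 < 2 * w z.1} from hz)]
    rw [h1]
    refine (hw.comp measurable_fst).mul
      (Measurable.indicator ?_ (measurableSet_lt (by fun_prop) (by fun_prop)))
    exact ENNReal.measurable_ofReal.comp (measurable_snd.pow_const _)
  calc ∫⁻ x, g x = ∫⁻ x, ENNReal.ofReal q * ∫⁻ t in Ioi (0 : ℝ),
        {t : ℝ | ENNReal.ofReal t < h x}.indicator (fun t => ENNReal.ofReal (t ^ (q - 1))) t := by
        refine lintegral_congr fun x => ?_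
        rw [hgh, layer q hq0]
    _ = ENNReal.ofReal q * ∫⁻ t in Ioi (0 : ℝ), ∫⁻ x,
        {t : ℝ | ENNReal.ofReal t < h x}.indicator (fun t => ENNReal.ofReal (t ^ (q - 1))) t := by
        rw [lintegral_const_mul' _ _ ENNReal.ofReal_ne_top, lintegral_lintegral_swap]
        exact hm1.aemeasurable
    _ ≤ ENNReal.ofReal q * ∫⁻ t in Ioi (0 : ℝ), ENNReal.ofReal 10 * ∫⁻ x, w x *
        {t : ℝ | ENNReal.ofReal t < 2 * w x}.indicator
          (fun t => ENNReal.ofReal (t ^ (q - 1 - 1))) t := by
        gcongr ENNReal.ofReal q * ?_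
        refine setLIntegral_mono' measurableSet_Ioi fun t ht => ?_
        have ht0 : (0 : ℝ) < t := ht
        have h1 : ∫⁻ x, {t : ℝ | ENNReal.ofReal t < h x}.indicator
            (fun t => ENNReal.ofReal (t ^ (q - 1))) t =
            ENNReal.ofReal (t ^ (q - 1)) * volume {x | ENNReal.ofReal t < h x} := by
          rw [← setLIntegral_const, ← lintegral_indicator (measurableSet_lt measurable_const hhm)]
          rfl
        have h2 : ∫⁻ x, w x * {t : ℝ | ENNReal.ofReal t < 2 * w x}.indicator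
            (fun t => ENNReal.ofReal (t ^ (q - 1 - 1))) t =
            ENNReal.ofReal (t ^ (q - 1 - 1)) * ∫⁻ x in {x | ENNReal.ofReal t < 2 * w x}, w x := by
          rw [← lintegral_const_mul' _ _ ENNReal.ofReal_ne_top,
            ← lintegral_indicator (measurableSet_lt measurable_const (hw.const_mul 2))]
          refine lintegral_congr fun x => ?_
          by_cases hx : ENNReal.ofReal t < 2 * w x
          · rw [indicator_of_mem (show t ∈ {t : ℝ | ENNReal.ofReal t < 2 * w x} from hx),
              indicator_of_mem (show x ∈ {x : ℝ | ENNReal.ofReal t < 2 * w x} from hx), mul_comm]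
          · rw [indicator_of_notMem (show t ∉ {t : ℝ | ENNReal.ofReal t < 2 * w x} from hx),
              indicator_of_notMem (show x ∉ {x : ℝ | ENNReal.ofReal t < 2 * w x} from hx),
              mul_zero]
        rw [h1, h2]
        have h3 : volume {x | ENNReal.ofReal t < h x} ≤
            ENNReal.ofReal (10 / t) * ∫⁻ x in {x | ENNReal.ofReal t < 2 * w x}, w x :=
          (measure_mono fun x hx => lt_of_lt_of_le hx (hhle x)).trans (weak w hw t ht0)
        calc ENNReal.ofReal (t ^ (q - 1)) * volume {x | ENNReal.ofReal t < h x}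
            ≤ ENNReal.ofReal (t ^ (q - 1)) *
              (ENNReal.ofReal (10 / t) * ∫⁻ x in {x | ENNReal.ofReal t < 2 * w x}, w x) := by
              gcongr
          _ = ENNReal.ofReal 10 * (ENNReal.ofReal (t ^ (q - 1 - 1)) *
              ∫⁻ x in {x | ENNReal.ofReal t < 2 * w x}, w x) := by
              rw [← mul_assoc, ← mul_assoc, ← ENNReal.ofReal_mul (by positivity),
                ← ENNReal.ofReal_mul (by norm_num)]
              congr 2
              rw [Real.rpow_sub_one ht0.ne' (q - 1)]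
              ring
    _ = ENNReal.ofReal q * (ENNReal.ofReal 10 * ∫⁻ x, ∫⁻ t in Ioi (0 : ℝ), w x *
        {t : ℝ | ENNReal.ofReal t < 2 * w x}.indicator
          (fun t => ENNReal.ofReal (t ^ (q - 1 - 1))) t) := by
        rw [lintegral_const_mul' _ _ ENNReal.ofReal_ne_top, lintegral_lintegral_swap]
        exact (hm2.comp measurable_swap).aemeasurable
    _ = ENNReal.ofReal q * (ENNReal.ofReal 10 * ∫⁻ x, ENNReal.ofReal (2 ^ (q - 1) / (q - 1)) *
        w x ^ q) := by
        congr 2
        refine lintegral_congr fun x => ?_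
        have h1 := layer (q - 1) (by linarith) (2 * w x)
        have hqm : ENNReal.ofReal (q - 1) ≠ 0 := (ENNReal.ofReal_pos.mpr (by linarith)).ne'
        have h2 : ∫⁻ t in Ioi (0 : ℝ), {t : ℝ | ENNReal.ofReal t < 2 * w x}.indicator
            (fun t => ENNReal.ofReal (t ^ (q - 1 - 1))) t =
            (ENNReal.ofReal (q - 1))⁻¹ * (2 * w x) ^ (q - 1) := by
          rw [h1, ← mul_assoc, ENNReal.inv_mul_cancel hqm ENNReal.ofReal_ne_top, one_mul]
        rw [lintegral_const_mul, h2, ENNReal.mul_rpow_of_nonneg _ _ (by linarith)]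
        · have h3 : w x ^ q = w x * w x ^ (q - 1) := by
            conv_lhs => rw [show q = 1 + (q - 1) by ring]
            rw [ENNReal.rpow_add_of_nonneg _ _ (by norm_num) (by linarith), ENNReal.rpow_one]
          rw [h3, ENNReal.ofReal_div_of_pos (by linarith), ← ENNReal.ofReal_rpow_of_pos (by norm_num),
            ENNReal.ofReal_ofNat, ENNReal.div_eq_inv_mul]
          ring
        · refine Measurable.indicator ?_ (measurableSet_lt ENNReal.measurable_ofReal
            measurable_const)
          exact ENNReal.measurable_ofReal.comp (measurable_id.pow_const _)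
    _ = ENNReal.ofReal (q * (10 * (2 ^ (q - 1) / (q - 1)))) * ∫⁻ x, w x ^ q := by
        rw [lintegral_const_mul' _ _ ENNReal.ofReal_ne_top, ENNReal.ofReal_mul hq0.le,
          ENNReal.ofReal_mul (by norm_num)]
        ring
    _ ≤ ENNReal.ofReal (40 / (q - 1)) ^ q * ∫⁻ x, w x ^ q := by
        gcongr
        have hqm : 0 < q - 1 := by linarith
        rw [ENNReal.ofReal_rpow_of_pos (by positivity)]
        apply ENNReal.ofReal_le_ofReal
        have h1 : (2 : ℝ) ^ (q - 1) ≤ 2 := by
          calc (2 : ℝ) ^ (q - 1) ≤ 2 ^ (1 : ℝ) :=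
                Real.rpow_le_rpow_of_exponent_le (by norm_num) (by linarith)
            _ = 2 := Real.rpow_one 2
        have h2 : (1 : ℝ) ≤ 40 / (q - 1) := by
          rw [le_div_iff₀ hqm]
          linarith
        calc q * (10 * (2 ^ (q - 1) / (q - 1))) ≤ 2 * (10 * (2 / (q - 1))) := by gcongr
          _ = 40 / (q - 1) := by ring
          _ = (40 / (q - 1)) ^ (1 : ℝ) := (Real.rpow_one _).symm
          _ ≤ (40 / (q - 1)) ^ q := Real.rpow_le_rpow_of_exponent_le h2 hq.le

end Pool.NH61.FS.Max
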