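import Pool.Agent.NH61.FS.FinA

/-! # Project FS: the inequality for finitely many frequencies -/

set_option autoImplicit false

open MeasureTheory Set Filter Topology
open scoped SchwartzMap ENNReal

namespace Pool.NH61.FS.Fin

open Pool.Agent.Y282.RB (Tn Cn)
open Pool.Agent.R223.RD.Asm2 (T_cont T_le T_sub Tn_sum lim_le' KK KK_ne)
open Pool.NH61.FS.FinA

theorem step (n : ℕ) (p : ℝ) (hp : 2 ≤ p) (D : ℝ≥0∞) (hD : D ≠ ⊤) (J : Type) [Fintype J]
    (κ : J → ℤ) (hκ : Function.Injective κ) (f : J → 𝓢(ℂ, ℂ))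
    (happ : ∀ δ : ℝ, 0 < δ → ∃ g : J → 𝓢(ℂ, ℂ),
      (∀ j, ∀ a z : ℂ, ‖a‖ = 1 → g j (a * z) = a ^ κ j * g j z) ∧
      (∀ j, eLpNorm (f j - g j : 𝓢(ℂ, ℂ)) (ENNReal.ofReal p) (volume : Measure ℂ) ≤
        ENNReal.ofReal δ) ∧
      eLpNorm (fun z => ∑ j, Tn n (g j) z) (ENNReal.ofReal p) (volume : Measure ℂ) ≤
        D * eLpNorm (fun z => √(∑ j, ‖g j z‖ ^ 2)) (ENNReal.ofReal p) (volume : Measure ℂ)) :
    eLpNorm (Tn n fun z => ∑ j, f j z) (ENNReal.ofReal p) (volume : Measure ℂ) ≤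
      D * eLpNorm (fun z => ∑ j, f j z) (ENNReal.ofReal p) (volume : Measure ℂ) := by
  have hP1 : (1 : ℝ≥0∞) ≤ ENNReal.ofReal p := by
    rw [← ENNReal.ofReal_one]
    exact ENNReal.ofReal_le_ofReal (by linarith)
  refine lim_le' _ _ (∑ _j : J, KK n p) (∑ _j : J, 1) _
    (ENNReal.sum_ne_top.2 fun i _ => KK_ne _ _) (ENNReal.sum_ne_top.2 fun i _ => by norm_num)
    hD fun δ hδ => ?_
  obtain ⟨g, hg, hfg, hT⟩ := happ δ hδ
  have e1 : Tn n (fun z => ∑ j, f j z) =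
      (∑ j, Tn n (f j - g j : 𝓢(ℂ, ℂ))) + (fun z => ∑ j, Tn n (g j) z) := by
    rw [Tn_sum]
    funext z
    rw [Pi.add_apply, Finset.sum_apply, ← Finset.sum_add_distrib]
    refine Finset.sum_congr rfl fun j _ => ?_
    rw [T_sub n (f j) (g j) z, add_comm]
  have hcg : Continuous fun z => ∑ j, Tn n (g j) z := continuous_finsetSum _ fun i _ => T_cont _ _
  have hcd : ∀ j, Continuous (Tn n (f j - g j : 𝓢(ℂ, ℂ))) := fun j => T_cont _ _
  rw [e1]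
  refine (eLpNorm_add_le ?_ hcg.aestronglyMeasurable hP1).trans (add_le_add ?_ ?_)
  · exact Finset.aestronglyMeasurable_sum _ fun j _ => (hcd j).aestronglyMeasurable
  · refine (eLpNorm_sum_le (fun j _ => (hcd j).aestronglyMeasurable) hP1).trans ?_
    rw [Finset.sum_mul]
    refine Finset.sum_le_sum fun j _ => (T_le n p hp _).trans ?_
    gcongr
    exact hfg j
  · refine hT.trans ?_
    gcongr
    have h1 := (Pool.Agent.R223.RD.NK.main J κ p (fun j => ⇑(g j)) hκ hp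
      (fun j => (g j).continuous) hg).1
    refine h1.trans ?_
    have e2 : (fun z => ∑ j, g j z) = (fun z => ∑ j, f j z) - ∑ j, ⇑(f j - g j : 𝓢(ℂ, ℂ)) := by
      funext z
      rw [Pi.sub_apply, Finset.sum_apply, ← Finset.sum_sub_distrib]
      refine Finset.sum_congr rfl fun j _ => ?_
      show g j z = f j z - (f j z - g j z)
      ring
    rw [e2]
    have hcf : Continuous fun z => ∑ j, f j z :=
      continuous_finsetSum _ fun i _ => (f i).continuous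
    refine (eLpNorm_sub_le hcf.aestronglyMeasurable
      (Finset.aestronglyMeasurable_sum _ fun j _ =>
        (f j - g j : 𝓢(ℂ, ℂ)).continuous.aestronglyMeasurable) hP1).trans ?_
    gcongr
    refine (eLpNorm_sum_le
      (fun j _ => (f j - g j : 𝓢(ℂ, ℂ)).continuous.aestronglyMeasurable) hP1).trans ?_
    rw [Finset.sum_mul]
    exact Finset.sum_le_sum fun j _ => by rw [one_mul]; exact hfg j

lemma Ker_mono {B B' : ℝ} (h : B ≤ B') (β : ℝ → ℝ) (hβ : Ker B β) : Ker B' β := by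
  obtain ⟨h1, h2, m, hm, h3⟩ := hβ
  refine ⟨h1, h2, m, hm, ?_⟩
  rcases h3 with ⟨h4, h5⟩ | ⟨h4, h5, h6⟩
  · refine Or.inl ⟨h4, fun y hy => (h5 y hy).trans ?_⟩
    have : 0 < y := by linarith
    have : 0 ≤ m / (1 + m * (y - 1)) ^ 2 + y ^ (-(3 / 2) : ℝ) := by positivity
    gcongr
  · refine Or.inr ⟨h4, h5, fun y hy1 hy2 => (h6 y hy1 hy2).trans ?_⟩
    have : 0 ≤ m / (1 + m * (1 - y)) ^ 2 := by positivity
    gcongr

lemma Rep_mono {n : ℕ} {B B' : ℝ} (h : B ≤ B') (g : 𝓢(ℂ, ℂ)) (hg : Rep n B g) : Rep n B' g := by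
  obtain ⟨a, β, h1, h2, h3, h4, h5, h6⟩ := hg
  exact ⟨a, β, h1, h2, h3, h4, Ker_mono h β h5, h6⟩

/-- approximation, all types `k ≠ 2 n` -/
lemma rp (hRP1 : S_RP1) (hRP2 : S_RP2) (n : ℕ) (hn : 1 ≤ n) : ∃ B : ℝ, 1 ≤ B ∧
    ∀ (k : ℤ) (f : 𝓢(ℂ, ℂ)), k ≠ 2 * n → (∀ a z : ℂ, ‖a‖ = 1 → f (a * z) = a ^ k * f z) →
    ∀ p : ℝ, 2 ≤ p → ∀ ε : ℝ, 0 < ε →
    ∃ g : 𝓢(ℂ, ℂ), (∀ a z : ℂ, ‖a‖ = 1 → g (a * z) = a ^ k * g z) ∧ Rep n B g ∧
      eLpNorm (f - g : 𝓢(ℂ, ℂ)) (ENNReal.ofReal p) (volume : Measure ℂ) ≤ ENNReal.ofReal ε := by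
  obtain ⟨B1, hB1, h1⟩ := hRP1 n hn
  obtain ⟨B2, hB2, h2⟩ := hRP2 n hn
  refine ⟨max B1 B2, le_max_of_le_left hB1, fun k f hk hf p hp ε hε => ?_⟩
  rcases le_or_gt k n with h | h
  · obtain ⟨g, hg1, hg2, hg3⟩ := h2 k f h hf p hp ε hε
    exact ⟨g, hg1, Rep_mono (le_max_right _ _) g hg2, hg3⟩
  · obtain ⟨g, hg1, hg2, hg3⟩ := h1 k f h hk hf p hp ε hε
    exact ⟨g, hg1, Rep_mono (le_max_left _ _) g hg2, hg3⟩

/-- the bound for one type `k ≠ 2 n` in the form needed -/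
lemma bd (n : ℕ) (hn : 2 ≤ n) (k : ℤ) (hk : k ≠ 2 * n) (p : ℝ) (hp : 2 ≤ p) (f : 𝓢(ℂ, ℂ))
    (hf : ∀ a z : ℂ, ‖a‖ = 1 → f (a * z) = a ^ k * f z) :
    ∫⁻ z : ℂ, ENNReal.ofReal (‖Tn n f z‖ ^ p) ≤
      ENNReal.ofReal ((13 / 2 * (n : ℝ)) ^ p) * ∫⁻ z : ℂ, ENNReal.ofReal (‖f z‖ ^ p) := by
  have hp0 : 0 < p := by linarith
  have hn' : (2 : ℝ) ≤ n := by exact_mod_cast hn
  have h1 := Pool.Agent.R223.RX.Fin.boundB n hn k hk p hp f hf
  have h2 : eLpNorm (Tn n f) (ENNReal.ofReal p) (volume : Measure ℂ) ≤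
      ENNReal.ofReal (13 / 2 * (n : ℝ)) * eLpNorm f (ENNReal.ofReal p) (volume : Measure ℂ) := by
    refine h1.trans ?_
    gcongr
    calc (13 / 2 * (n : ℝ)) ^ (1 - 2 / p) ≤ (13 / 2 * (n : ℝ)) ^ (1 : ℝ) :=
          Real.rpow_le_rpow_of_exponent_le (by linarith) (by
            have : 0 ≤ 2 / p := by positivity
            linarith)
      _ = 13 / 2 * (n : ℝ) := Real.rpow_one _
  rw [Pool.Agent.R223.RD.NK.eLp _ p hp, Pool.Agent.R223.RD.NK.eLp _ p hp] at h2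
  have h3 := ENNReal.rpow_le_rpow h2 hp0.le
  rw [ENNReal.mul_rpow_of_nonneg _ _ hp0.le, ← ENNReal.rpow_mul, ← ENNReal.rpow_mul,
    one_div_mul_cancel hp0.ne', ENNReal.rpow_one, ENNReal.rpow_one,
    ENNReal.ofReal_rpow_of_nonneg (by positivity) hp0.le] at h3
  exact h3

theorem one (p : ℝ) (hp : 2 ≤ p) (S : Finset ℤ) (f : ℤ → 𝓢(ℂ, ℂ)) :
    eLpNorm (Tn 1 fun z => ∑ k ∈ S, f k z) (ENNReal.ofReal p) (volume : Measure ℂ) ≤
      ENNReal.ofReal (Cn p 1) *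
        eLpNorm (fun z => ∑ k ∈ S, f k z) (ENNReal.ofReal p) (volume : Measure ℂ) := by
  have hp0 : 0 < p := by linarith
  have e0 : (fun z => ∑ k ∈ S, f k z) = ⇑(∑ k ∈ S, f k) := by
    funext z
    simp
  rw [e0]
  have h := Pool.Agent.TH55.PowA.base p hp (∑ k ∈ S, f k)
  have e : Cn p 1 = p - 1 := by
    unfold Cn
    rw [Finset.prod_range_one]
    simp only [Nat.cast_zero, zero_add]
    field_simp
  rw [e]
  have e2 : Tn 1 ⇑(∑ k ∈ S, f k) =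
      Pool.Agent.TH55.PowA.T Pool.Agent.TH55.PowA.bs (∑ k ∈ S, f k) := by
    rw [Pool.Agent.Y282.RB.K.Tn_eq]
    simp only [pow_one]
  rw [e2]
  exact h

theorem main (hRP0 : S_RP0) (hRP1 : S_RP1) (hRP2 : S_RP2) (hANG : S_ANG) (hPOL : S_POL)
    (hCORE : S_CORE) : S_FIN := by
  intro n N hn
  rcases eq_or_lt_of_le hn with h1 | h1
  · subst h1
    exact ⟨16, le_rfl, fun p hp S f _ _ => one p (by linarith) S f⟩
  have hn2 : 2 ≤ n := h1
  have hn' : (2 : ℝ) ≤ n := by exact_mod_cast hn2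
  obtain ⟨B, hB, hrp⟩ := rp hRP1 hRP2 n hn
  obtain ⟨p0, hp0, hC⟩ := core_at hCORE n N B (13 / 2 * (n : ℝ)) hn hB (by linarith)
  refine ⟨p0, hp0, fun p hp S f hS hf => ?_⟩
  have hp16 : 16 ≤ p := hp0.trans hp
  have hp2 : 2 ≤ p := by linarith
  have hpp : 0 < p := by linarith
  classical
  set ι : Type := ↥(S.erase (2 * n : ℤ)) with hι
  set f0 : 𝓢(ℂ, ℂ) := if (2 * n : ℤ) ∈ S then f (2 * n) else 0 with hf0
  have hf0t : ∀ a z : ℂ, ‖a‖ = 1 → f0 (a * z) = a ^ (2 * n : ℤ) * f0 z := by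
    intro a z ha
    rw [hf0]
    split_ifs with h
    · exact hf _ h a z ha
    · simp
  have hsum : (fun z => ∑ k ∈ S, f k z) =
      fun z => ∑ j : Option ι, (Option.elim j f0 fun i => f i.1) z := by
    funext z
    rw [Fintype.sum_option]
    simp only [Option.elim]
    rw [Finset.sum_coe_sort (S.erase (2 * n : ℤ)) (fun k => f k z), hf0]
    split_ifs with h
    · exact (Finset.add_sum_erase S (fun k => f k z) h).symm
    · rw [Finset.erase_eq_of_notMem h]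
      simp
  rw [hsum]
  have hcard : Fintype.card ι ≤ N := by
    show Fintype.card ↥(S.erase (2 * n : ℤ)) ≤ N
    rw [Fintype.card_coe]
    exact (Finset.card_le_card (Finset.erase_subset _ _)).trans hS
  have hne : ∀ i : ι, i.1 ≠ 2 * (n : ℤ) := fun i => (Finset.mem_erase.1 i.2).1
  have hmem : ∀ i : ι, i.1 ∈ S := fun i => (Finset.mem_erase.1 i.2).2
  have hκ : Function.Injective (fun j : Option ι => Option.elim j (2 * n : ℤ) fun i => i.1) := by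
    rintro (_ | i) (_ | j) h
    · rfl
    · exact absurd h.symm (hne j)
    · exact absurd h (hne i)
    · exact congrArg some (Subtype.ext h)
  have hK0 : 0 ≤ Cn p n := by
    unfold Cn
    refine Finset.prod_nonneg fun j _ => ?_
    have h1 : 1 / p ≤ 1 := by rw [div_le_one hpp]; linarith
    have h2 : (0 : ℝ) < 1 / p := by positivity
    have h3 : (0 : ℝ) ≤ j := Nat.cast_nonneg j
    exact div_nonneg (by linarith) (by linarith)
  refine step n p hp2 (ENNReal.ofReal (Cn p n)) ENNReal.ofReal_ne_top (Option ι) _ hκ _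
    fun δ hδ => ?_
  obtain ⟨h, g0, hh, hR, -, hg0, hT0, hg0t, hfg0⟩ := hRP0 n f0 hf0t p hp2 δ hδ
  choose g hgt hgr hfg using fun i : ι => hrp i.1 (f i.1) (hne i) (hf i.1 (hmem i)) p hp2 δ hδ
  refine ⟨fun j => Option.elim j g0 g, ?_, ?_, ?_⟩
  · rintro (_ | i)
    · exact hg0t
    · exact hgt i
  · rintro (_ | i)
    · exact hfg0
    · exact hfg i
  · have hnice := nice hANG hPOL n N p B (13 / 2 * (n : ℝ)) hp16 (hC p hp) ι hcard h g0 hh hR
      hg0 hT0 (fun i => i.1) g hne hgt hgr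
      (fun i => bd n hn2 i.1 (hne i) p hp2 (g i) (hgt i))
    have e1 : (fun z => ∑ j : Option ι, Tn n (Option.elim j g0 g : 𝓢(ℂ, ℂ)) z) =
        fun z => Tn n g0 z + ∑ i, Tn n (g i) z := by
      funext z
      rw [Fintype.sum_option]
      rfl
    have e2 : (fun z => √(∑ j : Option ι, ‖(Option.elim j g0 g : 𝓢(ℂ, ℂ)) z‖ ^ 2)) =
        fun z => √(‖g0 z‖ ^ 2 + ∑ i, ‖g i z‖ ^ 2) := by
      funext z
      rw [Fintype.sum_option]
      rfl
    show eLpNorm (fun z => ∑ j : Option ι, Tn n (Option.elim j g0 g : 𝓢(ℂ, ℂ)) z) _ _ ≤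
      _ * eLpNorm (fun z => √(∑ j : Option ι, ‖(Option.elim j g0 g : 𝓢(ℂ, ℂ)) z‖ ^ 2)) _ _
    rw [e1, e2, Pool.Agent.R223.RD.NK.eLp _ p hp2, Pool.Agent.R223.RD.NK.eLp _ p hp2]
    have e3 : ENNReal.ofReal (Cn p n) = ENNReal.ofReal (Cn p n ^ p) ^ (1 / p) := by
      rw [ENNReal.ofReal_rpow_of_nonneg (by positivity) (by positivity), ← Real.rpow_mul hK0,
        mul_one_div_cancel hpp.ne', Real.rpow_one]
    rw [e3, ← ENNReal.mul_rpow_of_nonneg _ _ (by positivity)]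
    refine ENNReal.rpow_le_rpow ?_ (by positivity)
    refine le_trans (le_of_eq ?_) (hnice.trans (le_of_eq ?_))
    · refine lintegral_congr fun z => ?_
      rw [← ofReal_norm, ENNReal.ofReal_rpow_of_nonneg (norm_nonneg _) hpp.le]
    · congr 1
      refine lintegral_congr fun z => ?_
      have h0 : 0 ≤ ‖g0 z‖ ^ 2 + ∑ i, ‖g i z‖ ^ 2 :=
        add_nonneg (sq_nonneg _) (Finset.sum_nonneg fun i _ => sq_nonneg _)
      rw [Real.norm_of_nonneg (Real.sqrt_nonneg _), Real.sqrt_eq_rpow, ← Real.rpow_mul h0]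
      congr 2
      ring

end Pool.NH61.FS.Fin
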