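import Pool.Agent.NH61.FS.Def2
import Pool.Agent.NH61.FS.Fin

/-! # Project FS: the square function inequality for all types -/

set_option autoImplicit false

open MeasureTheory Set Filter Topology
open scoped SchwartzMap ENNReal

namespace Pool.NH61.FS.FinM

open Pool.Agent.Y282.RB (Tn Cn)
open Pool.Agent.R223.RD.Asm2 (T_cont T_le T_sub Tn_sum lim_le' KK KK_ne sq_split)
open Pool.NH61.FS.FinA Pool.NH61.FS.Fin

/-- the limit -/
theorem stepM (n : ℕ) (p : ℝ) (hp : 2 ≤ p) (D : ℝ≥0∞) (hD : D ≠ ⊤) (J : Type) [Fintype J]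
    (f : J → 𝓢(ℂ, ℂ))
    (happ : ∀ δ : ℝ, 0 < δ → ∃ g : J → 𝓢(ℂ, ℂ),
      (∀ j, eLpNorm (f j - g j : 𝓢(ℂ, ℂ)) (ENNReal.ofReal p) (volume : Measure ℂ) ≤
        ENNReal.ofReal δ) ∧
      eLpNorm (fun z => √(∑ j, ‖Tn n (g j) z‖ ^ 2)) (ENNReal.ofReal p) (volume : Measure ℂ) ≤
        D * eLpNorm (fun z => √(∑ j, ‖g j z‖ ^ 2)) (ENNReal.ofReal p) (volume : Measure ℂ)) :
    eLpNorm (fun z => √(∑ j, ‖Tn n (f j) z‖ ^ 2)) (ENNReal.ofReal p) (volume : Measure ℂ) ≤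
      D * eLpNorm (fun z => √(∑ j, ‖f j z‖ ^ 2)) (ENNReal.ofReal p) (volume : Measure ℂ) := by
  refine lim_le' _ _ (∑ _j : J, KK n p) (∑ _j : J, 1) _
    (ENNReal.sum_ne_top.2 fun i _ => KK_ne _ _) (ENNReal.sum_ne_top.2 fun i _ => by norm_num)
    hD fun δ hδ => ?_
  obtain ⟨g, hfg, hT⟩ := happ δ hδ
  have s1 := sq_split p hp (fun i => Tn n (f i)) (fun i => Tn n (g i))
    (fun i => Tn n (f i - g i : 𝓢(ℂ, ℂ))) (fun i => T_cont _ _) (fun i => T_cont _ _)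
    (fun i => T_cont _ _) (fun i z => by
      rw [T_sub n (f i) (g i) z]
      exact norm_add_le _ _)
  have s2 := sq_split p hp (fun i => ⇑(g i)) (fun i => ⇑(f i))
    (fun i => ⇑(f i - g i : 𝓢(ℂ, ℂ))) (fun i => (g i).continuous) (fun i => (f i).continuous)
    (fun i => (f i - g i).continuous) (fun i z => by
      have e : g i z = f i z - (f i - g i : 𝓢(ℂ, ℂ)) z := by
        show g i z = f i z - (f i z - g i z)
        ring
      rw [e]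
      exact norm_sub_le _ _)
  refine s1.trans ?_
  rw [add_comm]
  refine add_le_add ?_ ?_
  · rw [Finset.sum_mul]
    refine Finset.sum_le_sum fun i _ => (T_le n p hp _).trans ?_
    gcongr
    exact hfg i
  · refine hT.trans ?_
    gcongr
    refine s2.trans (add_le_add le_rfl ?_)
    rw [Finset.sum_mul]
    exact Finset.sum_le_sum fun i _ => by rw [one_mul]; exact hfg i

/-- the conclusion of `S_COREM` for one `p` -/
def CoreMAt (n : ℕ) (B C3 p : ℝ) : Prop :=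
  ∀ (ι : Type) [Fintype ι] (h : ℝ → ℂ), ContDiff ℝ (⊤ : ℕ∞) h →
  (∃ R : ℝ, ∀ x, R ≤ x → h x = 0) → ∀ (a β v : ι → ℝ → ℝ), (∀ i, Continuous (a i)) →
  (∀ i t, 0 ≤ a i t) →
  (∀ i, ∃ r R : ℝ, 0 < r ∧ (∀ t, t ≤ r → a i t = 0) ∧ ∀ t, R ≤ t → a i t = 0) →
  (∀ i, Ker B (β i)) → (∀ i, Measurable (v i)) → (∀ i t, 0 ≤ v i t) →
  (∀ i t, 0 < t → v i t ≤ a i t + ∫ y in Ioi (0 : ℝ), β i y * a i (y * t)) →
  ∫⁻ t in Ioi (0 : ℝ), ENNReal.ofReal ((∑ i, v i t ^ 2) ^ (p / 2)) ≤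
    ENNReal.ofReal ((C3 * p) ^ (p / 2)) *
      ∫⁻ t in Ioi (0 : ℝ), ENNReal.ofReal ((∑ i, a i t ^ 2) ^ (p / 2)) →
  ∫⁻ t in Ioi (0 : ℝ), ENNReal.ofReal
      ((‖iteratedDeriv n (fun x : ℝ => (x : ℂ) ^ n * h x) t‖ ^ 2 + ∑ i, v i t ^ 2) ^ (p / 2)) ≤
  ENNReal.ofReal (Cn p n ^ p) * ∫⁻ t in Ioi (0 : ℝ), ENNReal.ofReal
    ((‖(t : ℂ) ^ n * iteratedDeriv n h t‖ ^ 2 + ∑ i, a i t ^ 2) ^ (p / 2))

/-- the conclusion of `S_VEC` for one `p` -/
def VecAt (B C p : ℝ) : Prop :=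
  ∀ (ι : Type) [Fintype ι] (β : ι → ℝ → ℝ) (a v : ι → ℝ → ℝ≥0∞), (∀ i, Ker B (β i)) →
  (∀ i, Measurable (a i)) → (∀ i, Measurable (v i)) →
  (∀ i t, 0 < t → v i t ≤ a i t +
    ∫⁻ y in Ioi (0 : ℝ), ENNReal.ofReal (β i y) * a i (y * t)) →
  ∫⁻ t in Ioi (0 : ℝ), (∑ i, v i t ^ (2 : ℝ)) ^ (p / 2) ≠ ⊤ →
  ∫⁻ t in Ioi (0 : ℝ), (∑ i, v i t ^ (2 : ℝ)) ^ (p / 2) ≤
    ENNReal.ofReal (C * p) ^ (p / 2) * ∫⁻ t in Ioi (0 : ℝ), (∑ i, a i t ^ (2 : ℝ)) ^ (p / 2)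

lemma ofReal_int_le (s : Set ℝ) (g : ℝ → ℝ) (hg : ∀ x, 0 ≤ g x) :
    ENNReal.ofReal (∫ x in s, g x) ≤ ∫⁻ x in s, ENNReal.ofReal (g x) := by
  by_cases hi : Integrable g (volume.restrict s)
  · rw [ofReal_integral_eq_lintegral_ofReal hi (Eventually.of_forall hg)]
  · rw [integral_undef hi]
    simp

lemma sum_pow_ofReal {ι : Type} [Fintype ι] (v : ι → ℝ) (hv : ∀ i, 0 ≤ v i) (r : ℝ) (hr : 0 ≤ r) :
    (∑ i, ENNReal.ofReal (v i) ^ (2 : ℝ)) ^ r = ENNReal.ofReal ((∑ i, v i ^ 2) ^ r) := by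
  have h0 : 0 ≤ ∑ i, v i ^ 2 := Finset.sum_nonneg fun i _ => sq_nonneg _
  rw [← ENNReal.ofReal_rpow_of_nonneg h0 hr, ENNReal.ofReal_sum_of_nonneg fun i _ => sq_nonneg _]
  congr 1
  refine Finset.sum_congr rfl fun i _ => ?_
  rw [ENNReal.ofReal_rpow_of_nonneg (hv i) (by norm_num)]
  norm_num

/-- the plane inequality for nice data -/
theorem niceM (hPOL : S_POL) (n : ℕ) (p B C : ℝ) (hp : 16 ≤ p)
    (hCM : CoreMAt n B C p) (hV : VecAt B C p) (hC : 1 ≤ C) (ι : Type) [Fintype ι]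
    (h : ℝ → ℂ) (g0 : 𝓢(ℂ, ℂ)) (hh : ContDiff ℝ (⊤ : ℕ∞) h) (hR : ∃ R : ℝ, ∀ x, R ≤ x → h x = 0)
    (hg0 : ∀ z, ‖g0 z‖ = ‖((Complex.normSq z : ℝ) : ℂ) ^ n * iteratedDeriv n h (Complex.normSq z)‖)
    (hT0 : ∀ z, Tn n g0 z = iteratedDeriv n (fun t : ℝ => (t : ℂ) ^ n * h t) (Complex.normSq z))
    (k : ι → ℤ) (g : ι → 𝓢(ℂ, ℂ))
    (hg : ∀ i, ∀ a z : ℂ, ‖a‖ = 1 → g i (a * z) = a ^ k i * g i z)
    (hrep : ∀ i, Rep n B (g i)) :
    ∫⁻ z : ℂ, ENNReal.ofReal ((‖Tn n g0 z‖ ^ 2 + ∑ i, ‖Tn n (g i) z‖ ^ 2) ^ (p / 2)) ≤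
      ENNReal.ofReal (Cn p n ^ p) *
      ∫⁻ z : ℂ, ENNReal.ofReal ((‖g0 z‖ ^ 2 + ∑ i, ‖g i z‖ ^ 2) ^ (p / 2)) := by
  have hp0 : 0 < p := by linarith
  have hp2 : 2 ≤ p := by linarith
  have hTY : ∀ i, ∀ a z : ℂ, ‖a‖ = 1 →
      Tn n (g i) (a * z) = a ^ (k i - 2 * n) * Tn n (g i) z := fun i =>
    Pool.Agent.R223.RD.TY.main n (k i) (g i) (hg i)
  choose a β ha1 ha2 ha3 ha4 hβ ha5 using hrep
  set U : ℝ → ℝ := fun t => ‖iteratedDeriv n (fun x : ℝ => (x : ℂ) ^ n * h x) t‖ with hU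
  set F0 : ℝ → ℝ := fun t => ‖(t : ℂ) ^ n * iteratedDeriv n h t‖ with hF0
  set v : ι → ℝ → ℝ := fun i t => ‖Tn n (g i) ((√t : ℝ) : ℂ)‖ with hv
  have hcU : Continuous U := by
    have h1 : ContDiff ℝ (⊤ : ℕ∞) (fun x : ℝ => (x : ℂ) ^ n * h x) :=
      (Complex.ofRealCLM.contDiff.pow n).mul hh
    exact (h1.continuous_iteratedDeriv n (by exact_mod_cast le_top)).norm
  have hcF : Continuous F0 := by
    have h2 := hh.continuous_iteratedDeriv n (by exact_mod_cast le_top)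
    exact ((Complex.continuous_ofReal.pow n).mul h2).norm
  have hcv : ∀ i, Continuous (v i) := fun i =>
    ((T_cont n (g i)).comp (Complex.continuous_ofReal.comp Real.continuous_sqrt)).norm
  have hvz : ∀ i z, ‖Tn n (g i) z‖ = v i (Complex.normSq z) := fun i z =>
    radial_norm (k i - 2 * n) (Tn n (g i)) (hTY i) z
  have huz : ∀ z, ‖Tn n g0 z‖ = U (Complex.normSq z) := fun z => by rw [hT0]
  have hv0 : ∀ i t, 0 ≤ v i t := fun i t => norm_nonneg _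
  have hrepv : ∀ i t, 0 < t → v i t ≤ a i t + ∫ y in Ioi (0 : ℝ), β i y * a i (y * t) := by
    intro i t ht
    have h1 := ha5 i ((√t : ℝ) : ℂ) (by
      rw [Ne, Complex.ofReal_eq_zero, Real.sqrt_eq_zero']
      exact not_le.2 ht)
    rw [normSq_sqrt t ht.le] at h1
    exact h1
  have hcsv : Continuous fun t => ∑ i, v i t ^ 2 := continuous_finsetSum _ fun i _ => (hcv i).pow 2
  have hcsa : Continuous fun t => ∑ i, a i t ^ 2 :=
    continuous_finsetSum _ fun i _ => (ha1 i).pow 2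
  have hr0 : 0 ≤ p / 2 := by positivity
  -- the vector valued bound
  have hfin : ∫⁻ t in Ioi (0 : ℝ), ENNReal.ofReal ((∑ i, v i t ^ 2) ^ (p / 2)) ≠ ⊤ := by
    have h1 := hPOL (fun t => ENNReal.ofReal ((∑ i, v i t ^ 2) ^ (p / 2)))
      (ENNReal.measurable_ofReal.comp (hcsv.rpow_const fun _ => Or.inr hr0).measurable)
    have h2 : ∫⁻ z : ℂ, ENNReal.ofReal ((∑ i, v i (Complex.normSq z) ^ 2) ^ (p / 2)) ≠ ⊤ := by
      have s1 := sq_split p hp2 (fun i => Tn n (g i)) (fun _ _ => 0)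
        (fun i => Tn n (g i)) (fun i => T_cont _ _) (fun _ => continuous_const)
        (fun i => T_cont _ _) (fun i z => by simp)
      have s2 : eLpNorm (fun z : ℂ => Real.sqrt (∑ i : ι, ‖(0 : ℂ)‖ ^ 2)) (ENNReal.ofReal p)
          (volume : Measure ℂ) = 0 := by
        simp
      rw [s2, zero_add] at s1
      have s3 : eLpNorm (fun z : ℂ => √(∑ i, ‖Tn n (g i) z‖ ^ 2)) (ENNReal.ofReal p)
          (volume : Measure ℂ) ≠ ⊤ := by
        refine ne_top_of_le_ne_top (ENNReal.sum_ne_top.2 fun i _ => ?_) s1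
        refine ne_top_of_le_ne_top ?_ (T_le n p hp2 (g i))
        exact ENNReal.mul_ne_top (KK_ne _ _) ((g i).memLp _ _).2.ne
      rw [Pool.Agent.R223.RD.NK.eLp _ p hp2] at s3
      have s4 : ∫⁻ z : ℂ, ENNReal.ofReal (‖√(∑ i, ‖Tn n (g i) z‖ ^ 2)‖ ^ p) ≠ ⊤ := by
        intro h0
        rw [h0] at s3
        exact s3 (ENNReal.top_rpow_of_pos (by positivity))
      have e : ∀ z : ℂ, ‖√(∑ i, ‖Tn n (g i) z‖ ^ 2)‖ ^ p =
          (∑ i, v i (Complex.normSq z) ^ 2) ^ (p / 2) := by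
        intro z
        have h0 : 0 ≤ ∑ i, ‖Tn n (g i) z‖ ^ 2 := Finset.sum_nonneg fun i _ => sq_nonneg _
        rw [Real.norm_of_nonneg (Real.sqrt_nonneg _), Real.sqrt_eq_rpow, ← Real.rpow_mul h0]
        simp only [hvz]
        congr 1
        ring
      simp only [e] at s4
      exact s4
    rw [h1] at h2
    intro h0
    rw [h0] at h2
    exact h2 (ENNReal.mul_top (by simpa using Real.pi_pos))
  have hvec : ∫⁻ t in Ioi (0 : ℝ), ENNReal.ofReal ((∑ i, v i t ^ 2) ^ (p / 2)) ≤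
      ENNReal.ofReal ((C * p) ^ (p / 2)) *
        ∫⁻ t in Ioi (0 : ℝ), ENNReal.ofReal ((∑ i, a i t ^ 2) ^ (p / 2)) := by
    have h1 := hV ι β (fun i t => ENNReal.ofReal (a i t)) (fun i t => ENNReal.ofReal (v i t)) hβ
      (fun i => ENNReal.measurable_ofReal.comp (ha1 i).measurable)
      (fun i => ENNReal.measurable_ofReal.comp (hcv i).measurable)
      (fun i t ht => by
        refine (ENNReal.ofReal_le_ofReal (hrepv i t ht)).trans ?_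
        refine ENNReal.ofReal_add_le.trans (add_le_add le_rfl ?_)
        have hβ0 : ∀ y, 0 ≤ β i y := (hβ i).2.1
        refine (ofReal_int_le _ _ fun y => mul_nonneg (hβ0 y) (ha2 i _)).trans (le_of_eq ?_)
        refine lintegral_congr fun y => ?_
        rw [ENNReal.ofReal_mul (hβ0 y)])
      (by
        simp only [fun t => sum_pow_ofReal (fun i => v i t) (fun i => hv0 i t) (p / 2) hr0]
        exact hfin)
    simp only [fun t => sum_pow_ofReal (fun i => v i t) (fun i => hv0 i t) (p / 2) hr0,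
      fun t => sum_pow_ofReal (fun i => a i t) (fun i => ha2 i t) (p / 2) hr0] at h1
    rw [ENNReal.ofReal_rpow_of_nonneg (by positivity) hr0] at h1
    exact h1
  have hcore := hCM ι h hh hR a β v ha1 ha2 ha3 hβ (fun i => (hcv i).measurable) hv0 hrepv hvec
  have e1 : ∫⁻ z : ℂ, ENNReal.ofReal ((‖Tn n g0 z‖ ^ 2 + ∑ i, ‖Tn n (g i) z‖ ^ 2) ^ (p / 2)) =
      ENNReal.ofReal Real.pi * ∫⁻ t in Ioi (0 : ℝ), ENNReal.ofReal
        ((U t ^ 2 + ∑ i, v i t ^ 2) ^ (p / 2)) := by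
    rw [← hPOL (fun t => ENNReal.ofReal ((U t ^ 2 + ∑ i, v i t ^ 2) ^ (p / 2)))
      (ENNReal.measurable_ofReal.comp
        (((hcU.pow 2).add hcsv).rpow_const fun _ => Or.inr hr0).measurable)]
    refine lintegral_congr fun z => ?_
    simp only [hvz, huz]
  have e3 : ∫⁻ z : ℂ, ENNReal.ofReal ((‖g0 z‖ ^ 2 + ∑ i, ‖g i z‖ ^ 2) ^ (p / 2)) =
      ENNReal.ofReal Real.pi * ∫⁻ t in Ioi (0 : ℝ), ENNReal.ofReal
        ((F0 t ^ 2 + ∑ i, a i t ^ 2) ^ (p / 2)) := by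
    rw [← hPOL (fun t => ENNReal.ofReal ((F0 t ^ 2 + ∑ i, a i t ^ 2) ^ (p / 2)))
      (ENNReal.measurable_ofReal.comp
        (((hcF.pow 2).add hcsa).rpow_const fun _ => Or.inr hr0).measurable)]
    refine lintegral_congr fun z => ?_
    simp only [ha4, hg0, hF0]
  rw [e1, e3, mul_left_comm]
  gcongr

theorem main (hRP0 : S_RP0) (hRP1 : S_RP1) (hRP2 : S_RP2) (hPOL : S_POL)
    (hCOREM : S_COREM) (hVEC : S_VEC) : S_FINM := by
  intro n hn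
  obtain ⟨B, hB, hrp⟩ := rp hRP1 hRP2 n hn
  obtain ⟨C, hC, hV⟩ := hVEC B hB
  obtain ⟨p0, hp0, hCM⟩ := hCOREM n B C hn hB hC
  refine ⟨p0, hp0, fun p hp ι _ k f hk hf => ?_⟩
  have hp16 : 16 ≤ p := hp0.trans hp
  have hp2 : 2 ≤ p := by linarith
  have hpp : 0 < p := by linarith
  classical
  set ι' : Type := {i : ι // k i ≠ 2 * n} with hι'
  obtain ⟨f0, hf0t, hsum⟩ : ∃ f0 : 𝓢(ℂ, ℂ),
      (∀ a z : ℂ, ‖a‖ = 1 → f0 (a * z) = a ^ (2 * n : ℤ) * f0 z) ∧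
      ∀ φ : 𝓢(ℂ, ℂ) → ℝ, φ 0 = 0 → ∑ i, φ (f i) = φ f0 + ∑ i : ι', φ (f i.1) := by
    have hsub : ∀ φ : 𝓢(ℂ, ℂ) → ℝ, ∑ i : ι', φ (f i.1) =
        ∑ i ∈ Finset.univ.filter (fun i : ι => k i ≠ 2 * n), φ (f i) := by
      intro φ
      exact (Finset.sum_subtype (Finset.univ.filter (fun i : ι => k i ≠ 2 * n))
        (fun x => by simp) (fun i => φ (f i))).symm
    by_cases hex : ∃ i, k i = 2 * n
    · obtain ⟨i0, hi0⟩ := hex
      refine ⟨f i0, fun a z ha => by rw [hf i0 a z ha, hi0], fun φ _ => ?_⟩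
      rw [hsub φ]
      have e : Finset.univ.filter (fun i : ι => k i ≠ 2 * n) = Finset.univ.erase i0 := by
        ext i
        simp only [Finset.mem_filter, Finset.mem_univ, true_and, Finset.mem_erase, and_true]
        constructor
        · intro h1 h2
          exact h1 (h2 ▸ hi0)
        · intro h1 h2
          exact h1 (hk (h2.trans hi0.symm))
      rw [e]
      exact (Finset.add_sum_erase Finset.univ (fun i => φ (f i)) (Finset.mem_univ i0)).symm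
    · refine ⟨0, fun a z _ => by simp, fun φ hφ => ?_⟩
      rw [hsub φ, hφ, zero_add]
      have e : Finset.univ.filter (fun i : ι => k i ≠ 2 * n) = Finset.univ := by
        rw [Finset.filter_eq_self]
        intro i _ h1
        exact hex ⟨i, h1⟩
      rw [e]
  have hT0 : Tn n (0 : 𝓢(ℂ, ℂ)) = fun _ => 0 := by
    have h1 : Tn n (fun _ => (0 : ℂ)) = fun _ => 0 := by
      have := Tn_sum n (∅ : Finset ι) f
      simpa using this
    have e : (⇑(0 : 𝓢(ℂ, ℂ)) : ℂ → ℂ) = fun _ => 0 := by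
      funext z
      simp
    rw [e]
    exact h1
  have hs1 : ∀ z, ∑ i, ‖f i z‖ ^ 2 =
      ∑ j : Option ι', ‖(Option.elim j f0 fun i => f i.1 : 𝓢(ℂ, ℂ)) z‖ ^ 2 := by
    intro z
    rw [Fintype.sum_option]
    exact hsum (fun g => ‖g z‖ ^ 2) (by simp)
  have hs2 : ∀ z, ∑ i, ‖Tn n (f i) z‖ ^ 2 =
      ∑ j : Option ι', ‖Tn n (Option.elim j f0 fun i => f i.1 : 𝓢(ℂ, ℂ)) z‖ ^ 2 := by
    intro z
    rw [Fintype.sum_option]
    exact hsum (fun g => ‖Tn n g z‖ ^ 2) (by rw [hT0]; simp)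
  simp only [hs1, hs2]
  have hK0 : 0 ≤ Cn p n := by
    unfold Cn
    refine Finset.prod_nonneg fun j _ => ?_
    have h1 : 1 / p ≤ 1 := by rw [div_le_one hpp]; linarith
    have h2 : (0 : ℝ) < 1 / p := by positivity
    have h3 : (0 : ℝ) ≤ j := Nat.cast_nonneg j
    exact div_nonneg (by linarith) (by linarith)
  refine stepM n p hp2 (ENNReal.ofReal (Cn p n)) ENNReal.ofReal_ne_top (Option ι') _
    fun δ hδ => ?_
  obtain ⟨h, g0, hh, hR, -, hg0, hT0', hg0t, hfg0⟩ := hRP0 n f0 hf0t p hp2 δ hδ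
  choose g hgt hgr hfg using fun i : ι' => hrp (k i.1) (f i.1) i.2 (hf i.1) p hp2 δ hδ
  refine ⟨fun j => Option.elim j g0 g, ?_, ?_⟩
  · rintro (_ | i)
    · exact hfg0
    · exact hfg i
  · have hnice := niceM hPOL n p B C hp16 (hCM p hp) (hV p (by linarith)) hC ι' h g0 hh hR
      hg0 hT0' (fun i => k i.1) g hgt hgr
    have e1 : (fun z => √(∑ j : Option ι', ‖Tn n (Option.elim j g0 g : 𝓢(ℂ, ℂ)) z‖ ^ 2)) =
        fun z => √(‖Tn n g0 z‖ ^ 2 + ∑ i, ‖Tn n (g i) z‖ ^ 2) := by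
      funext z
      rw [Fintype.sum_option]
      rfl
    have e2 : (fun z => √(∑ j : Option ι', ‖(Option.elim j g0 g : 𝓢(ℂ, ℂ)) z‖ ^ 2)) =
        fun z => √(‖g0 z‖ ^ 2 + ∑ i, ‖g i z‖ ^ 2) := by
      funext z
      rw [Fintype.sum_option]
      rfl
    show eLpNorm (fun z => √(∑ j : Option ι', ‖Tn n (Option.elim j g0 g : 𝓢(ℂ, ℂ)) z‖ ^ 2)) _ _ ≤
      _ * eLpNorm (fun z => √(∑ j : Option ι', ‖(Option.elim j g0 g : 𝓢(ℂ, ℂ)) z‖ ^ 2)) _ _
    rw [e1, e2, Pool.Agent.R223.RD.NK.eLp _ p hp2, Pool.Agent.R223.RD.NK.eLp _ p hp2]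
    have e3 : ENNReal.ofReal (Cn p n) = ENNReal.ofReal (Cn p n ^ p) ^ (1 / p) := by
      rw [ENNReal.ofReal_rpow_of_nonneg (by positivity) (by positivity), ← Real.rpow_mul hK0,
        mul_one_div_cancel hpp.ne', Real.rpow_one]
    rw [e3, ← ENNReal.mul_rpow_of_nonneg _ _ (by positivity)]
    refine ENNReal.rpow_le_rpow ?_ (by positivity)
    have e4 : ∀ x : ℝ, 0 ≤ x → ‖√x‖ ^ p = x ^ (p / 2) := by
      intro x hx
      rw [Real.norm_of_nonneg (Real.sqrt_nonneg _), Real.sqrt_eq_rpow, ← Real.rpow_mul hx]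
      congr 1
      ring
    refine le_trans (le_of_eq ?_) (hnice.trans (le_of_eq ?_))
    · refine lintegral_congr fun z => ?_
      rw [e4 _ (add_nonneg (sq_nonneg _) (Finset.sum_nonneg fun i _ => sq_nonneg _))]
    · congr 1
      refine lintegral_congr fun z => ?_
      rw [e4 _ (add_nonneg (sq_nonneg _) (Finset.sum_nonneg fun i _ => sq_nonneg _))]

end Pool.NH61.FS.FinM
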