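import Pool.Agent.NH61.FS.Def3
import Pool.Agent.NH61.FS.FinM

/-! # Project FS: the mixed norm -/

set_option autoImplicit false

open MeasureTheory Set Filter Topology
open scoped SchwartzMap ENNReal

namespace Pool.NH61.FS.Mix

open Pool.Agent.Y282.RB (Tn Cn)
open Pool.Agent.R223.RD (mix)
open Pool.Agent.R223.RD.Asm2 (T_cont T_le T_sub Tn_sum lim_le' KK KK_ne)

theorem main (hFINM : S_FINM) (hMX : Pool.Agent.R223.RD.S_MX) (hMXH : S_MXH) (hMXT : S_MXT)
    (hAPX : S_APX) : S_MIX := by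
  intro n hn
  obtain ⟨p0, hp0, hF⟩ := hFINM n hn
  refine ⟨p0, hp0, fun p hp f => ?_⟩
  have hp2 : 2 ≤ p := by linarith
  set c : ℝ≥0∞ := ENNReal.ofReal ((2 * Real.pi) ^ (1 / 2 - 1 / p)) with hc
  refine lim_le' _ _ (c * KK n p) c _ (ENNReal.mul_ne_top ENNReal.ofReal_ne_top (KK_ne _ _))
    ENNReal.ofReal_ne_top ENNReal.ofReal_ne_top fun δ hδ => ?_
  obtain ⟨S, g, hg, hfg⟩ := hAPX f p hp2 δ hδ
  set G : 𝓢(ℂ, ℂ) := ∑ k ∈ S, g k with hG
  have e0 : (⇑G : ℂ → ℂ) = fun z => ∑ i : ↥S, g i.1 z := by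
    funext z
    rw [hG, Finset.sum_coe_sort S (fun k => g k z)]
    simp
  have e1 : Tn n G = fun z => ∑ i : ↥S, Tn n (g i.1) z := by
    have h1 : (⇑G : ℂ → ℂ) = fun z => ∑ k ∈ S, g k z := by
      funext z
      rw [hG]
      simp
    rw [h1, Tn_sum]
    funext z
    exact (Finset.sum_coe_sort S (fun k => Tn n (g k) z)).symm
  have m1 := hMX ↥S (fun i => i.1) p (fun i => ⇑(g i.1)) (fun a b h => Subtype.ext h) hp2
    (fun i => (g i.1).continuous) (fun i => hg i.1)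
  have m2 := hMX ↥S (fun i => i.1 - 2 * n) p (fun i => Tn n (g i.1))
    (fun a b h => Subtype.ext (by simpa using h)) hp2
    (fun i => T_cont _ _) (fun i => Pool.Agent.R223.RD.TY.main n i.1 (g i.1) (hg i.1))
  have hGG : mix p (Tn n G) ≤ ENNReal.ofReal (Cn p n) * mix p G := by
    rw [e1, e0, m1, m2]
    have h := hF p hp ↥S (fun i => i.1) (fun i => g i.1) (fun a b h => Subtype.ext h)
      (fun i => hg i.1)
    calc _ ≤ c * (ENNReal.ofReal (Cn p n) * _) := by
          gcongr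
      _ = _ := by ring
  have hfG : mix p (Tn n f) ≤ mix p (Tn n G) + c * KK n p * ENNReal.ofReal δ := by
    have h1 : Tn n f = fun z => Tn n G z + Tn n (f - G : 𝓢(ℂ, ℂ)) z := by
      funext z
      exact T_sub n f G z
    rw [h1]
    refine (hMXT p _ _ hp2 (T_cont _ _) (T_cont _ _)).trans ?_
    gcongr
    refine (hMXH p _ hp2 (T_cont _ _)).trans ?_
    rw [mul_assoc]
    gcongr
    refine (T_le n p hp2 _).trans ?_
    gcongr
  have hGf : mix p G ≤ mix p f + c * ENNReal.ofReal δ := by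
    have h1 : (⇑G : ℂ → ℂ) = fun z => f z + (G - f : 𝓢(ℂ, ℂ)) z := by
      funext z
      show G z = f z + (G z - f z)
      ring
    rw [h1]
    refine (hMXT p _ _ hp2 f.continuous (G - f : 𝓢(ℂ, ℂ)).continuous).trans ?_
    gcongr
    refine (hMXH p _ hp2 (G - f : 𝓢(ℂ, ℂ)).continuous).trans ?_
    gcongr
    have h2 : (⇑(G - f : 𝓢(ℂ, ℂ)) : ℂ → ℂ) = -⇑(f - G : 𝓢(ℂ, ℂ)) := by
      funext z
      show G z - f z = -(f z - G z)
      ring
    rw [h2, eLpNorm_neg]
    exact hfg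
  calc mix p (Tn n f) ≤ mix p (Tn n G) + c * KK n p * ENNReal.ofReal δ := hfG
    _ ≤ ENNReal.ofReal (Cn p n) * (mix p f + c * ENNReal.ofReal δ) +
        c * KK n p * ENNReal.ofReal δ := by
        gcongr
        exact hGG.trans (by gcongr)
    _ = _ := by rw [add_comm]

end Pool.NH61.FS.Mix
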