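import Pool.Agent.NH61.FS.Def3

/-! # Project FS: Pool.Agent.R223.RD.S_MX -/

set_option autoImplicit false

open MeasureTheory Set Filter Topology
open scoped SchwartzMap ENNReal

namespace Pool.NH61.FS.Mx

/-- radial functions in polar coordinates -/
theorem polar (ψ : ℝ → ℝ≥0∞) (hψ : Measurable ψ) :
    ∫⁻ z : ℂ, ψ ‖z‖ =
      ENNReal.ofReal (2 * Real.pi) * ∫⁻ r in Ioi (0 : ℝ), ψ r * ENNReal.ofReal r := by
  have h1 : ∀ q : ℝ × ℝ, ENNReal.ofReal q.1 • ψ ‖Complex.polarCoord.symm q‖ =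
      ψ |q.1| * ENNReal.ofReal q.1 := by
    intro q
    rw [Complex.norm_polarCoord_symm, smul_eq_mul, mul_comm]
  have hm : Measurable fun r : ℝ => ψ |r| * ENNReal.ofReal r :=
    (hψ.comp (by fun_prop)).mul ENNReal.measurable_ofReal
  rw [← Complex.lintegral_comp_polarCoord_symm]
  simp only [h1]
  have hm2 : Measurable fun q : ℝ × ℝ => ψ |q.1| * ENNReal.ofReal q.1 :=
    hm.comp measurable_fst
  rw [polarCoord_target, Measure.volume_eq_prod, ← Measure.prod_restrict,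
    lintegral_prod _ hm2.aemeasurable]
  simp only [lintegral_const, Measure.restrict_apply_univ, Real.volume_Ioo]
  rw [lintegral_mul_const _ hm, mul_comm]
  have h3 : ∫⁻ r in Ioi (0 : ℝ), ψ |r| * ENNReal.ofReal r =
      ∫⁻ r in Ioi (0 : ℝ), ψ r * ENNReal.ofReal r := by
    apply setLIntegral_congr_fun measurableSet_Ioi
    intro x hx
    simp only [mem_Ioi] at hx
    show ψ |x| * ENNReal.ofReal x = ψ x * ENNReal.ofReal x
    rw [abs_of_pos hx]
  rw [h3]
  congr 2
  ring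

theorem expint (m : ℤ) (hm : m ≠ 0) :
    ∫ θ in (0 : ℝ)..(2 * Real.pi), Complex.exp ((m : ℂ) * Complex.I * θ) = 0 := by
  have hc : (m : ℂ) * Complex.I ≠ 0 :=
    mul_ne_zero (by exact_mod_cast hm) Complex.I_ne_zero
  rw [integral_exp_mul_complex hc]
  have : Complex.exp ((m : ℂ) * Complex.I * ((2 * Real.pi : ℝ) : ℂ)) = 1 := by
    rw [Complex.exp_eq_one_iff]
    exact ⟨m, by push_cast; ring⟩
  rw [this]
  simp

theorem expand {ι : Type} [Fintype ι] (k : ι → ℤ) (c : ι → ℂ) (θ : ℝ) :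
    ((‖∑ i, Complex.exp (θ * Complex.I) ^ (k i) * c i‖ ^ 2 : ℝ) : ℂ) =
      ∑ i, ∑ j, Complex.exp (((k i - k j : ℤ) : ℂ) * Complex.I * θ) *
        (c i * (starRingEnd ℂ) (c j)) := by
  rw [Complex.ofReal_pow, ← Complex.mul_conj', map_sum, Finset.sum_mul_sum]
  refine Finset.sum_congr rfl fun i _ => Finset.sum_congr rfl fun j _ => ?_
  rw [map_mul, map_zpow₀, ← Complex.exp_conj]
  have h1 : (starRingEnd ℂ) ((θ : ℂ) * Complex.I) = -((θ : ℂ) * Complex.I) := by
    rw [map_mul, Complex.conj_ofReal, Complex.conj_I, mul_neg]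
  rw [h1, ← Complex.exp_int_mul, ← Complex.exp_int_mul]
  have h2 : Complex.exp (((k i - k j : ℤ) : ℂ) * Complex.I * θ) =
      Complex.exp ((k i : ℂ) * (θ * Complex.I)) * Complex.exp ((k j : ℂ) * -(θ * Complex.I)) := by
    rw [← Complex.exp_add]
    congr 1
    push_cast
    ring
  rw [h2]
  ring

theorem orth {ι : Type} [Fintype ι] (k : ι → ℤ) (hk : Function.Injective k) (c : ι → ℂ) :
    ∫ θ in (0 : ℝ)..(2 * Real.pi), (‖∑ i, Complex.exp (θ * Complex.I) ^ (k i) * c i‖ ^ 2 : ℝ) =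
      2 * Real.pi * ∑ i, ‖c i‖ ^ 2 := by
  classical
  apply Complex.ofReal_injective
  rw [← intervalIntegral.integral_ofReal]
  simp only [expand]
  have hcont : ∀ i j, Continuous fun θ : ℝ =>
      Complex.exp (((k i - k j : ℤ) : ℂ) * Complex.I * θ) * (c i * (starRingEnd ℂ) (c j)) := by
    intro i j
    fun_prop
  rw [intervalIntegral.integral_finsetSum
    (fun i _ => (continuous_finsetSum _ fun j _ => hcont i j).intervalIntegrable _ _)]
  have h1 : ∀ i, ∫ θ in (0 : ℝ)..(2 * Real.pi), ∑ j,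
      Complex.exp (((k i - k j : ℤ) : ℂ) * Complex.I * θ) * (c i * (starRingEnd ℂ) (c j)) =
      ((2 * Real.pi * ‖c i‖ ^ 2 : ℝ) : ℂ) := by
    intro i
    rw [intervalIntegral.integral_finsetSum (fun j _ => (hcont i j).intervalIntegrable _ _)]
    rw [Finset.sum_eq_single i]
    · simp only [sub_self, Int.cast_zero, zero_mul, Complex.exp_zero, one_mul]
      rw [intervalIntegral.integral_const, Complex.mul_conj']
      simp
    · intro j _ hj
      rw [intervalIntegral.integral_mul_const, expint _ (by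
        intro h
        exact hj (hk (by linarith)).symm), zero_mul]
    · intro h
      exact absurd (Finset.mem_univ i) h
  rw [Finset.sum_congr rfl fun i _ => h1 i, ← Complex.ofReal_sum, Finset.mul_sum]

/-- the angular integral -/
theorem ang {ι : Type} [Fintype ι] (k : ι → ℤ) (hk : Function.Injective k) (f : ι → ℂ → ℂ)
    (hf : ∀ i, ∀ a z : ℂ, ‖a‖ = 1 → f i (a * z) = a ^ (k i) * f i z) (r : ℝ) :
    ∫⁻ θ in Ioc (0 : ℝ) (2 * Real.pi),
      ‖∑ i, f i (r * Complex.exp (θ * Complex.I))‖ₑ ^ (2 : ℝ) =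
      ENNReal.ofReal (2 * Real.pi * ∑ i, ‖f i r‖ ^ 2) := by
  rw [← orth k hk, intervalIntegral.integral_of_le (by positivity),
    ofReal_integral_eq_lintegral_ofReal]
  · apply lintegral_congr
    intro θ
    have h1 : ∀ i, f i (r * Complex.exp (θ * Complex.I)) =
        Complex.exp (θ * Complex.I) ^ (k i) * f i r := by
      intro i
      rw [mul_comm (r : ℂ), hf i _ _ (Complex.norm_exp_ofReal_mul_I θ)]
    simp only [h1]
    rw [← ofReal_norm, ENNReal.ofReal_rpow_of_nonneg (norm_nonneg _) (by norm_num)]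
    norm_num
  · have h2 : Continuous fun θ : ℝ =>
        (‖∑ i, Complex.exp (θ * Complex.I) ^ (k i) * f i r‖ ^ 2 : ℝ) := by
      have h3 : ∀ i, Continuous fun θ : ℝ => Complex.exp (θ * Complex.I) ^ (k i) * f i r := by
        intro i
        have h4 : Continuous fun θ : ℝ => Complex.exp (θ * Complex.I) := by fun_prop
        exact (h4.zpow₀ _ fun θ => Or.inl (Complex.exp_ne_zero _)).mul continuous_const
      exact (continuous_finsetSum _ fun i _ => h3 i).norm.pow 2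
    exact h2.integrableOn_Ioc
  · exact Filter.Eventually.of_forall fun θ => by positivity

theorem rad {ι : Type} [Fintype ι] (k : ι → ℤ) (f : ι → ℂ → ℂ)
    (hf : ∀ i, ∀ a z : ℂ, ‖a‖ = 1 → f i (a * z) = a ^ (k i) * f i z) (z : ℂ) (i : ι) :
    ‖f i z‖ = ‖f i (‖z‖ : ℝ)‖ := by
  rcases eq_or_ne z 0 with rfl | hz
  · simp
  · have h0 : (‖z‖ : ℂ) ≠ 0 := by exact_mod_cast (norm_pos_iff.2 hz).ne'
    have h1 : ‖z / ‖z‖‖ = 1 := by
      rw [norm_div, Complex.norm_real, norm_norm, div_self (norm_pos_iff.2 hz).ne']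
    have h2 := hf i (z / ‖z‖) (‖z‖ : ℝ) h1
    rw [div_mul_cancel₀ _ h0] at h2
    rw [h2, norm_mul, norm_zpow, h1, one_zpow, one_mul]

theorem main : Pool.Agent.R223.RD.S_MX := by
  intro ι _ k p f hk hp hc hf
  have hp0 : 0 < p := by linarith
  unfold Pool.Agent.R223.RD.mix
  simp only [ang k hk f hf]
  have hS : ∀ z : ℂ, (∑ i, ‖f i z‖ ^ 2) = ∑ i, ‖f i (‖z‖ : ℝ)‖ ^ 2 := fun z =>
    Finset.sum_congr rfl fun i _ => by rw [rad k f hf z i]
  have hcS : Continuous fun r : ℝ => ∑ i, ‖f i (r : ℂ)‖ ^ 2 :=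
    continuous_finsetSum _ fun i _ => ((hc i).comp Complex.continuous_ofReal).norm.pow 2
  have h1 : eLpNorm (fun z : ℂ => Real.sqrt (∑ i, ‖f i z‖ ^ 2)) (ENNReal.ofReal p)
      (volume : Measure ℂ) =
      (ENNReal.ofReal (2 * Real.pi) * ∫⁻ r in Ioi (0 : ℝ),
        ENNReal.ofReal (∑ i, ‖f i (r : ℂ)‖ ^ 2) ^ (p / 2) * ENNReal.ofReal r) ^ (1 / p) := by
    rw [eLpNorm_eq_lintegral_rpow_enorm_toReal (by simpa using hp0) ENNReal.ofReal_ne_top,
      ENNReal.toReal_ofReal hp0.le,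
      ← polar (fun r => ENNReal.ofReal (∑ i, ‖f i (r : ℂ)‖ ^ 2) ^ (p / 2))
        ((ENNReal.measurable_ofReal.comp hcS.measurable).pow_const _)]
    congr 1
    apply lintegral_congr
    intro z
    rw [hS z, ← ofReal_norm, Real.norm_of_nonneg (Real.sqrt_nonneg _),
      Real.sqrt_eq_rpow, ← ENNReal.ofReal_rpow_of_nonneg (by positivity) (by norm_num),
      ← ENNReal.rpow_mul]
    congr 1
    ring
  rw [h1]
  have hpi : (0 : ℝ) < 2 * Real.pi := by positivity
  have h2 : ∀ r : ℝ, ENNReal.ofReal (2 * Real.pi * ∑ i, ‖f i (r : ℂ)‖ ^ 2) ^ (p / 2) *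
      ENNReal.ofReal r = ENNReal.ofReal (2 * Real.pi) ^ (p / 2) *
      (ENNReal.ofReal (∑ i, ‖f i (r : ℂ)‖ ^ 2) ^ (p / 2) * ENNReal.ofReal r) := by
    intro r
    rw [ENNReal.ofReal_mul hpi.le, ENNReal.mul_rpow_of_nonneg _ _ (by positivity), mul_assoc]
  simp only [h2]
  have hm : Measurable fun r : ℝ =>
      ENNReal.ofReal (∑ i, ‖f i (r : ℂ)‖ ^ 2) ^ (p / 2) * ENNReal.ofReal r :=
    ((ENNReal.measurable_ofReal.comp hcS.measurable).pow_const _).mul ENNReal.measurable_ofReal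
  rw [lintegral_const_mul _ hm, ENNReal.mul_rpow_of_nonneg _ _ (by positivity),
    ENNReal.mul_rpow_of_nonneg _ _ (by positivity), ← mul_assoc]
  congr 1
  rw [← ENNReal.rpow_mul, ENNReal.ofReal_rpow_of_pos hpi, ENNReal.ofReal_rpow_of_pos hpi,
    ← ENNReal.ofReal_mul (by positivity), ← Real.rpow_add hpi]
  congr 2
  field_simp
  ring

end Pool.NH61.FS.Mx
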