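import Pool.Agent.NH61.FS.Def3

/-! # Project FS: S_MXH -/

set_option autoImplicit false

open MeasureTheory Set Filter Topology
open scoped SchwartzMap ENNReal

namespace Pool.NH61.FS.Mxh

/-- the angular integral over `(-π, π)` and over `(0, 2π]` -/
theorem shift (F : ℝ → ℝ≥0∞) (hF : ∀ t, F (t + 2 * Real.pi) = F t) :
    ∫⁻ θ in Ioo (-Real.pi) Real.pi, F θ = ∫⁻ θ in Ioc (0 : ℝ) (2 * Real.pi), F θ := by
  rw [setLIntegral_congr Ioo_ae_eq_Ioc]
  have h1 := isAddFundamentalDomain_Ioc Real.two_pi_pos (-Real.pi) (μ := volume)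
  have h2 := isAddFundamentalDomain_Ioc Real.two_pi_pos 0 (μ := volume)
  have h3 := h1.setLIntegral_eq h2 F ?_
  · rw [show -Real.pi + 2 * Real.pi = Real.pi by ring, zero_add] at h3
    exact h3
  · rintro ⟨g, hg⟩ x
    obtain ⟨k, rfl⟩ := hg
    have hper : Function.Periodic F (2 * Real.pi) := hF
    show F (k • (2 * Real.pi) + x) = F x
    rw [add_comm]
    exact hper.zsmul k x

/-- the angular Hölder inequality -/
theorem hold (p : ℝ) (hp : 2 ≤ p) (f : ℝ → ℂ) (hf : Continuous f) :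
    (∫⁻ θ in Ioc (0 : ℝ) (2 * Real.pi), ‖f θ‖ₑ ^ (2 : ℝ)) ^ (p / 2) ≤
      ENNReal.ofReal ((2 * Real.pi) ^ (1 / 2 - 1 / p)) ^ p *
        ∫⁻ θ in Ioc (0 : ℝ) (2 * Real.pi), ‖f θ‖ₑ ^ p := by
  have hp0 : 0 < p := by linarith
  have h1 := eLpNorm'_le_eLpNorm'_mul_rpow_measure_univ (p := 2) (q := p)
    (μ := volume.restrict (Ioc (0 : ℝ) (2 * Real.pi))) (by norm_num) hp hf.aestronglyMeasurable
  rw [eLpNorm', eLpNorm', Measure.restrict_apply_univ, Real.volume_Ioc, sub_zero,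
    ENNReal.ofReal_rpow_of_pos Real.two_pi_pos] at h1
  have h2 := ENNReal.rpow_le_rpow h1 hp0.le
  rw [ENNReal.mul_rpow_of_nonneg _ _ hp0.le, ← ENNReal.rpow_mul, ← ENNReal.rpow_mul,
    one_div_mul_cancel hp0.ne', ENNReal.rpow_one, show (1 / 2 * p : ℝ) = p / 2 by ring] at h2
  exact h2.trans (le_of_eq (mul_comm _ _))

theorem main : S_MXH := by
  intro p g hp hg
  have hp0 : 0 < p := by linarith
  set C : ℝ≥0∞ := ENNReal.ofReal ((2 * Real.pi) ^ (1 / 2 - 1 / p)) with hC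
  have h1 : eLpNorm g (ENNReal.ofReal p) (volume : Measure ℂ) =
      (∫⁻ z, ‖g z‖ₑ ^ p) ^ (1 / p) := by
    rw [eLpNorm_eq_lintegral_rpow_enorm_toReal (by simpa using hp0) ENNReal.ofReal_ne_top,
      ENNReal.toReal_ofReal hp0.le]
  have hmz : Measurable fun q : ℝ × ℝ => ‖g (q.1 * Complex.exp (q.2 * Complex.I))‖ₑ ^ p := by
    have : Continuous fun q : ℝ × ℝ => g (q.1 * Complex.exp (q.2 * Complex.I)) := by fun_prop
    exact (this.enorm.measurable).pow_const p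
  have h2 : ∫⁻ z, ‖g z‖ₑ ^ p = ∫⁻ r in Ioi (0 : ℝ), ENNReal.ofReal r *
      ∫⁻ θ in Ioc (0 : ℝ) (2 * Real.pi), ‖g (r * Complex.exp (θ * Complex.I))‖ₑ ^ p := by
    rw [← Complex.lintegral_comp_polarCoord_symm]
    have h3 : ∀ q : ℝ × ℝ, ENNReal.ofReal q.1 • ‖g (Complex.polarCoord.symm q)‖ₑ ^ p =
        ENNReal.ofReal q.1 * ‖g (q.1 * Complex.exp (q.2 * Complex.I))‖ₑ ^ p := by
      intro q
      rw [smul_eq_mul, Complex.polarCoord_symm_apply, Complex.exp_mul_I, Complex.ofReal_cos,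
        Complex.ofReal_sin]
    simp only [h3]
    have hmz2 : Measurable fun q : ℝ × ℝ => ENNReal.ofReal q.1 *
        ‖g (q.1 * Complex.exp (q.2 * Complex.I))‖ₑ ^ p :=
      (ENNReal.measurable_ofReal.comp measurable_fst).mul hmz
    rw [polarCoord_target, Measure.volume_eq_prod, ← Measure.prod_restrict,
      lintegral_prod _ hmz2.aemeasurable]
    refine lintegral_congr fun r => ?_
    show ∫⁻ θ in Ioo (-Real.pi) Real.pi,
      ENNReal.ofReal r * ‖g (r * Complex.exp (θ * Complex.I))‖ₑ ^ p = _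
    have hm : Measurable fun θ : ℝ => ‖g (r * Complex.exp (θ * Complex.I))‖ₑ ^ p :=
      hmz.comp measurable_prodMk_left
    rw [lintegral_const_mul _ hm, shift]
    intro t
    congr 3
    rw [Complex.ofReal_add, add_mul, Complex.exp_add]
    have : Complex.exp (((2 * Real.pi : ℝ) : ℂ) * Complex.I) = 1 := by
      push_cast
      exact Complex.exp_two_pi_mul_I
    rw [this, mul_one]
  rw [h1, h2, Pool.Agent.R223.RD.mix]
  have h4 : C * (∫⁻ r in Ioi (0 : ℝ), ENNReal.ofReal r *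
      ∫⁻ θ in Ioc (0 : ℝ) (2 * Real.pi), ‖g (r * Complex.exp (θ * Complex.I))‖ₑ ^ p) ^ (1 / p) =
      (C ^ p * ∫⁻ r in Ioi (0 : ℝ), ENNReal.ofReal r *
      ∫⁻ θ in Ioc (0 : ℝ) (2 * Real.pi), ‖g (r * Complex.exp (θ * Complex.I))‖ₑ ^ p) ^ (1 / p) := by
    rw [ENNReal.mul_rpow_of_nonneg _ _ (by positivity), ← ENNReal.rpow_mul,
      mul_one_div_cancel hp0.ne', ENNReal.rpow_one]
  rw [h4]
  refine ENNReal.rpow_le_rpow ?_ (by positivity)
  rw [← lintegral_const_mul' _ _ (ENNReal.rpow_ne_top_of_nonneg hp0.le ENNReal.ofReal_ne_top)]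
  refine lintegral_mono fun r => ?_
  have h5 := hold p hp (fun θ : ℝ => g (r * Complex.exp (θ * Complex.I))) (by fun_prop)
  calc _ ≤ (C ^ p * ∫⁻ θ in Ioc (0 : ℝ) (2 * Real.pi),
        ‖g (r * Complex.exp (θ * Complex.I))‖ₑ ^ p) * ENNReal.ofReal r := by gcongr
    _ = _ := by ring

end Pool.NH61.FS.Mxh
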