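import Pool.Agent.NH61.FS.Def3

/-! # Project FS: S_MXT, the triangle inequality of the mixed norm (helper2) -/

set_option autoImplicit false

open MeasureTheory Set Filter Topology
open scoped SchwartzMap ENNReal

namespace Pool.NH61.FS.Mxt

open Pool.Agent.R223.RD (mix)

/-- the angular norm at the radius `r` -/
private noncomputable def NN (g : ℂ → ℂ) (r : ℝ) : ℝ≥0∞ :=
  (∫⁻ θ in Ioc (0 : ℝ) (2 * Real.pi), ‖g (r * Complex.exp (θ * Complex.I))‖ₑ ^ (2 : ℝ)) ^ (1 / (2 : ℝ))

private lemma meas_prod (g : ℂ → ℂ) (hg : Continuous g) :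
    Measurable (fun q : ℝ × ℝ => ‖g (q.1 * Complex.exp (q.2 * Complex.I))‖ₑ) := by
  have h : Continuous (fun q : ℝ × ℝ => g (q.1 * Complex.exp (q.2 * Complex.I))) := by
    fun_prop
  exact h.measurable.enorm

private lemma meas_NN (g : ℂ → ℂ) (hg : Continuous g) : Measurable (NN g) := by
  unfold NN
  have h := (meas_prod g hg).pow_const (2 : ℝ)
  exact (Measurable.lintegral_prod_right' (ν := volume.restrict (Ioc (0 : ℝ) (2 * Real.pi))) h).pow_const _

private lemma meas_ang (g : ℂ → ℂ) (hg : Continuous g) (r : ℝ) :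
    Measurable (fun θ : ℝ => ‖g (r * Complex.exp (θ * Complex.I))‖ₑ) := by
  have h : Continuous (fun θ : ℝ => g (r * Complex.exp (θ * Complex.I))) := by
    fun_prop
  exact h.measurable.enorm

private lemma NN_add (g h : ℂ → ℂ) (hg : Continuous g) (hh : Continuous h) (r : ℝ) :
    NN (fun z => g z + h z) r ≤ NN g r + NN h r := by
  unfold NN
  have h1 := ENNReal.lintegral_Lp_add_le (μ := volume.restrict (Ioc (0 : ℝ) (2 * Real.pi)))
    (p := 2) (meas_ang g hg r).aemeasurable (meas_ang h hh r).aemeasurable (by norm_num)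
  refine le_trans (ENNReal.rpow_le_rpow (lintegral_mono fun θ => ?_) (by norm_num)) h1
  exact ENNReal.rpow_le_rpow (enorm_add_le _ _) (by norm_num)

private lemma mix_eq (p : ℝ) (hp : 2 ≤ p) (g : ℂ → ℂ) :
    mix p g = (∫⁻ r in Ioi (0 : ℝ), (NN g r * (ENNReal.ofReal r) ^ (1 / p)) ^ p) ^ (1 / p) := by
  unfold mix
  have hp0 : 0 < p := by linarith
  congr 1
  refine lintegral_congr fun r => ?_
  rw [ENNReal.mul_rpow_of_nonneg _ _ hp0.le, ← ENNReal.rpow_mul, one_div_mul_cancel hp0.ne',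
    ENNReal.rpow_one]
  congr 1
  unfold NN
  rw [← ENNReal.rpow_mul]
  congr 1
  ring

theorem main : S_MXT := by
  intro p g h hp hg hh
  have hp0 : 0 < p := by linarith
  rw [mix_eq p hp, mix_eq p hp, mix_eq p hp]
  have hw : Measurable (fun r : ℝ => (ENNReal.ofReal r) ^ (1 / p)) :=
    ENNReal.measurable_ofReal.pow_const _
  have h1 := ENNReal.lintegral_Lp_add_le (μ := volume.restrict (Ioi (0 : ℝ)))
    (p := p) ((meas_NN g hg).mul hw).aemeasurable ((meas_NN h hh).mul hw).aemeasurable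
    (by linarith)
  refine le_trans (ENNReal.rpow_le_rpow (lintegral_mono fun r => ?_) (by positivity)) h1
  refine ENNReal.rpow_le_rpow ?_ hp0.le
  have h2 := NN_add g h hg hh r
  calc NN (fun z => g z + h z) r * (ENNReal.ofReal r) ^ (1 / p)
      ≤ (NN g r + NN h r) * (ENNReal.ofReal r) ^ (1 / p) := mul_le_mul_left h2 _
    _ = _ := by
      rw [add_mul]
      rfl

end Pool.NH61.FS.Mxt
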