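import Pool.Agent.NH61.FS.Def2

/-! # Project FS: the vector valued bound -/

set_option autoImplicit false

open MeasureTheory Set Filter Topology
open scoped SchwartzMap ENNReal

namespace Pool.NH61.FS.Vec

lemma rho_ge {y : ℝ} (hy : 0 < y) : 1 ≤ rho y := by
  unfold rho
  rcases le_total 1 y with h | h
  · exact le_max_of_le_left h
  · exact le_max_of_le_right ((one_le_inv₀ hy).2 h)

lemma ker_int (h1 : S_KI) {B : ℝ} (hB : 0 ≤ B) {β : ℝ → ℝ} (hk : Ker B β) :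
    ∫⁻ y in Ioi (0 : ℝ), ENNReal.ofReal (β y) ≤ ENNReal.ofReal (6 * B) := by
  refine le_trans ?_ (h1 B β hB hk)
  refine setLIntegral_mono' measurableSet_Ioi fun y hy => ?_
  apply ENNReal.ofReal_le_ofReal
  have h0 := hk.2.1 y
  have h2 := Real.one_le_rpow (rho_ge hy) (by norm_num : (0:ℝ) ≤ 1/4)
  exact le_mul_of_one_le_right h0 h2

/-- Cauchy-Schwarz -/
lemma cs (μ : Measure ℝ) {b g : ℝ → ℝ≥0∞} (hb : Measurable b) (hg : Measurable g) :
    (∫⁻ y, b y * g y ∂μ) ^ (2:ℝ) ≤ (∫⁻ y, b y ∂μ) * ∫⁻ y, b y * g y ^ (2:ℝ) ∂μ := by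
  have hb2 : Measurable fun y => b y ^ (1/2:ℝ) := hb.pow_const _
  have h := ENNReal.lintegral_mul_le_Lp_mul_Lq μ Real.HolderConjugate.two_two
    (f := fun y => b y ^ (1/2:ℝ)) (g := fun y => b y ^ (1/2:ℝ) * g y)
    hb2.aemeasurable (hb2.mul hg).aemeasurable
  have e : ∀ y, b y ^ (1/2:ℝ) * b y ^ (1/2:ℝ) = b y := by
    intro y
    rw [← ENNReal.rpow_add_of_nonneg _ _ (by norm_num) (by norm_num)]
    norm_num
  have e1 : ∀ y, ((fun y => b y ^ (1/2:ℝ)) * fun y => b y ^ (1/2:ℝ) * g y) y = b y * g y := by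
    intro y
    simp only [Pi.mul_apply]
    rw [← mul_assoc, e]
  have e2 : ∀ y, (b y ^ (1/2:ℝ)) ^ (2:ℝ) = b y := by
    intro y
    rw [← ENNReal.rpow_mul]; norm_num
  have e3 : ∀ y, (b y ^ (1/2:ℝ) * g y) ^ (2:ℝ) = b y * g y ^ (2:ℝ) := by
    intro y
    rw [ENNReal.mul_rpow_of_nonneg _ _ (by norm_num), e2]
  simp only [e1, e2, e3] at h
  calc (∫⁻ y, b y * g y ∂μ) ^ (2:ℝ)
      ≤ ((∫⁻ y, b y ∂μ) ^ (1/2:ℝ) * (∫⁻ y, b y * g y ^ (2:ℝ) ∂μ) ^ (1/2:ℝ)) ^ (2:ℝ) :=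
        ENNReal.rpow_le_rpow h (by norm_num)
    _ = _ := by
        rw [ENNReal.mul_rpow_of_nonneg _ _ (by norm_num), ← ENNReal.rpow_mul, ← ENNReal.rpow_mul]
        norm_num

/-- scaling -/
lemma scale {f : ℝ → ℝ≥0∞} (hf : Measurable f) {y : ℝ} (hy : 0 < y) :
    ∫⁻ t in Ioi (0:ℝ), f (y * t) = ENNReal.ofReal y⁻¹ * ∫⁻ s in Ioi (0:ℝ), f s := by
  rw [← lintegral_indicator measurableSet_Ioi, ← lintegral_indicator measurableSet_Ioi]
  have e : ∀ t, (Ioi (0:ℝ)).indicator (fun t => f (y * t)) t =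
      (Ioi (0:ℝ)).indicator f (y * t) := by
    intro t
    by_cases ht : 0 < t
    · rw [indicator_of_mem (show t ∈ Ioi (0:ℝ) from ht),
        indicator_of_mem (show y * t ∈ Ioi (0:ℝ) from mul_pos hy ht)]
    · rw [indicator_of_notMem (show t ∉ Ioi (0:ℝ) from ht),
        indicator_of_notMem (show y * t ∉ Ioi (0:ℝ) from fun h => ht (pos_of_mul_pos_right h hy.le))]
  simp_rw [e]
  have hm : Measurable ((Ioi (0:ℝ)).indicator f) := hf.indicator measurableSet_Ioi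
  have := lintegral_map (μ := volume) hm (measurable_const_mul y)
  rw [← this, Real.map_volume_mul_left hy.ne', lintegral_smul_measure, abs_of_pos (inv_pos.2 hy),
    smul_eq_mul]

/-- the substitution -/
lemma swap {b a w : ℝ → ℝ≥0∞} (hb : Measurable b) (ha : Measurable a) (hw : Measurable w) :
    ∫⁻ t in Ioi (0:ℝ), w t * ∫⁻ y in Ioi (0:ℝ), b y * a (y * t) =
      ∫⁻ s in Ioi (0:ℝ), a s * ∫⁻ y in Ioi (0:ℝ), b y * w (s / y) * ENNReal.ofReal y⁻¹ := by
  have l1 : ∫⁻ t in Ioi (0:ℝ), w t * ∫⁻ y in Ioi (0:ℝ), b y * a (y * t) =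
      ∫⁻ y in Ioi (0:ℝ), ∫⁻ t in Ioi (0:ℝ), w t * (b y * a (y * t)) := by
    rw [lintegral_lintegral_swap]
    · refine lintegral_congr fun t => ?_
      rw [lintegral_const_mul]
      fun_prop
    · apply Measurable.aemeasurable
      fun_prop
  have l2 : ∫⁻ s in Ioi (0:ℝ), a s * ∫⁻ y in Ioi (0:ℝ), b y * w (s / y) * ENNReal.ofReal y⁻¹ =
      ∫⁻ y in Ioi (0:ℝ), ∫⁻ s in Ioi (0:ℝ), a s * (b y * w (s / y) * ENNReal.ofReal y⁻¹) := by
    rw [lintegral_lintegral_swap]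
    · refine lintegral_congr fun t => ?_
      rw [lintegral_const_mul]
      fun_prop
    · apply Measurable.aemeasurable
      fun_prop
  rw [l1, l2]
  refine setLIntegral_congr_fun measurableSet_Ioi fun y hy => ?_
  have hy' : (0:ℝ) < y := hy
  have hm : Measurable fun s => w (s / y) * (b y * a s) := by fun_prop
  have := scale hm hy'
  calc ∫⁻ t in Ioi (0:ℝ), w t * (b y * a (y * t))
      = ∫⁻ t in Ioi (0:ℝ), w (y * t / y) * (b y * a (y * t)) := by
        refine lintegral_congr fun t => ?_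
        rw [mul_div_cancel_left₀ _ hy'.ne']
    _ = ENNReal.ofReal y⁻¹ * ∫⁻ s in Ioi (0:ℝ), w (s / y) * (b y * a s) := this
    _ = ∫⁻ s in Ioi (0:ℝ), ENNReal.ofReal y⁻¹ * (w (s / y) * (b y * a s)) := by
        rw [lintegral_const_mul _ hm]
    _ = _ := by
        refine lintegral_congr fun t => ?_
        ring

lemma HA_meas {w : ℝ → ℝ≥0∞} : Measurable (HA w) := by
  have : Antitone (HA w) := by
    intro s t hst
    exact lintegral_mono_set (Ioi_subset_Ioi hst)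
  exact this.measurable

lemma HLM_meas {w : ℝ → ℝ≥0∞} : Measurable (HLM w) := by
  have h : LowerSemicontinuous (HLM w) := by
    intro x l hl
    unfold HLM at hl
    obtain ⟨⟨r, hr⟩, hl⟩ := lt_iSup_iff.1 hl
    simp only at hl
    set I := ∫⁻ t in Ioo (x - r) (x + r), w t with hI
    have hc : Tendsto (fun ρ : ℝ => (ENNReal.ofReal (2 * ρ))⁻¹ * I) (𝓝 r)
        (𝓝 ((ENNReal.ofReal (2 * r))⁻¹ * I)) := by
      apply ENNReal.Tendsto.mul_const
      · apply tendsto_inv_iff.2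
        exact (ENNReal.continuous_ofReal.tendsto _).comp
          (((continuous_const.mul continuous_id).tendsto r))
      · left
        rw [Ne, ENNReal.inv_eq_zero]
        exact ENNReal.ofReal_ne_top
    have he := hc.eventually_const_lt hl
    obtain ⟨ε, hε, he⟩ := Metric.eventually_nhds_iff.1 he
    rw [Metric.eventually_nhds_iff]
    refine ⟨ε, hε, fun z hz => ?_⟩
    have hz' : dist (r + dist z x) r < ε := by
      simpa [Real.dist_eq, abs_abs] using hz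
    have h1 := he hz'
    have hpos : 0 < r + dist z x := add_pos_of_pos_of_nonneg hr dist_nonneg
    refine lt_of_lt_of_le h1 ?_
    unfold HLM
    refine le_trans ?_ (le_iSup (fun r : {r : ℝ // 0 < r} => (ENNReal.ofReal (2 * r.1))⁻¹ *
      ∫⁻ t in Ioo (z - r.1) (z + r.1), w t) ⟨r + dist z x, hpos⟩)
    simp only
    gcongr
    rw [hI]
    apply lintegral_mono_set
    intro t ht
    have h2 := abs_le.1 (le_of_eq (Real.dist_eq z x).symm)
    constructor
    · linarith [ht.1, h2.2]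
    · linarith [ht.2, h2.1]
  exact h.measurable

theorem main (h1 : S_KI) (h2 : S_MAX) (h3 : S_HAR) (h4 : S_DOM) : S_VEC := by
  intro B hB
  have hB0 : (0:ℝ) ≤ B := by linarith
  obtain ⟨C0, hC0, hM⟩ := h2
  refine ⟨2 * (1 + 6 * B) * (1 + 16 * B * (C0 + 2)), ?_, ?_⟩
  · nlinarith [mul_nonneg hB0 (by linarith : (0:ℝ) ≤ C0 + 2)]
  intro p hp ι _ β a v hk ha hv hav hfin
  set r : ℝ := p / 2 with hr
  have hr2 : 2 ≤ r := by rw [hr]; linarith
  set q : ℝ := r / (r - 1) with hq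
  have hr1 : 0 < r - 1 := by linarith
  have hq1 : 1 < q := by rw [hq, one_lt_div hr1]; linarith
  have hq2 : q ≤ 2 := by rw [hq, div_le_iff₀ hr1]; linarith
  have hrq : r.HolderConjugate q := by
    rw [Real.holderConjugate_iff_eq_conjExponent (by linarith)]
  have hqr : (r - 1) * q = r := by rw [hq]; field_simp
  have hqm : 1 / (q - 1) = r - 1 := by
    rw [hq]; field_simp; ring
  -- the functions
  set W : ℝ → ℝ≥0∞ := fun t => ∑ i, v i t ^ (2:ℝ) with hW
  set A : ℝ → ℝ≥0∞ := fun t => ∑ i, a i t ^ (2:ℝ) with hA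
  have mW : Measurable W := Finset.measurable_sum _ fun i _ => (hv i).pow_const _
  have mA : Measurable A := Finset.measurable_sum _ fun i _ => (ha i).pow_const _
  set w : ℝ → ℝ≥0∞ := (Ioi (0:ℝ)).indicator fun t => W t ^ (r - 1) with hw
  have mw : Measurable w := (mW.pow_const _).indicator measurableSet_Ioi
  have w0 : ∀ t, t ≤ 0 → w t = 0 := fun t ht => by
    rw [hw, indicator_of_notMem (by simpa using ht)]
  have w1 : ∀ t, 0 < t → w t = W t ^ (r - 1) := fun t ht => by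
    rw [hw, indicator_of_mem (show t ∈ Ioi (0:ℝ) from ht)]
  set IW := ∫⁻ t in Ioi (0:ℝ), W t ^ r with hIW
  set IA := ∫⁻ t in Ioi (0:ℝ), A t ^ r with hIA
  have eW : ∫⁻ t in Ioi (0:ℝ), w t ^ q = IW := by
    refine setLIntegral_congr_fun measurableSet_Ioi fun t ht => ?_
    rw [w1 t ht, ← ENNReal.rpow_mul, hqr]
  have eW' : ∫⁻ t : ℝ, w t ^ q = IW := by
    rw [← eW, ← lintegral_indicator measurableSet_Ioi]
    refine lintegral_congr fun t => ?_
    by_cases ht : 0 < t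
    · rw [indicator_of_mem (show t ∈ Ioi (0:ℝ) from ht)]
    · rw [indicator_of_notMem (show t ∉ Ioi (0:ℝ) from ht), w0 t (not_lt.1 ht),
        ENNReal.zero_rpow_of_pos (by linarith)]
  have mb : ∀ i, Measurable fun y => ENNReal.ofReal (β i y) := fun i =>
    (hk i).1.ennreal_ofReal
  -- pointwise bound
  have pt : ∀ i, ∀ t, 0 < t → v i t ^ (2:ℝ) ≤ ENNReal.ofReal (2 * (1 + 6 * B)) *
      (a i t ^ (2:ℝ) + ∫⁻ y in Ioi (0 : ℝ), ENNReal.ofReal (β i y) * a i (y * t) ^ (2:ℝ)) := by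
    intro i t ht
    have c := cs (volume.restrict (Ioi (0:ℝ))) (mb i)
      (g := fun y => a i (y * t)) ((ha i).comp (measurable_id.mul_const t))
    have c2 := c.trans (mul_le_mul_left (ker_int h1 hB0 (hk i)) _)
    calc v i t ^ (2:ℝ) ≤ (a i t +
          ∫⁻ y in Ioi (0 : ℝ), ENNReal.ofReal (β i y) * a i (y * t)) ^ (2:ℝ) :=
          ENNReal.rpow_le_rpow (hav i t ht) (by norm_num)
      _ ≤ 2 ^ ((2:ℝ) - 1) * (a i t ^ (2:ℝ) +
          (∫⁻ y in Ioi (0 : ℝ), ENNReal.ofReal (β i y) * a i (y * t)) ^ (2:ℝ)) :=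
          ENNReal.rpow_add_le_mul_rpow_add_rpow _ _ (by norm_num)
      _ ≤ 2 * (a i t ^ (2:ℝ) + ENNReal.ofReal (6 * B) *
          ∫⁻ y in Ioi (0 : ℝ), ENNReal.ofReal (β i y) * a i (y * t) ^ (2:ℝ)) := by
          have : (2:ℝ≥0∞) ^ ((2:ℝ) - 1) = 2 := by
            rw [show (2:ℝ) - 1 = 1 by norm_num, ENNReal.rpow_one]
          rw [this]
          gcongr
      _ ≤ 2 * (ENNReal.ofReal (1 + 6 * B) * a i t ^ (2:ℝ) + ENNReal.ofReal (1 + 6 * B) *
          ∫⁻ y in Ioi (0 : ℝ), ENNReal.ofReal (β i y) * a i (y * t) ^ (2:ℝ)) := by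
          gcongr
          · refine le_mul_of_one_le_left zero_le ?_
            rw [← ENNReal.ofReal_one]
            exact ENNReal.ofReal_le_ofReal (by linarith)
          · linarith
      _ = _ := by
          rw [ENNReal.ofReal_mul (by norm_num : (0:ℝ) ≤ 2), ENNReal.ofReal_ofNat]
          ring
  have mX : Measurable (HLM w) := HLM_meas
  have mY : Measurable (HA w) := HA_meas
  -- one component
  have hi : ∀ i, ∫⁻ t in Ioi (0:ℝ), v i t ^ (2:ℝ) * w t ≤ ENNReal.ofReal (2 * (1 + 6 * B)) *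
      ((∫⁻ t in Ioi (0:ℝ), a i t ^ (2:ℝ) * w t) + ENNReal.ofReal (16 * B) *
        ((∫⁻ t in Ioi (0:ℝ), a i t ^ (2:ℝ) * HLM w t) +
          ∫⁻ t in Ioi (0:ℝ), a i t ^ (2:ℝ) * HA w t)) := by
    intro i
    have ma2 : Measurable fun t => a i t ^ (2:ℝ) := (ha i).pow_const _
    have mJ : Measurable fun t => ∫⁻ y in Ioi (0 : ℝ), ENNReal.ofReal (β i y) *
        a i (y * t) ^ (2:ℝ) := by
      have : Measurable (Function.uncurry fun (t y : ℝ) => ENNReal.ofReal (β i y) *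
          a i (y * t) ^ (2:ℝ)) := by
        have m1 := (hk i).1
        have m2 := ha i
        exact ((mb i).comp measurable_snd).mul
          ((m2.comp (measurable_snd.mul measurable_fst)).pow_const _)
      exact this.lintegral_prod_right
    calc ∫⁻ t in Ioi (0:ℝ), v i t ^ (2:ℝ) * w t
        ≤ ∫⁻ t in Ioi (0:ℝ), ENNReal.ofReal (2 * (1 + 6 * B)) * (a i t ^ (2:ℝ) * w t +
            w t * ∫⁻ y in Ioi (0 : ℝ), ENNReal.ofReal (β i y) * a i (y * t) ^ (2:ℝ)) := by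
          refine setLIntegral_mono' measurableSet_Ioi fun t ht => ?_
          refine (mul_le_mul_left (pt i t ht) _).trans_eq ?_
          ring
      _ = ENNReal.ofReal (2 * (1 + 6 * B)) * ((∫⁻ t in Ioi (0:ℝ), a i t ^ (2:ℝ) * w t) +
            ∫⁻ t in Ioi (0:ℝ), w t *
              ∫⁻ y in Ioi (0 : ℝ), ENNReal.ofReal (β i y) * a i (y * t) ^ (2:ℝ)) := by
          have m1 : Measurable fun t => a i t ^ (2:ℝ) * w t := ma2.mul mw
          have m2 : Measurable fun t => w t *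
              ∫⁻ y in Ioi (0 : ℝ), ENNReal.ofReal (β i y) * a i (y * t) ^ (2:ℝ) := mw.mul mJ
          have m3 : Measurable fun t => a i t ^ (2:ℝ) * w t + w t *
              ∫⁻ y in Ioi (0 : ℝ), ENNReal.ofReal (β i y) * a i (y * t) ^ (2:ℝ) := m1.add m2
          rw [lintegral_const_mul _ m3, lintegral_add_left m1]
      _ = ENNReal.ofReal (2 * (1 + 6 * B)) * ((∫⁻ t in Ioi (0:ℝ), a i t ^ (2:ℝ) * w t) +
            ∫⁻ s in Ioi (0:ℝ), a i s ^ (2:ℝ) *
              ∫⁻ y in Ioi (0 : ℝ), ENNReal.ofReal (β i y) * w (s / y) * ENNReal.ofReal y⁻¹) := by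
          rw [swap (mb i) ma2 mw]
      _ ≤ ENNReal.ofReal (2 * (1 + 6 * B)) * ((∫⁻ t in Ioi (0:ℝ), a i t ^ (2:ℝ) * w t) +
            ∫⁻ s in Ioi (0:ℝ), ENNReal.ofReal (16 * B) * (a i s ^ (2:ℝ) * HLM w s +
              a i s ^ (2:ℝ) * HA w s)) := by
          refine mul_le_mul_right (add_le_add_right ?_ _) _
          refine setLIntegral_mono' measurableSet_Ioi fun s hs => ?_
          refine (mul_le_mul_right (h4 B (β i) hB0 (hk i) w mw w0 s hs) _).trans_eq ?_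
          ring
      _ = _ := by
          have m1 : Measurable fun t => a i t ^ (2:ℝ) * HLM w t := ma2.mul mX
          have m2 : Measurable fun t => a i t ^ (2:ℝ) * HA w t := ma2.mul mY
          have m3 : Measurable fun t => a i t ^ (2:ℝ) * HLM w t + a i t ^ (2:ℝ) * HA w t :=
            m1.add m2
          rw [lintegral_const_mul _ m3, lintegral_add_left m1]
  have sumA : ∀ X : ℝ → ℝ≥0∞, Measurable X → ∑ i, ∫⁻ t in Ioi (0:ℝ), a i t ^ (2:ℝ) * X t =
      ∫⁻ t in Ioi (0:ℝ), A t * X t := by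
    intro X mX
    have m1 : ∀ i ∈ Finset.univ, Measurable fun t => a i t ^ (2:ℝ) * X t :=
      fun i _ => ((ha i).pow_const _).mul mX
    rw [← lintegral_finsetSum _ m1]
    refine lintegral_congr fun t => ?_
    rw [hA, Finset.sum_mul]
  have s3 : IW ≤ ENNReal.ofReal (2 * (1 + 6 * B)) *
      ((∫⁻ t in Ioi (0:ℝ), A t * w t) + ENNReal.ofReal (16 * B) *
        ((∫⁻ t in Ioi (0:ℝ), A t * HLM w t) + ∫⁻ t in Ioi (0:ℝ), A t * HA w t)) := by
    have e1 : IW = ∑ i, ∫⁻ t in Ioi (0:ℝ), v i t ^ (2:ℝ) * w t := by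
      have m1 : ∀ i ∈ Finset.univ, Measurable fun t => v i t ^ (2:ℝ) * w t :=
        fun i _ => ((hv i).pow_const _).mul mw
      rw [← lintegral_finsetSum _ m1]
      refine setLIntegral_congr_fun measurableSet_Ioi fun t ht => ?_
      rw [← Finset.sum_mul, w1 t ht]
      have e2 : W t ^ r = W t ^ (1:ℝ) * W t ^ (r - 1) := by
        rw [← ENNReal.rpow_add_of_nonneg _ _ (by norm_num) hr1.le]
        congr 1
        ring
      rw [e2, ENNReal.rpow_one]
    rw [e1]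
    refine (Finset.sum_le_sum fun i _ => hi i).trans_eq ?_
    rw [← Finset.mul_sum, Finset.sum_add_distrib, ← Finset.mul_sum, Finset.sum_add_distrib,
      sumA w mw, sumA _ mX, sumA _ mY]
  -- Hoelder
  have hol : ∀ (X : ℝ → ℝ≥0∞) (c : ℝ≥0∞), Measurable X →
      ∫⁻ t in Ioi (0:ℝ), X t ^ q ≤ c ^ q * IW →
      ∫⁻ t in Ioi (0:ℝ), A t * X t ≤ c * (IA ^ (1 / r) * IW ^ (1 / q)) := by
    intro X c mX hX
    have h := ENNReal.lintegral_mul_le_Lp_mul_Lq (volume.restrict (Ioi (0:ℝ))) hrq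
      mA.aemeasurable mX.aemeasurable
    have hq0 : 0 < q := by linarith
    have h5 : (∫⁻ t in Ioi (0:ℝ), X t ^ q) ^ (1 / q) ≤ c * IW ^ (1 / q) := by
      calc (∫⁻ t in Ioi (0:ℝ), X t ^ q) ^ (1 / q) ≤ (c ^ q * IW) ^ (1 / q) :=
            ENNReal.rpow_le_rpow hX (by positivity)
        _ = _ := by
          rw [ENNReal.mul_rpow_of_nonneg _ _ (by positivity), ← ENNReal.rpow_mul,
            mul_one_div_cancel hq0.ne', ENNReal.rpow_one]
    calc ∫⁻ t in Ioi (0:ℝ), A t * X t = ∫⁻ t in Ioi (0:ℝ), (A * X) t := rfl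
      _ ≤ IA ^ (1 / r) * (∫⁻ t in Ioi (0:ℝ), X t ^ q) ^ (1 / q) := h
      _ ≤ IA ^ (1 / r) * (c * IW ^ (1 / q)) := by gcongr
      _ = _ := by ring
  have b1 := hol w 1 mw (by rw [eW, ENNReal.one_rpow, one_mul])
  have b2 := hol (HLM w) (ENNReal.ofReal (C0 * (r - 1))) mX (by
    calc ∫⁻ t in Ioi (0:ℝ), HLM w t ^ q ≤ ∫⁻ t : ℝ, HLM w t ^ q := setLIntegral_le_lintegral _ _
      _ ≤ ENNReal.ofReal (C0 / (q - 1)) ^ q * ∫⁻ x : ℝ, w x ^ q := hM q hq1 hq2 w mw
      _ = _ := by rw [eW', ← hqm, mul_one_div])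
  have b3 := hol (HA w) 2 mY (by
    calc ∫⁻ t in Ioi (0:ℝ), HA w t ^ q ≤ 2 ^ q * ∫⁻ s in Ioi (0 : ℝ), w s ^ q := h3 q hq1 hq2 w mw
      _ = _ := by rw [eW])
  set Q := IA ^ (1 / r) * IW ^ (1 / q) with hQ
  have s4 : IW ≤ ENNReal.ofReal (2 * (1 + 6 * B) * (1 + 16 * B * (C0 * (r - 1) + 2))) * Q := by
    calc IW ≤ ENNReal.ofReal (2 * (1 + 6 * B)) *
      ((∫⁻ t in Ioi (0:ℝ), A t * w t) + ENNReal.ofReal (16 * B) *
        ((∫⁻ t in Ioi (0:ℝ), A t * HLM w t) + ∫⁻ t in Ioi (0:ℝ), A t * HA w t)) := s3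
      _ ≤ ENNReal.ofReal (2 * (1 + 6 * B)) * (1 * Q + ENNReal.ofReal (16 * B) *
        (ENNReal.ofReal (C0 * (r - 1)) * Q + 2 * Q)) := by gcongr
      _ = ENNReal.ofReal (2 * (1 + 6 * B)) * (ENNReal.ofReal 1 + ENNReal.ofReal (16 * B) *
        (ENNReal.ofReal (C0 * (r - 1)) + ENNReal.ofReal 2)) * Q := by
          rw [ENNReal.ofReal_one, ENNReal.ofReal_ofNat]
          ring
      _ = _ := by
          have hc : 0 ≤ C0 * (r - 1) := by positivity
          rw [← ENNReal.ofReal_add hc (by norm_num), ← ENNReal.ofReal_mul (by positivity),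
            ← ENNReal.ofReal_add (by norm_num) (by positivity),
            ← ENNReal.ofReal_mul (by positivity)]
  have s5 : IW ≤ ENNReal.ofReal (2 * (1 + 6 * B) * (1 + 16 * B * (C0 + 2)) * p) * Q := by
    refine s4.trans ?_
    refine mul_le_mul_left ?_ _
    apply ENNReal.ofReal_le_ofReal
    rw [mul_assoc (2 * (1 + 6 * B))]
    apply mul_le_mul_of_nonneg_left _ (by positivity)
    have hrp : r - 1 ≤ p := by rw [hr]; linarith
    have h6 : C0 * (r - 1) ≤ C0 * p := by gcongr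
    have h7 : C0 * (r - 1) + 2 ≤ (C0 + 2) * p := by nlinarith
    have h8 : 16 * B * (C0 * (r - 1) + 2) ≤ 16 * B * ((C0 + 2) * p) := by gcongr
    nlinarith
  have hIWt : IW ≠ ⊤ := hfin
  set C := ENNReal.ofReal (2 * (1 + 6 * B) * (1 + 16 * B * (C0 + 2)) * p) with hC
  show IW ≤ C ^ r * IA
  rcases eq_or_ne IW 0 with h0 | h0
  · rw [h0]; exact zero_le
  have hr0 : 0 < r := by linarith
  have hq0 : 0 < q := by linarith
  have hsum : 1 / r + 1 / q = 1 := by
    rw [hq]; field_simp; ring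
  have e6 : IW = IW ^ (1 / r) * IW ^ (1 / q) := by
    rw [← ENNReal.rpow_add_of_nonneg _ _ (by positivity) (by positivity), hsum, ENNReal.rpow_one]
  have e7 : IW ^ (1 / q) ≠ 0 := by
    simp [ENNReal.rpow_eq_zero_iff, h0, hIWt]
  have e8 : IW ^ (1 / q) ≠ ⊤ := ENNReal.rpow_ne_top_of_nonneg (by positivity) hIWt
  have s6 : IW ^ (1 / r) ≤ C * IA ^ (1 / r) := by
    have h9 : IW ^ (1 / r) * IW ^ (1 / q) ≤ (C * IA ^ (1 / r)) * IW ^ (1 / q) := by
      rw [← e6]
      refine s5.trans_eq ?_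
      rw [hQ]; ring
    exact (ENNReal.mul_le_mul_iff_left e7 e8).1 h9
  calc IW = (IW ^ (1 / r)) ^ r := by
        rw [← ENNReal.rpow_mul, one_div_mul_cancel hr0.ne', ENNReal.rpow_one]
    _ ≤ (C * IA ^ (1 / r)) ^ r := ENNReal.rpow_le_rpow s6 hr0.le
    _ = C ^ r * IA := by
        rw [ENNReal.mul_rpow_of_nonneg _ _ hr0.le, ← ENNReal.rpow_mul,
          one_div_mul_cancel hr0.ne', ENNReal.rpow_one]

end Pool.NH61.FS.Vec
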