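import Pool.Agent.NH61.FS.AllA
import Pool.Agent.NH61.FS.Mix
import Pool.Agent.NH61.FS.CrMix
import Pool.Agent.NH61.FS.Vec
import Pool.Agent.NH61.FS.Max
import Pool.Agent.NH61.FS.Har
import Pool.Agent.NH61.FS.Dom
import Pool.Agent.NH61.FS.Mx
import Pool.Agent.NH61.FS.Mxh
import Pool.Agent.NH61.FS.Mxt
import Pool.Agent.NH61.FS.Apx

/-! # Project FS: assembly of the mixed norm inequality -/

set_option autoImplicit false

namespace Pool.NH61.FS.AllB

theorem vec : S_VEC := Vec.main Ki.main Max.main Har.main Dom.main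

theorem finm : S_FINM :=
  FinM.main Rp0.main (Rp1.main Kp1.main) (Rp2.main Kp2.main) Pol.main (CrMix.main AllA.cc) vec

theorem mix : S_MIX := Mix.main finm Mx.main Mxh.main Mxt.main Apx.main

end Pool.NH61.FS.AllB
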