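import Pool.Agent.R223.RX.Stm
import Pool.Agent.R223.RY.Stm

/-!
# Project FS (helper61): powers of the Beurling transform on functions with finitely many angular
frequencies, the extremal frequency `2 n` included

Definitions and statements.  `Tn n` is the Fourier multiplier with symbol `(conj ξ / ξ) ^ n`,
`K = Cn p n = ∏_{j < n} (j + 1 - σ) / (j + σ)`, `σ = 1 / p`.

Result (`S_FIN`): for `n, N` there is `p0` such that for `p ≥ p0` the inequality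
`‖T^n F‖_p ≤ K ‖F‖_p` holds for all sums `F` of `N` functions of pairwise different angular types.
-/

set_option autoImplicit false

open MeasureTheory Set Filter Topology
open scoped SchwartzMap ENNReal

namespace Pool.NH61.FS

open Pool.Agent.Y282.RB (Tn Cn kk th KK)
open Pool.Agent.R223.RD (Cc)

/-! ### the pointwise inequalities for the chain of the frequency `2 n` -/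

/-- `y_j = θ_j γ_j + (1 - θ_j) γ_{j+1}` -/
noncomputable def yC (σ : ℝ) (γ : ℕ → ℂ) (j : ℕ) : ℂ :=
  (th σ j : ℂ) * γ j + ((1 - th σ j : ℝ) : ℂ) * γ (j + 1)

/-- `Λ = (∑ k_j |y_j|^2) / ∑ k_j` -/
noncomputable def LamC (σ : ℝ) (n : ℕ) (γ : ℕ → ℂ) : ℝ :=
  (∑ j ∈ Finset.range n, kk σ j * ‖yC σ γ j‖ ^ 2) / KK σ n

/-- `TT = ∑ |γ_j - γ_{j+1}|^2 / (2 j + 1)` -/
noncomputable def TTC (n : ℕ) (γ : ℕ → ℂ) : ℝ :=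
  ∑ j ∈ Finset.range n, ‖γ j - γ (j + 1)‖ ^ 2 / (2 * (j : ℝ) + 1)

/-- `|γ_0|^2 - |γ_n|^2 + (1 - 2 σ) TT = 2 ∑ Re (y_j conj (γ_j - γ_{j+1}))` -/
noncomputable def DD (p : ℝ) (n : ℕ) (γ : ℕ → ℂ) : ℝ :=
  ‖γ 0‖ ^ 2 - ‖γ n‖ ^ 2 + (1 - 2 / p) * TTC n γ

/-- the defect of the pointwise inequality -/
noncomputable def dl (p : ℝ) (n : ℕ) (γ : ℕ → ℂ) : ℝ :=
  ‖γ n‖ ^ p - ‖γ 0‖ ^ p + p / 2 * (LamC (1 / p) n γ) ^ (p / 2 - 1) * DD p n γ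

/-- `ph r b = b ^ r - 1 - r (b - 1)` -/
noncomputable def ph (r b : ℝ) : ℝ := b ^ r - 1 - r * (b - 1)

/-- (E1) the variation of `|γ_0|^2` -/
def S_E1 : Prop := ∀ n : ℕ, 1 ≤ n → ∃ C : ℝ, 1 ≤ C ∧ ∀ (p : ℝ) (γ : ℕ → ℂ), 4 ≤ p →
  LamC (1 / p) n γ = 1 →
  |‖γ 0‖ ^ 2 - 1| ≤ C / p * (‖γ 0‖ * √(TTC n γ) + TTC n γ)

/-- (E2) `|γ_0|` is nearly at most `1` unless `|γ_n| > 2 |γ_0|` -/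
def S_E2 : Prop := ∀ n : ℕ, 1 ≤ n → ∃ C : ℝ, 1 ≤ C ∧ ∀ (p : ℝ) (γ : ℕ → ℂ), C ≤ p →
  LamC (1 / p) n γ = 1 → ‖γ n‖ ≤ 2 * ‖γ 0‖ → ‖γ 0‖ ^ 2 ≤ 1 + C / p

/-- (SLK) the pointwise inequality with a factor `M` to spare, for large `p` -/
def S_SLK : Prop := ∀ n : ℕ, 1 ≤ n → ∀ M : ℝ, 1 ≤ M → ∃ p1 : ℝ, 4 ≤ p1 ∧
  ∀ (p : ℝ) (γ : ℕ → ℂ), p1 ≤ p → LamC (1 / p) n γ = 1 →
  M * ph (p / 2) (‖γ 0‖ ^ 2) ≤ ph (p / 2) (‖γ n‖ ^ 2) + (p / 2 - 1) * TTC n γ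

/-- (PT) the four pointwise inequalities -/
def S_PT : Prop := ∀ n : ℕ, 1 ≤ n → ∃ C : ℝ, 1 ≤ C ∧ ∀ ε : ℝ, 0 < ε → ε ≤ 1 →
  ∃ M p1 : ℝ, 1 ≤ M ∧ 4 ≤ p1 ∧ ∀ (p : ℝ) (γ : ℕ → ℂ), p1 ≤ p →
    0 ≤ dl p n γ ∧
    ‖γ 0‖ ^ p ≤ C * LamC (1 / p) n γ ^ (p / 2) + ε * dl p n γ ∧
    LamC (1 / p) n γ ^ (p / 2) ≤ M * ‖γ n‖ ^ p + ε * dl p n γ ∧
    LamC (1 / p) n γ ^ (p / 2 - 1) * |DD p n γ| ≤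
      C / p * (LamC (1 / p) n γ ^ (p / 2) + dl p n γ)

/-! ### the envelope of `u = (t^n h)^(n)` -/

/-- the complex chain -/
def S_CHN : Prop := ∀ (n : ℕ) (h : ℝ → ℂ), ContDiff ℝ (⊤ : ℕ∞) h →
  (∃ R : ℝ, ∀ x, R ≤ x → h x = 0) →
  ∃ (X G : ℕ → ℝ → ℂ) (R : ℝ), 0 < R ∧ (∀ j, ContDiff ℝ (⊤ : ℕ∞) (X j)) ∧
    (∀ j, ContDiff ℝ (⊤ : ℕ∞) (G j)) ∧ (∀ j x, R ≤ x → X j x = 0) ∧ (∀ j x, R ≤ x → G j x = 0) ∧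
    (∀ x : ℝ, G n x = (x : ℂ) ^ n * iteratedDeriv n h x) ∧
    (∀ x : ℝ, G 0 x = iteratedDeriv n (fun t : ℝ => (t : ℂ) ^ n * h t) x) ∧
    (∀ j, j < n → ∀ x : ℝ, (x : ℂ) * deriv (X j) x - (j : ℂ) * X j x = G (j + 1) x) ∧
    (∀ j, j < n → ∀ x : ℝ, (x : ℂ) * deriv (X j) x + ((j : ℂ) + 1) * X j x = G j x)

/-- envelope data for `f` and `u` (both real functions, `f = K |t^n h^(n)|`, `u = |(t^n h)^(n)|`) -/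
structure Env (p C M ε : ℝ) (f u L δ : ℝ → ℝ) : Prop where
  contL : Continuous L
  contD : Continuous δ
  L0 : ∀ t, 0 ≤ L t
  D0 : ∀ t, 0 ≤ δ t
  supp : ∃ R : ℝ, 0 < R ∧ ∀ t, R ≤ t → L t = 0 ∧ δ t = 0
  u_le : ∀ t, 0 < t → u t ^ p ≤ C * L t + ε * δ t
  L_le : ∀ t, 0 < t → L t ≤ M * f t ^ p + ε * δ t
  lip : ∀ s t : ℝ, 0 < s → s ≤ t → |t * L t - s * L s| ≤ C / p * ∫ x in s..t, (L x + δ x)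
  int : (∫ t in Ioi (0 : ℝ), u t ^ p) + (∫ t in Ioi (0 : ℝ), δ t) = ∫ t in Ioi (0 : ℝ), f t ^ p

/-- (ENV) -/
def S_ENV : Prop := ∀ n : ℕ, 1 ≤ n → ∃ C : ℝ, 1 ≤ C ∧ ∀ ε : ℝ, 0 < ε → ε ≤ 1 →
  ∃ M p1 : ℝ, 1 ≤ M ∧ 4 ≤ p1 ∧ ∀ p : ℝ, p1 ≤ p → ∀ h : ℝ → ℂ, ContDiff ℝ (⊤ : ℕ∞) h →
    (∃ R : ℝ, ∀ x, R ≤ x → h x = 0) →
    ∃ L δ : ℝ → ℝ, Env p C M ε (fun t => Cn p n * ‖(t : ℂ) ^ n * iteratedDeriv n h t‖)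
      (fun t => ‖iteratedDeriv n (fun x : ℝ => (x : ℂ) ^ n * h x) t‖) L δ

/-! ### dilations -/

/-- `max y (1/y)` -/
noncomputable def rho (y : ℝ) : ℝ := max y y⁻¹

/-- (DIL) Gronwall -/
def S_DIL : Prop := ∀ (κ : ℝ) (L δ : ℝ → ℝ), 0 ≤ κ → Continuous L → Continuous δ →
  (∀ t, 0 ≤ L t) → (∀ t, 0 ≤ δ t) →
  (∀ s t : ℝ, 0 < s → s ≤ t → |t * L t - s * L s| ≤ κ * ∫ x in s..t, (L x + δ x)) →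
  ∀ s t : ℝ, 0 < s → 0 < t →
    t * L t ≤ rho (t / s) ^ κ * (s * L s + κ * |∫ x in s..t, δ x|)

/-- `Z(s) / s`, `Z(s) = ∫ δ(t) ρ(t/s)^(-1/16) dt` -/
noncomputable def Zs (δ : ℝ → ℝ) (s : ℝ) : ℝ≥0∞ :=
  ∫⁻ t in Ioi (0 : ℝ), ENNReal.ofReal (δ t * rho (t / s) ^ (-(1 / 16) : ℝ) / s)

/-- (ZI) -/
def S_ZI : Prop := ∀ δ : ℝ → ℝ, Continuous δ → (∀ t, 0 ≤ δ t) →
  Measurable (Zs δ) ∧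
  ∫⁻ s in Ioi (0 : ℝ), Zs δ s = 32 * ∫⁻ t in Ioi (0 : ℝ), ENNReal.ofReal (δ t)

/-- (CRS) the cross term -/
def S_CRS : Prop := ∀ (p κ B : ℝ) (L δ : ℝ → ℝ), 16 ≤ p → 0 ≤ κ → κ ≤ 1 / 16 → Continuous L →
  Continuous δ → (∀ t, 0 ≤ L t) → (∀ t, 0 ≤ δ t) →
  (∀ s t : ℝ, 0 < s → 0 < t →
    t * L t ≤ rho (t / s) ^ κ * (s * L s + κ * |∫ x in s..t, δ x|)) →
  ∀ β : ℝ → ℝ, Measurable β → (∀ y, 0 ≤ β y) →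
  ∫⁻ y in Ioi (0 : ℝ), ENNReal.ofReal (β y * rho y ^ (1 / 4 : ℝ)) ≤ ENNReal.ofReal B →
  ∀ g : ℝ → ℝ≥0∞, Measurable g →
  ∫⁻ t in Ioi (0 : ℝ), ENNReal.ofReal (L t) ^ (1 - 2 / p) *
      ∫⁻ y in Ioi (0 : ℝ), ENNReal.ofReal (β y) * g (y * t) ≤
    ENNReal.ofReal B * ∫⁻ s in Ioi (0 : ℝ), g s *
      (ENNReal.ofReal (L s) ^ (1 - 2 / p) + (ENNReal.ofReal κ * Zs δ s) ^ (1 - 2 / p))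

/-! ### the other frequencies -/

/-- the class of kernels: `β` lives on `(1, ∞)` or on `(0, 1)` -/
def Ker (B : ℝ) (β : ℝ → ℝ) : Prop := Measurable β ∧ (∀ y, 0 ≤ β y) ∧ ∃ m : ℝ, 1 ≤ m ∧
  (((∀ y, y ≤ 1 → β y = 0) ∧
      ∀ y, 1 < y → β y ≤ B * (m / (1 + m * (y - 1)) ^ 2 + y ^ (-(3 / 2) : ℝ))) ∨
    ((∀ y, y ≤ 0 → β y = 0) ∧ (∀ y, 1 ≤ y → β y = 0) ∧
      ∀ y, 0 < y → y < 1 → β y ≤ B * (m / (1 + m * (1 - y)) ^ 2)))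

/-- (KI) -/
def S_KI : Prop := ∀ (B : ℝ) (β : ℝ → ℝ), 0 ≤ B → Ker B β →
  ∫⁻ y in Ioi (0 : ℝ), ENNReal.ofReal (β y * rho y ^ (1 / 4 : ℝ)) ≤ ENNReal.ofReal (6 * B)

/-- `g` has a kernel representation -/
def Rep (n : ℕ) (B : ℝ) (g : 𝓢(ℂ, ℂ)) : Prop := ∃ a β : ℝ → ℝ, Continuous a ∧ (∀ t, 0 ≤ a t) ∧
  (∃ r R : ℝ, 0 < r ∧ (∀ t, t ≤ r → a t = 0) ∧ ∀ t, R ≤ t → a t = 0) ∧
  (∀ z, ‖g z‖ = a (Complex.normSq z)) ∧ Ker B β ∧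
  ∀ z : ℂ, z ≠ 0 →
    ‖Tn n g z‖ ≤ a (Complex.normSq z) + ∫ y in Ioi (0 : ℝ), β y * a (y * Complex.normSq z)

/-- (KP1) the kernels of the types `k > n`, `k ≠ 2 n` -/
def S_KP1 : Prop := ∀ n : ℕ, ∃ B : ℝ, 0 ≤ B ∧ ∀ j m : ℕ, 1 ≤ j → j ≤ n → 1 ≤ m →
  ∀ y : ℝ, 0 < y → |Pool.Agent.R223.RX.kk j m y| ≤
    B * ((m : ℝ) / (1 + m * y) ^ 2 + (1 + y) ^ (-(3 / 2) : ℝ))

/-- (KP2) the kernels of the types `k ≤ n` -/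
def S_KP2 : Prop := ∀ n : ℕ, ∃ B : ℝ, 0 ≤ B ∧ ∀ j m : ℕ, j ≤ n → ∀ x : ℝ, 0 < x → x < 1 →
  |Pool.Agent.R223.RY.KC j m x| ≤ B * (((m : ℝ) + 1) / (1 + (m + 1) * x) ^ 2)

/-- (RP1) approximation, types `k > n`, `k ≠ 2 n` -/
def S_RP1 : Prop := ∀ n : ℕ, 1 ≤ n → ∃ B : ℝ, 1 ≤ B ∧ ∀ (k : ℤ) (f : 𝓢(ℂ, ℂ)), (n : ℤ) < k →
  k ≠ 2 * n → (∀ a z : ℂ, ‖a‖ = 1 → f (a * z) = a ^ k * f z) → ∀ p : ℝ, 2 ≤ p → ∀ ε : ℝ, 0 < ε →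
  ∃ g : 𝓢(ℂ, ℂ), (∀ a z : ℂ, ‖a‖ = 1 → g (a * z) = a ^ k * g z) ∧ Rep n B g ∧
    eLpNorm (f - g : 𝓢(ℂ, ℂ)) (ENNReal.ofReal p) (volume : Measure ℂ) ≤ ENNReal.ofReal ε

/-- (RP2) approximation, types `k ≤ n` -/
def S_RP2 : Prop := ∀ n : ℕ, 1 ≤ n → ∃ B : ℝ, 1 ≤ B ∧ ∀ (k : ℤ) (f : 𝓢(ℂ, ℂ)), k ≤ (n : ℤ) →
  (∀ a z : ℂ, ‖a‖ = 1 → f (a * z) = a ^ k * f z) → ∀ p : ℝ, 2 ≤ p → ∀ ε : ℝ, 0 < ε →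
  ∃ g : 𝓢(ℂ, ℂ), (∀ a z : ℂ, ‖a‖ = 1 → g (a * z) = a ^ k * g z) ∧ Rep n B g ∧
    eLpNorm (f - g : 𝓢(ℂ, ℂ)) (ENNReal.ofReal p) (volume : Measure ℂ) ≤ ENNReal.ofReal ε

/-- (RP0) approximation, type `2 n` -/
def S_RP0 : Prop := ∀ (n : ℕ) (f : 𝓢(ℂ, ℂ)),
  (∀ a z : ℂ, ‖a‖ = 1 → f (a * z) = a ^ (2 * n : ℤ) * f z) → ∀ p : ℝ, 2 ≤ p → ∀ ε : ℝ, 0 < ε →
  ∃ (h : ℝ → ℂ) (g : 𝓢(ℂ, ℂ)), ContDiff ℝ (⊤ : ℕ∞) h ∧ (∃ R : ℝ, ∀ x, R ≤ x → h x = 0) ∧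
    (∃ r R : ℝ, 0 < r ∧ (∀ t, t ≤ r → iteratedDeriv n h t = 0) ∧
      ∀ t, R ≤ t → iteratedDeriv n h t = 0) ∧
    (∀ z, ‖g z‖ = ‖((Complex.normSq z : ℝ) : ℂ) ^ n * iteratedDeriv n h (Complex.normSq z)‖) ∧
    (∀ z, Tn n g z = iteratedDeriv n (fun t : ℝ => (t : ℂ) ^ n * h t) (Complex.normSq z)) ∧
    (∀ a z : ℂ, ‖a‖ = 1 → g (a * z) = a ^ (2 * n : ℤ) * g z) ∧
    eLpNorm (f - g : 𝓢(ℂ, ℂ)) (ENNReal.ofReal p) (volume : Measure ℂ) ≤ ENNReal.ofReal ε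

/-! ### the angular variable -/

/-- (ANG) upper bound of the `L^p` norm of a sum of a radial function and functions of nonzero
angular types -/
def S_ANG : Prop := ∀ (ι : Type) [Fintype ι] (p : ℝ) (m : ι → ℤ) (u : ℂ → ℂ) (v : ι → ℂ → ℂ),
  4 ≤ p → (∀ i, m i ≠ 0) → Continuous u → (∀ i, Continuous (v i)) →
  (∀ a z : ℂ, ‖a‖ = 1 → u (a * z) = u z) →
  (∀ i, ∀ a z : ℂ, ‖a‖ = 1 → v i (a * z) = a ^ (m i) * v i z) →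
  MemLp u (ENNReal.ofReal p) (volume : Measure ℂ) →
  (∀ i, MemLp (v i) (ENNReal.ofReal p) (volume : Measure ℂ)) →
  ∫⁻ z : ℂ, ‖u z + ∑ i, v i z‖ₑ ^ p ≤ (∫⁻ z : ℂ, ‖u z‖ₑ ^ p) +
    ENNReal.ofReal (p ^ 2 / 2) * ∫⁻ z : ℂ, (∑ i, ‖v i z‖ₑ) ^ (2 : ℝ) *
      (‖u z‖ₑ + ∑ i, ‖v i z‖ₑ) ^ (p - 2)

/-- (POL) polar coordinates -/
def S_POL : Prop := ∀ φ : ℝ → ℝ≥0∞, Measurable φ →
  ∫⁻ z : ℂ, φ (Complex.normSq z) = ENNReal.ofReal Real.pi * ∫⁻ t in Ioi (0 : ℝ), φ t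

/-! ### the core inequality on the half line -/

/-- (CC) the cross term on the half line: `f = |t^n h^(n)|`, `u = |(t^n h)^(n)|`, `K = Cn p n`,
`I = K^p ∫ f^p - ∫ u^p`; `a i` the moduli of the other components, `v i` those of their images -/
def S_CC : Prop := ∀ (n : ℕ) (B : ℝ), 1 ≤ n → 1 ≤ B → ∃ D : ℝ, 1 ≤ D ∧
  ∀ ε : ℝ, 0 < ε → ε ≤ 1 → ∃ M p1 : ℝ, 1 ≤ M ∧ 16 ≤ p1 ∧ ∀ p : ℝ, p1 ≤ p →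
  ∀ (h : ℝ → ℂ), ContDiff ℝ (⊤ : ℕ∞) h → (∃ R : ℝ, ∀ x, R ≤ x → h x = 0) →
  ∃ I : ℝ, 0 ≤ I ∧
  (∫⁻ t in Ioi (0 : ℝ), ENNReal.ofReal
      (‖iteratedDeriv n (fun x : ℝ => (x : ℂ) ^ n * h x) t‖ ^ p)) + ENNReal.ofReal I =
    ENNReal.ofReal (Cn p n ^ p) *
      ∫⁻ t in Ioi (0 : ℝ), ENNReal.ofReal (‖(t : ℂ) ^ n * iteratedDeriv n h t‖ ^ p) ∧
  ∀ (ι : Type) [Fintype ι] (a β v : ι → ℝ → ℝ), (∀ i, Continuous (a i)) →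
  (∀ i t, 0 ≤ a i t) →
  (∀ i, ∃ r R : ℝ, 0 < r ∧ (∀ t, t ≤ r → a i t = 0) ∧ ∀ t, R ≤ t → a i t = 0) →
  (∀ i, Ker B (β i)) → (∀ i, Measurable (v i)) → (∀ i t, 0 ≤ v i t) →
  (∀ i t, 0 < t → v i t ≤ a i t + ∫ y in Ioi (0 : ℝ), β i y * a i (y * t)) →
  ∀ η : ℝ, 0 < η →
  ∫⁻ t in Ioi (0 : ℝ), ENNReal.ofReal
      (‖iteratedDeriv n (fun x : ℝ => (x : ℂ) ^ n * h x) t‖ ^ (p - 2) * ∑ i, v i t ^ 2) ≤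
    ENNReal.ofReal (M * Cn p n ^ (p - 2)) * (∫⁻ t in Ioi (0 : ℝ), ENNReal.ofReal
      (‖(t : ℂ) ^ n * iteratedDeriv n h t‖ ^ (p - 2) * ∑ i, a i t ^ 2)) +
    ENNReal.ofReal (ε * η * I) +
    ENNReal.ofReal (D * η ^ (-((p - 2) / 2))) *
      ((∫⁻ t in Ioi (0 : ℝ), ENNReal.ofReal ((∑ i, a i t ^ 2) ^ (p / 2))) +
        (∫⁻ t in Ioi (0 : ℝ), ENNReal.ofReal ((∑ i, v i t ^ 2) ^ (p / 2))))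

/-- (CORE) the inequality for `N` frequencies on the half line.  `f = K |t^n h^(n)|`,
`u = |(t^n h)^(n)|`; `a i` the moduli of the other components, `v i` those of their images. -/
def S_CORE : Prop := ∀ (n N : ℕ) (B B' : ℝ), 1 ≤ n → 1 ≤ B → 1 ≤ B' →
  ∃ p0 : ℝ, 16 ≤ p0 ∧ ∀ p : ℝ, p0 ≤ p →
  ∀ (ι : Type) [Fintype ι], Fintype.card ι ≤ N → ∀ (h : ℝ → ℂ), ContDiff ℝ (⊤ : ℕ∞) h →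
  (∃ R : ℝ, ∀ x, R ≤ x → h x = 0) → ∀ (a β v : ι → ℝ → ℝ), (∀ i, Continuous (a i)) →
  (∀ i t, 0 ≤ a i t) →
  (∀ i, ∃ r R : ℝ, 0 < r ∧ (∀ t, t ≤ r → a i t = 0) ∧ ∀ t, R ≤ t → a i t = 0) →
  (∀ i, Ker B (β i)) → (∀ i, Measurable (v i)) → (∀ i t, 0 ≤ v i t) →
  (∀ i t, 0 < t → v i t ≤ a i t + ∫ y in Ioi (0 : ℝ), β i y * a i (y * t)) →
  (∀ i, ∫⁻ t in Ioi (0 : ℝ), ENNReal.ofReal (v i t ^ p) ≤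
    ENNReal.ofReal (B' ^ p) * ∫⁻ t in Ioi (0 : ℝ), ENNReal.ofReal (a i t ^ p)) →
  (∫⁻ t in Ioi (0 : ℝ), ENNReal.ofReal
      (‖iteratedDeriv n (fun x : ℝ => (x : ℂ) ^ n * h x) t‖ ^ p)) +
    ENNReal.ofReal (p ^ 2 / 2) * (∫⁻ t in Ioi (0 : ℝ), ENNReal.ofReal ((∑ i, v i t) ^ 2 *
      (‖iteratedDeriv n (fun x : ℝ => (x : ℂ) ^ n * h x) t‖ + ∑ i, v i t) ^ (p - 2))) ≤
  ENNReal.ofReal (Cn p n ^ p) * ∫⁻ t in Ioi (0 : ℝ), ENNReal.ofReal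
    ((‖(t : ℂ) ^ n * iteratedDeriv n h t‖ ^ 2 + ∑ i, a i t ^ 2) ^ (p / 2))

/-- (FIN) -/
def S_FIN : Prop := ∀ n N : ℕ, 1 ≤ n → ∃ p0 : ℝ, 16 ≤ p0 ∧ ∀ p : ℝ, p0 ≤ p →
  ∀ (S : Finset ℤ) (f : ℤ → 𝓢(ℂ, ℂ)), S.card ≤ N →
  (∀ k ∈ S, ∀ a z : ℂ, ‖a‖ = 1 → f k (a * z) = a ^ k * f k z) →
  eLpNorm (Tn n fun z => ∑ k ∈ S, f k z) (ENNReal.ofReal p) (volume : Measure ℂ) ≤
    ENNReal.ofReal (Cn p n) *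
      eLpNorm (fun z => ∑ k ∈ S, f k z) (ENNReal.ofReal p) (volume : Measure ℂ)

end Pool.NH61.FS
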