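import Pool.Agent.NH61.FS.Def

/-!
# Project FS, part 2 (helper61): the mixed norm `L^p` (radial) of `L^2` (angular)

Definitions and statements.
-/

set_option autoImplicit false

open MeasureTheory Set Filter Topology
open scoped SchwartzMap ENNReal

namespace Pool.NH61.FS

open Pool.Agent.Y282.RB (Tn Cn kk th KK)
open Pool.Agent.R223.RD (Cc mix)

/-- the centred maximal function -/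
noncomputable def HLM (w : ℝ → ℝ≥0∞) (x : ℝ) : ℝ≥0∞ :=
  ⨆ r : {r : ℝ // 0 < r}, (ENNReal.ofReal (2 * r.1))⁻¹ * ∫⁻ t in Ioo (x - r.1) (x + r.1), w t

/-- (MAX) the maximal inequality -/
def S_MAX : Prop := ∃ C : ℝ, 1 ≤ C ∧ ∀ q : ℝ, 1 < q → q ≤ 2 → ∀ w : ℝ → ℝ≥0∞, Measurable w →
  ∫⁻ x : ℝ, HLM w x ^ q ≤ ENNReal.ofReal (C / (q - 1)) ^ q * ∫⁻ x : ℝ, w x ^ q

/-- the adjoint Hardy operator -/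
noncomputable def HA (w : ℝ → ℝ≥0∞) (s : ℝ) : ℝ≥0∞ := ∫⁻ t in Ioi s, w t * ENNReal.ofReal t⁻¹

/-- (HAR) Hardy's inequality -/
def S_HAR : Prop := ∀ q : ℝ, 1 < q → q ≤ 2 → ∀ w : ℝ → ℝ≥0∞, Measurable w →
  ∫⁻ s in Ioi (0 : ℝ), HA w s ^ q ≤ 2 ^ q * ∫⁻ s in Ioi (0 : ℝ), w s ^ q

/-- (DOM) domination of the kernels -/
def S_DOM : Prop := ∀ (B : ℝ) (β : ℝ → ℝ), 0 ≤ B → Ker B β → ∀ w : ℝ → ℝ≥0∞, Measurable w →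
  (∀ t, t ≤ 0 → w t = 0) → ∀ s : ℝ, 0 < s →
  ∫⁻ y in Ioi (0 : ℝ), ENNReal.ofReal (β y) * w (s / y) * ENNReal.ofReal y⁻¹ ≤
    ENNReal.ofReal (16 * B) * (HLM w s + HA w s)

/-- (VEC) the vector valued bound -/
def S_VEC : Prop := ∀ B : ℝ, 1 ≤ B → ∃ C : ℝ, 1 ≤ C ∧ ∀ p : ℝ, 4 ≤ p →
  ∀ (ι : Type) [Fintype ι] (β : ι → ℝ → ℝ) (a v : ι → ℝ → ℝ≥0∞), (∀ i, Ker B (β i)) →
  (∀ i, Measurable (a i)) → (∀ i, Measurable (v i)) →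
  (∀ i t, 0 < t → v i t ≤ a i t +
    ∫⁻ y in Ioi (0 : ℝ), ENNReal.ofReal (β i y) * a i (y * t)) →
  ∫⁻ t in Ioi (0 : ℝ), (∑ i, v i t ^ (2 : ℝ)) ^ (p / 2) ≠ ⊤ →
  ∫⁻ t in Ioi (0 : ℝ), (∑ i, v i t ^ (2 : ℝ)) ^ (p / 2) ≤
    ENNReal.ofReal (C * p) ^ (p / 2) * ∫⁻ t in Ioi (0 : ℝ), (∑ i, a i t ^ (2 : ℝ)) ^ (p / 2)

/-- (COREM) the square function inequality on the half line -/
def S_COREM : Prop := ∀ (n : ℕ) (B C3 : ℝ), 1 ≤ n → 1 ≤ B → 1 ≤ C3 →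
  ∃ p0 : ℝ, 16 ≤ p0 ∧ ∀ p : ℝ, p0 ≤ p →
  ∀ (ι : Type) [Fintype ι] (h : ℝ → ℂ), ContDiff ℝ (⊤ : ℕ∞) h →
  (∃ R : ℝ, ∀ x, R ≤ x → h x = 0) → ∀ (a β v : ι → ℝ → ℝ), (∀ i, Continuous (a i)) →
  (∀ i t, 0 ≤ a i t) →
  (∀ i, ∃ r R : ℝ, 0 < r ∧ (∀ t, t ≤ r → a i t = 0) ∧ ∀ t, R ≤ t → a i t = 0) →
  (∀ i, Ker B (β i)) → (∀ i, Measurable (v i)) → (∀ i t, 0 ≤ v i t) →
  (∀ i t, 0 < t → v i t ≤ a i t + ∫ y in Ioi (0 : ℝ), β i y * a i (y * t)) →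
  ∫⁻ t in Ioi (0 : ℝ), ENNReal.ofReal ((∑ i, v i t ^ 2) ^ (p / 2)) ≤
    ENNReal.ofReal ((C3 * p) ^ (p / 2)) *
      ∫⁻ t in Ioi (0 : ℝ), ENNReal.ofReal ((∑ i, a i t ^ 2) ^ (p / 2)) →
  ∫⁻ t in Ioi (0 : ℝ), ENNReal.ofReal
      ((‖iteratedDeriv n (fun x : ℝ => (x : ℂ) ^ n * h x) t‖ ^ 2 + ∑ i, v i t ^ 2) ^ (p / 2)) ≤
  ENNReal.ofReal (Cn p n ^ p) * ∫⁻ t in Ioi (0 : ℝ), ENNReal.ofReal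
    ((‖(t : ℂ) ^ n * iteratedDeriv n h t‖ ^ 2 + ∑ i, a i t ^ 2) ^ (p / 2))

/-- (FINM) the square function bound for all types -/
def S_FINM : Prop := ∀ n : ℕ, 1 ≤ n → ∃ p0 : ℝ, 16 ≤ p0 ∧ ∀ p : ℝ, p0 ≤ p →
  ∀ (ι : Type) [Fintype ι] (k : ι → ℤ) (f : ι → 𝓢(ℂ, ℂ)), Function.Injective k →
  (∀ i, ∀ a z : ℂ, ‖a‖ = 1 → f i (a * z) = a ^ k i * f i z) →
  eLpNorm (fun z : ℂ => √(∑ i, ‖Tn n (f i) z‖ ^ 2)) (ENNReal.ofReal p) (volume : Measure ℂ) ≤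
    ENNReal.ofReal (Cn p n) *
      eLpNorm (fun z : ℂ => √(∑ i, ‖f i z‖ ^ 2)) (ENNReal.ofReal p) (volume : Measure ℂ)

/-- (MIX) the mixed norm of `T^n` -/
def S_MIX : Prop := ∀ n : ℕ, 1 ≤ n → ∃ p0 : ℝ, 16 ≤ p0 ∧ ∀ p : ℝ, p0 ≤ p → ∀ f : 𝓢(ℂ, ℂ),
  mix p (Tn n f) ≤ ENNReal.ofReal (Cn p n) * mix p f

end Pool.NH61.FS
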