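import Pool.Agent.NH61.FS.Def2

/-!
# Project FS, part 3 (helper61): from the square function to the mixed norm

Statements.  `mix p g` is the norm of `L^p` (radial) of `L^2` (angular).
-/

set_option autoImplicit false

open MeasureTheory Set Filter Topology
open scoped SchwartzMap ENNReal

namespace Pool.NH61.FS

open Pool.Agent.Y282.RB (Tn Cn)
open Pool.Agent.R223.RD (mix)

/-- (MXH) the mixed norm is at most a constant times the `L^p` norm -/
def S_MXH : Prop := ∀ (p : ℝ) (g : ℂ → ℂ), 2 ≤ p → Continuous g →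
  mix p g ≤ ENNReal.ofReal ((2 * Real.pi) ^ (1 / 2 - 1 / p)) *
    eLpNorm g (ENNReal.ofReal p) (volume : Measure ℂ)

/-- (MXT) the triangle inequality of the mixed norm -/
def S_MXT : Prop := ∀ (p : ℝ) (g h : ℂ → ℂ), 2 ≤ p → Continuous g → Continuous h →
  mix p (fun z => g z + h z) ≤ mix p g + mix p h

/-- (APX) sums of functions of angular types are dense in `L^p` -/
def S_APX : Prop := ∀ (f : 𝓢(ℂ, ℂ)) (p : ℝ), 2 ≤ p → ∀ ε : ℝ, 0 < ε →
  ∃ (S : Finset ℤ) (g : ℤ → 𝓢(ℂ, ℂ)),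
    (∀ k, ∀ a z : ℂ, ‖a‖ = 1 → g k (a * z) = a ^ k * g k z) ∧
    eLpNorm (f - ∑ k ∈ S, g k : 𝓢(ℂ, ℂ)) (ENNReal.ofReal p) (volume : Measure ℂ) ≤
      ENNReal.ofReal ε

end Pool.NH61.FS
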