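import Pool.Agent.NH61.FS.Def
import Pool.Agent.R223.RX.Many
import Pool.Agent.R223.RD.TY

/-! # Project FS: from the half line to the plane, nice data -/

set_option autoImplicit false

open MeasureTheory Set Filter Topology
open scoped SchwartzMap ENNReal

namespace Pool.NH61.FS.FinA

open Pool.Agent.Y282.RB (Tn Cn)
open Pool.Agent.R223.RD.Asm2 (T_cont T_le T_sub Tn_sum lim_le' KK KK_ne)

/-- the conclusion of `S_CORE` for one `p` -/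
def CoreAt (n N : ℕ) (B B' p : ℝ) : Prop :=
  ∀ (ι : Type) [Fintype ι], Fintype.card ι ≤ N → ∀ (h : ℝ → ℂ), ContDiff ℝ (⊤ : ℕ∞) h →
  (∃ R : ℝ, ∀ x, R ≤ x → h x = 0) → ∀ (a β v : ι → ℝ → ℝ), (∀ i, Continuous (a i)) →
  (∀ i t, 0 ≤ a i t) →
  (∀ i, ∃ r R : ℝ, 0 < r ∧ (∀ t, t ≤ r → a i t = 0) ∧ ∀ t, R ≤ t → a i t = 0) →
  (∀ i, Ker B (β i)) → (∀ i, Measurable (v i)) → (∀ i t, 0 ≤ v i t) →
  (∀ i t, 0 < t → v i t ≤ a i t + ∫ y in Ioi (0 : ℝ), β i y * a i (y * t)) →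
  (∀ i, ∫⁻ t in Ioi (0 : ℝ), ENNReal.ofReal (v i t ^ p) ≤
    ENNReal.ofReal (B' ^ p) * ∫⁻ t in Ioi (0 : ℝ), ENNReal.ofReal (a i t ^ p)) →
  (∫⁻ t in Ioi (0 : ℝ), ENNReal.ofReal
      (‖iteratedDeriv n (fun x : ℝ => (x : ℂ) ^ n * h x) t‖ ^ p)) +
    ENNReal.ofReal (p ^ 2 / 2) * (∫⁻ t in Ioi (0 : ℝ), ENNReal.ofReal ((∑ i, v i t) ^ 2 *
      (‖iteratedDeriv n (fun x : ℝ => (x : ℂ) ^ n * h x) t‖ + ∑ i, v i t) ^ (p - 2))) ≤
  ENNReal.ofReal (Cn p n ^ p) * ∫⁻ t in Ioi (0 : ℝ), ENNReal.ofReal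
    ((‖(t : ℂ) ^ n * iteratedDeriv n h t‖ ^ 2 + ∑ i, a i t ^ 2) ^ (p / 2))

theorem core_at (h : S_CORE) (n N : ℕ) (B B' : ℝ) (hn : 1 ≤ n) (hB : 1 ≤ B) (hB' : 1 ≤ B') :
    ∃ p0 : ℝ, 16 ≤ p0 ∧ ∀ p : ℝ, p0 ≤ p → CoreAt n N B B' p := h n N B B' hn hB hB'

lemma normSq_sqrt (t : ℝ) (ht : 0 ≤ t) : Complex.normSq ((√t : ℝ) : ℂ) = t := by
  rw [Complex.normSq_ofReal, Real.mul_self_sqrt ht]

/-- modulus of a function of an angular type -/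
lemma radial_norm (k : ℤ) (v : ℂ → ℂ) (hv : ∀ a z : ℂ, ‖a‖ = 1 → v (a * z) = a ^ k * v z) (z : ℂ) :
    ‖v z‖ = ‖v ((√(Complex.normSq z) : ℝ) : ℂ)‖ := by
  have h1 : √(Complex.normSq z) = ‖z‖ := by
    rw [Complex.normSq_eq_norm_sq, Real.sqrt_sq (norm_nonneg z)]
  rw [h1]
  rcases eq_or_ne z 0 with h0 | h0
  · subst h0
    simp
  · have hz : ‖z‖ ≠ 0 := norm_ne_zero_iff.2 h0
    have hzc : ((‖z‖ : ℝ) : ℂ) ≠ 0 := by exact_mod_cast hz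
    have ha : ‖z / ((‖z‖ : ℝ) : ℂ)‖ = 1 := by
      rw [norm_div, Complex.norm_real, norm_norm, div_self hz]
    have h2 := hv (z / ((‖z‖ : ℝ) : ℂ)) ((‖z‖ : ℝ) : ℂ) ha
    rw [div_mul_cancel₀ z hzc] at h2
    rw [h2, norm_mul, norm_zpow, ha, one_zpow, one_mul]

/-- the plane inequality for nice data -/
theorem nice (hANG : S_ANG) (hPOL : S_POL) (n N : ℕ) (p B B' : ℝ) (hp : 16 ≤ p)
    (hC : CoreAt n N B B' p) (ι : Type) [Fintype ι] (hι : Fintype.card ι ≤ N)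
    (h : ℝ → ℂ) (g0 : 𝓢(ℂ, ℂ)) (hh : ContDiff ℝ (⊤ : ℕ∞) h) (hR : ∃ R : ℝ, ∀ x, R ≤ x → h x = 0)
    (hg0 : ∀ z, ‖g0 z‖ = ‖((Complex.normSq z : ℝ) : ℂ) ^ n * iteratedDeriv n h (Complex.normSq z)‖)
    (hT0 : ∀ z, Tn n g0 z = iteratedDeriv n (fun t : ℝ => (t : ℂ) ^ n * h t) (Complex.normSq z))
    (k : ι → ℤ) (g : ι → 𝓢(ℂ, ℂ)) (hk : ∀ i, k i ≠ 2 * n)
    (hg : ∀ i, ∀ a z : ℂ, ‖a‖ = 1 → g i (a * z) = a ^ k i * g i z)
    (hrep : ∀ i, Rep n B (g i))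
    (hb : ∀ i, ∫⁻ z : ℂ, ENNReal.ofReal (‖Tn n (g i) z‖ ^ p) ≤
      ENNReal.ofReal (B' ^ p) * ∫⁻ z : ℂ, ENNReal.ofReal (‖g i z‖ ^ p)) :
    ∫⁻ z : ℂ, ‖Tn n g0 z + ∑ i, Tn n (g i) z‖ₑ ^ p ≤ ENNReal.ofReal (Cn p n ^ p) *
      ∫⁻ z : ℂ, ENNReal.ofReal ((‖g0 z‖ ^ 2 + ∑ i, ‖g i z‖ ^ 2) ^ (p / 2)) := by
  have hp0 : 0 < p := by linarith
  have hTY : ∀ i, ∀ a z : ℂ, ‖a‖ = 1 →
      Tn n (g i) (a * z) = a ^ (k i - 2 * n) * Tn n (g i) z := fun i =>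
    Pool.Agent.R223.RD.TY.main n (k i) (g i) (hg i)
  choose a β ha1 ha2 ha3 ha4 hβ ha5 using hrep
  set U : ℝ → ℝ := fun t => ‖iteratedDeriv n (fun x : ℝ => (x : ℂ) ^ n * h x) t‖ with hU
  set F0 : ℝ → ℝ := fun t => ‖(t : ℂ) ^ n * iteratedDeriv n h t‖ with hF0
  set v : ι → ℝ → ℝ := fun i t => ‖Tn n (g i) ((√t : ℝ) : ℂ)‖ with hv
  have hcU : Continuous U := by
    have h1 : ContDiff ℝ (⊤ : ℕ∞) (fun x : ℝ => (x : ℂ) ^ n * h x) :=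
      (Complex.ofRealCLM.contDiff.pow n).mul hh
    exact (h1.continuous_iteratedDeriv n (by exact_mod_cast le_top)).norm
  have hcF : Continuous F0 := by
    have h2 := hh.continuous_iteratedDeriv n (by exact_mod_cast le_top)
    exact ((Complex.continuous_ofReal.pow n).mul h2).norm
  have hcv : ∀ i, Continuous (v i) := fun i =>
    ((T_cont n (g i)).comp (Complex.continuous_ofReal.comp Real.continuous_sqrt)).norm
  have hvz : ∀ i z, ‖Tn n (g i) z‖ = v i (Complex.normSq z) := fun i z =>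
    radial_norm (k i - 2 * n) (Tn n (g i)) (hTY i) z
  have huz : ∀ z, ‖Tn n g0 z‖ = U (Complex.normSq z) := fun z => by rw [hT0]
  have hv0 : ∀ i t, 0 ≤ v i t := fun i t => norm_nonneg _
  have hU0 : ∀ t, 0 ≤ U t := fun t => norm_nonneg _
  have hF00 : ∀ t, 0 ≤ F0 t := fun t => norm_nonneg _
  have hπ0 : ENNReal.ofReal Real.pi ≠ 0 := by
    simpa using Real.pi_pos
  have hπt : ENNReal.ofReal Real.pi ≠ ⊤ := ENNReal.ofReal_ne_top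
  -- the bound of `v i`
  have hb' : ∀ i, ∫⁻ t in Ioi (0 : ℝ), ENNReal.ofReal (v i t ^ p) ≤
      ENNReal.ofReal (B' ^ p) * ∫⁻ t in Ioi (0 : ℝ), ENNReal.ofReal (a i t ^ p) := by
    intro i
    have h1 := hPOL (fun t => ENNReal.ofReal (v i t ^ p))
      (ENNReal.measurable_ofReal.comp ((hcv i).rpow_const fun _ => Or.inr hp0.le).measurable)
    have h2 := hPOL (fun t => ENNReal.ofReal (a i t ^ p))
      (ENNReal.measurable_ofReal.comp ((ha1 i).rpow_const fun _ => Or.inr hp0.le).measurable)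
    have h3 := hb i
    simp only [hvz, ha4] at h3
    rw [h1, h2, mul_left_comm] at h3
    exact (ENNReal.mul_le_mul_iff_right hπ0 hπt).1 h3
  have hcore := hC ι hι h hh hR a β v ha1 ha2 ha3 hβ (fun i => (hcv i).measurable) hv0
    (fun i t ht => by
      have h1 := ha5 i ((√t : ℝ) : ℂ) (by
        rw [Ne, Complex.ofReal_eq_zero, Real.sqrt_eq_zero']
        exact not_le.2 ht)
      rw [normSq_sqrt t ht.le] at h1
      exact h1) hb'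
  -- angular variable
  have hmem : ∀ f : 𝓢(ℂ, ℂ), MemLp (Tn n f) (ENNReal.ofReal p) (volume : Measure ℂ) := by
    intro f
    refine ⟨(T_cont n f).aestronglyMeasurable, ?_⟩
    refine (T_le n p (by linarith) f).trans_lt ?_
    exact ENNReal.mul_lt_top (lt_top_iff_ne_top.2 (KK_ne n p)) (f.memLp _ _).2
  have hang := hANG ι p (fun i => k i - 2 * n) (Tn n g0) (fun i => Tn n (g i)) (by linarith)
    (fun i h0 => hk i (by linarith)) (T_cont n g0) (fun i => T_cont n (g i))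
    (fun a z ha => by
      rw [hT0, hT0, map_mul, Complex.normSq_eq_norm_sq a, ha]
      norm_num) hTY (hmem g0) (fun i => hmem (g i))
  refine hang.trans ?_
  have e1 : ∫⁻ z : ℂ, ‖Tn n g0 z‖ₑ ^ p =
      ENNReal.ofReal Real.pi * ∫⁻ t in Ioi (0 : ℝ), ENNReal.ofReal (U t ^ p) := by
    rw [← hPOL (fun t => ENNReal.ofReal (U t ^ p))
      (ENNReal.measurable_ofReal.comp (hcU.rpow_const fun _ => Or.inr hp0.le).measurable)]
    refine lintegral_congr fun z => ?_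
    rw [← ofReal_norm, huz, ENNReal.ofReal_rpow_of_nonneg (hU0 _) hp0.le]
  have e2 : ∫⁻ z : ℂ, (∑ i, ‖Tn n (g i) z‖ₑ) ^ (2 : ℝ) *
      (‖Tn n g0 z‖ₑ + ∑ i, ‖Tn n (g i) z‖ₑ) ^ (p - 2) =
      ENNReal.ofReal Real.pi * ∫⁻ t in Ioi (0 : ℝ), ENNReal.ofReal ((∑ i, v i t) ^ 2 *
        (U t + ∑ i, v i t) ^ (p - 2)) := by
    have hcs : Continuous fun t => ∑ i, v i t := continuous_finsetSum _ fun i _ => hcv i
    rw [← hPOL (fun t => ENNReal.ofReal ((∑ i, v i t) ^ 2 * (U t + ∑ i, v i t) ^ (p - 2)))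
      (ENNReal.measurable_ofReal.comp ((hcs.pow 2).mul
        ((hcU.add hcs).rpow_const fun _ => Or.inr (by linarith))).measurable)]
    refine lintegral_congr fun z => ?_
    have h1 : ∑ i, ‖Tn n (g i) z‖ₑ = ENNReal.ofReal (∑ i, v i (Complex.normSq z)) := by
      rw [ENNReal.ofReal_sum_of_nonneg fun i _ => hv0 i _]
      refine Finset.sum_congr rfl fun i _ => ?_
      rw [← ofReal_norm, hvz]
    have hs0 : 0 ≤ ∑ i, v i (Complex.normSq z) := Finset.sum_nonneg fun i _ => hv0 i _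
    rw [h1, ← ofReal_norm, huz, ← ENNReal.ofReal_add (hU0 _) hs0,
      ENNReal.ofReal_rpow_of_nonneg hs0 (by norm_num),
      ENNReal.ofReal_rpow_of_nonneg (add_nonneg (hU0 _) hs0) (by linarith),
      ← ENNReal.ofReal_mul (by positivity)]
    congr 2
    norm_num
  have e3 : ∫⁻ z : ℂ, ENNReal.ofReal ((‖g0 z‖ ^ 2 + ∑ i, ‖g i z‖ ^ 2) ^ (p / 2)) =
      ENNReal.ofReal Real.pi * ∫⁻ t in Ioi (0 : ℝ), ENNReal.ofReal
        ((F0 t ^ 2 + ∑ i, a i t ^ 2) ^ (p / 2)) := by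
    have hcs : Continuous fun t => ∑ i, a i t ^ 2 :=
      continuous_finsetSum _ fun i _ => (ha1 i).pow 2
    rw [← hPOL (fun t => ENNReal.ofReal ((F0 t ^ 2 + ∑ i, a i t ^ 2) ^ (p / 2)))
      (ENNReal.measurable_ofReal.comp
        (((hcF.pow 2).add hcs).rpow_const fun _ => Or.inr (by linarith)).measurable)]
    refine lintegral_congr fun z => ?_
    simp only [ha4, hg0, hF0]
  rw [e1, e2, e3]
  calc ENNReal.ofReal Real.pi * (∫⁻ t in Ioi (0 : ℝ), ENNReal.ofReal (U t ^ p)) +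
        ENNReal.ofReal (p ^ 2 / 2) * (ENNReal.ofReal Real.pi * ∫⁻ t in Ioi (0 : ℝ),
          ENNReal.ofReal ((∑ i, v i t) ^ 2 * (U t + ∑ i, v i t) ^ (p - 2)))
      = ENNReal.ofReal Real.pi * ((∫⁻ t in Ioi (0 : ℝ), ENNReal.ofReal (U t ^ p)) +
        ENNReal.ofReal (p ^ 2 / 2) * (∫⁻ t in Ioi (0 : ℝ),
          ENNReal.ofReal ((∑ i, v i t) ^ 2 * (U t + ∑ i, v i t) ^ (p - 2)))) := by ring
    _ ≤ ENNReal.ofReal Real.pi * (ENNReal.ofReal (Cn p n ^ p) * ∫⁻ t in Ioi (0 : ℝ),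
        ENNReal.ofReal ((F0 t ^ 2 + ∑ i, a i t ^ 2) ^ (p / 2))) := by gcongr
    _ = _ := by ring

end Pool.NH61.FS.FinA
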