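import Pool.Agent.NH61.FS.Def

/-! # Project FS: polar coordinates -/

set_option autoImplicit false

open MeasureTheory Set Filter Topology
open scoped SchwartzMap ENNReal

namespace Pool.NH61.FS.Pol

theorem main : S_POL := by
  intro φ hφ
  have h1 : ∀ q : ℝ × ℝ, ENNReal.ofReal q.1 • φ (Complex.normSq (Complex.polarCoord.symm q)) =
      ENNReal.ofReal q.1 * φ (q.1 ^ 2) := by
    intro q
    have : Complex.normSq (Complex.polarCoord.symm q) = q.1 ^ 2 := by
      rw [Complex.normSq_eq_norm_sq, Complex.norm_polarCoord_symm, sq_abs]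
    rw [this, smul_eq_mul]
  have hm : Measurable fun r : ℝ => ENNReal.ofReal r * φ (r ^ 2) :=
    ENNReal.measurable_ofReal.mul (hφ.comp (by fun_prop))
  have h2 : ∫⁻ z : ℂ, φ (Complex.normSq z) =
      ENNReal.ofReal (2 * Real.pi) * ∫⁻ r in Ioi (0 : ℝ), ENNReal.ofReal r * φ (r ^ 2) := by
    rw [← Complex.lintegral_comp_polarCoord_symm]
    simp only [h1]
    have hm2 : Measurable fun q : ℝ × ℝ => ENNReal.ofReal q.1 * φ (q.1 ^ 2) :=
      hm.comp measurable_fst
    rw [polarCoord_target, Measure.volume_eq_prod, ← Measure.prod_restrict,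
      lintegral_prod _ hm2.aemeasurable]
    simp only [lintegral_const, Measure.restrict_apply_univ, Real.volume_Ioo]
    rw [lintegral_mul_const _ hm, mul_comm]
    congr 2
    ring
  have h3 : ∫⁻ t in Ioi (0 : ℝ), φ t = 2 * ∫⁻ r in Ioi (0 : ℝ), ENNReal.ofReal r * φ (r ^ 2) := by
    have himg : (fun r : ℝ => r ^ 2) '' Ioi (0 : ℝ) = Ioi 0 := by
      ext t
      simp only [mem_image, mem_Ioi]
      constructor
      · rintro ⟨r, hr, rfl⟩
        positivity
      · intro ht
        exact ⟨√t, Real.sqrt_pos.2 ht, Real.sq_sqrt ht.le⟩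
    have h4 := lintegral_image_eq_lintegral_abs_deriv_mul (s := Ioi (0 : ℝ))
      (f := fun r : ℝ => r ^ 2) (f' := fun r : ℝ => 2 * r) measurableSet_Ioi
      (fun x _ => by simpa using (hasDerivAt_pow 2 x).hasDerivWithinAt)
      (fun x hx y hy hxy => by
        simp only [mem_Ioi] at hx hy
        exact (pow_left_inj₀ hx.le hy.le two_ne_zero).1 hxy) φ
    rw [himg] at h4
    rw [h4, ← lintegral_const_mul _ hm]
    apply setLIntegral_congr_fun measurableSet_Ioi
    intro x hx
    simp only [mem_Ioi] at hx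
    show ENNReal.ofReal |2 * x| * φ (x ^ 2) = 2 * (ENNReal.ofReal x * φ (x ^ 2))
    rw [abs_of_pos (by positivity), ENNReal.ofReal_mul (by norm_num), mul_assoc]
    norm_num
  rw [h2, h3, ← mul_assoc, ENNReal.ofReal_mul (by norm_num), mul_comm (ENNReal.ofReal 2)]
  norm_num

end Pool.NH61.FS.Pol
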